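import Pool.Agent.H907R2.Energy

/-!
The energy along the geodesic is affine up to boundary terms.
-/

open MeasureTheory Metric Set Complex Real Filter
open scoped Topology ContDiff NNReal

namespace Pool.Agent.H907R2

/-- Affine functions in the second variable. -/
noncomputable def Ff (l s : ℝ) (z : ℂ) : ℝ := psi l z + l * s

lemma Ff_BL (l s : ℝ) : BL (Ff l s) := (psi_BL l).add (BL.const (l * s))

lemma Ff_L6 (l s : ℝ) : L6 (Ff l s) := by
  intro z w
  have := psi_L6 l z w
  simpa [Ff] using this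

lemma Ff_Sub (l s : ℝ) : Sub kap (Ff l s) := (psi_Sub l).add_const (psi_continuous l) _

lemma Gam_Ff (l s : ℝ) (w : ℂ → ℝ) (z : ℂ) : Gam (Ff l s) w z = Gam (psi l) w z := by
  have : fderiv ℝ (Ff l s) z = fderiv ℝ (psi l) z := fderiv_add_const (l * s)
  simp only [Gam, this]

lemma Lam_Ff (l s : ℝ) (w : ℂ → ℝ) : Lam (Ff l s) w = Lam (psi l) w := by
  simp only [Lam, Gam_Ff]

/-- Cut-off near the contact set with `phi0`. -/
noncomputable def gn (l : ℝ) (n : ℕ) (z : ℂ) : ℝ := max (1 - (n + 1) * (phi0 z - psi l z)) 0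

lemma gn_BL (l : ℝ) (n : ℕ) : BL (gn l n) := by
  apply BL.max _ (BL.const 0)
  exact (BL.const 1).sub ((BL.const _).mul (phi0_BL.sub (psi_BL l)))

lemma gn_nonneg (l : ℝ) (n : ℕ) (z : ℂ) : 0 ≤ gn l n z := le_max_right _ _

lemma gn_le_one (l : ℝ) (n : ℕ) (z : ℂ) : gn l n z ≤ 1 := by
  apply max_le _ zero_le_one
  have := psi_le0 l z
  have h : 0 ≤ ((n : ℝ) + 1) * (phi0 z - psi l z) := mul_nonneg (by positivity) (by linarith)
  linarith

/-- Mass of the contact set with `phi0`. -/
noncomputable def mc (a : ℂ → ℝ) (l : ℝ) : ℝ := ⨅ n : ℕ, Lam (psi l) (fun z => a z * gn l n z)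

variable {a : ℂ → ℝ}

lemma Lam_gn_nonneg (ha : Cut a) (l : ℝ) (n : ℕ) : 0 ≤ Lam (psi l) (fun z => a z * gn l n z) :=
  Lam_nonneg (psi_BL l) (psi_Sub l) (ha.bl.mul (gn_BL l n)) ha.cs.mul_right
    (fun z => mul_nonneg (ha.nn z) (gn_nonneg l n z))

lemma Lam_gn_le (ha : Cut a) (l : ℝ) (n : ℕ) :
    Lam (psi l) (fun z => a z * gn l n z) ≤ 4 * kap * Am a + 6 * Nm a := by
  refine le_trans ?_ (Lam_cut_le ha (psi_BL l) (psi_L6 l))
  apply Lam_mono (psi_BL l) (psi_Sub l) (ha.bl.mul (gn_BL l n)) ha.bl ha.cs.mul_right ha.cs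
  intro z
  have := gn_le_one l n z
  have := ha.nn z
  nlinarith

lemma mc_bdd (ha : Cut a) (l : ℝ) :
    BddBelow (range fun n : ℕ => Lam (psi l) (fun z => a z * gn l n z)) := by
  refine ⟨0, ?_⟩
  rintro _ ⟨n, rfl⟩
  exact Lam_gn_nonneg ha l n

lemma mc_nonneg (ha : Cut a) (l : ℝ) : 0 ≤ mc a l := le_ciInf fun n => Lam_gn_nonneg ha l n

lemma mc_le (ha : Cut a) (l : ℝ) : mc a l ≤ 4 * kap * Am a + 6 * Nm a :=
  (ciInf_le (mc_bdd ha l) 0).trans (Lam_gn_le ha l 0)

section step

variable {l l' s : ℝ}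

/-- The increment. -/
noncomputable def wi (l l' s : ℝ) (z : ℂ) : ℝ := max (Ff l' s z - Ff l s z) 0

lemma wi_BL (l l' s : ℝ) : BL (wi l l' s) := ((Ff_BL l' s).sub (Ff_BL l s)).max (BL.const 0)

lemma wi_nonneg (z : ℂ) : 0 ≤ wi l l' s z := le_max_right _ _

lemma wi_le (h : l ≤ l') (hs : 0 ≤ s) (z : ℂ) : wi l l' s z ≤ (l' - l) * s := by
  apply max_le _ (mul_nonneg (by linarith) hs)
  have := psi_anti h z
  simp only [Ff]
  linarith

lemma wi_abs (h : l ≤ l') (hs : 0 ≤ s) (hs1 : s ≤ 1) (z : ℂ) : |wi l l' s z| ≤ l' - l := by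
  rw [abs_of_nonneg (wi_nonneg z)]
  refine (wi_le h hs z).trans ?_
  nlinarith

/-- lower bound for the mass of the increment -/
lemma Lam_wi_lower (ha : Cut a) (h : l ≤ l') (hs : 0 ≤ s) :
    (l' - l) * s * mc a l' ≤ Lam (psi l') (fun z => a z * wi l l' s z) := by
  have key : ∀ n : ℕ, ((l' - l) * s - 1 / ((n : ℝ) + 1)) * Lam (psi l') (fun z => a z * gn l' n z) ≤
      Lam (psi l') (fun z => a z * wi l l' s z) := by
    intro n
    rw [← Lam_smul (ha.bl.mul (gn_BL l' n))]
    apply Lam_mono (psi_BL l') (psi_Sub l') ((BL.const _).mul (ha.bl.mul (gn_BL l' n)))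
      (ha.bl.mul (wi_BL l l' s)) (HasCompactSupport.mul_left ha.cs.mul_right) ha.cs.mul_right
    intro z
    have hn : (0 : ℝ) < (n : ℝ) + 1 := by positivity
    have h1 : ((l' - l) * s - 1 / ((n : ℝ) + 1)) * gn l' n z ≤ wi l l' s z := by
      rcases le_or_gt (gn l' n z) 0 with hg | hg
      · have : gn l' n z = 0 := le_antisymm hg (gn_nonneg _ _ _)
        rw [this, mul_zero]; exact wi_nonneg z
      · have h2 : 0 < 1 - ((n : ℝ) + 1) * (phi0 z - psi l' z) := by
          rcases lt_max_iff.1 hg with h3 | h3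
          · exact h3
          · exact absurd h3 (lt_irrefl _)
        have h3 : phi0 z - psi l' z < 1 / ((n : ℝ) + 1) := by
          rw [lt_div_iff₀ hn]; linarith
        have h4 : (l' - l) * s - 1 / ((n : ℝ) + 1) ≤ wi l l' s z := by
          refine le_trans ?_ (le_max_left _ _)
          have := psi_le0 l z
          simp only [Ff]
          linarith
        rcases le_or_gt ((l' - l) * s - 1 / ((n : ℝ) + 1)) 0 with h5 | h5
        · exact (mul_nonpos_of_nonpos_of_nonneg h5 (gn_nonneg _ _ _)).trans (wi_nonneg z)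
        · have := gn_le_one l' n z
          nlinarith
    have h2 := mul_le_mul_of_nonneg_left h1 (ha.nn z)
    calc _ = a z * (((l' - l) * s - 1 / ((n : ℝ) + 1)) * gn l' n z) := by ring
      _ ≤ _ := h2
  set C := 4 * kap * Am a + 6 * Nm a with hC
  have key2 : ∀ n : ℕ, (l' - l) * s * mc a l' - 1 / ((n : ℝ) + 1) * C ≤
      Lam (psi l') (fun z => a z * wi l l' s z) := by
    intro n
    refine le_trans ?_ (key n)
    rw [sub_mul]
    have h1 : mc a l' ≤ Lam (psi l') (fun z => a z * gn l' n z) := ciInf_le (mc_bdd ha l') n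
    have h2 := Lam_gn_le ha l' n
    have h3 : 0 ≤ (l' - l) * s := mul_nonneg (by linarith) hs
    have h4 := mul_le_mul_of_nonneg_left h1 h3
    have h5 := mul_le_mul_of_nonneg_left h2 (by positivity : (0 : ℝ) ≤ 1 / ((n : ℝ) + 1))
    linarith
  have hlim : Tendsto (fun n : ℕ => (l' - l) * s * mc a l' - 1 / ((n : ℝ) + 1) * C) atTop
      (𝓝 ((l' - l) * s * mc a l' - 0 * C)) :=
    tendsto_const_nhds.sub (tendsto_one_div_add_atTop_nhds_zero_nat.mul_const C)
  rw [zero_mul, sub_zero] at hlim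
  exact le_of_tendsto' hlim key2

/-- upper bound for the mass of the increment -/
lemma Lam_wi_upper (ha : Cut a) (h : l ≤ l') (hs : 0 ≤ s) (hs1 : s ≤ 1) :
    Lam (psi l) (fun z => a z * wi l l' s z) ≤ (l' - l) * s * mc a l := by
  have key : ∀ n : ℕ, Lam (psi l) (fun z => a z * wi l l' s z) ≤
      (l' - l) * s * Lam (psi l) (fun z => a z * gn l n z) := by
    intro n
    rw [← Lam_smul (ha.bl.mul (gn_BL l n))]
    apply Lam_mono_contact (ha.bl.mul (wi_BL l l' s)) ((BL.const _).mul (ha.bl.mul (gn_BL l n)))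
      ha.cs.mul_right (HasCompactSupport.mul_left ha.cs.mul_right)
    intro z hz
    have h1 : wi l l' s z ≤ (l' - l) * s * gn l n z := by
      rcases min_choice (phi0 z) (phi1 z - l) with hm | hm
      · have h2 : psi l z = phi0 z := by rw [hz]; exact hm
        have h3 : gn l n z = 1 := by
          rw [gn, h2, sub_self, mul_zero, sub_zero]
          exact max_eq_left zero_le_one
        rw [h3, mul_one]
        exact wi_le h hs z
      · have h2 : psi l z = phi1 z - l := by rw [hz]; exact hm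
        have h3 := psi_le1 l' z
        have h4 : wi l l' s z = 0 := by
          apply max_eq_right
          simp only [Ff]
          nlinarith
        rw [h4]
        exact mul_nonneg (mul_nonneg (by linarith) hs) (gn_nonneg _ _ _)
    have h2 := mul_le_mul_of_nonneg_left h1 (ha.nn z)
    calc _ ≤ _ := h2
      _ = _ := by ring
  have h3 : 0 ≤ (l' - l) * s := mul_nonneg (by linarith) hs
  rcases eq_or_lt_of_le h3 with h4 | h4
  · have := key 0
    rw [← h4] at this ⊢
    simpa using this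
  · have : Lam (psi l) (fun z => a z * wi l l' s z) / ((l' - l) * s) ≤ mc a l := by
      apply le_ciInf
      intro n
      rw [div_le_iff₀ h4, mul_comm]
      exact key n
    rw [div_le_iff₀ h4, mul_comm] at this
    exact this

end step

/-- nodes -/
noncomputable def nd (M : ℕ) (j : ℕ) : ℝ := -9 + 18 / M * j

/-- running maxima -/
noncomputable def Gg (M : ℕ) (s : ℝ) : ℕ → ℂ → ℝ
  | 0 => Ff (nd M 0) s
  | (j + 1) => fun z => max (Gg M s j z) (Ff (nd M (j + 1)) s z)

section G

variable {M : ℕ} {s : ℝ}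

lemma nd_succ (j : ℕ) : nd M (j + 1) - nd M j = 18 / M := by
  simp only [nd]; push_cast; ring

lemma nd_le (j : ℕ) : nd M j ≤ nd M (j + 1) := by
  have := nd_succ (M := M) j
  have : (0 : ℝ) ≤ 18 / M := by positivity
  linarith

lemma Gg_BL (j : ℕ) : BL (Gg M s j) := by
  induction j with
  | zero => exact Ff_BL _ _
  | succ j ih => exact ih.max (Ff_BL _ _)

lemma Gg_L6 (j : ℕ) : L6 (Gg M s j) := by
  induction j with
  | zero => exact Ff_L6 _ _
  | succ j ih =>
    intro z w
    refine (abs_max_sub_max_le_max _ _ _ _).trans ?_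
    exact max_le (ih z w) (Ff_L6 _ _ z w)

lemma Sub_max {u v : ℂ → ℝ} (hu : Continuous u) (hv : Continuous v) (h1 : Sub kap u)
    (h2 : Sub kap v) : Sub kap (fun z => max (u z) (v z)) := by
  intro z r hr
  apply max_le
  · refine (h1 z r hr).trans ?_
    have := circleAverage_mono (c := z) (R := r) (f₁ := u) (f₂ := fun z => max (u z) (v z))
      (cont_circleIntegrable hu _ _) (cont_circleIntegrable (by fun_prop) _ _)
      (fun x _ => le_max_left _ _)
    linarith
  · refine (h2 z r hr).trans ?_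
    have := circleAverage_mono (c := z) (R := r) (f₁ := v) (f₂ := fun z => max (u z) (v z))
      (cont_circleIntegrable hv _ _) (cont_circleIntegrable (by fun_prop) _ _)
      (fun x _ => le_max_right _ _)
    linarith

lemma Gg_Sub (j : ℕ) : Sub kap (Gg M s j) := by
  induction j with
  | zero => exact Ff_Sub _ _
  | succ j ih => exact Sub_max (Gg_BL j).continuous (Ff_BL _ _).continuous ih (Ff_Sub _ _)

lemma Ff_le_Gg (j : ℕ) (z : ℂ) : Ff (nd M j) s z ≤ Gg M s j z := by
  cases j with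
  | zero => exact le_rfl
  | succ j => exact le_max_right _ _

lemma Gg_mono_j (j : ℕ) (z : ℂ) : Gg M s j z ≤ Gg M s (j + 1) z := le_max_left _ _

lemma Gg_mono {i j : ℕ} (h : i ≤ j) (z : ℂ) : Gg M s i z ≤ Gg M s j z := by
  induction h with
  | refl => exact le_rfl
  | step _ ih => exact ih.trans (Gg_mono_j _ z)

lemma Ff_concave (hM : 0 < M) (j : ℕ) (z : ℂ) :
    Ff (nd M j) s z + Ff (nd M (j + 2)) s z ≤ 2 * Ff (nd M (j + 1)) s z := by
  have h1 := psi_concave (nd_le (M := M) j) (nd_le (M := M) (j + 1)) z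
  have e1 := nd_succ (M := M) j
  have e2 := nd_succ (M := M) (j + 1)
  have hd : (0 : ℝ) < 18 / M := by positivity
  have e3 : nd M (j + 2) - nd M j = 2 * (18 / M) := by
    have : nd M (j + 2) = nd M (j + 1 + 1) := rfl
    linarith
  have e4 : nd M (j + 1 + 1) = nd M (j + 2) := rfl
  rw [e4, e3, e1] at h1
  rw [e4] at e2
  rw [e2] at h1
  have h2 : psi (nd M j) z + psi (nd M (j + 2)) z ≤ 2 * psi (nd M (j + 1)) z := by
    nlinarith
  have e5 : (nd M j + nd M (j + 2)) * s = 2 * nd M (j + 1) * s := by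
    congr 1
    linarith
  simp only [Ff]
  linarith

lemma Gg_eq (hM : 0 < M) (j : ℕ) (z : ℂ) (h : Ff (nd M j) s z < Ff (nd M (j + 1)) s z) :
    Gg M s j z = Ff (nd M j) s z := by
  induction j with
  | zero => rfl
  | succ j ih =>
    have hc := Ff_concave (s := s) hM j z
    have h1 : Ff (nd M j) s z < Ff (nd M (j + 1)) s z := by
      have : nd M (j + 1 + 1) = nd M (j + 2) := rfl
      rw [this] at h
      linarith
    have h2 := ih h1
    simp only [Gg]
    rw [h2]
    exact max_eq_right h1.le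

lemma Gg_succ (hM : 0 < M) (j : ℕ) :
    Gg M s (j + 1) = fun z => Gg M s j z + wi (nd M j) (nd M (j + 1)) s z := by
  ext z
  by_cases h : Ff (nd M j) s z < Ff (nd M (j + 1)) s z
  · have h1 := Gg_eq hM j z h
    simp only [Gg, wi]
    rw [h1, max_eq_right h.le, max_eq_left (by linarith)]
    ring
  · push Not at h
    have h1 := Ff_le_Gg (M := M) (s := s) j z
    simp only [Gg, wi]
    rw [max_eq_left (h.trans h1), max_eq_right (by linarith), add_zero]

lemma Gg_local1 (hM : 0 < M) (j : ℕ) (z : ℂ) (h : 0 < wi (nd M j) (nd M (j + 1)) s z) :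
    Gg M s j z = Ff (nd M j) s z := by
  apply Gg_eq hM
  rcases lt_max_iff.1 h with h1 | h1
  · linarith
  · exact absurd h1 (lt_irrefl _)

lemma Gg_local2 (hM : 0 < M) (j : ℕ) (z : ℂ) (h : 0 < wi (nd M j) (nd M (j + 1)) s z) :
    Gg M s j z + wi (nd M j) (nd M (j + 1)) s z = Ff (nd M (j + 1)) s z := by
  rw [Gg_local1 hM j z h]
  rcases lt_max_iff.1 h with h1 | h1
  · simp only [wi]
    rw [max_eq_left h1.le]; ring
  · exact absurd h1 (lt_irrefl _)

lemma step_lower (ha : Cut a) (hM : 0 < M) (hs : 0 ≤ s) (hs1 : s ≤ 1) (j : ℕ) :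
    18 / M * s * mc a (nd M (j + 1)) - 6 * (18 / M) * Nm a ≤
      En a (Gg M s (j + 1)) - En a (Gg M s j) := by
  have hw := wi_BL (nd M j) (nd M (j + 1)) s
  have h1 := energy_lower ha (Gg_BL (M := M) (s := s) j) hw
  rw [← Gg_succ hM j] at h1
  have h2 : ∀ z, Gam (Gg M s (j + 1)) (wi (nd M j) (nd M (j + 1)) s) z =
      Gam (Ff (nd M (j + 1)) s) (wi (nd M j) (nd M (j + 1)) s) z := by
    apply Gam_local _ hw.continuous (fun z => wi_nonneg z)
    intro z hz
    rw [Gg_succ hM j]
    exact Gg_local2 hM j z hz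
  simp_rw [h2] at h1
  have h3 := Lam_mul ha (Ff_BL (nd M (j + 1)) s) hw
  rw [Lam_Ff] at h3
  have h4 := Lam_wi_lower ha (nd_le (M := M) j) hs
  have h5 := err_bound ha (Ff_L6 (nd M (j + 1)) s) (wi_abs (nd_le (M := M) j) hs hs1)
  rw [nd_succ] at h4 h5
  have h6 := (abs_le.1 h5).1
  linarith

lemma step_upper (ha : Cut a) (hM : 0 < M) (hs : 0 ≤ s) (hs1 : s ≤ 1) (j : ℕ) :
    En a (Gg M s (j + 1)) - En a (Gg M s j) ≤
      18 / M * s * mc a (nd M j) + 6 * (18 / M) * Nm a := by
  have hw := wi_BL (nd M j) (nd M (j + 1)) s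
  have h1 := energy_upper ha (Gg_BL (M := M) (s := s) j) hw
  rw [← Gg_succ hM j] at h1
  have h2 : ∀ z, Gam (Gg M s j) (wi (nd M j) (nd M (j + 1)) s) z =
      Gam (Ff (nd M j) s) (wi (nd M j) (nd M (j + 1)) s) z := by
    apply Gam_local _ hw.continuous (fun z => wi_nonneg z)
    intro z hz
    exact Gg_local1 hM j z hz
  simp_rw [h2] at h1
  have h3 := Lam_mul ha (Ff_BL (nd M j) s) hw
  rw [Lam_Ff] at h3
  have h4 := Lam_wi_upper ha (nd_le (M := M) j) hs hs1
  have h5 := err_bound ha (Ff_L6 (nd M j) s) (wi_abs (nd_le (M := M) j) hs hs1)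
  rw [nd_succ] at h4 h5
  have h6 := (abs_le.1 h5).2
  linarith

lemma sum_bounds (ha : Cut a) (hM : 0 < M) (hs : 0 ≤ s) (hs1 : s ≤ 1) (k : ℕ) :
    18 / M * s * (∑ j ∈ Finset.range k, mc a (nd M (j + 1))) - k * (6 * (18 / M) * Nm a) ≤
      En a (Gg M s k) - En a (Gg M s 0) ∧
    En a (Gg M s k) - En a (Gg M s 0) ≤
      18 / M * s * (∑ j ∈ Finset.range k, mc a (nd M j)) + k * (6 * (18 / M) * Nm a) := by
  induction k with
  | zero => simp
  | succ k ih =>
    rw [Finset.sum_range_succ, Finset.sum_range_succ]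
    have h1 := step_lower ha hM hs hs1 k
    have h2 := step_upper ha hM hs hs1 k
    push_cast
    constructor
    · have := ih.1
      linarith
    · have := ih.2
      linarith

lemma En_G0 (ha : Cut a) : En a (Gg M s 0) = En a phi0 - 36 * kap * s * Am a := by
  have e : Gg M s 0 = fun z => phi0 z + (-9 * s) := by
    ext z
    simp only [Gg, Ff, nd]
    have : (-9 : ℝ) + 18 / (M : ℝ) * ((0 : ℕ) : ℝ) = -9 := by simp
    rw [this, psi_neg9]
  have hfd : ∀ z, Gam (fun z => phi0 z + (-9 * s)) (fun z => phi0 z + (-9 * s)) z =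
      Gam phi0 phi0 z := by
    intro z
    have : fderiv ℝ (fun z => phi0 z + (-9 * s)) z = fderiv ℝ phi0 z := fderiv_add_const (-9 * s)
    simp only [Gam, this]
  rw [e, En, En]
  simp_rw [hfd]
  have i1 := integrable_En' ha.bl.continuous ha.cs phi0_BL.continuous phi0_BL phi0_BL
  have i2 : Integrable (fun z => a z * (36 * kap * s)) :=
    (integrable_cc ha.bl.continuous ha.cs).mul_const _
  have e2 : (36 * kap * s * Am a) = ∫ z, a z * (36 * kap * s) := by
    rw [integral_mul_const, Am]; ring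
  rw [e2, ← i_sub i1 i2]
  congr 1
  ext z; ring

lemma U_BL (hs : 0 ≤ s) (hs1 : s ≤ 1) : BL (fun z => U z s) := by
  apply BL.of_bounds (C := 6) (M := 24)
  · intro z w
    rw [abs_le]
    have h1 := U_lip z w s s
    have h2 := U_lip w z s s
    rw [sub_self, abs_zero, mul_zero, add_zero] at h1 h2
    rw [norm_sub_rev] at h2
    constructor <;> linarith
  · intro z
    rw [abs_le]
    constructor
    · have h1 := le_U (l := 0) (by norm_num) z s
      have h2 := psi_ge 0 z
      rw [abs_zero] at h2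
      linarith
    · apply U_le
      intro l hl
      have h1 := (psi_le0 l z).trans (phi0_le z)
      have : l * s ≤ 9 := by
        have := hl.2
        have := hl.1
        nlinarith
      linarith

lemma U_L6 : L6 (fun z => U z s) := by
  intro z w
  rw [abs_le]
  have h1 := U_lip z w s s
  have h2 := U_lip w z s s
  rw [sub_self, abs_zero, mul_zero, add_zero] at h1 h2
  rw [norm_sub_rev] at h2
  constructor <;> linarith

lemma U_Sub : Sub kap (fun z => U z s) := by
  intro z r hr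
  have h := U_psh z (r : ℂ) s (fun _ => s) continuous_const (by
    rw [intervalIntegral.integral_const, smul_eq_mul, ← mul_assoc]
    have := Real.pi_pos
    field_simp
    ring)
  have e : ‖(r : ℂ)‖ = r := by simp [abs_of_pos hr]
  have h2 := circleAverage_dir (fun z => U z s) z (r : ℂ)
  rw [e] at h2 h
  rw [h2]
  exact h

lemma G_close (hM : 0 < M) (hs : 0 ≤ s) (hs1 : s ≤ 1) (z : ℂ) :
    |U z s - Gg M s M z| ≤ 18 / M := by
  have hMr : (0 : ℝ) < M := by exact_mod_cast hM
  have hd : (0 : ℝ) < 18 / M := by positivity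
  have hnd : ∀ j ≤ M, nd M j ∈ Icc (-9 : ℝ) 9 := by
    intro j hj
    have hjr : (j : ℝ) ≤ M := by exact_mod_cast hj
    have h0 : (0 : ℝ) ≤ j := by positivity
    simp only [nd]
    constructor
    · have : 0 ≤ 18 / (M : ℝ) * j := by positivity
      linarith
    · have : 18 / (M : ℝ) * j ≤ 18 / (M : ℝ) * M := by gcongr
      have e : 18 / (M : ℝ) * M = 18 := by field_simp
      linarith
  have h1 : ∀ j ≤ M, Gg M s j z ≤ U z s := by
    intro j hj
    induction j with
    | zero => exact le_U (hnd 0 hj) z s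
    | succ j ih => exact max_le (ih (by omega)) (le_U (hnd _ hj) z s)
  rw [abs_of_nonneg (by have := h1 M le_rfl; linarith)]
  have h2 : U z s ≤ Gg M s M z + 18 / M := by
    apply U_le
    intro l hl
    set j := ⌊(l + 9) / (18 / M)⌋₊ with hj
    have hq : 0 ≤ (l + 9) / (18 / (M : ℝ)) := div_nonneg (by linarith [hl.1]) hd.le
    have hj1 : (j : ℝ) ≤ (l + 9) / (18 / M) := Nat.floor_le hq
    have hj2 : (l + 9) / (18 / M) < j + 1 := Nat.lt_floor_add_one _
    rw [le_div_iff₀ hd] at hj1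
    rw [div_lt_iff₀ hd] at hj2
    have hjM : j ≤ M := by
      have h3 : (j : ℝ) * (18 / M) ≤ 18 := by linarith [hl.2]
      have h4 : (j : ℝ) ≤ M := by
        have e : (j : ℝ) * (18 / M) = 18 * (j / M) := by ring
        rw [e] at h3
        have h5 : (j : ℝ) / M ≤ 1 := by linarith
        rwa [div_le_one hMr] at h5
      exact_mod_cast h4
    have hle : nd M j ≤ l := by simp only [nd]; linarith
    have hge : l - nd M j ≤ 18 / M := by simp only [nd]; linarith
    have h5 := psi_anti hle z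
    have h6 := Ff_le_Gg (M := M) (s := s) j z
    have h7 := Gg_mono (M := M) (s := s) hjM z
    have h8 : (l - nd M j) * s ≤ 18 / M := by nlinarith
    simp only [Ff] at h6
    nlinarith
  linarith

end G

/-- **The energy along the geodesic is affine**, up to boundary terms. -/
theorem energy_affine (ha : Cut a) {M : ℕ} (hM : 0 < M) :
    ∃ B : ℝ, ∀ s, 0 ≤ s → s ≤ 1 →
      |En a (fun z => U z s) - En a phi0 - s * B| ≤
        108 * Nm a + 18 / M * (8 * kap * Am a + 18 * Nm a) := by
  refine ⟨-(36 * kap * Am a) + 18 / M * ∑ j ∈ Finset.range M, mc a (nd M (j + 1)), ?_⟩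
  intro s hs hs1
  have hMr : (0 : ℝ) < M := by exact_mod_cast hM
  have hd : (0 : ℝ) < 18 / M := by positivity
  have hb := sum_bounds ha hM hs hs1 M
  have h0 := En_G0 (M := M) (s := s) ha
  have hc := energy_close ha (U_BL hs hs1) (Gg_BL (M := M) (s := s) M) U_L6 (Gg_L6 M) U_Sub
    (Gg_Sub M) (G_close hM hs hs1)
  have htel : (∑ j ∈ Finset.range M, mc a (nd M j)) ≤
      (∑ j ∈ Finset.range M, mc a (nd M (j + 1))) + (4 * kap * Am a + 6 * Nm a) := by
    have h1 := Finset.sum_range_sub (fun j => mc a (nd M j)) M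
    rw [Finset.sum_sub_distrib] at h1
    have h2 := mc_le ha (nd M 0)
    have h3 := mc_nonneg ha (nd M M)
    linarith
  have e1 : (M : ℝ) * (6 * (18 / M) * Nm a) = 108 * Nm a := by field_simp; ring
  rw [e1] at hb
  have hN := Nm_nonneg a
  have hA := Am_nonneg ha
  have hk := kap_pos
  have h4 : 18 / (M : ℝ) * s * (∑ j ∈ Finset.range M, mc a (nd M j)) ≤
      18 / M * s * (∑ j ∈ Finset.range M, mc a (nd M (j + 1))) +
        18 / M * (4 * kap * Am a + 6 * Nm a) := by
    have h5 : 0 ≤ 18 / (M : ℝ) * s := by positivity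
    have h6 := mul_le_mul_of_nonneg_left htel h5
    have h7 : 18 / (M : ℝ) * s * (4 * kap * Am a + 6 * Nm a) ≤
        18 / M * (4 * kap * Am a + 6 * Nm a) := by
      have h8 : 0 ≤ 18 / (M : ℝ) * (4 * kap * Am a + 6 * Nm a) := by positivity
      nlinarith
    linarith
  obtain ⟨hb1, hb2⟩ := hb
  obtain ⟨hc1, hc2⟩ := abs_le.1 hc
  rw [abs_le]
  constructor
  · have h9 : 0 ≤ 18 / (M : ℝ) * (4 * kap * Am a + 6 * Nm a) := by positivity
    nlinarith
  · nlinarith

end Pool.Agent.H907R2
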