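import Pool.Agent.H907R2.Tile

/-!
The geodesic has zero Monge-Ampère measure, is semipositive, and its middle slice is degenerate.
-/

open MeasureTheory Metric Set Complex Real Filter
open scoped Topology ContDiff NNReal

namespace Pool.Agent.H907R2

variable {a b : ℝ} {σ : ℂ → ℝ} {O : Set ℂ}

/-- bump with prescribed outer radius -/
noncomputable def bp (δ : ℝ) (hδ : 0 < δ) : ContDiffBump (0 : ℂ × ℝ) :=
  ⟨δ / 2, δ, by positivity, by linarith⟩

/-- The geodesic. -/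
noncomputable def geo (a b : ℝ) (x : ℂ × ℂ) : ℝ := U x.1 (sig a b x.2)

lemma geo_contOn (ha : 0 < a) : ContinuousOn (geo a b) (univ ×ˢ {τ | τ ≠ 0}) := by
  have h1 : ContinuousOn (fun x : ℂ × ℂ => ((x.1, sig a b x.2) : ℂ × ℝ)) (univ ×ˢ {τ | τ ≠ 0}) := by
    apply ContinuousOn.prodMk continuousOn_fst
    have h2 : ContinuousOn (sig a b) {τ : ℂ | τ ≠ 0} := (sig_smooth ha).continuousOn
    exact h2.comp continuousOn_snd (fun x hx => hx.2)
  have e : geo a b = (fun p : ℂ × ℝ => U p.1 p.2) ∘ (fun x : ℂ × ℂ => ((x.1, sig a b x.2) : ℂ × ℝ)) :=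
    rfl
  rw [e]
  exact U_cont.comp_continuousOn h1

/-- the open annulus -/
def Ann (a b : ℝ) : Set ℂ := {τ | a < ‖τ‖ ∧ ‖τ‖ < b}

lemma Ann_ne (ha : 0 < a) : Ann a b ⊆ {τ | τ ≠ 0} := by
  intro τ hτ h0
  have := hτ.1
  rw [h0, norm_zero] at this
  linarith

lemma wf_geo (h : LogExt a b σ O) (φ : ContDiffBump (0 : ℂ × ℝ)) {x : ℂ × ℂ}
    (hx : x.2 ∈ Ann a b) : |wf φ σ x - geo a b x| ≤ 15 * φ.rOut := by
  have h1 := wf_close φ (σ := σ) x
  rw [h.eq x.2 (h.ann _ hx.1.le hx.2.le)] at h1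
  exact h1

theorem BT_all (h : LogExt a b σ O) (ha : 0 < a) (hab : a < b) {V : Set (ℂ × ℂ)} (hV : IsOpen V)
    (hVA : V ⊆ univ ×ˢ Ann a b) {v : ℕ → ℂ × ℂ → ℝ} (hv1 : ∀ j, ContDiffOn ℝ ∞ (v j) V)
    (hv2 : ∀ j, ∀ x ∈ V, SP kap (v j) x) (hanti : ∀ x ∈ V, Antitone (fun j => v j x))
    (hlim : ∀ x ∈ V, Tendsto (fun j => v j x) atTop (𝓝 (geo a b x)))
    {χ : ℂ × ℂ → ℝ} (hχ : Sm χ) (hχc : HasCompactSupport χ) (hχV : tsupport χ ⊆ V) :
    Tendsto (fun j => ∫ x, χ x * MA kap (v j) x) atTop (𝓝 0) := by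
  obtain ⟨ρ, hρ, hρc, hρV, ⟨O', hO', hO1, hO2⟩, hρ01⟩ := exists_cutoff hχc.isCompact hV hχV
  obtain ⟨C, hC, hcomp⟩ := compare (κ := kap) kap_pos.le hχ hχc hρ hρc (fun x => (hρ01 x).1)
    (fun x hx => (hO2 x (hO1 hx)).ge)
  have hL : IsCompact (tsupport ρ) := hρc.isCompact
  have hgeoV : ContinuousOn (geo a b) V := (geo_contOn ha).mono
    (hVA.trans (prod_mono_right (Ann_ne ha)))
  have hunif : TendstoUniformlyOn v (geo a b) atTop (tsupport ρ) :=
    Antitone.tendstoUniformlyOn_of_forall_tendsto hL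
      (fun j => (hv1 j).continuousOn.mono hρV) (fun x hx => hanti x (hρV hx))
      (hgeoV.mono hρV) (fun x hx => hlim x (hρV hx))
  obtain ⟨M0, hM0⟩ := hL.exists_bound_of_continuousOn (hgeoV.mono hρV)
  obtain ⟨M, hM, hM'⟩ : ∃ M : ℝ, 0 ≤ M ∧ ∀ x ∈ tsupport ρ, |geo a b x| + 15 ≤ M :=
    ⟨max M0 0 + 15, by positivity, fun x hx => by
      have := (hM0 x hx).trans (le_max_left M0 0)
      rw [Real.norm_eq_abs] at this
      linarith⟩
  rw [Metric.tendsto_atTop]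
  intro ε hε
  obtain ⟨δ, hδ, hsmall⟩ := MA_small h ha hab hχ.continuous hχc
    (fun x hx => (hVA (hχV hx)).2) (ε := ε / 2) (by positivity)
  obtain ⟨e1, he1, he1'⟩ : ∃ e1 : ℝ, e1 = ε / (2 * (16 * C * (1 + M)) + 2) ∧ 0 < e1 :=
    ⟨_, rfl, by positivity⟩
  obtain ⟨d, hd0, hdδ, hde, hd1⟩ : ∃ d : ℝ, 0 < d ∧ d ≤ δ ∧ d ≤ e1 ∧ d ≤ 1 :=
    ⟨min δ (min e1 1), by positivity, min_le_left _ _,
      (min_le_right _ _).trans (min_le_left _ _), (min_le_right _ _).trans (min_le_right _ _)⟩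
  obtain ⟨φ, hφ⟩ : ∃ φ : ContDiffBump (0 : ℂ × ℝ), φ.rOut = d := ⟨bp d hd0, rfl⟩
  have hs := hsmall φ (by rw [hφ]; exact hdδ)
  have hev : ∀ᶠ j in atTop, ∀ x ∈ tsupport ρ, dist (geo a b x) (v j x) < min e1 1 :=
    Metric.tendstoUniformlyOn_iff.1 hunif (min e1 1) (by positivity)
  obtain ⟨J, hJ⟩ := Filter.eventually_atTop.1 hev
  refine ⟨J, fun j hj => ?_⟩
  have hvj := hJ j hj
  obtain ⟨g, hg, Oj, hOj, hLOj, hOjV, hgv⟩ := globalize hL hV hρV (hv1 j)
  have hw := wf_sm φ h.sm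
  have hsub : tsupport χ ⊆ tsupport ρ := by
    intro x hx
    apply subset_tsupport
    rw [Function.mem_support, hO2 x (hO1 hx)]
    norm_num
  have hgeo : ∀ x ∈ tsupport ρ, |wf φ σ x - geo a b x| ≤ 15 * d := by
    intro x hx
    rw [← hφ]
    exact wf_geo h φ (hVA (hρV hx)).2
  have key := hcomp g (wf φ σ) M (16 * e1) hg hw hM (by positivity)
    (fun x hx => SP_congr hOj hgv x (hLOj hx) (hv2 j x (hρV hx)))
    (fun x hx => wf_SP φ h ha (h.ann _ (hVA (hρV hx)).2.1.le (hVA (hρV hx)).2.2.le))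
    (fun x hx => by
      rw [hgv x (hLOj hx)]
      have h1 := (hvj x hx).le.trans (min_le_right e1 1)
      rw [Real.dist_eq] at h1
      have h2 := hM' x hx
      have h3 := abs_sub_abs_le_abs_sub (v j x) (geo a b x)
      rw [abs_sub_comm] at h3
      linarith)
    (fun x hx => by
      have h1 := hgeo x hx
      have h2 := hM' x hx
      have h3 := abs_sub_abs_le_abs_sub (wf φ σ x) (geo a b x)
      linarith)
    (fun x hx => by
      rw [hgv x (hLOj (hsub hx))]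
      have h1 := (hvj x (hsub hx)).le.trans (min_le_left e1 1)
      rw [Real.dist_eq, abs_sub_comm] at h1
      have h2 := hgeo x (hsub hx)
      have h3 := abs_sub_le (v j x) (geo a b x) (wf φ σ x)
      rw [abs_sub_comm (geo a b x)] at h3
      linarith)
  have e : ∫ x, χ x * MA kap (v j) x = ∫ x, χ x * MA kap g x := by
    congr 1; ext x
    by_cases hx : x ∈ tsupport χ
    · rw [MA_congr hOj hgv x (hLOj (hsub hx))]
    · rw [image_eq_zero_of_notMem_tsupport hx]; ring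
  have i1 : Integrable (fun x => χ x * MA kap g x) :=
    int_sm (hχ.continuous.mul (MA_cont hg)) hχc.mul_right
  have i2 : Integrable (fun x => χ x * MA kap (wf φ σ) x) :=
    int_sm (hχ.continuous.mul (MA_cont hw)) hχc.mul_right
  have e2 : ∫ x, χ x * MA kap g x = (∫ x, χ x * (MA kap g x - MA kap (wf φ σ) x)) +
      ∫ x, χ x * MA kap (wf φ σ) x := by
    have e3 : ∫ x, χ x * (MA kap g x - MA kap (wf φ σ) x) =
        ∫ x, (χ x * MA kap g x - χ x * MA kap (wf φ σ) x) := by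
      congr 1; ext x; ring
    rw [e3, i_sub i1 i2]; ring
  rw [Real.dist_eq, sub_zero, e, e2]
  refine lt_of_le_of_lt (abs_add_le _ _) ?_
  have h5 : C * (16 * e1) * (1 + M) < ε / 2 := by
    have e4 : C * (16 * e1) * (1 + M) = (16 * C * (1 + M)) * ε / (2 * (16 * C * (1 + M)) + 2) := by
      rw [he1]; ring
    have h6 : 0 ≤ 16 * C * (1 + M) := by positivity
    rw [e4, div_lt_iff₀ (by positivity)]
    nlinarith
  linarith

/-! ### A decreasing approximating sequence -/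

/-- The approximating sequence. -/
noncomputable def vseq (σ : ℂ → ℝ) (j : ℕ) (x : ℂ × ℂ) : ℝ :=
  wf (bp ((1 / 4 : ℝ) ^ j) (by positivity)) σ x + 45 * (1 / 4 : ℝ) ^ j

lemma vseq_sm (h : LogExt a b σ O) (j : ℕ) : Sm (vseq σ j) :=
  (wf_sm _ h.sm).add contDiff_const

lemma D_add_const' {f : ℂ × ℂ → ℝ} (c : ℝ) (p : ℂ × ℂ) : D p (fun x => f x + c) = D p f := by
  ext x
  simp only [D]
  rw [show fderiv ℝ (fun x => f x + c) x = fderiv ℝ f x from fderiv_add_const c]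

lemma vseq_SP (h : LogExt a b σ O) (ha : 0 < a) (j : ℕ) {x : ℂ × ℂ} (hx : x.2 ∈ Ann a b) :
    SP kap (vseq σ j) x := by
  have h1 := wf_SP (bp ((1 / 4 : ℝ) ^ j) (by positivity)) h ha
    (h.ann _ hx.1.le hx.2.le)
  intro ξ
  have h2 := h1 ξ
  unfold vseq
  rw [D_add_const', D_add_const']
  exact h2

lemma vseq_bounds (h : LogExt a b σ O) (j : ℕ) {x : ℂ × ℂ} (hx : x.2 ∈ Ann a b) :
    geo a b x + 30 * (1 / 4 : ℝ) ^ j ≤ vseq σ j x ∧
      vseq σ j x ≤ geo a b x + 60 * (1 / 4 : ℝ) ^ j := by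
  have h1 := abs_le.1 (wf_geo h (bp ((1 / 4 : ℝ) ^ j) (by positivity)) hx)
  have e : (bp ((1 / 4 : ℝ) ^ j) (by positivity)).rOut = (1 / 4 : ℝ) ^ j := rfl
  rw [e] at h1
  unfold vseq
  constructor <;> linarith [h1.1, h1.2]

lemma vseq_anti (h : LogExt a b σ O) {x : ℂ × ℂ} (hx : x.2 ∈ Ann a b) :
    Antitone (fun j => vseq σ j x) := by
  apply antitone_nat_of_succ_le
  intro j
  have h1 := (vseq_bounds h (j + 1) hx).2
  have h2 := (vseq_bounds h j hx).1
  have e : (1 / 4 : ℝ) ^ (j + 1) = (1 / 4 : ℝ) ^ j / 4 := by rw [pow_succ]; ring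
  rw [e] at h1
  have : (0 : ℝ) < (1 / 4 : ℝ) ^ j := by positivity
  linarith

lemma vseq_lim (h : LogExt a b σ O) {x : ℂ × ℂ} (hx : x.2 ∈ Ann a b) :
    Tendsto (fun j => vseq σ j x) atTop (𝓝 (geo a b x)) := by
  have h0 : Tendsto (fun j : ℕ => (1 / 4 : ℝ) ^ j) atTop (𝓝 0) :=
    tendsto_pow_atTop_nhds_zero_of_lt_one (by norm_num) (by norm_num)
  have h1 : Tendsto (fun j : ℕ => geo a b x + 30 * (1 / 4 : ℝ) ^ j) atTop (𝓝 (geo a b x)) := by
    have := (h0.const_mul 30).const_add (geo a b x)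
    simpa using this
  have h2 : Tendsto (fun j : ℕ => geo a b x + 60 * (1 / 4 : ℝ) ^ j) atTop (𝓝 (geo a b x)) := by
    have := (h0.const_mul 60).const_add (geo a b x)
    simpa using this
  exact tendsto_of_tendsto_of_tendsto_of_le_of_le h1 h2 (fun j => (vseq_bounds h j hx).1)
    (fun j => (vseq_bounds h j hx).2)

/-! ### Positivity as a current -/

theorem geo_pos (h : LogExt a b σ O) (ha : 0 < a) (ξ : ℂ × ℂ) {χ : ℂ × ℂ → ℝ} (hχ : Sm χ)
    (hχc : HasCompactSupport χ) (hχA : tsupport χ ⊆ univ ×ˢ Ann a b) (hχ0 : ∀ x, 0 ≤ χ x) :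
    0 ≤ ∫ x, (4 * kap * ‖ξ.1‖ ^ 2 * χ x + geo a b x *
      (D ξ (D ξ χ) x + D (Complex.I • ξ) (D (Complex.I • ξ) χ) x)) := by
  obtain ⟨H, hH⟩ : ∃ H : ℂ × ℂ → ℝ,
    H = fun x => D ξ (D ξ χ) x + D (Complex.I • ξ) (D (Complex.I • ξ) χ) x := ⟨_, rfl⟩
  have hHc : Continuous H := by
    rw [hH]; exact (DD_cont hχ _ _).add (DD_cont hχ _ _)
  have hHcs : HasCompactSupport H := by
    rw [hH]; exact (cs_D (cs_D hχc _) _).add (cs_D (cs_D hχc _) _)
  have hH0 : ∀ x, x ∉ tsupport χ → H x = 0 := by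
    intro x hx
    rw [hH]; simp only [DD_zero_off hx, add_zero]
  have eint : ∫ x, (4 * kap * ‖ξ.1‖ ^ 2 * χ x + geo a b x *
      (D ξ (D ξ χ) x + D (Complex.I • ξ) (D (Complex.I • ξ) χ) x)) =
      ∫ x, (4 * kap * ‖ξ.1‖ ^ 2 * χ x + U x.1 (σ x.2) * H x) := by
    congr 1; ext x
    by_cases hx : x ∈ tsupport χ
    · have h1 : σ x.2 = sig a b x.2 := h.eq _ (h.ann _ (hχA hx).2.1.le (hχA hx).2.2.le)
      rw [geo, h1, hH]
    · have h2 := hH0 x hx
      have h3 : D ξ (D ξ χ) x + D (Complex.I • ξ) (D (Complex.I • ξ) χ) x = 0 := by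
        rw [hH] at h2; exact h2
      rw [h2, h3]; ring
  rw [eint]
  have hUc : Continuous (fun x : ℂ × ℂ => U x.1 (σ x.2)) := by
    have h1 : Continuous (fun x : ℂ × ℂ => ((x.1, σ x.2) : ℂ × ℝ)) :=
      continuous_fst.prodMk (h.sm.continuous.comp continuous_snd)
    exact U_cont.comp h1
  have i0 : Integrable (fun x => 4 * kap * ‖ξ.1‖ ^ 2 * χ x) :=
    (int_sm hχ.continuous hχc).const_mul _
  have i1 : Integrable (fun x : ℂ × ℂ => U x.1 (σ x.2) * H x) :=
    int_sm (hUc.mul hHc) hHcs.mul_left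
  have iH : Integrable (fun x => |H x|) := int_sm hHc.abs (hHcs.comp_left abs_zero)
  -- approximate
  apply le_of_forall_pos_le_add
  intro ε hε
  obtain ⟨δ, hδ, hδ'⟩ : ∃ δ : ℝ, 0 < δ ∧ 15 * δ * (∫ x, |H x|) ≤ ε := by
    have hn : 0 ≤ ∫ x, |H x| := integral_nonneg fun x => abs_nonneg _
    refine ⟨ε / (15 * (∫ x, |H x|) + 1), by positivity, ?_⟩
    have e : 15 * (ε / (15 * (∫ x, |H x|) + 1)) * (∫ x, |H x|) =
        (15 * (∫ x, |H x|)) * ε / (15 * (∫ x, |H x|) + 1) := by ring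
    rw [e, div_le_iff₀ (by positivity)]
    nlinarith
  have hw := wf_sm (bp δ hδ) h.sm
  have i2 : Integrable (fun x : ℂ × ℂ => wf (bp δ hδ) σ x * H x) :=
    int_sm (hw.continuous.mul hHc) hHcs.mul_left
  have hpos : 0 ≤ ∫ x, (4 * kap * ‖ξ.1‖ ^ 2 * χ x + wf (bp δ hδ) σ x * H x) := by
    have e1 : ∫ x, wf (bp δ hδ) σ x * H x = ∫ x, χ x * (D ξ (D ξ (wf (bp δ hδ) σ)) x +
        D (Complex.I • ξ) (D (Complex.I • ξ) (wf (bp δ hδ) σ)) x) := by
      have k1 := ibp2 hχ hw hχc ξ ξ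
      have k2 := ibp2 hχ hw hχc (Complex.I • ξ) (Complex.I • ξ)
      have j1 : ∀ p, Integrable (fun x => χ x * D p (D p (wf (bp δ hδ) σ)) x) := fun p =>
        int_sm (hχ.continuous.mul (DD_cont hw _ _)) hχc.mul_right
      have j2 : ∀ p, Integrable (fun x => D p (D p χ) x * wf (bp δ hδ) σ x) := fun p =>
        int_sm ((DD_cont hχ _ _).mul hw.continuous) (cs_D (cs_D hχc _) _).mul_right
      calc ∫ x, wf (bp δ hδ) σ x * H x = ∫ x, (D ξ (D ξ χ) x * wf (bp δ hδ) σ x +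
            D (Complex.I • ξ) (D (Complex.I • ξ) χ) x * wf (bp δ hδ) σ x) := by
            congr 1; ext x; rw [hH]; ring
        _ = ∫ x, (χ x * D ξ (D ξ (wf (bp δ hδ) σ)) x +
            χ x * D (Complex.I • ξ) (D (Complex.I • ξ) (wf (bp δ hδ) σ)) x) := by
            rw [i_add (j2 _) (j2 _), i_add (j1 _) (j1 _), k1, k2]
        _ = _ := by congr 1; ext x; ring
    have i3 : Integrable (fun x => χ x * (D ξ (D ξ (wf (bp δ hδ) σ)) x +
        D (Complex.I • ξ) (D (Complex.I • ξ) (wf (bp δ hδ) σ)) x)) :=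
      int_sm (hχ.continuous.mul ((DD_cont hw _ _).add (DD_cont hw _ _))) hχc.mul_right
    rw [i_add i0 i2, e1, ← i_add i0 i3]
    apply integral_nonneg
    intro x
    simp only [Pi.zero_apply]
    by_cases hx : x ∈ tsupport χ
    · have h1 := wf_SP (bp δ hδ) h ha (h.ann _ (hχA hx).2.1.le (hχA hx).2.2.le) ξ
      have h2 := mul_nonneg (hχ0 x) h1
      linarith
    · rw [image_eq_zero_of_notMem_tsupport hx]; simp
  have hdiff : |∫ x, (wf (bp δ hδ) σ x * H x - U x.1 (σ x.2) * H x)| ≤ 15 * δ * ∫ x, |H x| := by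
    rw [← Real.norm_eq_abs, ← integral_const_mul]
    apply norm_integral_le_of_norm_le (iH.const_mul _)
    refine Eventually.of_forall fun x => ?_
    rw [← sub_mul, norm_mul, Real.norm_eq_abs, Real.norm_eq_abs]
    exact mul_le_mul_of_nonneg_right (wf_close (bp δ hδ) x) (abs_nonneg _)
  rw [i_sub i2 i1] at hdiff
  rw [i_add i0 i2] at hpos
  rw [i_add i0 i1]
  have := (abs_le.1 hdiff).2
  linarith

/-! ### The middle slice -/

lemma int_normSq_La {χ : ℂ → ℝ} (hχ : ContDiff ℝ ∞ χ) (hχc : HasCompactSupport χ) :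
    ∫ z, La χ z * ‖z‖ ^ 2 = 4 * ∫ z, χ z := by
  have hN : ContDiff ℝ ∞ (fun z : ℂ => z.re * z.re + z.im * z.im) := by
    have h1 : ContDiff ℝ ∞ (fun z : ℂ => z.re) := Complex.reCLM.contDiff
    have h2 : ContDiff ℝ ∞ (fun z : ℂ => z.im) := Complex.imCLM.contDiff
    exact (h1.mul h1).add (h2.mul h2)
  have e1 : ∀ v : ℂ, d1 v (fun z : ℂ => z.re * z.re + z.im * z.im) =
      fun z => 2 * (z.re * v.re + z.im * v.im) := by
    intro v; ext z
    have h1 : HasFDerivAt (fun z : ℂ => z.re) Complex.reCLM z := Complex.reCLM.hasFDerivAt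
    have h2 : HasFDerivAt (fun z : ℂ => z.im) Complex.imCLM z := Complex.imCLM.hasFDerivAt
    have h3 : fderiv ℝ (fun z : ℂ => z.re * z.re + z.im * z.im) z = _ :=
      ((h1.mul h1).add (h2.mul h2)).fderiv
    rw [d1, h3]
    simp only [_root_.add_apply, _root_.smul_apply, smul_eq_mul, Complex.reCLM_apply,
      Complex.imCLM_apply]
    ring
  have e2 : ∀ v w : ℂ, ∀ z, d1 w (fun z : ℂ => 2 * (z.re * v.re + z.im * v.im)) z =
      2 * (w.re * v.re + w.im * v.im) := by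
    intro v w z
    have h1 : HasFDerivAt (fun z : ℂ => z.re) Complex.reCLM z := Complex.reCLM.hasFDerivAt
    have h2 : HasFDerivAt (fun z : ℂ => z.im) Complex.imCLM z := Complex.imCLM.hasFDerivAt
    have h3 : fderiv ℝ (fun z : ℂ => 2 * (z.re * v.re + z.im * v.im)) z = _ :=
      (((h1.mul_const v.re).add (h2.mul_const v.im)).const_mul 2).fderiv
    rw [d1, h3]
    simp only [_root_.add_apply, _root_.smul_apply, smul_eq_mul, Complex.reCLM_apply,
      Complex.imCLM_apply]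
    ring
  have e3 : ∀ z, La (fun z : ℂ => z.re * z.re + z.im * z.im) z = 4 := by
    intro z
    simp only [La, e1, e2]
    simp; norm_num
  have h := ibp1_La hχ hχc hN
  simp only [e3] at h
  rw [integral_mul_const] at h
  have e4 : ∀ z : ℂ, ‖z‖ ^ 2 = z.re * z.re + z.im * z.im := fun z => by
    rw [← Complex.normSq_eq_norm_sq, Complex.normSq_apply]
  simp only [e4]
  rw [← h]; ring

/-- The middle slice is not strictly positive. -/
theorem slice_not_strict {ε : ℝ} (hε : 0 < ε) :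
    ∃ χ : ℂ → ℝ, ContDiff ℝ ∞ χ ∧ HasCompactSupport χ ∧ (∀ z, 0 ≤ χ z) ∧
      ∫ z, (4 * kap * χ z + U z (1 / 2) * La χ z) < ε * ∫ z, 4 * kap * χ z := by
  obtain ⟨α, hα, hαc, hαV, ⟨V, hV, hV1, hV2⟩, hα01⟩ :=
    exists_cutoff (isCompact_closedBall (0 : ℂ) 1) (isOpen_ball : IsOpen (ball (0 : ℂ) 2))
      (closedBall_subset_ball (by norm_num))
  have hAm : 0 < ∫ z, α z := by
    rw [integral_pos_iff_support_of_nonneg (fun z => (hα01 z).1) (int_sm1 hα.continuous hαc)]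
    have h1 : IsOpen (Function.support α) := hα.continuous.isOpen_support
    apply h1.measure_pos volume
    refine ⟨0, ?_⟩
    rw [Function.mem_support, hV2 0 (hV1 (mem_closedBall_self zero_le_one))]
    norm_num
  obtain ⟨K, hK⟩ : ∃ K : ℝ, K = 9001 * (24 * 2000 ^ 3) := ⟨_, rfl⟩
  have hKpos : 0 < K := by rw [hK]; norm_num
  obtain ⟨I, hI⟩ : ∃ I, I = ∫ z, |La α z| := ⟨_, rfl⟩
  have hI0 : 0 ≤ I := hI ▸ integral_nonneg fun z => abs_nonneg _
  obtain ⟨A, hA⟩ : ∃ A, A = ∫ z, α z := ⟨_, rfl⟩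
  rw [← hA] at hAm
  have hkp := kap_pos
  obtain ⟨t, ht0, ht1, ht2⟩ : ∃ t : ℝ, 0 < t ∧ t ≤ 1 / 8000 ∧
      K * (2 * t) ^ 3 * I < ε * (4 * kap * (t ^ 2 * A)) := by
    obtain ⟨s, hs⟩ : ∃ s, s = ε * (4 * kap * A) / (8 * K * I + 1) := ⟨_, rfl⟩
    have hs0 : 0 < s := by rw [hs]; positivity
    refine ⟨min (1 / 8000) s, by positivity, min_le_left _ _, ?_⟩
    obtain ⟨t, ht⟩ : ∃ t, t = min (1 / 8000) s := ⟨_, rfl⟩
    rw [← ht]
    have ht0 : 0 < t := by rw [ht]; positivity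
    have hts : t ≤ s := by rw [ht]; exact min_le_right _ _
    have h1 : 8 * K * I * t < ε * (4 * kap * A) := by
      have h2 : 8 * K * I * t ≤ 8 * K * I * s := by gcongr
      have h3 : 8 * K * I * s < ε * (4 * kap * A) := by
        rw [hs, mul_div_assoc', div_lt_iff₀ (by positivity)]
        have : 0 < ε * (4 * kap * A) := by positivity
        nlinarith
      linarith
    have h4 := mul_lt_mul_of_pos_right h1 (by positivity : 0 < t ^ 2)
    nlinarith
  have hsm := sc_sm hα t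
  have hcs := sc_cs hαc ht0
  refine ⟨sc t α, hsm, hcs, fun z => (hα01 _).1, ?_⟩
  have i1 : Integrable (fun z => 4 * kap * sc t α z) := (int_sm1 hsm.continuous hcs).const_mul _
  have cU : Continuous (fun z => U z (1 / 2)) :=
    U_cont.comp (continuous_id.prodMk continuous_const)
  have i2 : Integrable (fun z => U z (1 / 2) * La (sc t α) z) :=
    int_sm1 (cU.mul (La_cont hsm)) (cs_La hcs).mul_left
  have i3 : Integrable (fun z => La (sc t α) z * ‖z‖ ^ 2) :=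
    int_sm1 ((La_cont hsm).mul (by fun_prop)) (cs_La hcs).mul_right
  have i4 : Integrable (La (sc t α)) := int_sm1 (La_cont hsm) (cs_La hcs)
  have iA : ∫ z, sc t α z = t ^ 2 * A := by rw [hA]; exact int_sc α ht0.le
  have e1 : ∫ z, (4 * kap * sc t α z + U z (1 / 2) * La (sc t α) z) =
      ∫ z, (U z (1 / 2) + kap * ‖z‖ ^ 2 - U 0 (1 / 2)) * La (sc t α) z := by
    have k1 := int_normSq_La hsm hcs
    have k2 := int_La hsm hcs
    have i5 : Integrable (fun z => kap * (La (sc t α) z * ‖z‖ ^ 2)) := i3.const_mul _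
    have i6 : Integrable (fun z => U 0 (1 / 2) * La (sc t α) z) := i4.const_mul _
    have i7 : Integrable (fun z => U z (1 / 2) * La (sc t α) z +
      kap * (La (sc t α) z * ‖z‖ ^ 2)) := i2.add i5
    have e2 : ∫ z, (U z (1 / 2) + kap * ‖z‖ ^ 2 - U 0 (1 / 2)) * La (sc t α) z =
        ∫ z, (U z (1 / 2) * La (sc t α) z + kap * (La (sc t α) z * ‖z‖ ^ 2) -
          U 0 (1 / 2) * La (sc t α) z) := by
      congr 1; ext z; ring
    rw [e2, i_sub i7 i6, i_add i2 i5, integral_const_mul, integral_const_mul, k1, k2, i_add i1 i2,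
      integral_const_mul]
    ring
  rw [e1, integral_const_mul, iA]
  refine lt_of_le_of_lt (le_abs_self _) (lt_of_le_of_lt ?_ ht2)
  rw [hI, ← int_abs_La_sc hα ht0, ← integral_const_mul, ← Real.norm_eq_abs]
  apply norm_integral_le_of_norm_le
    ((int_sm1 (La_cont hsm).abs ((cs_La hcs).comp_left abs_zero)).const_mul _)
  refine Eventually.of_forall fun z => ?_
  rw [norm_mul, Real.norm_eq_abs, Real.norm_eq_abs]
  by_cases hz : z ∈ tsupport (sc t α)
  · have hz2 : ‖z‖ ≤ 2 * t := by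
      have hsub : tsupport (sc t α) ⊆ closedBall 0 (2 * t) := by
        apply closure_minimal _ isClosed_closedBall
        intro y hy
        rw [Function.mem_support, sc] at hy
        have h1 := hαV (subset_tsupport _ hy)
        rw [mem_ball_zero_iff, norm_smul, norm_inv, Real.norm_of_nonneg ht0.le,
          inv_mul_lt_iff₀ ht0] at h1
        rw [mem_closedBall_zero_iff]
        linarith
      have := hsub hz
      rwa [mem_closedBall_zero_iff] at this
    have hz3 : ‖z‖ ≤ 1 / 4000 := by linarith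
    have h1 := U_degenerate hz3
    rw [← hK] at h1
    have h2 : K * ‖z‖ ^ 3 ≤ K * (2 * t) ^ 3 := by gcongr
    exact mul_le_mul_of_nonneg_right (h1.trans h2) (abs_nonneg _)
  · rw [La_zero_off hz]; simp

end Pool.Agent.H907R2
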