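import Pool.Agent.H907R2.MAop

/-!
Cut-offs, comparison of Monge-Ampère masses and the first order formula.
-/

open MeasureTheory Metric Set Complex Real Filter
open scoped Topology ContDiff NNReal Manifold

namespace Pool.Agent.H907R2

lemma exists_cutoff {E : Type*} [NormedAddCommGroup E] [NormedSpace ℝ E] [FiniteDimensional ℝ E]
    {K V : Set E} (hK : IsCompact K) (hV : IsOpen V) (hKV : K ⊆ V) :
    ∃ ρ : E → ℝ, ContDiff ℝ ∞ ρ ∧ HasCompactSupport ρ ∧ tsupport ρ ⊆ V ∧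
      (∃ O, IsOpen O ∧ K ⊆ O ∧ ∀ x ∈ O, ρ x = 1) ∧ ∀ x, 0 ≤ ρ x ∧ ρ x ≤ 1 := by
  obtain ⟨L, hL, hKL, hLV⟩ := exists_compact_between hK hV hKV
  obtain ⟨f, h1, h2, h3⟩ := exists_contMDiffMap_one_nhds_of_subset_interior (n := ⊤)
    (𝓘(ℝ, E)) hK.isClosed hKL
  have hsup : tsupport f ⊆ L := by
    apply closure_minimal _ hL.isClosed
    intro x hx
    by_contra hxL
    exact hx (h2 x hxL)
  refine ⟨f, f.contMDiff.contDiff, hL.of_isClosed_subset (isClosed_tsupport _) hsup,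
    hsup.trans hLV, ?_, fun x => h3 x⟩
  obtain ⟨O, hO, hKO, hO1⟩ := mem_nhdsSet_iff_exists.1 h1
  exact ⟨O, hO, hKO, hO1⟩

lemma globalize {E : Type*} [NormedAddCommGroup E] [NormedSpace ℝ E] [FiniteDimensional ℝ E]
    {K V : Set E} (hK : IsCompact K) (hV : IsOpen V) (hKV : K ⊆ V) {f : E → ℝ}
    (hf : ContDiffOn ℝ ∞ f V) :
    ∃ g : E → ℝ, ContDiff ℝ ∞ g ∧ ∃ O, IsOpen O ∧ K ⊆ O ∧ O ⊆ V ∧ ∀ x ∈ O, g x = f x := by
  obtain ⟨ρ, hρ, hρc, hρV, ⟨O, hO, hKO, hO1⟩, -⟩ := exists_cutoff hK hV hKV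
  refine ⟨fun x => ρ x * f x, ?_, O ∩ V, hO.inter hV, subset_inter hKO hKV, inter_subset_right,
    fun x hx => by
      change ρ x * f x = f x
      rw [hO1 x hx.1, one_mul]⟩
  rw [contDiff_iff_contDiffAt]
  intro x
  by_cases hx : x ∈ tsupport ρ
  · exact hρ.contDiffAt.mul (hf.contDiffAt (hV.mem_nhds (hρV hx)))
  · have : (fun x => ρ x * f x) =ᶠ[𝓝 x] fun _ => 0 := by
      filter_upwards [(isClosed_tsupport ρ).isOpen_compl.mem_nhds hx] with y hy
      rw [image_eq_zero_of_notMem_tsupport hy, zero_mul]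
    exact contDiffAt_const.congr_of_eventuallyEq this

/-! ### Locality -/

lemma D_congr {f g : ℂ × ℂ → ℝ} {O : Set (ℂ × ℂ)} (hO : IsOpen O) (h : ∀ x ∈ O, f x = g x)
    (p : ℂ × ℂ) : ∀ x ∈ O, D p f x = D p g x := by
  intro x hx
  have : f =ᶠ[𝓝 x] g := by
    filter_upwards [hO.mem_nhds hx] with y hy using h y hy
  simp only [D, this.fderiv_eq]

lemma DD_congr {f g : ℂ × ℂ → ℝ} {O : Set (ℂ × ℂ)} (hO : IsOpen O) (h : ∀ x ∈ O, f x = g x)
    (p q : ℂ × ℂ) : ∀ x ∈ O, D p (D q f) x = D p (D q g) x :=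
  D_congr hO (D_congr hO h q) p

lemma MA_congr {κ : ℝ} {f g : ℂ × ℂ → ℝ} {O : Set (ℂ × ℂ)} (hO : IsOpen O)
    (h : ∀ x ∈ O, f x = g x) : ∀ x ∈ O, MA κ f x = MA κ g x := by
  intro x hx
  simp only [MA, Lz, Lt, P1, P2, DD_congr hO h _ _ x hx]

lemma SP_congr {κ : ℝ} {f g : ℂ × ℂ → ℝ} {O : Set (ℂ × ℂ)} (hO : IsOpen O)
    (h : ∀ x ∈ O, f x = g x) : ∀ x ∈ O, SP κ g x → SP κ f x := by
  intro x hx hs ξ
  rw [DD_congr hO h _ _ x hx, DD_congr hO h _ _ x hx]
  exact hs ξ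

lemma D_zero_off {f : ℂ × ℂ → ℝ} {x : ℂ × ℂ} (hx : x ∉ tsupport f) (p : ℂ × ℂ) : D p f x = 0 := by
  have h := D_congr (f := f) (g := fun _ => 0) (isClosed_tsupport f).isOpen_compl
    (fun y hy => image_eq_zero_of_notMem_tsupport hy) p x hx
  rw [h]; simp [D]

lemma DD_zero_off {f : ℂ × ℂ → ℝ} {x : ℂ × ℂ} (hx : x ∉ tsupport f) (p q : ℂ × ℂ) :
    D p (D q f) x = 0 := by
  have h := D_congr (f := D q f) (g := fun _ => 0) (isClosed_tsupport f).isOpen_compl
    (fun y hy => D_zero_off hy q) p x hx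
  rw [h]; simp [D]

lemma cs_Lz {f : ℂ × ℂ → ℝ} (hf : HasCompactSupport f) : HasCompactSupport (Lz f) :=
  (cs_D (cs_D hf _) _).add (cs_D (cs_D hf _) _)
lemma cs_Lt {f : ℂ × ℂ → ℝ} (hf : HasCompactSupport f) : HasCompactSupport (Lt f) :=
  (cs_D (cs_D hf _) _).add (cs_D (cs_D hf _) _)
lemma cs_P1 {f : ℂ × ℂ → ℝ} (hf : HasCompactSupport f) : HasCompactSupport (P1 f) :=
  (cs_D (cs_D hf _) _).add (cs_D (cs_D hf _) _)
lemma cs_P2 {f : ℂ × ℂ → ℝ} (hf : HasCompactSupport f) : HasCompactSupport (P2 f) :=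
  (cs_D (cs_D hf _) _).sub (cs_D (cs_D hf _) _)

lemma mass_bound {κ M : ℝ} {ρ f : ℂ × ℂ → ℝ} (hρ : Sm ρ) (hρc : HasCompactSupport ρ) (hf : Sm f)
    (hM : ∀ x ∈ tsupport ρ, |f x| ≤ M) :
    ∫ x, ρ x * (4 * κ + Lz f x + Lt f x) ≤
      4 * κ * (∫ x, ρ x) + M * ∫ x, (|Lz ρ x| + |Lt ρ x|) := by
  have i1 : Integrable (fun x => 4 * κ * ρ x) := (int_sm hρ.continuous hρc).const_mul _
  have i2 : Integrable (fun x => ρ x * Lz f x) :=
    int_sm (hρ.continuous.mul (Lz_cont hf)) hρc.mul_right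
  have i3 : Integrable (fun x => ρ x * Lt f x) :=
    int_sm (hρ.continuous.mul (Lt_cont hf)) hρc.mul_right
  have i12 : Integrable (fun x => 4 * κ * ρ x + ρ x * Lz f x) := i1.add i2
  have e : ∫ x, ρ x * (4 * κ + Lz f x + Lt f x) =
      4 * κ * (∫ x, ρ x) + ∫ x, (Lz ρ x * f x + Lt ρ x * f x) := by
    have j2 : Integrable (fun x => Lz ρ x * f x) :=
      int_sm ((Lz_cont hρ).mul hf.continuous) (cs_Lz hρc).mul_right
    have j3 : Integrable (fun x => Lt ρ x * f x) :=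
      int_sm ((Lt_cont hρ).mul hf.continuous) (cs_Lt hρc).mul_right
    calc ∫ x, ρ x * (4 * κ + Lz f x + Lt f x) =
          ∫ x, (4 * κ * ρ x + ρ x * Lz f x + ρ x * Lt f x) := by
            congr 1; ext x; ring
      _ = 4 * κ * (∫ x, ρ x) + (∫ x, ρ x * Lz f x) + ∫ x, ρ x * Lt f x := by
            rw [i_add i12 i3, i_add i1 i2, integral_const_mul]
      _ = _ := by
            rw [ibp_Lz hρ hf hρc, ibp_Lt hρ hf hρc, i_add j2 j3, add_assoc]
  rw [e]
  have h1 : ∫ x, (Lz ρ x * f x + Lt ρ x * f x) ≤ ∫ x, M * (|Lz ρ x| + |Lt ρ x|) := by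
    have k1 : Continuous (fun x => Lz ρ x * f x + Lt ρ x * f x) := by
      have := Lz_cont hρ
      have := Lt_cont hρ
      have := hf.continuous
      fun_prop
    have k2 : Continuous (fun x => |Lz ρ x| + |Lt ρ x|) := by
      have := Lz_cont hρ
      have := Lt_cont hρ
      fun_prop
    have c1 : HasCompactSupport (fun x => Lz ρ x * f x + Lt ρ x * f x) :=
      (cs_Lz hρc).mul_right.add (cs_Lt hρc).mul_right
    have c2 : HasCompactSupport (fun x => |Lz ρ x| + |Lt ρ x|) :=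
      ((cs_Lz hρc).comp_left abs_zero).add ((cs_Lt hρc).comp_left abs_zero)
    apply integral_mono (int_sm k1 c1) ((int_sm k2 c2).const_mul M)
    intro x
    dsimp only
    by_cases hx : x ∈ tsupport ρ
    · have h2 := hM x hx
      have h3 : Lz ρ x * f x ≤ |Lz ρ x| * M :=
        (le_abs_self _).trans (by rw [abs_mul]; exact mul_le_mul_of_nonneg_left h2 (abs_nonneg _))
      have h4 : Lt ρ x * f x ≤ |Lt ρ x| * M :=
        (le_abs_self _).trans (by rw [abs_mul]; exact mul_le_mul_of_nonneg_left h2 (abs_nonneg _))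
      linarith
    · simp only [Lz, Lt, DD_zero_off hx]
      simp
  rw [integral_const_mul] at h1
  linarith

/-- Comparison of Monge-Ampère masses of uniformly close potentials. -/
theorem compare {κ : ℝ} (hκ : 0 ≤ κ) {χ ρ : ℂ × ℂ → ℝ} (hχ : Sm χ) (hχc : HasCompactSupport χ)
    (hρ : Sm ρ) (hρc : HasCompactSupport ρ) (hρ0 : ∀ x, 0 ≤ ρ x)
    (h1 : ∀ x ∈ tsupport χ, 1 ≤ ρ x) :
    ∃ C : ℝ, 0 ≤ C ∧ ∀ (v w : ℂ × ℂ → ℝ) (M ε : ℝ), Sm v → Sm w → 0 ≤ M → 0 ≤ ε →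
      (∀ x ∈ tsupport ρ, SP κ v x) → (∀ x ∈ tsupport ρ, SP κ w x) →
      (∀ x ∈ tsupport ρ, |v x| ≤ M) → (∀ x ∈ tsupport ρ, |w x| ≤ M) →
      (∀ x ∈ tsupport χ, |v x - w x| ≤ ε) →
      |∫ x, χ x * (MA κ v x - MA κ w x)| ≤ C * ε * (1 + M) := by
  obtain ⟨C1, hC1⟩ := (cs_Lz hχc).exists_bound_of_continuous (Lz_cont hχ)
  obtain ⟨C2, hC2⟩ := (cs_Lt hχc).exists_bound_of_continuous (Lt_cont hχ)
  obtain ⟨C3, hC3⟩ := (cs_P1 hχc).exists_bound_of_continuous (P1_cont hχ)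
  obtain ⟨C4, hC4⟩ := (cs_P2 hχc).exists_bound_of_continuous (P2_cont hχ)
  obtain ⟨C0, hC0, hb1, hb2, hb3, hb4⟩ : ∃ C0 : ℝ, 0 ≤ C0 ∧ C1 ≤ C0 ∧ C2 ≤ C0 ∧ C3 ≤ C0 ∧ C4 ≤ C0 :=
    ⟨max (max C1 C2) (max (max C3 C4) 0), le_max_of_le_right (le_max_right _ _),
      le_max_of_le_left (le_max_left _ _), le_max_of_le_left (le_max_right _ _),
      le_max_of_le_right (le_max_of_le_left (le_max_left _ _)),
      le_max_of_le_right (le_max_of_le_left (le_max_right _ _))⟩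
  obtain ⟨A, hA⟩ : ∃ A, A = ∫ x, ρ x := ⟨_, rfl⟩
  obtain ⟨B, hB⟩ : ∃ B, B = ∫ x, (|Lz ρ x| + |Lt ρ x|) := ⟨_, rfl⟩
  have hA0 : 0 ≤ A := hA ▸ integral_nonneg hρ0
  have hB0 : 0 ≤ B := hB ▸ integral_nonneg fun x => by positivity
  refine ⟨3 / 2 * C0 * (8 * κ * A + 2 * B), by positivity, ?_⟩
  intro v w M ε hv hw hM hε sv sw bv bw hd
  rw [MA_diff hχ hv hw hχc]
  have hbig : Integrable (fun x => ε * (3 / 2 * C0) * (ρ x * (4 * κ + Lz v x + Lt v x) +
      ρ x * (4 * κ + Lz w x + Lt w x))) := by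
    have k1 : Continuous (fun x => ρ x * (4 * κ + Lz v x + Lt v x)) := by
      have := Lz_cont hv
      have := Lt_cont hv
      have := hρ.continuous
      fun_prop
    have k2 : Continuous (fun x => ρ x * (4 * κ + Lz w x + Lt w x)) := by
      have := Lz_cont hw
      have := Lt_cont hw
      have := hρ.continuous
      fun_prop
    exact ((int_sm k1 hρc.mul_right).add (int_sm k2 hρc.mul_right)).const_mul _
  have step : |∫ x, (v x - w x) * (4 * κ * Lt χ x + Q χ (fun y => v y + w y) x)| ≤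
      ∫ x, ε * (3 / 2 * C0) * (ρ x * (4 * κ + Lz v x + Lt v x) +
      ρ x * (4 * κ + Lz w x + Lt w x)) := by
    rw [← Real.norm_eq_abs]
    apply norm_integral_le_of_norm_le hbig
    refine Eventually.of_forall fun x => ?_
    rw [Real.norm_eq_abs]
    by_cases hx : x ∈ tsupport ρ
    · have tv := SP_T hv (sv x hx)
      have nv := SP_N hv (sv x hx)
      have tw := SP_T hw (sw x hx)
      have nw := SP_N hw (sw x hx)
      have hr := hρ0 x
      by_cases hy : x ∈ tsupport χ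
      · have hr1 := h1 x hy
        have q1 := q_bound (κ := κ) hv hχ (sv x hx) (C := C0) ((hC1 x).trans hb1)
          ((hC2 x).trans hb2) ((hC3 x).trans hb3) ((hC4 x).trans hb4)
        have q2 := q_bound (κ := κ) hw hχ (sw x hx) (C := C0) ((hC1 x).trans hb1)
          ((hC2 x).trans hb2) ((hC3 x).trans hb3) ((hC4 x).trans hb4)
        have e : 4 * κ * Lt χ x + Q χ (fun y => v y + w y) x =
            (2 * κ * Lt χ x + Q χ v x) + (2 * κ * Lt χ x + Q χ w x) := by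
          rw [Q_eq hχ (hv.add hw), Q_eq hχ hv, Q_eq hχ hw]
          simp only [Lz, Lt, P1, P2, DD_add hv hw]
          ring
        rw [e, abs_mul]
        have q3 := abs_add_le (2 * κ * Lt χ x + Q χ v x) (2 * κ * Lt χ x + Q χ w x)
        obtain ⟨S, hS⟩ : ∃ S, S = (4 * κ + Lz v x + Lt v x) + (4 * κ + Lz w x + Lt w x) :=
          ⟨_, rfl⟩
        have hS0 : 0 ≤ S := by rw [hS]; linarith
        have q4 : |2 * κ * Lt χ x + Q χ v x + (2 * κ * Lt χ x + Q χ w x)| ≤ 3 / 2 * C0 * S := by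
          rw [hS]; linarith
        calc |v x - w x| * |2 * κ * Lt χ x + Q χ v x + (2 * κ * Lt χ x + Q χ w x)|
            ≤ ε * (3 / 2 * C0 * S) := mul_le_mul (hd x hy) q4 (abs_nonneg _) hε
          _ ≤ ε * (3 / 2 * C0 * (ρ x * S)) := by
              have : S ≤ ρ x * S := le_mul_of_one_le_left hS0 hr1
              gcongr
          _ = _ := by rw [hS]; ring
      · have e : (v x - w x) * (4 * κ * Lt χ x + Q χ (fun y => v y + w y) x) = 0 := by
          rw [Q_eq hχ (hv.add hw)]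
          simp only [Lz, Lt, P1, P2, DD_zero_off hy]
          ring
        rw [e, abs_zero]
        have p1 : 0 ≤ ρ x * (4 * κ + Lz v x + Lt v x) := mul_nonneg hr (by linarith)
        have p2 : 0 ≤ ρ x * (4 * κ + Lz w x + Lt w x) := mul_nonneg hr (by linarith)
        positivity
    · have hz : ρ x = 0 := image_eq_zero_of_notMem_tsupport hx
      have hy : x ∉ tsupport χ := by
        intro hy
        have := h1 x hy
        rw [hz] at this
        linarith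
      have e : (v x - w x) * (4 * κ * Lt χ x + Q χ (fun y => v y + w y) x) = 0 := by
        rw [Q_eq hχ (hv.add hw)]
        simp only [Lz, Lt, P1, P2, DD_zero_off hy]
        ring
      rw [e, hz]
      simp
  refine step.trans ?_
  have i1 : Integrable (fun x => ρ x * (4 * κ + Lz v x + Lt v x)) := by
    have k1 : Continuous (fun x => ρ x * (4 * κ + Lz v x + Lt v x)) := by
      have := Lz_cont hv
      have := Lt_cont hv
      have := hρ.continuous
      fun_prop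
    exact int_sm k1 hρc.mul_right
  have i2 : Integrable (fun x => ρ x * (4 * κ + Lz w x + Lt w x)) := by
    have k1 : Continuous (fun x => ρ x * (4 * κ + Lz w x + Lt w x)) := by
      have := Lz_cont hw
      have := Lt_cont hw
      have := hρ.continuous
      fun_prop
    exact int_sm k1 hρc.mul_right
  rw [integral_const_mul, i_add i1 i2]
  have m1 := mass_bound (κ := κ) hρ hρc hv bv
  have m2 := mass_bound (κ := κ) hρ hρc hw bw
  rw [← hA, ← hB] at m1 m2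
  have m3 : (∫ x, ρ x * (4 * κ + Lz v x + Lt v x)) + (∫ x, ρ x * (4 * κ + Lz w x + Lt w x)) ≤
      (8 * κ * A + 2 * B) * (1 + M) := by
    have : 0 ≤ 8 * κ * A * M := by positivity
    nlinarith
  calc ε * (3 / 2 * C0) * ((∫ x, ρ x * (4 * κ + Lz v x + Lt v x)) +
        (∫ x, ρ x * (4 * κ + Lz w x + Lt w x)))
      ≤ ε * (3 / 2 * C0) * ((8 * κ * A + 2 * B) * (1 + M)) := by gcongr
    _ = _ := by ring

end Pool.Agent.H907R2
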