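import Pool.Agent.H907R2.Env

/-!
Harmonic functions with a three-fold symmetry are constant up to third order.
-/

open MeasureTheory Metric Set Complex Real
open scoped Topology ContDiff

namespace Pool.Agent.H907R2

lemma herglotz_sum {e w ζ : ℂ} (he : e ^ 2 + e + 1 = 0) (h1 : ζ - w ≠ 0) (h2 : ζ - e * w ≠ 0)
    (h3 : ζ - e ^ 2 * w ≠ 0) :
    herglotzRieszKernel 0 w ζ + herglotzRieszKernel 0 (e * w) ζ +
      herglotzRieszKernel 0 (e ^ 2 * w) ζ = 3 * ((ζ ^ 3 + w ^ 3) / (ζ ^ 3 - w ^ 3)) := by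
  have he3 : e ^ 3 = 1 := by
    have : e ^ 3 - 1 = (e - 1) * (e ^ 2 + e + 1) := by ring
    rw [he, mul_zero] at this
    exact sub_eq_zero.1 this
  have hprod : (ζ - w) * (ζ - e * w) * (ζ - e ^ 2 * w) = ζ ^ 3 - w ^ 3 := by
    have : (ζ - w) * (ζ - e * w) * (ζ - e ^ 2 * w) =
        ζ ^ 3 - (e ^ 2 + e + 1) * ζ ^ 2 * w + (e ^ 2 + e + 1) * e * ζ * w ^ 2
          - e ^ 3 * w ^ 3 := by ring
    rw [this, he, he3]; ring
  have h4 : ζ ^ 3 - w ^ 3 ≠ 0 := by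
    rw [← hprod]
    exact mul_ne_zero (mul_ne_zero h1 h2) h3
  simp only [herglotzRieszKernel_def, sub_zero]
  have key : (ζ + w) * ((ζ - e * w) * (ζ - e ^ 2 * w)) + (ζ + e * w) * ((ζ - w) * (ζ - e ^ 2 * w))
      + (ζ + e ^ 2 * w) * ((ζ - w) * (ζ - e * w)) = 3 * (ζ ^ 3 + w ^ 3) := by
    have : (ζ + w) * ((ζ - e * w) * (ζ - e ^ 2 * w)) + (ζ + e * w) * ((ζ - w) * (ζ - e ^ 2 * w))
      + (ζ + e ^ 2 * w) * ((ζ - w) * (ζ - e * w)) = 3 * ζ ^ 3 + 3 * e ^ 3 * w ^ 3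
        - (e ^ 2 + e + 1) * ζ ^ 2 * w - (e ^ 2 + e + 1) * e * ζ * w ^ 2 := by ring
    rw [this, he, he3]; ring
  have e1 : (ζ + w) / (ζ - w) = (ζ + w) * ((ζ - e * w) * (ζ - e ^ 2 * w)) / (ζ ^ 3 - w ^ 3) := by
    rw [← hprod, div_eq_div_iff h1 (mul_ne_zero (mul_ne_zero h1 h2) h3)]; ring
  have e2 : (ζ + e * w) / (ζ - e * w) =
      (ζ + e * w) * ((ζ - w) * (ζ - e ^ 2 * w)) / (ζ ^ 3 - w ^ 3) := by
    rw [← hprod, div_eq_div_iff h2 (mul_ne_zero (mul_ne_zero h1 h2) h3)]; ring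
  have e3 : (ζ + e ^ 2 * w) / (ζ - e ^ 2 * w) =
      (ζ + e ^ 2 * w) * ((ζ - w) * (ζ - e * w)) / (ζ ^ 3 - w ^ 3) := by
    rw [← hprod, div_eq_div_iff h3 (mul_ne_zero (mul_ne_zero h1 h2) h3)]; ring
  rw [e1, e2, e3, ← add_div, ← add_div, key, mul_div_assoc]

lemma norm_of_cube {e : ℂ} (he : e ^ 2 + e + 1 = 0) : ‖e‖ = 1 := by
  have he3 : e ^ 3 = 1 := by
    have : e ^ 3 - 1 = (e - 1) * (e ^ 2 + e + 1) := by ring
    rw [he, mul_zero] at this
    exact sub_eq_zero.1 this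
  have : ‖e‖ ^ 3 = 1 := by rw [← norm_pow, he3, norm_one]
  exact (pow_eq_one_iff_of_nonneg (norm_nonneg e) (by norm_num)).1 this

lemma kernel_bound {e w ζ : ℂ} {R : ℝ} (he : e ^ 2 + e + 1 = 0) (hR : 0 < R)
    (hζ : ‖ζ‖ = R) (hw : ‖w‖ ≤ R / 2) :
    |(poissonKernel 0 w ζ + poissonKernel 0 (e * w) ζ + poissonKernel 0 (e ^ 2 * w) ζ) / 3 - 1| ≤
      3 * ‖w‖ ^ 3 / R ^ 3 := by
  have hne := norm_of_cube he
  have hne2 : ‖e ^ 2‖ = 1 := by rw [norm_pow, hne, one_pow]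
  have aux : ∀ x : ℂ, ‖x‖ = ‖w‖ → ζ - x ≠ 0 := by
    intro x hx h0
    have : ζ = x := sub_eq_zero.1 h0
    rw [← this, hζ] at hx
    linarith
  have h1 := aux w rfl
  have h2 := aux (e * w) (by rw [norm_mul, hne, one_mul])
  have h3 := aux (e ^ 2 * w) (by rw [norm_mul, hne2, one_mul])
  have hsum := herglotz_sum he h1 h2 h3
  have hw3 : ‖w‖ ^ 3 ≤ R ^ 3 / 8 := by
    have : ‖w‖ ^ 3 ≤ (R / 2) ^ 3 := by gcongr
    linarith
  have hR3 : 0 < R ^ 3 := by positivity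
  have h4 : R ^ 3 - ‖w‖ ^ 3 ≤ ‖ζ ^ 3 - w ^ 3‖ := by
    have := norm_sub_norm_le (ζ ^ 3) (w ^ 3)
    rw [norm_pow, norm_pow, hζ] at this
    exact this
  have h5 : ζ ^ 3 - w ^ 3 ≠ 0 := by
    intro h0
    rw [h0, norm_zero] at h4
    linarith
  have heq : (poissonKernel 0 w ζ + poissonKernel 0 (e * w) ζ + poissonKernel 0 (e ^ 2 * w) ζ) / 3
      - 1 = (2 * w ^ 3 / (ζ ^ 3 - w ^ 3)).re := by
    simp only [poissonKernel_eq_re_herglotzRieszKernel, Function.comp_apply]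
    rw [← Complex.add_re, ← Complex.add_re, hsum]
    have : (3 * ((ζ ^ 3 + w ^ 3) / (ζ ^ 3 - w ^ 3)) : ℂ).re =
        3 * ((ζ ^ 3 + w ^ 3) / (ζ ^ 3 - w ^ 3)).re := by simp
    rw [this, mul_div_cancel_left₀ _ (by norm_num : (3 : ℝ) ≠ 0)]
    have h6 : (ζ ^ 3 + w ^ 3) / (ζ ^ 3 - w ^ 3) = 1 + 2 * w ^ 3 / (ζ ^ 3 - w ^ 3) := by
      field_simp
      ring
    rw [h6, Complex.add_re, Complex.one_re]
    ring
  rw [heq]
  refine (Complex.abs_re_le_norm _).trans ?_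
  rw [norm_div, norm_mul, norm_pow]
  have : ‖(2 : ℂ)‖ = 2 := by norm_num
  rw [this, div_le_div_iff₀ (norm_pos_iff.2 h5) hR3]
  have h7 : 0 ≤ ‖w‖ ^ 3 := by positivity
  nlinarith

/-- Cubic bound for harmonic functions with a threefold symmetry. -/
theorem cubic_bound {u : ℂ → ℝ} {e : ℂ} {R M : ℝ} (he : e ^ 2 + e + 1 = 0) (hR : 0 < R)
    (hu : Continuous u) (hsym : ∀ w, u (e * w) = u w) (hM : ∀ w, ‖w‖ = R → |u w| ≤ M)
    (hPI : ∀ w, ‖w‖ < R → u w = PI0 u R w) {w : ℂ} (hw : ‖w‖ ≤ R / 2) :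
    |u w - u 0| ≤ 3 * M / R ^ 3 * ‖w‖ ^ 3 := by
  have hne := norm_of_cube he
  have hne2 : ‖e ^ 2‖ = 1 := by rw [norm_pow, hne, one_pow]
  have hwR : ‖w‖ < R := by linarith
  have hw1 : w ∈ ball (0 : ℂ) R := by simpa using hwR
  have hw2 : e * w ∈ ball (0 : ℂ) R := by
    rw [mem_ball_zero_iff, norm_mul, hne, one_mul]; exact hwR
  have hw3 : e ^ 2 * w ∈ ball (0 : ℂ) R := by
    rw [mem_ball_zero_iff, norm_mul, hne2, one_mul]; exact hwR
  have h0 : (0 : ℂ) ∈ ball (0 : ℂ) R := by simpa using hR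
  have i1 := PI0_integrable hu hw1
  have i2 := PI0_integrable hu hw2
  have i3 := PI0_integrable hu hw3
  have e1 : u w = PI0 u R w := hPI w hwR
  have e2 : u w = PI0 u R (e * w) := by
    rw [← hsym w]; exact hPI _ (by simpa using hw2)
  have e3 : u w = PI0 u R (e ^ 2 * w) := by
    rw [← hsym w, ← hsym (e * w), ← mul_assoc, ← pow_two]; exact hPI _ (by simpa [norm_mul] using hw3)
  have e0 : u 0 = circleAverage u 0 R := by
    rw [hPI 0 (by simpa using hR)]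
    apply circleAverage_congr_sphere
    intro x hx
    rw [abs_of_pos hR, mem_sphere_zero_iff_norm] at hx
    simp only [poissonKernel_def, sub_zero, hx, norm_zero]
    have : R ^ 2 ≠ 0 := by positivity
    field_simp
    ring
  set Q : ℂ → ℝ := fun ζ => (poissonKernel 0 w ζ + poissonKernel 0 (e * w) ζ +
    poissonKernel 0 (e ^ 2 * w) ζ) / 3 - 1 with hQ
  have hQi : CircleIntegrable (fun ζ => Q ζ * u ζ) 0 R := by
    apply ContinuousOn.circleIntegrable'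
    apply ContinuousOn.mul _ hu.continuousOn
    exact ((((poissonKernel_continuousOn hw1).add (poissonKernel_continuousOn hw2)).add
      (poissonKernel_continuousOn hw3)).div_const 3).sub continuousOn_const
  have hkey : u w - u 0 = circleAverage (fun ζ => Q ζ * u ζ) 0 R := by
    have hs : u w = (3 : ℝ)⁻¹ • (PI0 u R w + PI0 u R (e * w) + PI0 u R (e ^ 2 * w)) := by
      rw [← e1, ← e2, ← e3, smul_eq_mul]; ring
    rw [e0]
    conv_lhs => rw [hs]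
    unfold PI0
    have i12 : CircleIntegrable (fun z => poissonKernel 0 w z * u z +
        poissonKernel 0 (e * w) z * u z) 0 R := i1.add i2
    have i123 : CircleIntegrable (fun z => (3 : ℝ)⁻¹ • ((poissonKernel 0 w z * u z +
        poissonKernel 0 (e * w) z * u z) + poissonKernel 0 (e ^ 2 * w) z * u z)) 0 R := by
      exact (i12.add i3).const_mul (3 : ℝ)⁻¹
    rw [← circleAverage_fun_add i1 i2, ← circleAverage_fun_add i12 i3,
      ← circleAverage_fun_smul, ← circleAverage_fun_sub i123 (cont_circleIntegrable hu _ _)]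
    congr 1
    ext ζ
    simp only [hQ, smul_eq_mul]
    ring
  rw [hkey]
  refine abs_circleAverage_le_circleAverage_abs.trans ?_
  apply circleAverage_mono_on_of_le_circle hQi.abs
  intro ζ hζ
  rw [abs_of_pos hR, mem_sphere_zero_iff_norm] at hζ
  simp only [Pi.abs_apply, abs_mul]
  have hb := kernel_bound he hR hζ hw
  have hM0 : 0 ≤ M := (abs_nonneg _).trans (hM ζ hζ)
  calc |Q ζ| * |u ζ| ≤ (3 * ‖w‖ ^ 3 / R ^ 3) * M := by
        apply mul_le_mul hb (hM ζ hζ) (abs_nonneg _) (by positivity)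
    _ = _ := by ring

end Pool.Agent.H907R2
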