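import Pool.Agent.H907R2.Cubic

/-!
The explicit potentials.
-/

open MeasureTheory Metric Set Complex Real
open scoped Topology ContDiff

namespace Pool.Agent.H907R2

/-- The second derivative of `f` at `p` in the real directions `v`, `w`. -/
noncomputable def dd {E : Type*} [NormedAddCommGroup E] [NormedSpace ℝ E] (f : E → ℝ)
    (v w : E) (p : E) : ℝ := fderiv ℝ (fun q => fderiv ℝ f q v) p w

/-- Primitive cube root of unity. -/
noncomputable def e3 : ℂ := ⟨-1 / 2, √3 / 2⟩

lemma sqrt3_sq : √3 * √3 = 3 := Real.mul_self_sqrt (by norm_num)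

lemma e3_eq : e3 ^ 2 + e3 + 1 = 0 := by
  apply Complex.ext
  · simp only [e3, pow_two, Complex.add_re, Complex.mul_re, Complex.one_re, Complex.zero_re]
    nlinarith [sqrt3_sq]
  · simp only [e3, pow_two, Complex.add_im, Complex.mul_im, Complex.one_im, Complex.zero_im]
    ring

/-- The linear forms. -/
noncomputable def ell (j : Fin 3) : ℂ →L[ℝ] ℝ :=
  match j with
  | 0 => Complex.reCLM
  | 1 => (-1 / 2 : ℝ) • Complex.reCLM + (√3 / 2 : ℝ) • Complex.imCLM
  | 2 => (-1 / 2 : ℝ) • Complex.reCLM - (√3 / 2 : ℝ) • Complex.imCLM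

lemma ell0 (z : ℂ) : ell 0 z = z.re := by simp [ell]
lemma ell1 (z : ℂ) : ell 1 z = -1 / 2 * z.re + √3 / 2 * z.im := by simp [ell]
lemma ell2 (z : ℂ) : ell 2 z = -1 / 2 * z.re - √3 / 2 * z.im := by simp [ell]

lemma ell_rot0 (z : ℂ) : ell 0 (e3 * z) = ell 2 z := by
  rw [ell0, ell2]; simp [e3]
lemma ell_rot1 (z : ℂ) : ell 1 (e3 * z) = ell 0 z := by
  rw [ell1, ell0]; simp [e3]
  linear_combination (z.re / 4) * sqrt3_sq
lemma ell_rot2 (z : ℂ) : ell 2 (e3 * z) = ell 1 z := by
  rw [ell2, ell1]; simp [e3]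
  linear_combination (-z.re / 4) * sqrt3_sq

lemma ell_sum_sq (z : ℂ) (j : Fin 3) : |ell j z| ≤ ‖z‖ := by
  have h3 := sqrt3_sq
  have hz : ‖z‖ ^ 2 = z.re ^ 2 + z.im ^ 2 := by
    rw [← Complex.normSq_eq_norm_sq, Complex.normSq_apply]; ring
  apply abs_le_of_sq_le_sq _ (norm_nonneg _)
  rw [hz]
  fin_cases j
  · change (ell 0 z) ^ 2 ≤ _
    rw [ell0]; nlinarith [sq_nonneg z.im]
  · change (ell 1 z) ^ 2 ≤ _
    rw [ell1]; nlinarith [sq_nonneg (√3 / 2 * z.re + 1 / 2 * z.im)]
  · change (ell 2 z) ^ 2 ≤ _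
    rw [ell2]; nlinarith [sq_nonneg (√3 / 2 * z.re - 1 / 2 * z.im)]

/-- First potential. -/
noncomputable def phi0 (z : ℂ) : ℝ := ∑ j : Fin 3, 2 * Real.cos (ell j z + π / 3)

/-- Second potential. -/
noncomputable def phi1 (z : ℂ) : ℝ := phi0 (-z)

lemma phi0_def (z : ℂ) : phi0 z = 2 * Real.cos (ell 0 z + π / 3) + 2 * Real.cos (ell 1 z + π / 3) +
    2 * Real.cos (ell 2 z + π / 3) := by
  simp [phi0, Fin.sum_univ_three]

lemma phi0_smooth : ContDiff ℝ ∞ phi0 := by
  unfold phi0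
  apply ContDiff.sum
  intro j _
  exact contDiff_const.mul (Real.contDiff_cos.comp ((ell j).contDiff.add contDiff_const))

lemma phi1_smooth : ContDiff ℝ ∞ phi1 := phi0_smooth.comp contDiff_neg

lemma phi0_rot (z : ℂ) : phi0 (e3 * z) = phi0 z := by
  rw [phi0_def, phi0_def, ell_rot0, ell_rot1, ell_rot2]; ring

lemma phi1_rot (z : ℂ) : phi1 (e3 * z) = phi1 z := by
  unfold phi1
  rw [← phi0_rot (-z)]; ring_nf

/-- The generators of the lattice. -/
noncomputable def per1 : ℂ := ⟨2 * π, 2 * π / √3⟩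
/-- The generators of the lattice. -/
noncomputable def per2 : ℂ := ⟨0, 4 * π / √3⟩

lemma sqrt3_pos : 0 < √3 := Real.sqrt_pos.2 (by norm_num)

lemma phi0_per1 (z : ℂ) : phi0 (z + per1) = phi0 z := by
  have h := sqrt3_pos.ne'
  have a0 : ell 0 per1 = 2 * π := by rw [ell0]; rfl
  have a1 : ell 1 per1 = 0 := by
    rw [ell1]; simp only [per1]
    field_simp; ring
  have a2 : ell 2 per1 = -(2 * π) := by
    rw [ell2]; simp only [per1]
    field_simp; ring
  rw [phi0_def, phi0_def, map_add, map_add, map_add, a0, a1, a2]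
  have e0 : ell 0 z + 2 * π + π / 3 = (ell 0 z + π / 3) + 2 * π := by ring
  have e2 : ell 2 z + -(2 * π) + π / 3 = (ell 2 z + π / 3) - 2 * π := by ring
  rw [e0, e2, Real.cos_add_two_pi, Real.cos_sub_two_pi, add_zero]

lemma phi0_per2 (z : ℂ) : phi0 (z + per2) = phi0 z := by
  have h := sqrt3_pos.ne'
  have a0 : ell 0 per2 = 0 := by rw [ell0]; rfl
  have a1 : ell 1 per2 = 2 * π := by
    rw [ell1]; simp only [per2]
    field_simp; ring
  have a2 : ell 2 per2 = -(2 * π) := by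
    rw [ell2]; simp only [per2]
    field_simp; ring
  rw [phi0_def, phi0_def, map_add, map_add, map_add, a0, a1, a2]
  have e0 : ell 1 z + 2 * π + π / 3 = (ell 1 z + π / 3) + 2 * π := by ring
  have e2 : ell 2 z + -(2 * π) + π / 3 = (ell 2 z + π / 3) - 2 * π := by ring
  rw [e0, e2, Real.cos_add_two_pi, Real.cos_sub_two_pi, add_zero]

lemma phi1_per1 (z : ℂ) : phi1 (z + per1) = phi1 z := by
  unfold phi1
  rw [← phi0_per1 (-(z + per1))]; congr 1; ring

lemma phi1_per2 (z : ℂ) : phi1 (z + per2) = phi1 z := by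
  unfold phi1
  rw [← phi0_per2 (-(z + per2))]; congr 1; ring

lemma phi0_zero : phi0 0 = 3 := by
  rw [phi0_def]
  simp only [map_zero, zero_add, Real.cos_pi_div_three]
  norm_num

lemma phi1_zero : phi1 0 = 3 := by rw [phi1, neg_zero, phi0_zero]

lemma ell_sum (z : ℂ) : ell 0 z + ell 1 z + ell 2 z = 0 := by
  rw [ell0, ell1, ell2]; ring

lemma phi0_le (z : ℂ) : phi0 z ≤ 3 := by
  rw [phi0_def]
  set A := ell 0 z + π / 3
  set B := ell 1 z + π / 3
  have hC : ell 2 z + π / 3 = π - (A + B) := by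
    have := ell_sum z
    simp only [A, B]; linarith
  rw [hC, Real.cos_pi_sub]
  have h1 : Real.cos A + Real.cos B = 2 * Real.cos ((A + B) / 2) * Real.cos ((A - B) / 2) :=
    Real.cos_add_cos A B
  have h2 : Real.cos (A + B) = 2 * Real.cos ((A + B) / 2) ^ 2 - 1 := by
    rw [← Real.cos_two_mul]; congr 1; ring
  rw [h2]
  have h3 := Real.abs_cos_le_one ((A - B) / 2)
  have h4 := Real.abs_cos_le_one ((A + B) / 2)
  rw [abs_le] at h3 h4
  nlinarith [sq_nonneg (Real.cos ((A + B) / 2) - Real.cos ((A - B) / 2) / 2)]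

lemma phi0_ge (z : ℂ) : -6 ≤ phi0 z := by
  rw [phi0_def]
  have h0 := Real.neg_one_le_cos (ell 0 z + π / 3)
  have h1 := Real.neg_one_le_cos (ell 1 z + π / 3)
  have h2 := Real.neg_one_le_cos (ell 2 z + π / 3)
  linarith

lemma phi1_le (z : ℂ) : phi1 z ≤ 3 := phi0_le _
lemma phi1_ge (z : ℂ) : -6 ≤ phi1 z := phi0_ge _

lemma phi0_lip (z w : ℂ) : phi0 z ≤ phi0 w + 6 * ‖z - w‖ := by
  rw [phi0_def, phi0_def]
  have key : ∀ j : Fin 3, Real.cos (ell j z + π / 3) - Real.cos (ell j w + π / 3) ≤ ‖z - w‖ := by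
    intro j
    refine (le_abs_self _).trans ((abs_cos_sub_cos_le _ _).trans ?_)
    have : ell j z + π / 3 - (ell j w + π / 3) = ell j (z - w) := by rw [map_sub]; ring
    rw [this]
    exact ell_sum_sq _ _
  have h0 := key 0
  have h1 := key 1
  have h2 := key 2
  linarith

lemma phi1_lip (z w : ℂ) : phi1 z ≤ phi1 w + 6 * ‖z - w‖ := by
  have := phi0_lip (-z) (-w)
  have e : ‖-z - -w‖ = ‖z - w‖ := by rw [← norm_neg]; congr 1; ring
  rw [e] at this
  exact this

/-! ### Subharmonicity of the potentials -/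

/-- Bessel average. -/
noncomputable def Jr (r : ℝ) : ℝ := circleAverage (fun w => Real.cos w.re) 0 r

lemma circleAverage_sin_re (r : ℝ) (hr : 0 ≤ r) :
    circleAverage (fun w => Real.sin w.re) 0 r = 0 := by
  have h := circleAverage_comp_rot (fun w => Real.sin w.re) (e := -1) (by simp) 0 hr
  have e : (fun w : ℂ => Real.sin ((-1 : ℂ) * w).re) = fun w => (-1 : ℝ) • Real.sin w.re := by
    ext w; simp
  rw [e, circleAverage_fun_smul, mul_zero] at h
  simp only [smul_eq_mul] at h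
  linarith

lemma circleAverage_re_sq (r : ℝ) (hr : 0 ≤ r) :
    circleAverage (fun w => w.re ^ 2) 0 r = r ^ 2 / 2 := by
  have h := circleAverage_comp_rot (fun w => w.re ^ 2) (e := Complex.I) (by simp) 0 hr
  have e : (fun w : ℂ => (Complex.I * w).re ^ 2) = fun w => w.im ^ 2 := by
    ext w; simp
  rw [e, mul_zero] at h
  have h2 := circleAverage_normSq 0 0 r
  have e2 : (fun w : ℂ => ‖w - 0‖ ^ 2) = fun w => w.re ^ 2 + w.im ^ 2 := by
    ext w
    rw [sub_zero, ← Complex.normSq_eq_norm_sq, Complex.normSq_apply]; ring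
  rw [e2, circleAverage_fun_add (cont_circleIntegrable (by fun_prop) _ _)
    (cont_circleIntegrable (by fun_prop) _ _), h] at h2
  simp only [sub_self, norm_zero, ne_eq, OfNat.ofNat_ne_zero, not_false_eq_true, zero_pow,
    zero_add] at h2
  linarith

lemma Jr_ge (r : ℝ) (hr : 0 ≤ r) : 1 - r ^ 2 / 4 ≤ Jr r := by
  have h : circleAverage (fun w => 1 - (1 / 2 : ℝ) • w.re ^ 2) 0 r = 1 - r ^ 2 / 4 := by
    rw [circleAverage_fun_sub (cont_circleIntegrable continuous_const _ _)
      (cont_circleIntegrable (by fun_prop) _ _), circleAverage_const, circleAverage_fun_smul,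
      circleAverage_re_sq r hr]
    simp only [smul_eq_mul]; ring
  rw [← h]
  apply circleAverage_mono (cont_circleIntegrable (by fun_prop) _ _)
    (cont_circleIntegrable (by fun_prop) _ _)
  intro x _
  have := one_sub_sq_div_two_le_cos (x := x.re)
  simp only [smul_eq_mul]
  linarith

lemma Jr_le (r : ℝ) : Jr r ≤ 1 := by
  unfold Jr
  apply circleAverage_mono_on_of_le_circle (cont_circleIntegrable (by fun_prop) _ _)
  intro x _
  exact Real.cos_le_one _

lemma circleAverage_cos_add (A : ℝ) (r : ℝ) (hr : 0 ≤ r) :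
    circleAverage (fun w => Real.cos (w.re + A)) 0 r = Jr r * Real.cos A := by
  have e : (fun w : ℂ => Real.cos (w.re + A)) =
      fun w => Real.cos A • Real.cos w.re - Real.sin A • Real.sin w.re := by
    ext w; rw [Real.cos_add]; simp only [smul_eq_mul]; ring
  rw [e, circleAverage_fun_sub (cont_circleIntegrable (by fun_prop) _ _)
    (cont_circleIntegrable (by fun_prop) _ _), circleAverage_fun_smul, circleAverage_fun_smul,
    circleAverage_sin_re r hr, Jr]
  simp only [smul_eq_mul]; ring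

lemma circleAverage_cos_ell (j : Fin 3) (A : ℝ) (z : ℂ) {r : ℝ} (hr : 0 ≤ r) :
    circleAverage (fun w => Real.cos (ell j w + A)) z r = Jr r * Real.cos (ell j z + A) := by
  have hn : ‖e3‖ = 1 := norm_of_cube e3_eq
  have hn2 : ‖e3 ^ 2‖ = 1 := by rw [norm_pow, hn, one_pow]
  have base : ∀ B : ℝ, circleAverage (fun w => Real.cos (ell 0 w + B)) 0 r = Jr r * Real.cos B := by
    intro B
    simp only [ell0]
    exact circleAverage_cos_add B r hr
  have hj : ∀ B : ℝ, circleAverage (fun w => Real.cos (ell j w + B)) 0 r = Jr r * Real.cos B := by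
    intro B
    fin_cases j
    · exact base B
    · have h := circleAverage_comp_rot (fun w => Real.cos (ell 0 w + B)) hn2 0 hr
      rw [mul_zero, base] at h
      rw [← h]
      congr 1
      ext w
      rw [pow_two, mul_assoc, ell_rot0, ell_rot2]
      rfl
    · have h := circleAverage_comp_rot (fun w => Real.cos (ell 0 w + B)) hn 0 hr
      rw [mul_zero, base] at h
      simp only [ell_rot0] at h
      exact h
  rw [← circleAverage_map_add_const, ← hj]
  congr 1
  ext w
  rw [map_add, add_assoc]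

lemma phi0_Sub {κ : ℝ} (hκ : 3 / 4 ≤ κ) : Sub κ phi0 := by
  intro z r hr
  have h : circleAverage phi0 z r = Jr r * phi0 z := by
    have e : phi0 = fun z => ∑ j : Fin 3, (2 : ℝ) • Real.cos (ell j z + π / 3) := by
      ext z; simp [phi0]
    conv_lhs => rw [e]
    rw [circleAverage_fun_sum]
    · rw [phi0, Finset.mul_sum]
      apply Finset.sum_congr rfl
      intro j _
      rw [circleAverage_fun_smul, circleAverage_cos_ell _ _ _ hr.le]
      simp only [smul_eq_mul]; ring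
    · intro j _
      exact cont_circleIntegrable (by fun_prop) _ _
  rw [h]
  have h1 := Jr_ge r hr.le
  have h2 := Jr_le r
  have h3 := phi0_le z
  have h4 : (1 - Jr r) * phi0 z ≤ (1 - Jr r) * 3 := mul_le_mul_of_nonneg_left h3 (by linarith)
  nlinarith [sq_nonneg r]

lemma phi1_Sub {κ : ℝ} (hκ : 3 / 4 ≤ κ) : Sub κ phi1 := by
  have := (phi0_Sub hκ).rotate (e := -1) (by simp)
  have e : phi1 = fun z => phi0 (-1 * z) := by ext z; simp [phi1]
  rw [e]; exact this

/-! ### The gap at the origin -/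

lemma cube_re (w : ℂ) : (w ^ 3).re = w.re ^ 3 - 3 * w.re * w.im ^ 2 := by
  simp [pow_succ]; ring

lemma sum_ell_cube (w : ℂ) : ell 0 w ^ 3 + ell 1 w ^ 3 + ell 2 w ^ 3 = 3 / 4 * (w ^ 3).re := by
  rw [cube_re, ell0, ell1, ell2]
  have h3 := sqrt3_sq
  have : (-1 / 2 * w.re + √3 / 2 * w.im) ^ 3 + (-1 / 2 * w.re - √3 / 2 * w.im) ^ 3 =
      -1 / 4 * w.re ^ 3 - 3 / 4 * (√3 * √3) * w.re * w.im ^ 2 := by ring
  rw [add_assoc, this, h3]; ring

lemma sum_ell_sq (w : ℂ) : ell 0 w ^ 2 + ell 1 w ^ 2 + ell 2 w ^ 2 =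
    3 / 2 * (w.re ^ 2 + w.im ^ 2) := by
  rw [ell0, ell1, ell2]
  have h3 := sqrt3_sq
  have : (-1 / 2 * w.re + √3 / 2 * w.im) ^ 2 + (-1 / 2 * w.re - √3 / 2 * w.im) ^ 2 =
      1 / 2 * w.re ^ 2 + 1 / 2 * (√3 * √3) * w.im ^ 2 := by ring
  rw [add_assoc, this, h3]; ring

lemma sum_ell_four (w : ℂ) : ell 0 w ^ 4 + ell 1 w ^ 4 + ell 2 w ^ 4 =
    9 / 8 * (w.re ^ 2 + w.im ^ 2) ^ 2 := by
  rw [ell0, ell1, ell2]
  have h3 := sqrt3_sq
  have : (-1 / 2 * w.re + √3 / 2 * w.im) ^ 4 + (-1 / 2 * w.re - √3 / 2 * w.im) ^ 4 =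
      1 / 8 * w.re ^ 4 + 3 / 4 * (√3 * √3) * w.re ^ 2 * w.im ^ 2 +
        1 / 8 * (√3 * √3) * (√3 * √3) * w.im ^ 4 := by ring
  rw [add_assoc, this, h3]; ring

lemma six_re {w : ℂ} (hw : ‖w‖ = 1) : (w ^ 6).re = 2 * (w ^ 3).re ^ 2 - 1 := by
  have h1 : w ^ 6 = w ^ 3 * w ^ 3 := by ring
  have h2 : (w ^ 3).re ^ 2 + (w ^ 3).im ^ 2 = 1 := by
    have : ‖w ^ 3‖ ^ 2 = 1 := by rw [norm_pow, hw]; norm_num
    rw [← Complex.normSq_eq_norm_sq, Complex.normSq_apply] at this
    linarith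
  rw [h1, Complex.mul_re]
  nlinarith

lemma phi0_expand (w : ℂ) : phi0 w = (Real.cos (ell 0 w) + Real.cos (ell 1 w) + Real.cos (ell 2 w))
    - √3 * (Real.sin (ell 0 w) + Real.sin (ell 1 w) + Real.sin (ell 2 w)) := by
  rw [phi0_def]
  simp only [Real.cos_add, Real.cos_pi_div_three, Real.sin_pi_div_three]
  ring

lemma phi1_expand (w : ℂ) : phi1 w = (Real.cos (ell 0 w) + Real.cos (ell 1 w) + Real.cos (ell 2 w))
    + √3 * (Real.sin (ell 0 w) + Real.sin (ell 1 w) + Real.sin (ell 2 w)) := by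
  rw [phi1, phi0_expand]
  simp only [map_neg, Real.cos_neg, Real.sin_neg]
  ring

lemma min_bound {w : ℂ} (hw : ‖w‖ = 1) :
    min (phi0 w) (phi1 w) + 19 / 25 + 1 / 10 * (w ^ 6).re ≤ 3 - 1 / 100 := by
  set C := (w ^ 3).re with hC
  set S := Real.sin (ell 0 w) + Real.sin (ell 1 w) + Real.sin (ell 2 w) with hS
  have hn : w.re ^ 2 + w.im ^ 2 = 1 := by
    have : ‖w‖ ^ 2 = 1 := by rw [hw]; norm_num
    rw [← Complex.normSq_eq_norm_sq, Complex.normSq_apply] at this
    linarith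
  have hl : ∀ j : Fin 3, |ell j w| ≤ 1 := fun j => (ell_sum_sq w j).trans hw.le
  have hpow : ∀ j : Fin 3, |ell j w| ^ 5 ≤ ell j w ^ 4 := by
    intro j
    have : |ell j w| ^ 5 ≤ |ell j w| ^ 4 :=
      pow_le_pow_of_le_one (abs_nonneg _) (hl j) (by norm_num)
    rwa [Even.pow_abs (by decide : Even 4)] at this
  have hcos : ∀ j : Fin 3, Real.cos (ell j w) ≤ 1 - ell j w ^ 2 / 2 + ell j w ^ 4 * (5 / 96) := by
    intro j
    have := (abs_le.1 (Real.cos_bound (hl j))).2
    rw [Even.pow_abs (by decide : Even 4)] at this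
    linarith
  have hsin : ∀ j : Fin 3, |Real.sin (ell j w) - (ell j w - ell j w ^ 3 / 6)| ≤
      ell j w ^ 4 / 100 := by
    intro j
    refine (Real.sin_bound (hl j)).trans ?_
    have := hpow j
    linarith
  have s2 := sum_ell_sq w
  have s3 := sum_ell_cube w
  have s4 := sum_ell_four w
  rw [hn] at s2 s4
  have hcosum : Real.cos (ell 0 w) + Real.cos (ell 1 w) + Real.cos (ell 2 w) ≤
      3 - 3 / 4 + 9 / 8 * (5 / 96) := by
    have h0 := hcos 0
    have h1 := hcos 1
    have h2 := hcos 2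
    nlinarith
  have hSb : |S + C / 8| ≤ 9 / 800 := by
    have e : S + C / 8 = (Real.sin (ell 0 w) - (ell 0 w - ell 0 w ^ 3 / 6)) +
        (Real.sin (ell 1 w) - (ell 1 w - ell 1 w ^ 3 / 6)) +
        (Real.sin (ell 2 w) - (ell 2 w - ell 2 w ^ 3 / 6)) := by
      have := ell_sum w
      rw [hS]
      linarith
    rw [e]
    refine (abs_add_three _ _ _).trans ?_
    have h0 := hsin 0
    have h1 := hsin 1
    have h2 := hsin 2
    linarith
  have hmin : min (phi0 w) (phi1 w) ≤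
      (Real.cos (ell 0 w) + Real.cos (ell 1 w) + Real.cos (ell 2 w)) - √3 * |S| := by
    rcases le_total 0 S with h | h
    · rw [abs_of_nonneg h]
      exact (min_le_left _ _).trans (phi0_expand w).le
    · rw [abs_of_nonpos h]
      refine (min_le_right _ _).trans ?_
      rw [phi1_expand w]
      linarith
  have hs3 : 1.732 < √3 := by
    rw [Real.lt_sqrt (by norm_num)]; norm_num
  have hs3' : √3 < 1.7321 := by
    rw [Real.sqrt_lt' (by norm_num)]; norm_num
  have hC1 : |C| ≤ 1 := by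
    refine (Complex.abs_re_le_norm _).trans ?_
    rw [norm_pow, hw]; norm_num
  have hSC : |C| / 8 - 9 / 800 ≤ |S| := by
    have : |C / 8| ≤ |S + C / 8| + |S| := by
      have : C / 8 = (S + C / 8) - S := by ring
      calc |C / 8| = |(S + C / 8) - S| := by rw [← this]
        _ ≤ _ := abs_sub _ _
    rw [abs_div, abs_of_pos (by norm_num : (0 : ℝ) < 8)] at this
    linarith
  rw [six_re hw, ← hC]
  have hCC : C ^ 2 ≤ |C| := by
    have : C ^ 2 = |C| * |C| := by rw [← sq, sq_abs]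
    rw [this]
    nlinarith [abs_nonneg C]
  have h5 : √3 * (|C| / 8 - 9 / 800) ≤ √3 * |S| := mul_le_mul_of_nonneg_left hSC sqrt3_pos.le
  have h6 : 1.732 * |C| ≤ √3 * |C| := mul_le_mul_of_nonneg_right hs3.le (abs_nonneg C)
  nlinarith [abs_nonneg C]

lemma circleAverage_six (r : ℝ) : circleAverage (fun w : ℂ => (w ^ 6).re) 0 r = 0 := by
  have h1 : circleAverage (fun w : ℂ => w ^ 6) 0 r = 0 := by
    have := (DiffContOnCl.circleAverage (f := fun w : ℂ => w ^ 6) (c := 0) (R := r) (by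
      apply Differentiable.diffContOnCl
      fun_prop))
    rw [this]; simp
  have h2 := Complex.reCLM.circleAverage_comp_comm (f := fun w : ℂ => w ^ 6) (c := 0) (R := r)
    (by
      apply Continuous.intervalIntegrable
      have : Continuous (circleMap 0 r) := continuous_circleMap 0 r
      fun_prop)
  have h3 : (Complex.reCLM ∘ fun w : ℂ => w ^ 6) = (fun w => (w ^ 6).re) := by
    ext w; simp
  rw [← h3, h2, h1]; simp

/-- The constant of the Kähler class. -/
noncomputable def kap : ℝ := 19 / 25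

lemma kap_pos : 0 < kap := by norm_num [kap]

lemma Comp_gap {v : ℂ → ℝ} (hv : v ∈ Comp kap (fun z => min (phi0 z) (phi1 z))) :
    v 0 ≤ 3 - 1 / 100 := by
  have h1 := hv.2.1 0 1 one_pos
  have hc := hv.1
  have h2 : circleAverage (fun w => v w + (1 / 10 : ℝ) • (w ^ 6).re) 0 1 ≤ 3 - 1 / 100 - 19 / 25 := by
    apply circleAverage_mono_on_of_le_circle (cont_circleIntegrable (by fun_prop) _ _)
    intro w hw
    rw [abs_one, mem_sphere_zero_iff_norm] at hw
    have := min_bound hw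
    have h3 := hv.2.2 w
    simp only [smul_eq_mul]
    linarith
  rw [circleAverage_fun_add (cont_circleIntegrable hc _ _)
    (cont_circleIntegrable (by fun_prop) _ _), circleAverage_fun_smul, circleAverage_six] at h2
  simp only [smul_zero, add_zero] at h2
  simp only [kap] at h1
  linarith

end Pool.Agent.H907R2
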