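import Pool.Agent.H907R2.Lip

/-!
The Monge-Ampère energy along the geodesic is affine up to boundary terms.
-/

open MeasureTheory Metric Set Complex Real Filter
open scoped Topology ContDiff NNReal

namespace Pool.Agent.H907R2

/-- Weighted energy. -/
noncomputable def En (a u : ℂ → ℝ) : ℝ := ∫ z, a z * (4 * kap * u z - Gam u u z / 2)

/-- Mass of the cut-off. -/
noncomputable def Am (a : ℂ → ℝ) : ℝ := ∫ z, a z

/-- Gradient mass of the cut-off. -/
noncomputable def Nm (a : ℂ → ℝ) : ℝ := ∫ z, (|fderiv ℝ a z 1| + |fderiv ℝ a z Complex.I|)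

/-- Cut-off functions. -/
structure Cut (a : ℂ → ℝ) : Prop where
  bl : BL a
  cs : HasCompactSupport a
  nn : ∀ z, 0 ≤ a z

/-- 6-Lipschitz. -/
def L6 (u : ℂ → ℝ) : Prop := ∀ z w, |u z - u w| ≤ 6 * ‖z - w‖

lemma L6.fderiv {u : ℂ → ℝ} (h : L6 u) (z v : ℂ) : |fderiv ℝ u z v| ≤ 6 * ‖v‖ := by
  have : LipschitzWith 6 u := LipschitzWith.of_dist_le_mul fun z w => by
    rw [Real.dist_eq, dist_eq_norm]; exact_mod_cast h z w
  exact_mod_cast fderiv_lip this z v

lemma integrable_En {a u v w : ℂ → ℝ} (ha : Continuous a) (hac : HasCompactSupport a)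
    (hw : Continuous w) (hu : BL u) (hv : BL v) :
    Integrable (fun z => a z * (4 * kap * w z - Gam u v z)) := by
  have i1 : Integrable (fun z => a z * (4 * kap * w z)) :=
    integrable_cc (by fun_prop) hac.mul_right
  refine (i1.sub (integrable_mul_Gam ha hac hu hv)).congr (Eventually.of_forall fun z => ?_)
  simp only [Pi.sub_apply]; ring

lemma integrable_En' {a u v w : ℂ → ℝ} (ha : Continuous a) (hac : HasCompactSupport a)
    (hw : Continuous w) (hu : BL u) (hv : BL v) :
    Integrable (fun z => a z * (4 * kap * w z - Gam u v z / 2)) := by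
  have i1 : Integrable (fun z => a z * (4 * kap * w z)) :=
    integrable_cc (by fun_prop) hac.mul_right
  refine (i1.sub ((integrable_mul_Gam ha hac hu hv).div_const 2)).congr
    (Eventually.of_forall fun z => ?_)
  simp only [Pi.sub_apply]; ring

lemma Gam_nonneg (u : ℂ → ℝ) (z : ℂ) : 0 ≤ Gam u u z := by
  unfold Gam
  nlinarith [mul_self_nonneg (fderiv ℝ u z 1), mul_self_nonneg (fderiv ℝ u z Complex.I)]

lemma Gam_expand_ae {v w : ℂ → ℝ} (hv : BL v) (hw : BL w) :
    ∀ᵐ z : ℂ, Gam (fun z => v z + w z) (fun z => v z + w z) z =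
      Gam v v z + 2 * Gam v w z + Gam w w z ∧
      Gam (fun z => v z + w z) w z = Gam v w z + Gam w w z := by
  filter_upwards [hv.ae, hw.ae] with z h1 h2
  have : fderiv ℝ (fun z => v z + w z) z = fderiv ℝ v z + fderiv ℝ w z := fderiv_fun_add h1 h2
  simp only [Gam, this, ContinuousLinearMap.add_apply]
  constructor <;> ring

lemma energy_lower {a v w : ℂ → ℝ} (ha : Cut a) (hv : BL v) (hw : BL w) :
    (∫ z, a z * (4 * kap * w z - Gam (fun z => v z + w z) w z)) ≤
      En a (fun z => v z + w z) - En a v := by
  have hu : BL (fun z => v z + w z) := hv.add hw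
  have hac := ha.bl.continuous
  unfold En
  rw [← i_sub (integrable_En' hac ha.cs hu.continuous hu hu)
    (integrable_En' hac ha.cs hv.continuous hv hv)]
  apply integral_mono_ae (integrable_En hac ha.cs hw.continuous hu hw)
    ((integrable_En' hac ha.cs hu.continuous hu hu).sub
    (integrable_En' hac ha.cs hv.continuous hv hv))
  filter_upwards [Gam_expand_ae hv hw] with z hz
  change _ ≤ a z * (4 * kap * (v z + w z) - Gam (fun z => v z + w z) (fun z => v z + w z) z / 2) -
    a z * (4 * kap * v z - Gam v v z / 2)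
  rw [hz.1, hz.2]
  have h1 := Gam_nonneg w z
  have h2 := ha.nn z
  nlinarith [mul_nonneg h2 h1]

lemma energy_upper {a v w : ℂ → ℝ} (ha : Cut a) (hv : BL v) (hw : BL w) :
    En a (fun z => v z + w z) - En a v ≤ ∫ z, a z * (4 * kap * w z - Gam v w z) := by
  have hu : BL (fun z => v z + w z) := hv.add hw
  have hac := ha.bl.continuous
  unfold En
  rw [← i_sub (integrable_En' hac ha.cs hu.continuous hu hu)
    (integrable_En' hac ha.cs hv.continuous hv hv)]
  apply integral_mono_ae ((integrable_En' hac ha.cs hu.continuous hu hu).sub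
    (integrable_En' hac ha.cs hv.continuous hv hv))
    (integrable_En hac ha.cs hw.continuous hv hw)
  filter_upwards [Gam_expand_ae hv hw] with z hz
  change a z * (4 * kap * (v z + w z) - Gam (fun z => v z + w z) (fun z => v z + w z) z / 2) -
    a z * (4 * kap * v z - Gam v v z / 2) ≤ _
  rw [hz.1]
  have h1 := Gam_nonneg w z
  have h2 := ha.nn z
  nlinarith [mul_nonneg h2 h1]

lemma Lam_mul {a F w : ℂ → ℝ} (ha : Cut a) (hF : BL F) (hw : BL w) :
    Lam F (fun z => a z * w z) =
      (∫ z, a z * (4 * kap * w z - Gam F w z)) - ∫ z, w z * Gam F a z := by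
  have hac := ha.bl.continuous
  have i2 : Integrable (fun z => w z * Gam F a z) := by
    obtain ⟨C, hC⟩ := Gam_bound hF ha.bl
    have hwm := hw.continuous.measurable
    obtain ⟨_, M, _, _, _, hM⟩ := hw
    apply integrable_of_support (K := tsupport a) ha.cs.isCompact ha.cs.isCompact.measurableSet
      (C := M * C)
    · exact (hwm.mul (Gam_measurable F a)).aestronglyMeasurable
    · intro z _
      rw [abs_mul]
      exact mul_le_mul (hM z) (hC z) (abs_nonneg _) ((abs_nonneg _).trans (hM z))
    · intro z hz
      simp [Gam, fderiv_zero_of_notMem hz]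
  rw [Lam, ← i_sub (integrable_En hac ha.cs hw.continuous hF hw) i2]
  apply integral_congr_ae
  filter_upwards [Gam_mul_ae (u := F) ha.bl hw] with z hz
  rw [hz]; ring

lemma Gam_cut_bound {F a : ℂ → ℝ} (hF : L6 F) (z : ℂ) :
    |Gam F a z| ≤ 6 * (|fderiv ℝ a z 1| + |fderiv ℝ a z Complex.I|) := by
  unfold Gam
  refine (abs_add_le _ _).trans ?_
  rw [abs_mul, abs_mul]
  have h1 := hF.fderiv z 1
  have h2 := hF.fderiv z Complex.I
  rw [norm_one, mul_one] at h1
  rw [Complex.norm_I, mul_one] at h2
  have h3 := abs_nonneg (fderiv ℝ a z 1)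
  have h4 := abs_nonneg (fderiv ℝ a z Complex.I)
  nlinarith

lemma integrable_Nm {a : ℂ → ℝ} (ha : Cut a) :
    Integrable (fun z => |fderiv ℝ a z 1| + |fderiv ℝ a z Complex.I|) := by
  obtain ⟨C, hC, h1⟩ := ha.bl.fderiv_bound
  apply integrable_of_support (K := tsupport a) ha.cs.isCompact ha.cs.isCompact.measurableSet
    (C := C + C)
  · exact (((measurable_fderiv_apply_const ℝ a 1).abs).add
      ((measurable_fderiv_apply_const ℝ a Complex.I).abs)).aestronglyMeasurable
  · intro z _
    have a1 := h1 z 1
    have a2 := h1 z Complex.I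
    simp only [norm_one, mul_one, Complex.norm_I] at a1 a2
    rw [abs_of_nonneg (by positivity)]
    exact add_le_add a1 a2
  · intro z hz
    simp [fderiv_zero_of_notMem hz]

lemma err_bound {a F w : ℂ → ℝ} (ha : Cut a) (hF : L6 F) {W : ℝ}
    (hW : ∀ z, |w z| ≤ W) : |∫ z, w z * Gam F a z| ≤ 6 * W * Nm a := by
  have h : ∀ z, ‖w z * Gam F a z‖ ≤
      6 * W * (|fderiv ℝ a z 1| + |fderiv ℝ a z Complex.I|) := by
    intro z
    rw [Real.norm_eq_abs, abs_mul]
    have h1 := hW z
    have h2 := Gam_cut_bound (a := a) hF z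
    calc |w z| * |Gam F a z| ≤ W * (6 * (|fderiv ℝ a z 1| + |fderiv ℝ a z Complex.I|)) :=
        mul_le_mul h1 h2 (abs_nonneg _) ((abs_nonneg _).trans h1)
      _ = _ := by ring
  refine (norm_integral_le_of_norm_le ((integrable_Nm ha).const_mul (6 * W))
    (Eventually.of_forall h)).trans ?_
  rw [integral_const_mul]
  rfl

lemma Nm_nonneg (a : ℂ → ℝ) : 0 ≤ Nm a := by
  apply integral_nonneg
  intro z
  simp only [Pi.zero_apply]
  positivity

lemma Am_nonneg {a : ℂ → ℝ} (ha : Cut a) : 0 ≤ Am a := integral_nonneg ha.nn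

lemma Lam_cut_le {a u : ℂ → ℝ} (ha : Cut a) (hu : BL u) (h6 : L6 u) :
    Lam u a ≤ 4 * kap * Am a + 6 * Nm a := by
  rw [Lam_eq hu ha.bl ha.cs]
  have : |∫ z, (1 : ℝ) * Gam u a z| ≤ 6 * 1 * Nm a := err_bound ha h6 (w := fun _ => 1) (by simp)
  simp only [one_mul, mul_one] at this
  have := (abs_le.1 this).1
  unfold Am
  linarith

lemma Cut.mul {a w : ℂ → ℝ} (ha : Cut a) (hw : BL w) (hw0 : ∀ z, 0 ≤ w z) :
    Cut (fun z => a z * w z) :=
  ⟨ha.bl.mul hw, ha.cs.mul_right, fun z => mul_nonneg (ha.nn z) (hw0 z)⟩

/-- Energies of uniformly close functions are close. -/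
lemma energy_close_aux {a u v : ℂ → ℝ} (ha : Cut a) (hu : BL u) (hv : BL v) (hu6 : L6 u)
    (hus : Sub kap u) {η : ℝ} (h : ∀ z, |u z - v z| ≤ η) :
    En a v - En a u ≤ η * (4 * kap * Am a + 12 * Nm a) := by
  have hη : 0 ≤ η := (abs_nonneg _).trans (h 0)
  have hw : BL (fun z => u z - v z) := hu.sub hv
  have h1 := energy_lower ha hv hw
  have e : (fun z => v z + (u z - v z)) = u := by ext z; ring
  rw [e] at h1
  have h2 := Lam_mul ha hu hw
  have h3 := err_bound ha hu6 h
  have h4 : -(η * (4 * kap * Am a + 6 * Nm a)) ≤ Lam u (fun z => a z * (u z - v z)) := by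
    have h5 : Lam u (fun z => (-η) * a z) ≤ Lam u (fun z => a z * (u z - v z)) := by
      apply Lam_mono hu hus ((BL.const (-η)).mul ha.bl) (ha.bl.mul hw)
      · exact HasCompactSupport.mul_left ha.cs
      · exact ha.cs.mul_right
      · intro z
        have := (abs_le.1 (h z)).1
        nlinarith [ha.nn z]
    rw [Lam_smul ha.bl] at h5
    have h6 := Lam_cut_le ha hu hu6
    nlinarith
  have h5 := (abs_le.1 h3).1
  nlinarith

lemma energy_close {a u v : ℂ → ℝ} (ha : Cut a) (hu : BL u) (hv : BL v) (hu6 : L6 u)
    (hv6 : L6 v) (hus : Sub kap u) (hvs : Sub kap v) {η : ℝ} (h : ∀ z, |u z - v z| ≤ η) :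
    |En a u - En a v| ≤ η * (4 * kap * Am a + 12 * Nm a) := by
  rw [abs_le]
  have h1 := energy_close_aux ha hu hv hu6 hus h
  have h2 := energy_close_aux ha hv hu hv6 hvs (fun z => by rw [abs_sub_comm]; exact h z)
  constructor <;> linarith

/-! ### The envelopes -/

lemma psi_L6 (l : ℝ) : L6 (psi l) := by
  intro z w
  rw [abs_le]
  have h1 := psi_lip l z w
  have h2 := psi_lip l w z
  rw [norm_sub_rev] at h2
  constructor <;> linarith

lemma psi_BL (l : ℝ) : BL (psi l) := by
  apply BL.of_bounds (C := 6) (M := 6 + |l|) (psi_L6 l)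
  intro z
  have h1 := psi_ge l z
  have h2 := (psi_le0 l z).trans (phi0_le z)
  have h3 := abs_nonneg l
  rw [abs_le]
  constructor <;> linarith

lemma phi0_BL : BL phi0 := by
  apply BL.of_bounds (C := 6) (M := 6)
  · intro z w
    rw [abs_le]
    have h1 := phi0_lip z w
    have h2 := phi0_lip w z
    rw [norm_sub_rev] at h2
    constructor <;> linarith
  · intro z
    rw [abs_le]
    have h1 := phi0_ge z
    have h2 := phi0_le z
    constructor <;> linarith

lemma obs_continuous (l : ℝ) : Continuous (obs l) := lip_continuous (obs_lip l)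

/-- Support property: functions vanishing on the contact set. -/
lemma Lam_support {l : ℝ} {h : ℂ → ℝ} (hh : BL h) (hc : HasCompactSupport h) (h0 : ∀ z, 0 ≤ h z)
    (hK : ∀ z, psi l z = obs l z → h z = 0) : Lam (psi l) h ≤ 0 := by
  -- a cut-off that is one on the support
  obtain ⟨b, hb1, hbc, hb2⟩ : ∃ b : ℂ → ℝ, BL b ∧ HasCompactSupport b ∧
      ∀ z, 0 ≤ b z ∧ (h z ≠ 0 → 1 ≤ b z) := by
    obtain ⟨R, hR⟩ := hc.isCompact.isBounded.subset_closedBall (0 : ℂ)
    refine ⟨fun z => max (R + 1 - ‖z‖ + |R|) 0 , ?_, ?_, ?_⟩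
    · apply BL.of_bounds (C := 1) (M := abs (R + 1 + |R|))
      · intro z w
        refine (abs_max_sub_max_le_abs _ _ _).trans ?_
        have : R + 1 - ‖z‖ + |R| - (R + 1 - ‖w‖ + |R|) = ‖w‖ - ‖z‖ := by ring
        rw [this, one_mul, norm_sub_rev]
        exact abs_norm_sub_norm_le w z
      · intro z
        rw [abs_of_nonneg (le_max_right _ _)]
        apply max_le _ (abs_nonneg _)
        have := norm_nonneg z
        have := le_abs_self (R + 1 + |R|)
        linarith
    · apply HasCompactSupport.of_support_subset_isCompact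
        (isCompact_closedBall (0 : ℂ) (R + 1 + |R|))
      intro z hz
      rw [mem_closedBall_zero_iff]
      by_contra hcon
      push Not at hcon
      apply hz
      apply max_eq_right
      linarith
    · intro z
      refine ⟨le_max_right _ _, fun hz => le_max_of_le_left ?_⟩
      have : z ∈ closedBall (0 : ℂ) R := hR (subset_tsupport _ hz)
      rw [mem_closedBall_zero_iff] at this
      have := abs_nonneg R
      linarith
  have key : ∀ ε > 0, Lam (psi l) h ≤ ε * Lam (psi l) b := by
    intro ε hε
    have hp : BL (fun z => max (h z - ε) 0) := (hh.sub (BL.const ε)).max (BL.const 0)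
    have hpc : HasCompactSupport (fun z => max (h z - ε) 0) := by
      apply hc.mono
      intro z hz hz0
      apply hz
      simp only
      rw [hz0]
      apply max_eq_right
      linarith
    have hq : BL (fun z => h z - max (h z - ε) 0) := hh.sub hp
    have hqc : HasCompactSupport (fun z => h z - max (h z - ε) 0) := hc.sub hpc
    have hsum := Lam_add (psi_BL l) hp hq hpc hqc
    have e : (fun z => max (h z - ε) 0 + (h z - max (h z - ε) 0)) = h := by ext z; ring
    rw [e] at hsum
    have h1 : Lam (psi l) (fun z => max (h z - ε) 0) = 0 := by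
      -- gap on the compact set `h ≥ ε`
      set S : Set ℂ := {z | ε ≤ h z} with hS
      have hSc : IsCompact S := by
        apply IsCompact.of_isClosed_subset hc.isCompact
        · exact isClosed_le continuous_const hh.continuous
        · intro z hz
          apply subset_tsupport
          have : ε ≤ h z := hz
          exact (hε.trans_le this).ne'
      rcases S.eq_empty_or_nonempty with hSe | hSn
      · apply Lam_eq_zero (psi_BL l) hp hpc one_pos
        intro r _ _ z hz
        exfalso
        apply hz
        have : z ∉ S := by rw [hSe]; exact notMem_empty z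
        apply max_eq_right
        have : h z < ε := not_le.1 this
        linarith
      · obtain ⟨z0, hz0, hmin⟩ := hSc.exists_isMinOn hSn
          ((obs_continuous l).sub (psi_continuous l)).continuousOn
        have hpos : 0 < obs l z0 - psi l z0 := by
          have h2 : psi l z0 ≠ obs l z0 := by
            intro h3
            have h4 := hK z0 h3
            have h5 : ε ≤ h z0 := hz0
            linarith
          have h3 := psi_le_obs l z0
          have : psi l z0 < obs l z0 := lt_of_le_of_ne h3 h2
          linarith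
        set c := obs l z0 - psi l z0 with hcdef
        apply Lam_eq_zero (psi_BL l) hp hpc (r0 := min 1 (c / 13)) (by positivity)
        intro r hr hr' z hz
        have hzS : z ∈ S := by
          by_contra hcon
          apply hz
          have : h z < ε := not_le.1 hcon
          apply max_eq_right
          linarith
        have h2 : c ≤ obs l z - psi l z := hmin hzS
        have hr1 : r < 1 := lt_of_lt_of_le hr' (min_le_left _ _)
        have hr2 : r < c / 13 := lt_of_lt_of_le hr' (min_le_right _ _)
        apply Env_mean kap_pos.le (obs_ge l) (obs_lip l) (by norm_num) hr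
        change psi l z + 2 * 6 * r + kap * r ^ 2 ≤ obs l z
        have h3 : kap * r ^ 2 ≤ r := by
          have : kap ≤ 1 := by norm_num [kap]
          have : r ^ 2 ≤ r := by nlinarith
          nlinarith [kap_pos, sq_nonneg r]
        linarith
    have h2 : Lam (psi l) (fun z => h z - max (h z - ε) 0) ≤ ε * Lam (psi l) b := by
      rw [← Lam_smul hb1]
      apply Lam_mono (psi_BL l) (psi_Sub l) hq ((BL.const ε).mul hb1) hqc
        (HasCompactSupport.mul_left hbc)
      intro z
      by_cases hz : h z = 0
      · rw [hz]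
        have : max ((0 : ℝ) - ε) 0 = 0 := max_eq_right (by linarith)
        rw [this, sub_zero]
        exact mul_nonneg hε.le (hb2 z).1
      · have h3 := (hb2 z).2 hz
        have h4 : h z - max (h z - ε) 0 ≤ ε := by
          have := le_max_left (h z - ε) 0
          linarith
        nlinarith
    linarith
  by_contra hcon
  push Not at hcon
  have hbn := Lam_nonneg (psi_BL l) (psi_Sub l) hb1 hbc (fun z => (hb2 z).1)
  have := key (Lam (psi l) h / (2 * (Lam (psi l) b + 1))) (by positivity)
  have h3 : Lam (psi l) h / (2 * (Lam (psi l) b + 1)) * Lam (psi l) b ≤ Lam (psi l) h / 2 := by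
    rw [div_mul_eq_mul_div, div_le_div_iff₀ (by positivity) (by norm_num)]
    nlinarith
  linarith

/-- Monotonicity on the contact set. -/
lemma Lam_mono_contact {l : ℝ} {g h : ℂ → ℝ} (hg : BL g) (hh : BL h)
    (hgc : HasCompactSupport g) (hhc : HasCompactSupport h)
    (hle : ∀ z, psi l z = obs l z → g z ≤ h z) : Lam (psi l) g ≤ Lam (psi l) h := by
  have hd : BL (fun z => max (g z - h z) 0) := (hg.sub hh).max (BL.const 0)
  have hdc : HasCompactSupport (fun z => max (g z - h z) 0) := by
    apply HasCompactSupport.of_support_subset_isCompact (hgc.isCompact.union hhc.isCompact)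
    intro z hz
    by_contra hcon
    rw [mem_union, not_or] at hcon
    apply hz
    simp only
    rw [image_eq_zero_of_notMem_tsupport hcon.1, image_eq_zero_of_notMem_tsupport hcon.2]
    simp
  have h1 := Lam_support (l := l) hd hdc (fun z => le_max_right _ _) (fun z hz => by
    apply max_eq_right
    have := hle z hz
    linarith)
  have h2 := Lam_add (psi_BL l) hh hd hhc hdc
  have h3 : Lam (psi l) g ≤ Lam (psi l) (fun z => h z + max (g z - h z) 0) := by
    apply Lam_mono (psi_BL l) (psi_Sub l) hg (hh.add hd) hgc (hhc.add hdc)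
    intro z
    have := le_max_left (g z - h z) 0
    linarith
  linarith

end Pool.Agent.H907R2
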