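import Pool.Agent.H907R2.Harm

/-!
Envelopes: the largest `v` below `f` such that `v + κ|z|²` is subharmonic.
-/

open MeasureTheory Metric Set Complex Real
open scoped Topology ContDiff

namespace Pool.Agent.H907R2

lemma circleAverage_dir (v : ℂ → ℝ) (z ξ : ℂ) :
    circleAverage v z ‖ξ‖ =
      (2 * π)⁻¹ * ∫ θ in (0)..(2 * π), v (z + Complex.exp (θ * Complex.I) * ξ) := by
  rw [circleAverage_eq_integral_add (Complex.arg ξ)]
  simp only [smul_eq_mul]
  congr 1
  apply intervalIntegral.integral_congr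
  intro θ _
  simp only
  congr 1
  rw [circleMap]
  congr 1
  have h := Complex.norm_mul_exp_arg_mul_I ξ
  conv_rhs => rw [← h]
  push_cast
  rw [add_mul, Complex.exp_add]
  ring

lemma circleAverage_comp_add (v : ℂ → ℝ) (a z : ℂ) (r : ℝ) :
    circleAverage (fun w => v (w + a)) z r = circleAverage v (z + a) r := by
  rw [← circleAverage_map_add_const, ← circleAverage_map_add_const (f := v)]
  simp only [add_assoc]

lemma circleAverage_comp_rot (v : ℂ → ℝ) {e : ℂ} (he : ‖e‖ = 1) (z : ℂ) {r : ℝ} (hr : 0 ≤ r) :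
    circleAverage (fun w => v (e * w)) z r = circleAverage v (e * z) r := by
  have h1 : r = ‖(r : ℂ)‖ := by simp [abs_of_nonneg hr]
  have h2 : r = ‖e * (r : ℂ)‖ := by rw [norm_mul, he, ← h1]; simp
  conv_lhs => rw [h1]
  conv_rhs => rw [h2]
  rw [circleAverage_dir, circleAverage_dir]
  congr 1
  apply intervalIntegral.integral_congr
  intro θ _
  simp only
  congr 1
  ring

/-- Competitors for the envelope. -/
def Comp (κ : ℝ) (f : ℂ → ℝ) : Set (ℂ → ℝ) := {v | Continuous v ∧ Sub κ v ∧ ∀ z, v z ≤ f z}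

/-- The envelope. -/
noncomputable def Env (κ : ℝ) (f : ℂ → ℝ) (z : ℂ) : ℝ := sSup ((fun v : ℂ → ℝ => v z) '' Comp κ f)

lemma Sub_const {κ : ℝ} (hκ : 0 ≤ κ) (a : ℝ) : Sub κ (fun _ => a) := by
  intro z r _
  rw [circleAverage_const]
  nlinarith [mul_nonneg hκ (sq_nonneg r)]

lemma Sub.add_const {κ : ℝ} {v : ℂ → ℝ} (hc : Continuous v) (hv : Sub κ v) (a : ℝ) :
    Sub κ (fun z => v z + a) := by
  intro z r hr
  rw [circleAverage_fun_add (cont_circleIntegrable hc _ _)
    (cont_circleIntegrable continuous_const _ _), circleAverage_const]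
  have := hv z r hr
  linarith

lemma Sub.translate {κ : ℝ} {v : ℂ → ℝ} (hv : Sub κ v) (a : ℂ) :
    Sub κ (fun z => v (z + a)) := by
  intro z r hr
  rw [circleAverage_comp_add]
  exact hv (z + a) r hr

lemma Sub.rotate {κ : ℝ} {v : ℂ → ℝ} (hv : Sub κ v) {e : ℂ} (he : ‖e‖ = 1) :
    Sub κ (fun z => v (e * z)) := by
  intro z r hr
  rw [circleAverage_comp_rot v he z hr.le]
  exact hv (e * z) r hr

lemma Sub.convex {κ : ℝ} {v w : ℂ → ℝ} (hvc : Continuous v) (hwc : Continuous w)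
    (hv : Sub κ v) (hw : Sub κ w) {a b : ℝ} (ha : 0 ≤ a) (hb : 0 ≤ b) (hab : a + b = 1) :
    Sub κ (fun z => a * v z + b * w z) := by
  intro z r hr
  rw [circleAverage_fun_add (cont_circleIntegrable (by fun_prop) _ _)
    (cont_circleIntegrable (by fun_prop) _ _)]
  have e1 : circleAverage (fun z => a * v z) z r = a * circleAverage v z r :=
    circleAverage_fun_smul (a := a) (f := v)
  have e2 : circleAverage (fun z => b * w z) z r = b * circleAverage w z r :=
    circleAverage_fun_smul (a := b) (f := w)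
  rw [e1, e2]
  have h1 := mul_le_mul_of_nonneg_left (hv z r hr) ha
  have h2 := mul_le_mul_of_nonneg_left (hw z r hr) hb
  have h3 : κ * r ^ 2 = a * (κ * r ^ 2) + b * (κ * r ^ 2) := by rw [← add_mul, hab, one_mul]
  rw [h3]
  linarith

variable {κ : ℝ} {f g : ℂ → ℝ} {m L : ℝ}

lemma const_mem_Comp (hκ : 0 ≤ κ) (hm : ∀ z, m ≤ f z) : (fun _ => m) ∈ Comp κ f :=
  ⟨continuous_const, Sub_const hκ m, hm⟩

lemma Comp_bddAbove (z : ℂ) : BddAbove ((fun v : ℂ → ℝ => v z) '' Comp κ f) := by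
  refine ⟨f z, ?_⟩
  rintro _ ⟨v, hv, rfl⟩
  exact hv.2.2 z

lemma le_Env {v : ℂ → ℝ} (hv : v ∈ Comp κ f) (z : ℂ) : v z ≤ Env κ f z :=
  le_csSup (Comp_bddAbove z) ⟨v, hv, rfl⟩

lemma Env_le_of (hκ : 0 ≤ κ) (hm : ∀ z, m ≤ f z) {z : ℂ} {a : ℝ}
    (h : ∀ v ∈ Comp κ f, v z ≤ a) : Env κ f z ≤ a := by
  refine csSup_le ⟨m, (fun _ => m), const_mem_Comp hκ hm, rfl⟩ ?_
  rintro _ ⟨v, hv, rfl⟩
  exact h v hv

lemma Env_le (hκ : 0 ≤ κ) (hm : ∀ z, m ≤ f z) (z : ℂ) : Env κ f z ≤ f z :=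
  Env_le_of hκ hm fun _ hv => hv.2.2 z

lemma Env_ge (hκ : 0 ≤ κ) (hm : ∀ z, m ≤ f z) (z : ℂ) : m ≤ Env κ f z :=
  le_Env (const_mem_Comp hκ hm) z

lemma Env_lip (hκ : 0 ≤ κ) (hm : ∀ z, m ≤ f z) (hL : ∀ z w, f z ≤ f w + L * ‖z - w‖) (z w : ℂ) :
    Env κ f z ≤ Env κ f w + L * ‖z - w‖ := by
  apply Env_le_of hκ hm
  intro v hv
  have hmem : (fun x => v (x + (z - w)) + (-(L * ‖z - w‖))) ∈ Comp κ f := by
    refine ⟨?_, ?_, ?_⟩
    · have := hv.1; fun_prop
    · exact (hv.2.1.translate (z - w)).add_const (by have := hv.1; fun_prop) _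
    · intro x
      have h1 := hv.2.2 (x + (z - w))
      have h2 := hL (x + (z - w)) x
      simp only [add_sub_cancel_left] at h2
      linarith
  have := le_Env hmem w
  simp only [add_sub_cancel] at this
  linarith

lemma lip_continuous {v : ℂ → ℝ} (hL : ∀ z w, v z ≤ v w + L * ‖z - w‖) : Continuous v := by
  have hL' : ∀ z w, v z ≤ v w + |L| * ‖z - w‖ := fun z w =>
    (hL z w).trans (by gcongr; exact le_abs_self L)
  have : LipschitzWith (Real.toNNReal |L|) v := by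
    apply LipschitzWith.of_dist_le_mul
    intro z w
    rw [Real.dist_eq, Real.coe_toNNReal _ (abs_nonneg L), dist_eq_norm, abs_le]
    constructor
    · have := hL' w z; rw [norm_sub_rev] at this; linarith
    · have := hL' z w; linarith
  exact this.continuous

lemma Env_continuous (hκ : 0 ≤ κ) (hm : ∀ z, m ≤ f z) (hL : ∀ z w, f z ≤ f w + L * ‖z - w‖) :
    Continuous (Env κ f) := lip_continuous (Env_lip hκ hm hL)

lemma Env_Sub (hκ : 0 ≤ κ) (hm : ∀ z, m ≤ f z) (hL : ∀ z w, f z ≤ f w + L * ‖z - w‖) :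
    Sub κ (Env κ f) := by
  intro z r hr
  apply Env_le_of hκ hm
  intro v hv
  refine (hv.2.1 z r hr).trans ?_
  have := circleAverage_mono (c := z) (R := r) (cont_circleIntegrable hv.1 _ _)
    (cont_circleIntegrable (Env_continuous hκ hm hL) _ _) (fun x _ => le_Env hv x)
  linarith

lemma Env_mem (hκ : 0 ≤ κ) (hm : ∀ z, m ≤ f z) (hL : ∀ z w, f z ≤ f w + L * ‖z - w‖) :
    Env κ f ∈ Comp κ f :=
  ⟨Env_continuous hκ hm hL, Env_Sub hκ hm hL, Env_le hκ hm⟩

lemma Env_mono (hκ : 0 ≤ κ) (hm : ∀ z, m ≤ f z) (hfg : ∀ z, f z ≤ g z) (z : ℂ) :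
    Env κ f z ≤ Env κ g z :=
  Env_le_of hκ hm fun _ hv => le_Env ⟨hv.1, hv.2.1, fun w => (hv.2.2 w).trans (hfg w)⟩ z

lemma Env_eq_self (hκ : 0 ≤ κ) (hm : ∀ z, m ≤ f z) (hc : Continuous f) (hs : Sub κ f) (z : ℂ) :
    Env κ f z = f z :=
  le_antisymm (Env_le hκ hm z) (le_Env ⟨hc, hs, fun _ => le_rfl⟩ z)

lemma Env_add_const_le (hκ : 0 ≤ κ) (hm : ∀ z, m ≤ f z) (a : ℝ) (z : ℂ) :
    Env κ f z + a ≤ Env κ (fun z => f z + a) z := by
  have : Env κ f z ≤ Env κ (fun z => f z + a) z - a := by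
    apply Env_le_of hκ hm
    intro v hv
    have := le_Env (κ := κ) (f := fun z => f z + a) (v := fun z => v z + a)
      ⟨by have := hv.1; fun_prop, hv.2.1.add_const hv.1 a, fun w => by
        have := hv.2.2 w
        simp only
        linarith⟩ z
    linarith
  linarith

lemma Env_add_const (hκ : 0 ≤ κ) (hm : ∀ z, m ≤ f z) (a : ℝ) (z : ℂ) :
    Env κ (fun z => f z + a) z = Env κ f z + a := by
  apply le_antisymm _ (Env_add_const_le hκ hm a z)
  have := Env_add_const_le (f := fun z => f z + a) (m := m + a) hκ (fun z => by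
    have := hm z; linarith) (-a) z
  simp only [add_neg_cancel_right] at this
  have h2 : (fun z => f z) = f := rfl
  rw [h2] at this
  linarith

lemma Env_translate_le (hκ : 0 ≤ κ) (hm : ∀ z, m ≤ f z) (a : ℂ) (z : ℂ) :
    Env κ (fun w => f (w + a)) z ≤ Env κ f (z + a) := by
  apply Env_le_of (m := m) hκ (fun w => hm _)
  intro v hv
  have := le_Env (κ := κ) (f := f) (v := fun w => v (w + (-a)))
    ⟨by have := hv.1; fun_prop, hv.2.1.translate (-a), fun w => by
      have := hv.2.2 (w + (-a))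
      simpa using this⟩ (z + a)
  simpa using this

lemma Env_translate (hκ : 0 ≤ κ) (hm : ∀ z, m ≤ f z) (a : ℂ) (z : ℂ) :
    Env κ (fun w => f (w + a)) z = Env κ f (z + a) := by
  apply le_antisymm (Env_translate_le hκ hm a z)
  have := Env_translate_le (f := fun w => f (w + a)) (m := m) hκ (fun w => hm _) (-a) (z + a)
  simpa using this

lemma Env_rotate_le (hκ : 0 ≤ κ) (hm : ∀ z, m ≤ f z) {e : ℂ} (he : ‖e‖ = 1) (z : ℂ) :
    Env κ (fun w => f (e * w)) z ≤ Env κ f (e * z) := by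
  have he0 : e ≠ 0 := by rintro rfl; simp at he
  apply Env_le_of (m := m) hκ (fun w => hm _)
  intro v hv
  have he' : ‖e⁻¹‖ = 1 := by rw [norm_inv, he, inv_one]
  have := le_Env (κ := κ) (f := f) (v := fun w => v (e⁻¹ * w))
    ⟨by have := hv.1; fun_prop, hv.2.1.rotate he', fun w => by
      have := hv.2.2 (e⁻¹ * w)
      simpa [← mul_assoc, mul_inv_cancel₀ he0] using this⟩ (e * z)
  simpa [← mul_assoc, inv_mul_cancel₀ he0] using this

lemma Env_rotate (hκ : 0 ≤ κ) (hm : ∀ z, m ≤ f z) {e : ℂ} (he : ‖e‖ = 1) (z : ℂ) :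
    Env κ (fun w => f (e * w)) z = Env κ f (e * z) := by
  have he0 : e ≠ 0 := by rintro rfl; simp at he
  apply le_antisymm (Env_rotate_le hκ hm he z)
  have he' : ‖e⁻¹‖ = 1 := by rw [norm_inv, he, inv_one]
  have := Env_rotate_le (f := fun w => f (e * w)) (m := m) hκ (fun w => hm _) he' (e * z)
  simpa [← mul_assoc, inv_mul_cancel₀ he0, mul_inv_cancel₀ he0] using this

lemma Env_concave (hκ : 0 ≤ κ) {m' L' : ℝ} (hm : ∀ z, m ≤ f z)
    (hL : ∀ z w, f z ≤ f w + L * ‖z - w‖) (hm' : ∀ z, m' ≤ g z)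
    (hL' : ∀ z w, g z ≤ g w + L' * ‖z - w‖) {h : ℂ → ℝ} {a b : ℝ} (ha : 0 ≤ a) (hb : 0 ≤ b)
    (hab : a + b = 1) (hh : ∀ z, a * f z + b * g z ≤ h z) (z : ℂ) :
    a * Env κ f z + b * Env κ g z ≤ Env κ h z := by
  have h1 := Env_mem hκ hm hL
  have h2 := Env_mem hκ hm' hL'
  refine le_Env (v := fun z => a * Env κ f z + b * Env κ g z) ⟨?_, ?_, ?_⟩ z
  · have := h1.1; have := h2.1; fun_prop
  · exact Sub.convex h1.1 h2.1 h1.2.1 h2.2.1 ha hb hab
  · intro w
    refine le_trans ?_ (hh w)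
    have e1 := mul_le_mul_of_nonneg_left (h1.2.2 w) ha
    have e2 := mul_le_mul_of_nonneg_left (h2.2.2 w) hb
    exact add_le_add e1 e2

/-- `Sub κ v` in terms of the honest submean property of `v + κ |w - c|²`. -/
lemma Sub.submean {v : ℂ → ℝ} (hc : Continuous v) (hv : Sub κ v) (c z : ℂ) {r : ℝ} (hr : 0 < r) :
    v z + κ * ‖z - c‖ ^ 2 ≤ circleAverage (fun w => v w + κ * ‖w - c‖ ^ 2) z r := by
  rw [circleAverage_fun_add (cont_circleIntegrable hc _ _)
    (cont_circleIntegrable (by fun_prop) _ _)]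
  have e : circleAverage (fun w => κ * ‖w - c‖ ^ 2) z r = κ * (‖z - c‖ ^ 2 + r ^ 2) := by
    rw [← circleAverage_normSq]
    exact circleAverage_fun_smul (a := κ) (f := fun w => ‖w - c‖ ^ 2)
  rw [e]
  have := hv z r hr
  linarith

lemma circleAverage_sub_quad {v : ℂ → ℝ} (hc : Continuous v) (c z : ℂ) (r : ℝ) :
    circleAverage (fun w => v w - κ * ‖w - c‖ ^ 2) z r =
      circleAverage v z r - κ * (‖z - c‖ ^ 2 + r ^ 2) := by
  rw [circleAverage_fun_sub (cont_circleIntegrable hc _ _)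
    (cont_circleIntegrable (by fun_prop) _ _)]
  congr 1
  rw [← circleAverage_normSq]
  exact circleAverage_fun_smul (a := κ) (f := fun w => ‖w - c‖ ^ 2)

/-- In the noncontact region, the envelope coincides with its Poisson modification. -/
lemma Env_eq_HD (hκ : 0 ≤ κ) (hm : ∀ z, m ≤ f z) (hL : ∀ z w, f z ≤ f w + L * ‖z - w‖)
    (hL0 : 0 ≤ L) {z : ℂ} {r : ℝ} (hr : 0 < r)
    (hgap : Env κ f z + 2 * L * r + κ * r ^ 2 ≤ f z) (w : ℂ) :
    Env κ f w + κ * ‖w - z‖ ^ 2 = HD (fun x => Env κ f x + κ * ‖x - z‖ ^ 2) z r w := by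
  set v := Env κ f with hv
  have hmem := Env_mem hκ hm hL
  have hvc : Continuous v := hmem.1
  set u := fun x => v x + κ * ‖x - z‖ ^ 2 with hu
  have huc : Continuous u := by simp only [hu]; fun_prop
  have hus : ∀ x, ∀ s, 0 < s → u x ≤ circleAverage u x s := fun x s hs =>
    Sub.submean hvc hmem.2.1 z x hs
  have hHc := HD_continuous (c := z) huc hr
  have hle := fun x => le_HD (c := z) (R := r) huc hr
    (fun x _ => ⟨1, one_pos, fun s hs _ => hus x s hs⟩) x
  apply le_antisymm (hle w)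
  have hcomp : (fun x => HD u z r x - κ * ‖x - z‖ ^ 2) ∈ Comp κ f := by
    refine ⟨by fun_prop, ?_, ?_⟩
    · intro x s hs
      rw [circleAverage_sub_quad hHc]
      have := HD_submean (c := z) huc hr hus x hs
      linarith
    · intro x
      by_cases hx : x ∈ ball z r
      · have hM : ∀ ζ ∈ sphere z r, u ζ ≤ v z + L * r + κ * r ^ 2 := by
          intro ζ hζ
          rw [mem_sphere_iff_norm] at hζ
          have h1 := Env_lip hκ hm hL ζ z
          rw [hζ] at h1
          simp only [hu, hζ]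
          linarith
        have h2 := HD_le huc hM hx
        rw [mem_ball_iff_norm] at hx
        have h3 := hL z x
        rw [norm_sub_rev] at h3
        have h4 : L * ‖x - z‖ ≤ L * r := by gcongr
        have h5 : 0 ≤ κ * ‖x - z‖ ^ 2 := by positivity
        linarith
      · have e1 : HD u z r x = u x := HD_of_notMem hx
        have := hmem.2.2 x
        simp only [hu] at e1
        linarith
  have := le_Env hcomp w
  linarith

/-- Mean value property in the noncontact region. -/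
lemma Env_mean (hκ : 0 ≤ κ) (hm : ∀ z, m ≤ f z) (hL : ∀ z w, f z ≤ f w + L * ‖z - w‖)
    (hL0 : 0 ≤ L) {z : ℂ} {r : ℝ} (hr : 0 < r)
    (hgap : Env κ f z + 2 * L * r + κ * r ^ 2 ≤ f z) :
    circleAverage (Env κ f) z r + κ * r ^ 2 = Env κ f z := by
  have h := Env_eq_HD hκ hm hL hL0 hr hgap z
  rw [HD_center hr] at h
  have hc := Env_continuous hκ hm hL
  rw [circleAverage_fun_add (cont_circleIntegrable hc _ _)
    (cont_circleIntegrable (by fun_prop) _ _)] at h
  have e : circleAverage (fun w => κ * ‖w - z‖ ^ 2) z r = κ * (‖z - z‖ ^ 2 + r ^ 2) := by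
    rw [← circleAverage_normSq]
    exact circleAverage_fun_smul (a := κ) (f := fun w => ‖w - z‖ ^ 2)
  rw [e] at h
  simp only [sub_self, norm_zero, ne_eq, OfNat.ofNat_ne_zero, not_false_eq_true, zero_pow,
    mul_zero, add_zero, zero_add] at h
  linarith

end Pool.Agent.H907R2
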