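import Pool.Agent.H907R2.Data

/-!
The family of envelopes `ψ_λ` and the weak geodesic `U`.
-/

open MeasureTheory Metric Set Complex Real
open scoped Topology ContDiff

namespace Pool.Agent.H907R2

/-- Obstacle. -/
noncomputable def obs (l : ℝ) (z : ℂ) : ℝ := min (phi0 z) (phi1 z - l)

/-- Rooftop envelope. -/
noncomputable def psi (l : ℝ) (z : ℂ) : ℝ := Env kap (obs l) z

lemma obs_ge (l : ℝ) (z : ℂ) : -6 - |l| ≤ obs l z := by
  apply le_min
  · have := phi0_ge z
    have := abs_nonneg l
    linarith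
  · have := phi1_ge z
    have := le_abs_self l
    linarith

lemma obs_lip (l : ℝ) (z w : ℂ) : obs l z ≤ obs l w + 6 * ‖z - w‖ := by
  have h0 := phi0_lip z w
  have h1 := phi1_lip z w
  have : obs l z - 6 * ‖z - w‖ ≤ obs l w := by
    apply le_min
    · have : obs l z ≤ phi0 z := min_le_left _ _
      linarith
    · have : obs l z ≤ phi1 z - l := min_le_right _ _
      linarith
  linarith

lemma psi_mem (l : ℝ) : psi l ∈ Comp kap (obs l) := Env_mem kap_pos.le (obs_ge l) (obs_lip l)

lemma psi_Sub (l : ℝ) : Sub kap (psi l) := (psi_mem l).2.1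

lemma psi_le_obs (l : ℝ) (z : ℂ) : psi l z ≤ obs l z := (psi_mem l).2.2 z

lemma psi_le0 (l : ℝ) (z : ℂ) : psi l z ≤ phi0 z := (psi_le_obs l z).trans (min_le_left _ _)
lemma psi_le1 (l : ℝ) (z : ℂ) : psi l z ≤ phi1 z - l := (psi_le_obs l z).trans (min_le_right _ _)

lemma psi_ge (l : ℝ) (z : ℂ) : -6 - |l| ≤ psi l z := Env_ge kap_pos.le (obs_ge l) z

lemma psi_lip (l : ℝ) (z w : ℂ) : psi l z ≤ psi l w + 6 * ‖z - w‖ :=
  Env_lip kap_pos.le (obs_ge l) (obs_lip l) z w

lemma psi_continuous (l : ℝ) : Continuous (psi l) := (psi_mem l).1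

lemma psi_anti {l l' : ℝ} (h : l ≤ l') (z : ℂ) : psi l' z ≤ psi l z := by
  apply Env_mono kap_pos.le (obs_ge l')
  intro w
  apply min_le_min le_rfl
  linarith

lemma psi_slope {l l' : ℝ} (h : l ≤ l') (z : ℂ) : psi l z ≤ psi l' z + (l' - l) := by
  have h1 := Env_add_const_le (f := obs l) kap_pos.le (obs_ge l) (-(l' - l)) z
  have h2 : Env kap (fun z => obs l z + -(l' - l)) z ≤ psi l' z := by
    apply Env_mono (m := -6 - |l| - (l' - l)) kap_pos.le
    · intro w
      have := obs_ge l w
      linarith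
    · intro w
      apply le_min
      · have : obs l w ≤ phi0 w := min_le_left _ _
        linarith
      · have : obs l w ≤ phi1 w - l := min_le_right _ _
        linarith
  change Env kap (obs l) z ≤ _
  linarith

lemma psi_concave {a b c : ℝ} (hab : a ≤ b) (hbc : b ≤ c) (z : ℂ) :
    (c - b) * psi a z + (b - a) * psi c z ≤ (c - a) * psi b z := by
  rcases eq_or_lt_of_le (hab.trans hbc) with h | h
  · have h1 : a = b := le_antisymm hab (by linarith)
    have h2 : b = c := le_antisymm hbc (by linarith)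
    subst h1; subst h2; simp
  · have hca : 0 < c - a := by linarith
    have h1 := Env_concave (κ := kap) (f := obs a) (g := obs c) kap_pos.le (obs_ge a)
      (obs_lip a) (obs_ge c) (obs_lip c) (h := obs b) (a := (c - b) / (c - a))
      (b := (b - a) / (c - a)) (div_nonneg (by linarith) hca.le) (div_nonneg (by linarith) hca.le)
      (by field_simp; ring) ?_ z
    · have h2 : psi b z = Env kap (obs b) z := rfl
      have h3 : psi a z = Env kap (obs a) z := rfl
      have h4 : psi c z = Env kap (obs c) z := rfl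
      rw [h2, h3, h4]
      have h5 := mul_le_mul_of_nonneg_left h1 hca.le
      have h6 : (c - a) * ((c - b) / (c - a) * Env kap (obs a) z +
          (b - a) / (c - a) * Env kap (obs c) z) =
          (c - b) * Env kap (obs a) z + (b - a) * Env kap (obs c) z := by
        field_simp
      linarith
    · intro w
      have e1 : (c - b) / (c - a) + (b - a) / (c - a) = 1 := by field_simp; ring
      have p1 : 0 ≤ (c - b) / (c - a) := div_nonneg (by linarith) hca.le
      have p2 : 0 ≤ (b - a) / (c - a) := div_nonneg (by linarith) hca.le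
      have k1 : obs a w ≤ phi0 w := min_le_left _ _
      have k2 : obs a w ≤ phi1 w - a := min_le_right _ _
      have k3 : obs c w ≤ phi0 w := min_le_left _ _
      have k4 : obs c w ≤ phi1 w - c := min_le_right _ _
      apply le_min
      · calc _ ≤ (c - b) / (c - a) * phi0 w + (b - a) / (c - a) * phi0 w := by gcongr
          _ = phi0 w := by rw [← add_mul, e1, one_mul]
      · calc _ ≤ (c - b) / (c - a) * (phi1 w - a) + (b - a) / (c - a) * (phi1 w - c) := by gcongr
          _ = phi1 w - b := by field_simp; ring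

lemma psi_neg9 (z : ℂ) : psi (-9) z = phi0 z := by
  have : obs (-9) = phi0 := by
    ext w
    apply min_eq_left
    have := phi0_le w
    have := phi1_ge w
    linarith
  rw [psi, this]
  exact Env_eq_self kap_pos.le phi0_ge phi0_smooth.continuous (phi0_Sub (by norm_num [kap])) z

lemma phi1_sub9_mem : Sub kap (fun z => phi1 z - 9) := by
  have := (phi1_Sub (κ := kap) (by norm_num [kap])).add_const phi1_smooth.continuous (-9)
  simpa [sub_eq_add_neg] using this

lemma psi_9 (z : ℂ) : psi 9 z = phi1 z - 9 := by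
  have : obs 9 = fun z => phi1 z - 9 := by
    ext w
    apply min_eq_right
    have := phi0_ge w
    have := phi1_le w
    linarith
  rw [psi, this]
  refine Env_eq_self (m := -15) kap_pos.le (fun z => ?_) ?_ phi1_sub9_mem z
  · have := phi1_ge z
    linarith
  · have := phi1_smooth.continuous
    fun_prop

lemma psi_rot (l : ℝ) (z : ℂ) : psi l (e3 * z) = psi l z := by
  have hn : ‖e3‖ = 1 := norm_of_cube e3_eq
  have := Env_rotate (κ := kap) kap_pos.le (obs_ge l) hn z
  have e : (fun w => obs l (e3 * w)) = obs l := by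
    ext w; simp only [obs, phi0_rot, phi1_rot]
  rw [e] at this
  exact this.symm

lemma psi_periodic {a : ℂ} (h0 : ∀ z, phi0 (z + a) = phi0 z) (h1 : ∀ z, phi1 (z + a) = phi1 z)
    (l : ℝ) (z : ℂ) : psi l (z + a) = psi l z := by
  have := Env_translate (κ := kap) kap_pos.le (obs_ge l) a z
  have e : (fun w => obs l (w + a)) = obs l := by
    ext w; simp only [obs, h0, h1]
  rw [e] at this
  exact this.symm

lemma psi_neg (l : ℝ) (z : ℂ) : psi (-l) z = psi l (-z) + l := by
  have h1 := Env_rotate (κ := kap) kap_pos.le (obs_ge l) (e := -1) (by simp) z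
  have e : (fun w => obs l (-1 * w)) = fun w => obs (-l) w + (-l) := by
    ext w
    simp only [obs, neg_mul, one_mul]
    rw [← min_add_add_right, min_comm]
    congr 1
    · rw [phi1, neg_neg]; ring
    · simp only [phi1]; ring
  rw [e, Env_add_const kap_pos.le (obs_ge (-l))] at h1
  simp only [neg_mul, one_mul] at h1
  change Env kap (obs (-l)) z = Env kap (obs l) (-z) + l
  linarith

/-! ### The geodesic -/

/-- The weak geodesic. -/
noncomputable def U (z : ℂ) (s : ℝ) : ℝ := sSup ((fun l => psi l z + l * s) '' Icc (-9) 9)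

lemma psi_abs {l l' : ℝ} (z : ℂ) : |psi l z - psi l' z| ≤ |l - l'| := by
  rcases le_total l l' with h | h
  · rw [abs_of_nonneg (by have := psi_anti h z; linarith), abs_of_nonpos (by linarith)]
    have := psi_slope h z
    linarith
  · rw [abs_of_nonpos (by have := psi_anti h z; linarith), abs_of_nonneg (by linarith)]
    have := psi_slope h z
    linarith

lemma psi_cont_l (z : ℂ) : Continuous (fun l => psi l z) := by
  have : LipschitzWith 1 (fun l => psi l z) := by
    apply LipschitzWith.of_dist_le_mul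
    intro l l'
    rw [Real.dist_eq, Real.dist_eq, NNReal.coe_one, one_mul]
    exact psi_abs z
  exact this.continuous

lemma U_bdd (z : ℂ) (s : ℝ) : BddAbove ((fun l => psi l z + l * s) '' Icc (-9) 9) := by
  apply (isCompact_Icc.image _).bddAbove
  have := psi_cont_l z
  fun_prop

lemma le_U {l : ℝ} (hl : l ∈ Icc (-9 : ℝ) 9) (z : ℂ) (s : ℝ) : psi l z + l * s ≤ U z s :=
  le_csSup (U_bdd z s) ⟨l, hl, rfl⟩

lemma U_le {z : ℂ} {s a : ℝ} (h : ∀ l ∈ Icc (-9 : ℝ) 9, psi l z + l * s ≤ a) : U z s ≤ a := by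
  refine csSup_le ⟨_, (-9 : ℝ), by norm_num, rfl⟩ ?_
  rintro _ ⟨l, hl, rfl⟩
  exact h l hl

lemma U_lip (z w : ℂ) (s t : ℝ) : U z s ≤ U w t + 6 * ‖z - w‖ + 9 * |s - t| := by
  apply U_le
  intro l hl
  have h1 := le_U hl w t
  have h2 := psi_lip l z w
  have h3 : l * (s - t) ≤ 9 * |s - t| := by
    refine (le_abs_self _).trans ?_
    rw [abs_mul]
    have : |l| ≤ 9 := abs_le.2 hl
    gcongr
  linarith

lemma U_zero (z : ℂ) : U z 0 = phi0 z := by
  apply le_antisymm
  · apply U_le
    intro l _
    have := psi_le0 l z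
    linarith
  · have := le_U (l := -9) (by norm_num) z 0
    rw [psi_neg9] at this
    linarith

lemma U_one (z : ℂ) : U z 1 = phi1 z := by
  apply le_antisymm
  · apply U_le
    intro l _
    have := psi_le1 l z
    linarith
  · have := le_U (l := 9) (by norm_num) z 1
    rw [psi_9] at this
    linarith

lemma U_rot (z : ℂ) (s : ℝ) : U (e3 * z) s = U z s := by
  simp only [U, psi_rot]

lemma U_periodic {a : ℂ} (h0 : ∀ z, phi0 (z + a) = phi0 z) (h1 : ∀ z, phi1 (z + a) = phi1 z)
    (z : ℂ) (s : ℝ) : U (z + a) s = U z s := by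
  simp only [U, psi_periodic h0 h1]

lemma U_cont : Continuous (fun p : ℂ × ℝ => U p.1 p.2) := by
  have : LipschitzWith 15 (fun p : ℂ × ℝ => U p.1 p.2) := by
    apply LipschitzWith.of_dist_le_mul
    intro p q
    have key : ∀ p q : ℂ × ℝ, U p.1 p.2 ≤ U q.1 q.2 + 15 * dist p q := by
      intro p q
      have h := U_lip p.1 q.1 p.2 q.2
      have h1 : ‖p.1 - q.1‖ ≤ dist p q := by
        rw [← dist_eq_norm, Prod.dist_eq]; exact le_max_left _ _
      have h2 : |p.2 - q.2| ≤ dist p q := by
        rw [← Real.dist_eq, Prod.dist_eq]; exact le_max_right _ _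
      linarith
    rw [Real.dist_eq, abs_le]
    have h1 := key p q
    have h2 := key q p
    rw [dist_comm q p] at h2
    constructor <;> (push_cast; linarith)
  exact this.continuous

/-- Plurisubharmonicity of the geodesic. -/
lemma U_psh (z ξ : ℂ) (s : ℝ) (S : ℝ → ℝ) (hS : Continuous S)
    (hs : s = (2 * π)⁻¹ * ∫ θ in (0)..(2 * π), S θ) :
    U z s ≤ (2 * π)⁻¹ * (∫ θ in (0)..(2 * π), U (z + Complex.exp (θ * Complex.I) * ξ) (S θ)) +
      kap * ‖ξ‖ ^ 2 := by
  apply U_le
  intro l hl
  have h1 : psi l z ≤ (2 * π)⁻¹ * (∫ θ in (0)..(2 * π), psi l (z + Complex.exp (θ * Complex.I) * ξ))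
      + kap * ‖ξ‖ ^ 2 := by
    by_cases hξ : ξ = 0
    · subst hξ
      simp only [mul_zero, add_zero, norm_zero, ne_eq, OfNat.ofNat_ne_zero, not_false_eq_true,
        zero_pow, intervalIntegral.integral_const, sub_zero, smul_eq_mul]
      rw [← mul_assoc, inv_mul_cancel₀ (by positivity), one_mul]
    · have := psi_Sub l z ‖ξ‖ (norm_pos_iff.2 hξ)
      rwa [circleAverage_dir] at this
  have hc1 : Continuous (fun θ : ℝ => psi l (z + Complex.exp (θ * Complex.I) * ξ)) := by
    have := psi_continuous l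
    fun_prop
  have hc2 : Continuous (fun θ : ℝ => U (z + Complex.exp (θ * Complex.I) * ξ) (S θ)) := by
    have e : (fun θ : ℝ => U (z + Complex.exp (θ * Complex.I) * ξ) (S θ)) =
      (fun p : ℂ × ℝ => U p.1 p.2) ∘ (fun θ : ℝ => (z + Complex.exp (θ * Complex.I) * ξ, S θ)) := rfl
    rw [e]
    exact U_cont.comp (by fun_prop)
  have h2 : (∫ θ in (0)..(2 * π), psi l (z + Complex.exp (θ * Complex.I) * ξ)) +
      l * (∫ θ in (0)..(2 * π), S θ) ≤
      ∫ θ in (0)..(2 * π), U (z + Complex.exp (θ * Complex.I) * ξ) (S θ) := by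
    have hc3 : Continuous (fun θ : ℝ => l * S θ) := by fun_prop
    rw [← intervalIntegral.integral_const_mul, ← intervalIntegral.integral_add
      (hc1.intervalIntegrable _ _) (hc3.intervalIntegrable _ _)]
    apply intervalIntegral.integral_mono_on (by positivity)
      ((hc1.add hc3).intervalIntegrable _ _) (hc2.intervalIntegrable _ _)
    intro θ _
    exact le_U hl _ _
  have h3 := mul_le_mul_of_nonneg_left h2 (by positivity : (0 : ℝ) ≤ (2 * π)⁻¹)
  rw [hs]
  have h4 : (2 * π)⁻¹ * ((∫ θ in (0)..(2 * π), psi l (z + Complex.exp (θ * Complex.I) * ξ)) +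
      l * (∫ θ in (0)..(2 * π), S θ)) =
      (2 * π)⁻¹ * (∫ θ in (0)..(2 * π), psi l (z + Complex.exp (θ * Complex.I) * ξ)) +
      l * ((2 * π)⁻¹ * ∫ θ in (0)..(2 * π), S θ) := by ring
  linarith

/-! ### Degeneracy at the origin -/

lemma psi_gap0 : psi 0 0 ≤ 3 - 1 / 100 := by
  have h := psi_mem 0
  have e : obs 0 = fun z => min (phi0 z) (phi1 z) := by
    ext z; simp [obs]
  rw [e] at h
  exact Comp_gap h

lemma psi_cubic {l : ℝ} (hl : |l| ≤ 1 / 1000) {w : ℂ} (hw : ‖w‖ ≤ 1 / 4000) :
    |psi l w + kap * ‖w‖ ^ 2 - psi l 0| ≤ 24 * 2000 ^ 3 * ‖w‖ ^ 3 := by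
  obtain ⟨R, hR⟩ : ∃ R : ℝ, R = 1 / 2000 := ⟨_, rfl⟩
  have hgap : Env kap (obs l) 0 + 2 * 6 * R + kap * R ^ 2 ≤ obs l 0 := by
    have h1 : psi l 0 ≤ 3 - 1 / 100 + 1 / 1000 := by
      have := psi_abs (l := l) (l' := 0) 0
      rw [sub_zero] at this
      have := (abs_le.1 (this.trans hl)).2
      have := psi_gap0
      linarith
    have h2 : 3 - 1 / 1000 ≤ obs l 0 := by
      apply le_min
      · rw [phi0_zero]; norm_num
      · rw [phi1_zero]
        have := (abs_le.1 hl).2
        linarith
    change psi l 0 + _ + _ ≤ _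
    have : 2 * 6 * R + kap * R ^ 2 ≤ 8 / 1000 := by
      rw [hR, kap]; norm_num
    linarith
  set u : ℂ → ℝ := fun x => psi l x + kap * ‖x‖ ^ 2 with hu
  have hHD : ∀ w, u w = HD u 0 R w := by
    intro w
    have := Env_eq_HD kap_pos.le (obs_ge l) (obs_lip l) (by norm_num : (0 : ℝ) ≤ 6)
      (by rw [hR]; norm_num : (0 : ℝ) < R) hgap w
    simp only [sub_zero] at this
    exact this
  have huc : Continuous u := by
    have := psi_continuous l
    simp only [hu]; fun_prop
  have hb := cubic_bound (u := u) (e := e3) (R := R) (M := 8) e3_eq (by rw [hR]; norm_num) huc ?_ ?_ ?_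
    (w := w) (by rw [hR]; linarith)
  · have e1 : u w - u 0 = psi l w + kap * ‖w‖ ^ 2 - psi l 0 := by
      simp [hu]
    rw [← e1]
    refine hb.trans (le_of_eq ?_)
    rw [hR]; norm_num
  · intro x
    simp only [hu, psi_rot, norm_mul, norm_of_cube e3_eq, one_mul]
  · intro x hx
    simp only [hu, hx]
    have h1 := psi_ge l x
    have h2 := (psi_le0 l x).trans (phi0_le x)
    rw [abs_le]
    constructor
    · have : 0 ≤ kap * R ^ 2 := by have := kap_pos; positivity
      linarith
    · have : kap * R ^ 2 ≤ 1 := by rw [hR, kap]; norm_num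
      linarith
  · intro x hx
    have h1 := hHD x
    rw [HD_of_mem (by simpa using hx)] at h1
    simpa using h1

/-- The midpoint of the geodesic is degenerate at the origin. -/
theorem U_degenerate {w : ℂ} (hw : ‖w‖ ≤ 1 / 4000) :
    |U w (1 / 2) + kap * ‖w‖ ^ 2 - U 0 (1 / 2)| ≤ 9001 * (24 * 2000 ^ 3) * ‖w‖ ^ 3 := by
  obtain ⟨C, hC⟩ : ∃ C : ℝ, C = 24 * 2000 ^ 3 := ⟨_, rfl⟩
  rw [← hC]
  have hC0 : 0 < C := by rw [hC]; norm_num
  obtain ⟨d, hd⟩ : ∃ d : ℝ, d = 1 / 1000 := ⟨_, rfl⟩
  have hd0 : 0 < d := by rw [hd]; norm_num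
  -- at the origin
  have hsym : ∀ l, psi (-l) 0 + (-l) / 2 = psi l 0 + l / 2 := by
    intro l
    rw [psi_neg, neg_zero]; ring
  have hmax0 : ∀ l, psi l 0 + l / 2 ≤ psi 0 0 := by
    intro l
    have key : ∀ l, 0 < l → psi l 0 + l / 2 ≤ psi 0 0 := by
      intro l hl
      have h1 := psi_concave (a := -l) (b := 0) (c := l) (by linarith) hl.le 0
      have h2 := hsym l
      nlinarith
    rcases lt_trichotomy l 0 with h | h | h
    · have := key (-l) (by linarith)
      have h2 := hsym l
      linarith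
    · subst h; simp
    · exact key l h
  have upper : ∀ w : ℂ, ‖w‖ ≤ 1 / 4000 → U w (1 / 2) + kap * ‖w‖ ^ 2 ≤
      psi 0 0 + 9001 * C * ‖w‖ ^ 3 := by
    intro w hw
    have hw3 : 0 ≤ C * ‖w‖ ^ 3 := by positivity
    have hcub : ∀ l, |l| ≤ d → psi l w + kap * ‖w‖ ^ 2 ≤ psi l 0 + C * ‖w‖ ^ 3 := by
      intro l hl
      rw [hd] at hl
      have := (abs_le.1 (psi_cubic hl hw)).2
      rw [← hC] at this
      linarith
    have hcub' : ∀ l, |l| ≤ d → psi l 0 - C * ‖w‖ ^ 3 ≤ psi l w + kap * ‖w‖ ^ 2 := by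
      intro l hl
      rw [hd] at hl
      have := (abs_le.1 (psi_cubic hl hw)).1
      rw [← hC] at this
      linarith
    have : U w (1 / 2) ≤ psi 0 0 + 9001 * C * ‖w‖ ^ 3 - kap * ‖w‖ ^ 2 := by
      apply U_le
      intro l hl
      have hdd : |d| ≤ d := by rw [abs_of_pos hd0]
      have hdd' : |-d| ≤ d := by rw [abs_neg, abs_of_pos hd0]
      have a1 := hcub d hdd
      have a2 := hcub' d hdd
      have b1 := hcub (-d) hdd'
      have b2 := hcub' (-d) hdd'
      have s1 := hsym d
      have m1 := hmax0 d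
      have m2 := hmax0 (-d)
      rcases le_or_gt |l| d with h | h
      · have := hcub l h
        have := hmax0 l
        nlinarith
      · rcases lt_abs.1 h with h | h
        · have c1 := psi_concave (a := -d) (b := d) (c := l) (by linarith) h.le w
          -- (l - d) ψ_{-d} + 2 d ψ_l ≤ (l + d) ψ_d
          have c2 : psi d w + d / 2 - (psi (-d) w + (-d) / 2) ≤ 2 * C * ‖w‖ ^ 3 := by
            linarith
          have c3 : (l - d) * (psi d w + d / 2 - (psi (-d) w + (-d) / 2)) ≤
              (l - d) * (2 * C * ‖w‖ ^ 3) := mul_le_mul_of_nonneg_left c2 (by linarith)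
          have c4 : (l - d) * (2 * C * ‖w‖ ^ 3) ≤ 9 * (2 * C * ‖w‖ ^ 3) := by
            apply mul_le_mul_of_nonneg_right _ (by positivity)
            have := hl.2
            linarith
          have c5 : 2 * d * (psi l w + l / 2) ≤ 2 * d * (psi d w + d / 2) +
              9 * (2 * C * ‖w‖ ^ 3) := by nlinarith
          have c6 : psi l w + l / 2 ≤ psi d w + d / 2 + 9000 * C * ‖w‖ ^ 3 := by
            have : 2 * d = 1 / 500 := by rw [hd]; norm_num
            rw [this] at c5
            linarith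
          linarith
        · have c1 := psi_concave (a := l) (b := -d) (c := d) (by linarith) (by linarith) w
          have c2 : psi (-d) w + (-d) / 2 - (psi d w + d / 2) ≤ 2 * C * ‖w‖ ^ 3 := by
            linarith
          have c3 : (-d - l) * (psi (-d) w + (-d) / 2 - (psi d w + d / 2)) ≤
              (-d - l) * (2 * C * ‖w‖ ^ 3) := mul_le_mul_of_nonneg_left c2 (by linarith)
          have c4 : (-d - l) * (2 * C * ‖w‖ ^ 3) ≤ 9 * (2 * C * ‖w‖ ^ 3) := by
            apply mul_le_mul_of_nonneg_right _ (by positivity)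
            have := hl.1
            linarith
          have c5 : 2 * d * (psi l w + l / 2) ≤ 2 * d * (psi (-d) w + (-d) / 2) +
              9 * (2 * C * ‖w‖ ^ 3) := by nlinarith
          have c6 : psi l w + l / 2 ≤ psi (-d) w + (-d) / 2 + 9000 * C * ‖w‖ ^ 3 := by
            have : 2 * d = 1 / 500 := by rw [hd]; norm_num
            rw [this] at c5
            linarith
          linarith
    linarith
  have lower : psi 0 0 - C * ‖w‖ ^ 3 ≤ U w (1 / 2) + kap * ‖w‖ ^ 2 := by
    have h1 := (abs_le.1 (psi_cubic (l := 0) (by norm_num) hw)).1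
    rw [← hC] at h1
    have h2 := le_U (l := 0) (by norm_num) w (1 / 2)
    linarith
  have hU0 : U 0 (1 / 2) = psi 0 0 := by
    apply le_antisymm
    · have := upper 0 (by simp)
      simpa using this
    · have := le_U (l := 0) (by norm_num) 0 (1 / 2)
      linarith
  rw [hU0, abs_le]
  have hw3 : 0 ≤ C * ‖w‖ ^ 3 := by positivity
  constructor
  · nlinarith
  · have := upper w hw
    linarith

end Pool.Agent.H907R2
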