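import Pool.Agent.H907R2.Compare

/-!
The first order formula with product cut-offs.
-/

open MeasureTheory Metric Set Complex Real Filter
open scoped Topology ContDiff NNReal

namespace Pool.Agent.H907R2

/-- integrand of the first order formula -/
noncomputable def G1 (a w : ℂ × ℂ → ℝ) (p q r t : ℂ × ℂ) (x : ℂ × ℂ) : ℝ :=
  D p (D r a) x * (D q w x * D t w x) + D q (D t a) x * (D p w x * D r w x) -
        D p (D t a) x * (D q w x * D r w x) - D q (D r a) x * (D p w x * D t w x)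

lemma G1_int {a w : ℂ × ℂ → ℝ} (ha : Sm a) (hac : HasCompactSupport a) (hw : Sm w)
    (p q r t : ℂ × ℂ) : Integrable (G1 a w p q r t) := by
  have hterm : ∀ p q r t : ℂ × ℂ, Integrable (fun x => D p (D r a) x * (D q w x * D t w x)) := by
    intro p q r t
    have h1 := DD_cont ha p r
    have h2 := (D_sm hw q).continuous
    have h3 := (D_sm hw t).continuous
    exact int_sm (by fun_prop) (cs_D (cs_D hac r) p).mul_right
  exact (((hterm p q r t).add (hterm q p t r)).sub (hterm p q t r)).sub (hterm q p r t)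

lemma MA_first {κ : ℝ} {a w : ℂ × ℂ → ℝ} (ha : Sm a) (hac : HasCompactSupport a) (hw : Sm w) :
    ∫ x, a x * MA κ w x = ∫ x, (4 * κ * (Lt a x * w x) - 1 / 2 * (G1 a w vx vs vx vs x +
      G1 a w vx vt vx vt x + G1 a w vy vs vy vs x + G1 a w vy vt vy vt x) +
      G1 a w vx vy vs vt x) := by
  have hF : ∀ p q r t, ∫ x, a x * br p q r t w w x = - ∫ x, G1 a w p q r t x :=
    fun p q r t => F_lemma ha hw hac p q r t
  have i0 : Integrable (fun x => 4 * κ * (a x * Lt w x)) :=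
    (int_sm (ha.continuous.mul (Lt_cont hw)) hac.mul_right).const_mul _
  have i0' : Integrable (fun x => 4 * κ * (Lt a x * w x)) :=
    (int_sm ((Lt_cont ha).mul hw.continuous) (cs_Lt hac).mul_right).const_mul _
  have iQ : Integrable (fun x => a x * Q w w x) :=
    int_sm (ha.continuous.mul (Q_cont hw hw)) hac.mul_right
  have e1 : ∫ x, a x * MA κ w x = ∫ x, (4 * κ * (a x * Lt w x) + a x * Q w w x) := by
    congr 1; ext x; rw [MA_eq hw]; ring
  have g := fun p q r t => G1_int ha hac hw p q r t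
  have s1 : Integrable (fun x => G1 a w vx vs vx vs x + G1 a w vx vt vx vt x) :=
    (g _ _ _ _).add (g _ _ _ _)
  have s2 : Integrable (fun x => G1 a w vx vs vx vs x + G1 a w vx vt vx vt x +
    G1 a w vy vs vy vs x) := s1.add (g _ _ _ _)
  have s3 : Integrable (fun x => G1 a w vx vs vx vs x + G1 a w vx vt vx vt x +
    G1 a w vy vs vy vs x + G1 a w vy vt vy vt x) := s2.add (g _ _ _ _)
  have s4 : Integrable (fun x => 1 / 2 * (G1 a w vx vs vx vs x + G1 a w vx vt vx vt x +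
    G1 a w vy vs vy vs x + G1 a w vy vt vy vt x)) := s3.const_mul _
  have s5 : Integrable (fun x => 4 * κ * (Lt a x * w x) - 1 / 2 * (G1 a w vx vs vx vs x +
      G1 a w vx vt vx vt x + G1 a w vy vs vy vs x + G1 a w vy vt vy vt x)) := i0'.sub s4
  rw [e1, i_add i0 iQ, integral_const_mul, ibp_Lt ha hw hac, int_Q ha hw hw hac,
    hF, hF, hF, hF, hF, i_add s5 (g _ _ _ _), i_sub i0' s4, integral_const_mul,
    integral_const_mul, i_add s2 (g _ _ _ _), i_add s1 (g _ _ _ _), i_add (g _ _ _ _) (g _ _ _ _)]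
  ring

/-- First order formula, with error bounds. -/
theorem first_order {κ : ℝ} {a w : ℂ × ℂ → ℝ} (ha : Sm a) (hac : HasCompactSupport a) (hw : Sm w)
    {A1 A2 : ℝ} (hA1 : 0 ≤ A1) (hA2 : 0 ≤ A2)
    (h1 : ∀ x ∈ tsupport a, |D vx w x| ≤ A1 ∧ |D vy w x| ≤ A1)
    (h2 : ∀ x ∈ tsupport a, |D vs w x| ≤ A2 ∧ |D vt w x| ≤ A2) :
    |(∫ x, a x * MA κ w x) -
        ∫ x, Lt a x * (4 * κ * w x - ((D vx w x) ^ 2 + (D vy w x) ^ 2) / 2)| ≤
      A2 ^ 2 * (∫ x, |Lz a x|) + 2 * A1 * A2 * ∫ x, (|D vx (D vs a) x| + |D vx (D vt a) x| +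
        |D vy (D vs a) x| + |D vy (D vt a) x|) := by
  rw [MA_first ha hac hw]
  have c1 : D vs (D vx a) = D vx (D vs a) := D_comm ha _ _
  have c2 : D vt (D vx a) = D vx (D vt a) := D_comm ha _ _
  have c3 : D vs (D vy a) = D vy (D vs a) := D_comm ha _ _
  have c4 : D vt (D vy a) = D vy (D vt a) := D_comm ha _ _
  have g := fun p q r t => G1_int ha hac hw p q r t
  have i0' : Integrable (fun x => 4 * κ * (Lt a x * w x)) :=
    (int_sm ((Lt_cont ha).mul hw.continuous) (cs_Lt hac).mul_right).const_mul _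
  have j1 : Integrable (fun x => 4 * κ * (Lt a x * w x) - 1 / 2 * (G1 a w vx vs vx vs x +
      G1 a w vx vt vx vt x + G1 a w vy vs vy vs x + G1 a w vy vt vy vt x) +
      G1 a w vx vy vs vt x) :=
    (i0'.sub (((((g _ _ _ _).add (g _ _ _ _)).add (g _ _ _ _)).add (g _ _ _ _)).const_mul _)).add
      (g _ _ _ _)
  have j2 : Integrable
      (fun x => Lt a x * (4 * κ * w x - ((D vx w x) ^ 2 + (D vy w x) ^ 2) / 2)) := by
    have k1 := Lt_cont ha
    have k2 := hw.continuous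
    have k3 := (D_sm hw vx).continuous
    have k4 := (D_sm hw vy).continuous
    exact int_sm (by fun_prop) (cs_Lt hac).mul_right
  rw [← i_sub j1 j2]
  have k1 : Continuous (fun x => |Lz a x|) := (Lz_cont ha).abs
  have k2 : Continuous (fun x => (|D vx (D vs a) x| + |D vx (D vt a) x| +
        |D vy (D vs a) x| + |D vy (D vt a) x|)) := by
    have := DD_cont ha vx vs
    have := DD_cont ha vx vt
    have := DD_cont ha vy vs
    have := DD_cont ha vy vt
    fun_prop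
  have c2' : HasCompactSupport (fun x => (|D vx (D vs a) x| + |D vx (D vt a) x| +
        |D vy (D vs a) x| + |D vy (D vt a) x|)) := by
    have h := fun p q => (cs_D (cs_D hac q) p).comp_left (g := fun y : ℝ => |y|) abs_zero
    exact (((h vx vs).add (h vx vt)).add (h vy vs)).add (h vy vt)
  have l1 : Integrable (fun x => A2 ^ 2 * |Lz a x|) :=
    (int_sm k1 ((cs_Lz hac).comp_left abs_zero)).const_mul _
  have l2 : Integrable (fun x => 2 * A1 * A2 * (|D vx (D vs a) x| + |D vx (D vt a) x| +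
        |D vy (D vs a) x| + |D vy (D vt a) x|)) := (int_sm k2 c2').const_mul _
  rw [← integral_const_mul, ← integral_const_mul, ← i_add l1 l2, ← Real.norm_eq_abs]
  have l12 : Integrable (fun x => A2 ^ 2 * |Lz a x| + 2 * A1 * A2 * (|D vx (D vs a) x| +
      |D vx (D vt a) x| + |D vy (D vs a) x| + |D vy (D vt a) x|)) := l1.add l2
  apply norm_integral_le_of_norm_le l12
  refine Eventually.of_forall fun x => ?_
  rw [Real.norm_eq_abs]
  by_cases hx : x ∈ tsupport a
  · obtain ⟨hx1, hy1⟩ := h1 x hx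
    obtain ⟨hs1, ht1⟩ := h2 x hx
    have e : 4 * κ * (Lt a x * w x) - 1 / 2 * (G1 a w vx vs vx vs x +
      G1 a w vx vt vx vt x + G1 a w vy vs vy vs x + G1 a w vy vt vy vt x) +
      G1 a w vx vy vs vt x -
      Lt a x * (4 * κ * w x - ((D vx w x) ^ 2 + (D vy w x) ^ 2) / 2) =
      -(1 / 2 * Lz a x * ((D vs w x) ^ 2 + (D vt w x) ^ 2)) +
      D vx (D vs a) x * (D vx w x * D vs w x + D vy w x * D vt w x) +
      D vx (D vt a) x * (D vx w x * D vt w x - D vy w x * D vs w x) +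
      D vy (D vs a) x * (D vy w x * D vs w x - D vx w x * D vt w x) +
      D vy (D vt a) x * (D vy w x * D vt w x + D vx w x * D vs w x) := by
      simp only [G1, c1, c2, c3, c4, Lz, Lt]
      ring
    rw [e]
    have pr : ∀ {u v : ℝ}, |u| ≤ A1 → |v| ≤ A2 → |u * v| ≤ A1 * A2 := fun hu hv => by
      rw [abs_mul]; exact mul_le_mul hu hv (abs_nonneg _) hA1
    have pxs := abs_le.1 (pr hx1 hs1)
    have pxt := abs_le.1 (pr hx1 ht1)
    have pys := abs_le.1 (pr hy1 hs1)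
    have pyt := abs_le.1 (pr hy1 ht1)
    have q1 : |D vx w x * D vs w x + D vy w x * D vt w x| ≤ 2 * (A1 * A2) := by
      rw [abs_le]; constructor <;> linarith [pxs.1, pxs.2, pyt.1, pyt.2]
    have q2 : |D vx w x * D vt w x - D vy w x * D vs w x| ≤ 2 * (A1 * A2) := by
      rw [abs_le]; constructor <;> linarith [pxt.1, pxt.2, pys.1, pys.2]
    have q3 : |D vy w x * D vs w x - D vx w x * D vt w x| ≤ 2 * (A1 * A2) := by
      rw [abs_le]; constructor <;> linarith [pxt.1, pxt.2, pys.1, pys.2]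
    have q4 : |D vy w x * D vt w x + D vx w x * D vs w x| ≤ 2 * (A1 * A2) := by
      rw [abs_le]; constructor <;> linarith [pxs.1, pxs.2, pyt.1, pyt.2]
    have q0 : |(D vs w x) ^ 2 + (D vt w x) ^ 2| ≤ 2 * A2 ^ 2 := by
      rw [abs_of_nonneg (by positivity)]
      have := sq_le_sq' (abs_le.1 hs1).1 (abs_le.1 hs1).2
      have := sq_le_sq' (abs_le.1 ht1).1 (abs_le.1 ht1).2
      linarith
    have mm : ∀ {u v B : ℝ}, |v| ≤ B → |u * v| ≤ |u| * B := fun hv => by
      rw [abs_mul]; exact mul_le_mul_of_nonneg_left hv (abs_nonneg _)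
    have r0 : |(1 / 2 * Lz a x * ((D vs w x) ^ 2 + (D vt w x) ^ 2))| ≤ A2 ^ 2 * |Lz a x| := by
      refine (mm q0).trans (le_of_eq ?_)
      rw [abs_mul, abs_of_pos (by norm_num : (0 : ℝ) < 1 / 2)]; ring
    have r1 := mm (u := D vx (D vs a) x) q1
    have r2 := mm (u := D vx (D vt a) x) q2
    have r3 := mm (u := D vy (D vs a) x) q3
    have r4 := mm (u := D vy (D vt a) x) q4
    rw [abs_le] at r0 r1 r2 r3 r4 ⊢
    constructor <;> linarith [r0.1, r1.1, r2.1, r3.1, r4.1, r0.2, r1.2, r2.2, r3.2, r4.2]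
  · have e : 4 * κ * (Lt a x * w x) - 1 / 2 * (G1 a w vx vs vx vs x +
      G1 a w vx vt vx vt x + G1 a w vy vs vy vs x + G1 a w vy vt vy vt x) +
      G1 a w vx vy vs vt x -
      Lt a x * (4 * κ * w x - ((D vx w x) ^ 2 + (D vy w x) ^ 2) / 2) = 0 := by
      simp only [G1, Lz, Lt, DD_zero_off hx]
      ring
    rw [e, abs_zero]
    positivity

/-! ### Product cut-offs -/

/-- derivative on `ℂ` -/
noncomputable def d1 (v : ℂ) (f : ℂ → ℝ) (z : ℂ) : ℝ := fderiv ℝ f z v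

/-- product function -/
noncomputable def tn (α η : ℂ → ℝ) (q : ℂ × ℂ) : ℝ := α q.1 * η q.2

variable {α η : ℂ → ℝ}

lemma d1_sm (h : ContDiff ℝ ∞ α) (v : ℂ) : ContDiff ℝ ∞ (d1 v α) :=
  ContDiff.clm_apply (h.fderiv_right (by simp)) contDiff_const

lemma cs_d1 (h : HasCompactSupport α) (v : ℂ) : HasCompactSupport (d1 v α) :=
  h.fderiv_apply (𝕜 := ℝ) v

lemma tn_sm (hα : ContDiff ℝ ∞ α) (hη : ContDiff ℝ ∞ η) : Sm (tn α η) :=
  (hα.comp contDiff_fst).mul (hη.comp contDiff_snd)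

lemma D_tn (hα : ContDiff ℝ ∞ α) (hη : ContDiff ℝ ∞ η) (p q : ℂ × ℂ) :
    D p (tn α η) q = d1 p.1 α q.1 * η q.2 + α q.1 * d1 p.2 η q.2 := by
  have h1 : HasFDerivAt (fun q : ℂ × ℂ => α q.1) ((fderiv ℝ α q.1).comp
      (ContinuousLinearMap.fst ℝ ℂ ℂ)) q :=
    (hα.differentiable (by simp) q.1).hasFDerivAt.comp q hasFDerivAt_fst
  have h2 : HasFDerivAt (fun q : ℂ × ℂ => η q.2) ((fderiv ℝ η q.2).comp
      (ContinuousLinearMap.snd ℝ ℂ ℂ)) q :=
    (hη.differentiable (by simp) q.2).hasFDerivAt.comp q hasFDerivAt_snd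
  have h3 : fderiv ℝ (tn α η) q = _ := (h1.mul h2).fderiv
  simp only [D, h3, d1, _root_.add_apply, _root_.smul_apply, smul_eq_mul,
    ContinuousLinearMap.comp_apply, ContinuousLinearMap.coe_fst', ContinuousLinearMap.coe_snd']
  ring

lemma d1_zero (f : ℂ → ℝ) (z : ℂ) : d1 0 f z = 0 := by simp [d1]

lemma D_tn_fst (hα : ContDiff ℝ ∞ α) (hη : ContDiff ℝ ∞ η) (v : ℂ) :
    D (v, 0) (tn α η) = tn (d1 v α) η := by
  ext q
  rw [D_tn hα hη]; simp only [d1_zero, tn]; ring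

lemma D_tn_snd (hα : ContDiff ℝ ∞ α) (hη : ContDiff ℝ ∞ η) (v : ℂ) :
    D (0, v) (tn α η) = tn α (d1 v η) := by
  ext q
  rw [D_tn hα hη]; simp only [d1_zero, tn]; ring

/-- Laplacian on `ℂ` -/
noncomputable def La (f : ℂ → ℝ) (z : ℂ) : ℝ := d1 1 (d1 1 f) z + d1 Complex.I (d1 Complex.I f) z

lemma Lz_tn (hα : ContDiff ℝ ∞ α) (hη : ContDiff ℝ ∞ η) (x : ℂ × ℂ) :
    Lz (tn α η) x = La α x.1 * η x.2 := by
  simp only [Lz, vx, vy, D_tn_fst hα hη, D_tn_fst (d1_sm hα _) hη, tn, La]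
  ring

lemma Lt_tn (hα : ContDiff ℝ ∞ α) (hη : ContDiff ℝ ∞ η) (x : ℂ × ℂ) :
    Lt (tn α η) x = α x.1 * La η x.2 := by
  simp only [Lt, vs, vt, D_tn_snd hα hη, D_tn_snd hα (d1_sm hη _), tn, La]
  ring

lemma DD_tn (hα : ContDiff ℝ ∞ α) (hη : ContDiff ℝ ∞ η) (u v : ℂ) (x : ℂ × ℂ) :
    D (u, 0) (D (0, v) (tn α η)) x = d1 u α x.1 * d1 v η x.2 := by
  rw [D_tn_snd hα hη, D_tn_fst hα (d1_sm hη _)]; rfl

lemma cs_tn (hα : HasCompactSupport α) (hη : HasCompactSupport η) :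
    HasCompactSupport (tn α η) := by
  apply HasCompactSupport.intro (hα.isCompact.prod hη.isCompact)
  intro x hx
  rw [mem_prod, not_and_or] at hx
  rcases hx with h | h
  · simp [tn, image_eq_zero_of_notMem_tsupport h]
  · simp [tn, image_eq_zero_of_notMem_tsupport h]

lemma tsupport_tn : tsupport (tn α η) ⊆ tsupport α ×ˢ tsupport η := by
  apply closure_minimal _ ((isClosed_tsupport α).prod (isClosed_tsupport η))
  intro x hx
  rw [Function.mem_support, tn] at hx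
  exact ⟨subset_tsupport _ (left_ne_zero_of_mul hx), subset_tsupport _ (right_ne_zero_of_mul hx)⟩

lemma int_tn_abs (f g : ℂ → ℝ) : ∫ x : ℂ × ℂ, |f x.1 * g x.2| = (∫ z, |f z|) * ∫ z, |g z| := by
  simp only [abs_mul]
  exact integral_prod_mul (μ := (volume : Measure ℂ)) (ν := (volume : Measure ℂ))
    (fun z => |f z|) (fun z => |g z|)

end Pool.Agent.H907R2
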