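import Mathlib

/-!
Submean functions on `ℂ`, the Dirichlet problem on discs and Poisson modification.
-/

open MeasureTheory Metric Set Complex Real
open scoped Topology ContDiff

namespace Pool.Agent.H907R2

/-- `Sub κ v`: the function `v + κ |z|²` has the sub-mean value property on all circles. -/
def Sub (κ : ℝ) (v : ℂ → ℝ) : Prop :=
  ∀ z : ℂ, ∀ r : ℝ, 0 < r → v z ≤ circleAverage v z r + κ * r ^ 2

lemma cont_circleIntegrable {v : ℂ → ℝ} (hv : Continuous v) (z : ℂ) (r : ℝ) :
    CircleIntegrable v z r :=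
  (hv.comp (continuous_circleMap z r)).intervalIntegrable _ _

lemma circleAverage_linear (a : ℂ) (z : ℂ) (r : ℝ) :
    circleAverage (fun w => (a * (w - z)).re) z r = 0 := by
  have h1 : circleAverage (fun w => a * (w - z)) z r = 0 := by
    have := (DiffContOnCl.circleAverage (f := fun w => a * (w - z)) (c := z) (R := r) (by
      apply Differentiable.diffContOnCl
      fun_prop))
    rw [this]; simp
  have h2 := Complex.reCLM.circleAverage_comp_comm (f := fun w => a * (w - z)) (c := z) (R := r)
    (by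
      apply Continuous.intervalIntegrable
      have : Continuous (circleMap z r) := continuous_circleMap z r
      fun_prop)
  have h3 : (Complex.reCLM ∘ fun w => a * (w - z)) = (fun w => (a * (w - z)).re) := by
    ext w; simp
  rw [← h3, h2, h1]; simp

lemma circleAverage_normSq (c z : ℂ) (r : ℝ) :
    circleAverage (fun w => ‖w - c‖ ^ 2) z r = ‖z - c‖ ^ 2 + r ^ 2 := by
  have h1 : EqOn (fun w => ‖w - c‖ ^ 2)
      (fun w => (‖z - c‖ ^ 2 + r ^ 2) + 2 * (((starRingEnd ℂ) (z - c)) * (w - z)).re)
      (sphere z |r|) := by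
    intro w hw
    have hw' : ‖w - z‖ ^ 2 = r ^ 2 := by
      rw [mem_sphere_iff_norm] at hw
      rw [hw, sq_abs]
    have e : w - c = (w - z) + (z - c) := by ring
    simp only
    rw [← hw']
    rw [← Complex.normSq_eq_norm_sq, ← Complex.normSq_eq_norm_sq, ← Complex.normSq_eq_norm_sq, e]
    simp only [Complex.normSq_apply, Complex.add_re, Complex.add_im, Complex.mul_re,
      Complex.conj_re, Complex.conj_im, Complex.sub_re, Complex.sub_im]
    ring
  rw [circleAverage_congr_sphere h1]
  have hc : Continuous (fun w : ℂ => 2 * (((starRingEnd ℂ) (z - c)) * (w - z)).re) := by fun_prop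
  rw [circleAverage_fun_add (cont_circleIntegrable continuous_const _ _)
    (cont_circleIntegrable hc _ _)]
  rw [circleAverage_const]
  have : (fun w : ℂ => 2 * (((starRingEnd ℂ) (z - c)) * (w - z)).re) =
      (fun w : ℂ => (2 : ℝ) • (((starRingEnd ℂ) (z - c)) * (w - z)).re) := by
    ext w; simp
  rw [this, circleAverage_fun_smul, circleAverage_linear]
  simp

/-- Maximum principle. -/
theorem max_principle {f : ℂ → ℝ} {c : ℂ} {R : ℝ} (hR : 0 < R)
    (hc : ContinuousOn f (closedBall c R))
    (hsub : ∀ z ∈ ball c R, ∃ r0 > 0, ∀ r, 0 < r → r < r0 → f z ≤ circleAverage f z r)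
    (hb : ∀ z ∈ sphere c R, f z ≤ 0) : ∀ z ∈ closedBall c R, f z ≤ 0 := by
  intro z hz
  have key : ∀ ε > 0, f z ≤ ε * R ^ 2 := by
    intro ε hε
    have hg : ContinuousOn (fun w => f w + ε * ‖w - c‖ ^ 2) (closedBall c R) := by
      apply hc.add
      fun_prop
    obtain ⟨w, hw, hmax⟩ := (isCompact_closedBall c R).exists_isMaxOn ⟨z, hz⟩ hg
    have hz1 : f z ≤ f w + ε * ‖w - c‖ ^ 2 := by
      have := hmax hz
      simp only [mem_ofPred_eq] at this
      nlinarith [sq_nonneg ‖z - c‖]
    refine hz1.trans ?_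
    by_cases hws : w ∈ sphere c R
    · have h1 := hb w hws
      rw [mem_sphere_iff_norm] at hws
      rw [hws]; linarith
    · exfalso
      have hwb : w ∈ ball c R := by
        rw [mem_ball]
        rw [mem_closedBall] at hw
        rw [mem_sphere] at hws
        exact lt_of_le_of_ne hw hws
      obtain ⟨r0, hr0, h0⟩ := hsub w hwb
      obtain ⟨ρ, hρ, hρb⟩ := Metric.isOpen_iff.1 isOpen_ball w hwb
      set r := min r0 ρ / 2 with hr
      have hrpos : 0 < r := by positivity
      have hr1 : r < r0 := by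
        have := min_le_left r0 ρ
        have : 0 < min r0 ρ := by positivity
        linarith [min_le_left r0 ρ]
      have hr2 : r < ρ := by
        have : 0 < min r0 ρ := by positivity
        linarith [min_le_right r0 ρ]
      have hsp : sphere w |r| ⊆ closedBall c R := by
        rw [abs_of_pos hrpos]
        refine (sphere_subset_closedBall.trans ?_)
        refine (closedBall_subset_ball hr2).trans (hρb.trans ball_subset_closedBall)
      have hi1 : CircleIntegrable f w r := (hc.mono hsp).circleIntegrable'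
      have hi2 : CircleIntegrable (fun w => ε * ‖w - c‖ ^ 2) w r :=
        cont_circleIntegrable (by fun_prop) _ _
      have h1 := h0 r hrpos hr1
      have h2 : circleAverage (fun w => f w + ε * ‖w - c‖ ^ 2) w r ≤ f w + ε * ‖w - c‖ ^ 2 := by
        apply circleAverage_mono_on_of_le_circle (hi1.add hi2)
        intro x hx
        exact hmax (hsp hx)
      rw [circleAverage_fun_add hi1 hi2] at h2
      have h3 : circleAverage (fun x => ε * ‖x - c‖ ^ 2) w r = ε * (‖w - c‖ ^ 2 + r ^ 2) := by
        have := circleAverage_fun_smul (a := ε) (f := fun x => ‖x - c‖ ^ 2) (c := w) (R := r)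
        simp only [smul_eq_mul] at this
        rw [this, circleAverage_normSq]
      rw [h3] at h2
      have : 0 < ε * r ^ 2 := by positivity
      nlinarith
  by_contra hcon
  push Not at hcon
  have := key (f z / (2 * R ^ 2)) (by positivity)
  have h2 : f z / (2 * R ^ 2) * R ^ 2 = f z / 2 := by
    field_simp
  rw [h2] at this
  linarith

/-! ### The Dirichlet problem -/

lemma poissonKernel_nonneg' {R : ℝ} {w ζ : ℂ} (hw : w ∈ ball (0 : ℂ) R) (hζ : ζ ∈ sphere (0 : ℂ) R) :
    0 ≤ poissonKernel 0 w ζ := by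
  rw [poissonKernel_def]
  simp only [sub_zero]
  rw [mem_sphere_zero_iff_norm] at hζ
  rw [mem_ball_zero_iff] at hw
  apply div_nonneg _ (by positivity)
  rw [hζ]
  nlinarith [norm_nonneg w]

lemma poissonKernel_continuousOn {R : ℝ} {w : ℂ} (hw : w ∈ ball (0 : ℂ) R) :
    ContinuousOn (poissonKernel 0 w) (sphere 0 |R|) := by
  have h := continuousOn_herglotzRieszKernel_sphere (c := 0) hw
  rw [poissonKernel_eq_re_herglotzRieszKernel]
  exact Complex.continuous_re.comp_continuousOn h

lemma circleAverage_poissonKernel_one {R : ℝ} {w : ℂ} (hw : w ∈ ball (0 : ℂ) R) :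
    circleAverage (poissonKernel 0 w) 0 R = 1 := by
  have h := DiffContOnCl.circleAverage_poissonKernel_smul (f := fun _ : ℂ => (1 : ℂ)) (c := 0)
    (R := R) (w := w) diffContOnCl_const hw
  have h2 := Complex.reCLM.circleAverage_comp_comm
    (f := poissonKernel 0 w • fun _ : ℂ => (1 : ℂ)) (c := 0) (R := R) (by
      apply ContinuousOn.circleIntegrable'
      exact (poissonKernel_continuousOn hw).smul continuousOn_const)
  rw [h] at h2
  have h3 : (Complex.reCLM ∘ (poissonKernel 0 w • fun _ : ℂ => (1 : ℂ))) = poissonKernel 0 w := by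
    ext z; simp
  rw [h3] at h2
  simpa using h2

/-- Poisson integral centred at `0`. -/
noncomputable def PI0 (g : ℂ → ℝ) (R : ℝ) (w : ℂ) : ℝ :=
  circleAverage (fun ζ => poissonKernel 0 w ζ * g ζ) 0 R

lemma PI0_integrable {g : ℂ → ℝ} (hg : Continuous g) {R : ℝ} {w : ℂ} (hw : w ∈ ball (0 : ℂ) R) :
    CircleIntegrable (fun ζ => poissonKernel 0 w ζ * g ζ) 0 R := by
  apply ContinuousOn.circleIntegrable'
  exact (poissonKernel_continuousOn hw).mul hg.continuousOn

lemma PI0_eq_re {g : ℂ → ℝ} (hg : Continuous g) {R : ℝ} {w : ℂ} (hw : w ∈ ball (0 : ℂ) R) :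
    PI0 g R w =
      (circleAverage (fun ζ => herglotzRieszKernel 0 w ζ • (g ζ : ℂ)) 0 R).re := by
  rw [re_circleAverage_herglotzRieszKernel_smul (cont_circleIntegrable hg _ _) hw]
  rw [← poissonKernel_eq_re_herglotzRieszKernel]
  rfl

lemma PI0_analytic {g : ℂ → ℝ} (hg : Continuous g) (R : ℝ) :
    AnalyticOnNhd ℂ (fun w => circleAverage (fun ζ => herglotzRieszKernel 0 w ζ • (g ζ : ℂ)) 0 R)
      (ball 0 R) := by
  apply analyticOnNhd_circleAverage_herglotzRieszKernel_smul
  have : Continuous (fun ζ => (g ζ : ℂ)) := by fun_prop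
  exact (this.comp (continuous_circleMap 0 R)).intervalIntegrable _ _

lemma PI0_mean {g : ℂ → ℝ} (hg : Continuous g) {R : ℝ} {w : ℂ} {r : ℝ}
    (hsub : closedBall w |r| ⊆ ball (0 : ℂ) R) :
    circleAverage (PI0 g R) w r = PI0 g R w := by
  set F := (fun w => circleAverage (fun ζ => herglotzRieszKernel 0 w ζ • (g ζ : ℂ)) 0 R) with hF
  have hw : w ∈ ball (0 : ℂ) R := hsub (mem_closedBall_self (abs_nonneg r))
  have hAn : AnalyticOnNhd ℂ F (ball 0 R) := PI0_analytic hg R
  have h1 : circleAverage F w r = F w := by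
    apply DiffContOnCl.circleAverage
    have : DifferentiableOn ℂ F (closedBall w |r|) := fun x hx =>
      (hAn x (hsub hx)).differentiableAt.differentiableWithinAt
    exact this.diffContOnCl_ball subset_rfl
  have h2 := Complex.reCLM.circleAverage_comp_comm (f := F) (c := w) (R := r) (by
    apply ContinuousOn.circleIntegrable'
    exact hAn.continuousOn.mono (sphere_subset_closedBall.trans hsub))
  have h3 : circleAverage (PI0 g R) w r = circleAverage (Complex.reCLM ∘ F) w r := by
    apply circleAverage_congr_sphere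
    intro x hx
    rw [PI0_eq_re hg (hsub (sphere_subset_closedBall hx))]
    rfl
  rw [h3, h2, h1, PI0_eq_re hg hw]
  rfl

lemma PI0_const (a : ℝ) {R : ℝ} {w : ℂ} (hw : w ∈ ball (0 : ℂ) R) :
    PI0 (fun _ => a) R w = a := by
  unfold PI0
  have : (fun ζ => poissonKernel 0 w ζ * a) = (fun ζ => a • poissonKernel 0 w ζ) := by
    ext; simp [mul_comm]
  rw [this, circleAverage_fun_smul, circleAverage_poissonKernel_one hw]
  simp

lemma PI0_le {g : ℂ → ℝ} (hg : Continuous g) {R : ℝ} {w : ℂ} (hw : w ∈ ball (0 : ℂ) R) {M : ℝ}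
    (hM : ∀ ζ ∈ sphere (0 : ℂ) R, g ζ ≤ M) : PI0 g R w ≤ M := by
  have hR : 0 < R := pos_of_mem_ball hw
  rw [← PI0_const M hw]
  apply circleAverage_mono (PI0_integrable hg hw) (PI0_integrable continuous_const hw)
  intro x hx
  rw [abs_of_pos hR] at hx
  exact mul_le_mul_of_nonneg_left (hM x hx) (poissonKernel_nonneg' hw hx)

lemma PI0_boundary {g : ℂ → ℝ} (hg : Continuous g) {R : ℝ} {w0 : ℂ}
    (hw0 : w0 ∈ sphere (0 : ℂ) R) (hR : 0 < R) {ε : ℝ} (hε : 0 < ε) :
    ∃ δ > 0, ∀ w ∈ ball (0 : ℂ) R, dist w w0 < δ → |PI0 g R w - g w0| ≤ ε := by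
  obtain ⟨M, hM⟩ := (isCompact_sphere (0 : ℂ) R).exists_bound_of_continuousOn
    (f := g) hg.continuousOn
  have hM0 : 0 ≤ M := (norm_nonneg _).trans (hM w0 hw0)
  obtain ⟨δ1, hδ1, h1⟩ := Metric.continuousAt_iff.1 (hg.continuousAt (x := w0)) (ε / 2) (by positivity)
  refine ⟨min (δ1 / 2) (ε * δ1 ^ 2 / (32 * (M + 1) * R)), by positivity, ?_⟩
  intro w hw hd
  have hd1 : dist w w0 < δ1 / 2 := lt_of_lt_of_le hd (min_le_left _ _)
  have hd2 : dist w w0 < ε * δ1 ^ 2 / (32 * (M + 1) * R) := lt_of_lt_of_le hd (min_le_right _ _)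
  have hwR : ‖w‖ < R := by simpa using hw
  have hw0R : ‖w0‖ = R := by simpa using hw0
  have hRw : R - ‖w‖ ≤ dist w w0 := by
    rw [dist_comm, dist_eq_norm]
    have := norm_sub_norm_le w0 w
    linarith
  set B := 2 * M * (4 * (R ^ 2 - ‖w‖ ^ 2) / δ1 ^ 2) with hB
  have hBle : B ≤ ε / 2 := by
    have e1 : R ^ 2 - ‖w‖ ^ 2 ≤ 2 * R * dist w w0 := by
      nlinarith [norm_nonneg w, dist_nonneg (x := w) (y := w0)]
    have e2 : B ≤ 2 * M * (4 * (2 * R * (ε * δ1 ^ 2 / (32 * (M + 1) * R))) / δ1 ^ 2) := by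
      rw [hB]
      have : R ^ 2 - ‖w‖ ^ 2 ≤ 2 * R * (ε * δ1 ^ 2 / (32 * (M + 1) * R)) :=
        e1.trans (mul_le_mul_of_nonneg_left hd2.le (by positivity))
      gcongr
    refine e2.trans ?_
    have e3 : 2 * M * (4 * (2 * R * (ε * δ1 ^ 2 / (32 * (M + 1) * R))) / δ1 ^ 2) =
        (ε / 2) * (M / (M + 1)) := by
      field_simp
      ring
    rw [e3]
    have : M / (M + 1) ≤ 1 := by
      rw [div_le_one (by positivity)]; linarith
    nlinarith
  have hpt : ∀ ζ ∈ sphere (0 : ℂ) |R|,
      |poissonKernel 0 w ζ * (g ζ - g w0)| ≤ (ε / 2) * poissonKernel 0 w ζ + B := by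
    intro ζ hζ
    rw [abs_of_pos hR] at hζ
    have hP := poissonKernel_nonneg' hw hζ
    have hB0 : 0 ≤ B := by
      rw [hB]
      have : 0 ≤ R ^ 2 - ‖w‖ ^ 2 := by nlinarith [norm_nonneg w]
      positivity
    rw [abs_mul, abs_of_nonneg hP]
    by_cases hcase : dist ζ w0 < δ1
    · have := h1 hcase
      rw [Real.dist_eq] at this
      nlinarith
    · push Not at hcase
      have h2 : |g ζ - g w0| ≤ 2 * M := by
        have a1 := hM ζ hζ
        have a2 := hM w0 hw0
        rw [Real.norm_eq_abs] at a1 a2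
        calc |g ζ - g w0| ≤ |g ζ| + |g w0| := abs_sub _ _
          _ ≤ 2 * M := by linarith
      have h3 : δ1 / 2 ≤ ‖ζ - w‖ := by
        have : dist ζ w0 ≤ dist ζ w + dist w w0 := dist_triangle _ _ _
        rw [dist_eq_norm ζ w] at this
        linarith
      have h4 : poissonKernel 0 w ζ ≤ 4 * (R ^ 2 - ‖w‖ ^ 2) / δ1 ^ 2 := by
        rw [poissonKernel_def]
        simp only [sub_zero]
        have hζR : ‖ζ‖ = R := by simpa using hζ
        rw [hζR]
        rw [div_le_div_iff₀ (by nlinarith) (by positivity)]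
        have h5 : δ1 ^ 2 ≤ 4 * ‖ζ - w‖ ^ 2 := by nlinarith
        have h6 : 0 ≤ R ^ 2 - ‖w‖ ^ 2 := by nlinarith [norm_nonneg w]
        nlinarith
      have h7 : poissonKernel 0 w ζ * |g ζ - g w0| ≤ B := by
        rw [hB]
        calc poissonKernel 0 w ζ * |g ζ - g w0| ≤
            (4 * (R ^ 2 - ‖w‖ ^ 2) / δ1 ^ 2) * (2 * M) :=
              mul_le_mul h4 h2 (abs_nonneg _) (hP.trans h4)
          _ = _ := by ring
      nlinarith
  have hI1 : CircleIntegrable (fun ζ => poissonKernel 0 w ζ * (g ζ - g w0)) 0 R :=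
    PI0_integrable (by fun_prop) hw
  have hI2 : CircleIntegrable (fun ζ => (ε / 2) * poissonKernel 0 w ζ + B) 0 R := by
    apply ContinuousOn.circleIntegrable'
    exact (continuousOn_const.mul (poissonKernel_continuousOn hw)).add continuousOn_const
  have hdiff : PI0 g R w - g w0 =
      circleAverage (fun ζ => poissonKernel 0 w ζ * (g ζ - g w0)) 0 R := by
    conv_lhs => rw [← PI0_const (g w0) hw]
    unfold PI0
    rw [← circleAverage_fun_sub (PI0_integrable hg hw) (PI0_integrable continuous_const hw)]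
    congr 1
    ext ζ; ring
  rw [hdiff]
  refine abs_circleAverage_le_circleAverage_abs.trans ?_
  refine (circleAverage_mono (f₁ := |fun ζ => poissonKernel 0 w ζ * (g ζ - g w0)|)
    (f₂ := fun ζ => (ε / 2) * poissonKernel 0 w ζ + B)
    hI1.abs hI2 (fun x hx => hpt x hx)).trans ?_
  rw [circleAverage_fun_add]
  · have : (fun ζ => (ε / 2) * poissonKernel 0 w ζ) = (fun ζ => (ε / 2) • poissonKernel 0 w ζ) := by
      ext; simp
    rw [this, circleAverage_fun_smul, circleAverage_poissonKernel_one hw, circleAverage_const]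
    simp only [smul_eq_mul, mul_one]
    linarith
  · apply ContinuousOn.circleIntegrable'
    exact continuousOn_const.mul (poissonKernel_continuousOn hw)
  · exact cont_circleIntegrable continuous_const _ _

open scoped Classical in
/-- Solution of the Dirichlet problem on `ball 0 R`, extended by the boundary function. -/
noncomputable def H0 (g : ℂ → ℝ) (R : ℝ) (w : ℂ) : ℝ :=
  if w ∈ ball (0 : ℂ) R then PI0 g R w else g w

lemma H0_continuous {g : ℂ → ℝ} (hg : Continuous g) {R : ℝ} (hR : 0 < R) :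
    Continuous (H0 g R) := by
  rw [continuous_iff_continuousAt]
  intro w
  by_cases hw : w ∈ ball (0 : ℂ) R
  · have h1 : ContinuousAt (fun w => (circleAverage
        (fun ζ => herglotzRieszKernel 0 w ζ • (g ζ : ℂ)) 0 R).re) w :=
      Complex.continuous_re.continuousAt.comp (PI0_analytic hg R w hw).continuousAt
    refine h1.congr ?_
    filter_upwards [isOpen_ball.mem_nhds hw] with x hx
    rw [H0, if_pos hx, PI0_eq_re hg hx]
  · by_cases hw2 : w ∈ sphere (0 : ℂ) R
    · rw [Metric.continuousAt_iff]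
      intro ε hε
      obtain ⟨δ1, hδ1, h1⟩ := PI0_boundary hg hw2 hR (half_pos hε)
      obtain ⟨δ2, hδ2, h2⟩ := Metric.continuousAt_iff.1 (hg.continuousAt (x := w)) ε hε
      refine ⟨min δ1 δ2, by positivity, ?_⟩
      intro x hx
      have e0 : H0 g R w = g w := by rw [H0, if_neg hw]
      by_cases hxb : x ∈ ball (0 : ℂ) R
      · rw [e0, H0, if_pos hxb, Real.dist_eq]
        exact lt_of_le_of_lt (h1 x hxb (lt_of_lt_of_le hx (min_le_left _ _))) (by linarith)
      · rw [e0, H0, if_neg hxb]
        exact h2 (lt_of_lt_of_le hx (min_le_right _ _))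
    · have hw3 : w ∈ (closedBall (0 : ℂ) R)ᶜ := by
        rw [mem_compl_iff, mem_closedBall]
        rw [mem_ball] at hw
        rw [mem_sphere] at hw2
        intro h
        exact hw (lt_of_le_of_ne h hw2)
      refine (hg.continuousAt (x := w)).congr ?_
      filter_upwards [isClosed_closedBall.isOpen_compl.mem_nhds hw3] with x hx
      rw [H0, if_neg (fun h => hx (ball_subset_closedBall h))]

/-- Solution of the Dirichlet problem on `ball c R`, extended by the boundary function. -/
noncomputable def HD (g : ℂ → ℝ) (c : ℂ) (R : ℝ) (w : ℂ) : ℝ :=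
  H0 (fun z => g (z + c)) R (w - c)

variable {g : ℂ → ℝ} {c : ℂ} {R : ℝ}

lemma HD_continuous (hg : Continuous g) (hR : 0 < R) : Continuous (HD g c R) := by
  have : Continuous (fun z => g (z + c)) := by fun_prop
  exact (H0_continuous this hR).comp (by fun_prop : Continuous fun w : ℂ => w - c)

lemma HD_of_notMem {w : ℂ} (hw : w ∉ ball c R) : HD g c R w = g w := by
  rw [HD, H0, if_neg]
  · simp
  · rwa [mem_ball_zero_iff, ← mem_ball_iff_norm]

lemma HD_of_mem {w : ℂ} (hw : w ∈ ball c R) :
    HD g c R w = PI0 (fun z => g (z + c)) R (w - c) := by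
  rw [HD, H0, if_pos]
  rwa [mem_ball_zero_iff, ← mem_ball_iff_norm]

lemma HD_mean (hg : Continuous g) {w : ℂ} {r : ℝ} (hsub : closedBall w |r| ⊆ ball c R) :
    circleAverage (HD g c R) w r = HD g c R w := by
  have hg' : Continuous (fun z => g (z + c)) := by fun_prop
  have hw : w ∈ ball c R := hsub (mem_closedBall_self (abs_nonneg r))
  have hsub' : closedBall (w - c) |r| ⊆ ball (0 : ℂ) R := by
    intro x hx
    have : x + c ∈ ball c R := by
      apply hsub
      rw [mem_closedBall_iff_norm] at hx ⊢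
      convert hx using 2; ring
    rw [mem_ball_iff_norm] at this
    rw [mem_ball_zero_iff]
    simpa using this
  rw [HD_of_mem hw, ← PI0_mean hg' hsub']
  rw [← circleAverage_map_add_const (c := w), ← circleAverage_map_add_const (c := w - c)]
  apply circleAverage_congr_sphere
  intro x hx
  have hx' : x + w ∈ ball c R := by
    apply hsub
    rw [mem_closedBall_iff_norm]
    rw [mem_sphere_zero_iff_norm] at hx
    simpa using hx.le
  simp only
  rw [HD_of_mem hx']
  congr 1; ring

lemma HD_center (hR : 0 < R) : HD g c R c = circleAverage g c R := by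
  rw [HD_of_mem (mem_ball_self hR), sub_self, PI0, ← circleAverage_map_add_const (f := g) (c := c)]
  apply circleAverage_congr_sphere
  intro x hx
  rw [abs_of_pos hR, mem_sphere_zero_iff_norm] at hx
  simp only [poissonKernel_def, sub_zero, hx, norm_zero]
  have : R ^ 2 ≠ 0 := by positivity
  field_simp
  ring

lemma HD_le (hg : Continuous g) {M : ℝ} (hM : ∀ ζ ∈ sphere c R, g ζ ≤ M) {w : ℂ}
    (hw : w ∈ ball c R) : HD g c R w ≤ M := by
  rw [HD_of_mem hw]
  apply PI0_le (by fun_prop)
  · rwa [mem_ball_zero_iff, ← mem_ball_iff_norm]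
  · intro ζ hζ
    apply hM
    rw [mem_sphere_iff_norm]
    simpa using hζ

/-- Locally submean functions are below the Dirichlet solution. -/
lemma le_HD (hg : Continuous g) (hR : 0 < R)
    (hsub : ∀ z ∈ ball c R, ∃ r0 > 0, ∀ r, 0 < r → r < r0 → g z ≤ circleAverage g z r) (w : ℂ) :
    g w ≤ HD g c R w := by
  by_cases hw : w ∈ ball c R
  · have hH := HD_continuous (c := c) hg hR
    have := max_principle (f := fun z => g z - HD g c R z) (c := c) (R := R) hR
      (by fun_prop) ?_ ?_ w (ball_subset_closedBall hw)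
    · linarith
    · intro z hz
      obtain ⟨r0, hr0, h0⟩ := hsub z hz
      obtain ⟨ρ, hρ, hρb⟩ := Metric.isOpen_iff.1 isOpen_ball z hz
      refine ⟨min r0 ρ, by positivity, ?_⟩
      intro r hr hr'
      rw [circleAverage_fun_sub (cont_circleIntegrable hg _ _) (cont_circleIntegrable hH _ _)]
      rw [HD_mean hg]
      · have := h0 r hr (lt_of_lt_of_le hr' (min_le_left _ _))
        linarith
      · rw [abs_of_pos hr]
        exact (closedBall_subset_ball (lt_of_lt_of_le hr' (min_le_right _ _))).trans hρb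
    · intro z hz
      rw [HD_of_notMem]
      · simp
      · intro h
        rw [mem_ball] at h
        rw [mem_sphere] at hz
        linarith
  · rw [HD_of_notMem hw]

/-- For continuous functions the local submean property implies the global one. -/
theorem submean_of_local (hg : Continuous g)
    (hsub : ∀ z, ∃ r0 > 0, ∀ r, 0 < r → r < r0 → g z ≤ circleAverage g z r) (z : ℂ) {r : ℝ}
    (hr : 0 < r) : g z ≤ circleAverage g z r := by
  rw [← HD_center hr]
  exact le_HD hg hr (fun z _ => hsub z) z

/-- Poisson modification is submean. -/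
theorem HD_submean (hg : Continuous g) (hR : 0 < R)
    (hsub : ∀ z, ∀ r, 0 < r → g z ≤ circleAverage g z r) (z : ℂ) {r : ℝ} (hr : 0 < r) :
    HD g c R z ≤ circleAverage (HD g c R) z r := by
  have hH := HD_continuous (c := c) hg hR
  apply submean_of_local hH _ z hr
  intro z
  by_cases hz : z ∈ ball c R
  · obtain ⟨ρ, hρ, hρb⟩ := Metric.isOpen_iff.1 isOpen_ball z hz
    refine ⟨ρ, hρ, fun r hr hr' => ?_⟩
    rw [HD_mean hg]
    rw [abs_of_pos hr]
    exact (closedBall_subset_ball hr').trans hρb
  · refine ⟨1, one_pos, fun r hr _ => ?_⟩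
    rw [HD_of_notMem hz]
    refine (hsub z r hr).trans ?_
    apply circleAverage_mono (cont_circleIntegrable hg _ _) (cont_circleIntegrable hH _ _)
    intro x _
    exact le_HD hg hR (fun z _ => ⟨1, one_pos, fun r hr _ => hsub z r hr⟩) x

end Pool.Agent.H907R2
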