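import Pool.Agent.H907R2.Affine

/-!
Integration by parts formulas on `ℂ × ℂ`.
-/

open MeasureTheory Metric Set Complex Real Filter
open scoped Topology ContDiff NNReal

namespace Pool.Agent.H907R2

/-- Directional derivative. -/
noncomputable def D (p : ℂ × ℂ) (f : ℂ × ℂ → ℝ) (x : ℂ × ℂ) : ℝ := fderiv ℝ f x p

/-- Smooth functions. -/
abbrev Sm (f : ℂ × ℂ → ℝ) : Prop := ContDiff ℝ ∞ f

lemma D_sm {f : ℂ × ℂ → ℝ} (hf : Sm f) (p : ℂ × ℂ) : Sm (D p f) := by
  have h : ContDiff ℝ ∞ (fderiv ℝ f) := hf.fderiv_right (by simp)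
  exact h.clm_apply contDiff_const

lemma Sm.hasD {f : ℂ × ℂ → ℝ} (hf : Sm f) (x : ℂ × ℂ) : HasFDerivAt f (fderiv ℝ f x) x :=
  (hf.differentiable (by simp) x).hasFDerivAt

lemma D_D {f : ℂ × ℂ → ℝ} (hf : Sm f) (p q x : ℂ × ℂ) :
    D p (D q f) x = fderiv ℝ (fderiv ℝ f) x p q := by
  have h : ContDiff ℝ ∞ (fderiv ℝ f) := hf.fderiv_right (by simp)
  have h2 : DifferentiableAt ℝ (fderiv ℝ f) x := h.differentiable (by simp) x
  have h3 := fderiv_clm_apply (𝕜 := ℝ) h2 (differentiableAt_const q)
  change fderiv ℝ (fun y => fderiv ℝ f y q) x p = _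
  rw [h3]
  simp

lemma D_comm {f : ℂ × ℂ → ℝ} (hf : Sm f) (p q : ℂ × ℂ) : D p (D q f) = D q (D p f) := by
  ext x
  rw [D_D hf, D_D hf]
  have : IsSymmSndFDerivAt ℝ f x :=
    hf.contDiffAt.isSymmSndFDerivAt (by
      rw [minSmoothness_of_isRCLikeNormedField]
      exact WithTop.coe_le_coe.2 (le_top : (2 : ℕ∞) ≤ ⊤))
  exact this p q

lemma D_dd (f : ℂ × ℂ → ℝ) (p q x : ℂ × ℂ) : D p (D q f) x = dd f q p x := rfl

lemma D_mul {f g : ℂ × ℂ → ℝ} (hf : Sm f) (hg : Sm g) (p x : ℂ × ℂ) :
    D p (fun y => f y * g y) x = D p f x * g x + f x * D p g x := by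
  have h := (hf.hasD x).mul (hg.hasD x)
  have e : fderiv ℝ (fun y => f y * g y) x = f x • fderiv ℝ g x + g x • fderiv ℝ f x := h.fderiv
  simp only [D, e, _root_.add_apply, _root_.smul_apply, smul_eq_mul]
  ring

lemma D_mul3 {f g h : ℂ × ℂ → ℝ} (hf : Sm f) (hg : Sm g) (hh : Sm h) (p x : ℂ × ℂ) :
    D p (fun y => f y * (g y * h y)) x =
      D p f x * (g x * h x) + f x * (D p g x * h x + g x * D p h x) := by
  rw [D_mul hf (hg.mul hh), D_mul hg hh]

lemma D_five {f g h k l : ℂ × ℂ → ℝ} (hf : Sm f) (hg : Sm g) (hh : Sm h) (hk : Sm k) (hl : Sm l)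
    (p x : ℂ × ℂ) :
    D p (fun y => f y * (g y * h y - k y * l y)) x =
      D p f x * (g x * h x - k x * l x) +
        f x * (D p g x * h x + g x * D p h x - (D p k x * l x + k x * D p l x)) := by
  rw [D_mul hf ((hg.mul hh).sub (hk.mul hl))]
  have h1 := ((hg.hasD x).mul (hh.hasD x)).sub ((hk.hasD x).mul (hl.hasD x))
  have e : fderiv ℝ (fun y => g y * h y - k y * l y) x =
      (g x • fderiv ℝ h x + h x • fderiv ℝ g x) - (k x • fderiv ℝ l x + l x • fderiv ℝ k x) :=
    h1.fderiv
  have e2 : D p (fun y => g y * h y - k y * l y) x =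
      (D p g x * h x + g x * D p h x - (D p k x * l x + k x * D p l x)) := by
    simp only [D, e, _root_.add_apply, _root_.smul_apply, smul_eq_mul,
      _root_.sub_apply]
    ring
  rw [e2]

instance haar2 : (volume : Measure (ℂ × ℂ)).IsAddHaarMeasure := by
  rw [Measure.volume_eq_prod]; infer_instance

lemma cs_D {f : ℂ × ℂ → ℝ} (hc : HasCompactSupport f) (p : ℂ × ℂ) : HasCompactSupport (D p f) :=
  hc.fderiv_apply (𝕜 := ℝ) p

lemma int_sm {f : ℂ × ℂ → ℝ} (hf : Continuous f) (hc : HasCompactSupport f) : Integrable f :=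
  hf.integrable_of_hasCompactSupport hc

lemma ibp {f g : ℂ × ℂ → ℝ} (hf : Sm f) (hg : Sm g) (hc : HasCompactSupport f) (p : ℂ × ℂ) :
    ∫ x, f x * D p g x = - ∫ x, D p f x * g x := by
  apply integral_mul_fderiv_eq_neg_fderiv_mul_of_integrable
  · exact int_sm ((D_sm hf p).continuous.mul hg.continuous) (cs_D hc p).mul_right
  · exact int_sm (hf.continuous.mul (D_sm hg p).continuous) hc.mul_right
  · exact int_sm (hf.continuous.mul hg.continuous) hc.mul_right
  · exact fun x _ => hf.differentiable (by simp) x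
  · exact fun x _ => hg.differentiable (by simp) x

lemma int_D {f : ℂ × ℂ → ℝ} (hf : Sm f) (hc : HasCompactSupport f) (p : ℂ × ℂ) :
    ∫ x, D p f x = 0 := by
  have h := ibp hf (contDiff_const (c := (1 : ℝ))) hc p
  have e : ∀ x, D p (fun _ : ℂ × ℂ => (1 : ℝ)) x = 0 := by
    intro x; simp [D]
  simp only [e, mul_zero, mul_one, integral_zero] at h
  linarith

lemma sum4 {f g h k : ℂ × ℂ → ℝ} (hf : Integrable f) (hg : Integrable g) (hh : Integrable h)
    (hk : Integrable k) :
    ∫ x, (f x + g x - h x - k x) = (∫ x, f x) + (∫ x, g x) - (∫ x, h x) - (∫ x, k x) := by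
  have h1 : Integrable (fun x => f x + g x) := hf.add hg
  have h2 : Integrable (fun x => f x + g x - h x) := h1.sub hh
  rw [i_sub h2 hk, i_sub h1 hh, i_add hf hg]

lemma sum6 {f g h k l m : ℂ × ℂ → ℝ} (hf : Integrable f) (hg : Integrable g) (hh : Integrable h)
    (hk : Integrable k) (hl : Integrable l) (hm : Integrable m) :
    ∫ x, (f x + g x - h x + k x - l x + m x) =
      (∫ x, f x) + (∫ x, g x) - (∫ x, h x) + (∫ x, k x) - (∫ x, l x) + (∫ x, m x) := by
  have h1 : Integrable (fun x => f x + g x) := hf.add hg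
  have h2 : Integrable (fun x => f x + g x - h x) := h1.sub hh
  have h3 : Integrable (fun x => f x + g x - h x + k x) := h2.add hk
  have h4 : Integrable (fun x => f x + g x - h x + k x - l x) := h3.sub hl
  rw [i_add h4 hm, i_sub h3 hl, i_add h2 hk, i_sub h1 hh, i_add hf hg]

/-- polarised minor of the Hessian -/
noncomputable def br (p q r t : ℂ × ℂ) (b c : ℂ × ℂ → ℝ) (x : ℂ × ℂ) : ℝ :=
  D p (D r b) x * D q (D t c) x + D q (D t b) x * D p (D r c) x -
    D p (D t b) x * D q (D r c) x - D q (D r b) x * D p (D t c) x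

lemma br_continuous {b c : ℂ × ℂ → ℝ} (hb : Sm b) (hc : Sm c) (p q r t : ℂ × ℂ) :
    Continuous (br p q r t b c) := by
  have h : ∀ {f} (_ : Sm f) (p q : ℂ × ℂ), Continuous (D p (D q f)) :=
    fun hf p q => (D_sm (D_sm hf q) p).continuous
  have := h hb p r
  have := h hb q t
  have := h hb p t
  have := h hb q r
  have := h hc p r
  have := h hc q t
  have := h hc p t
  have := h hc q r
  unfold br
  fun_prop

/-- The four-fold integration by parts. -/
lemma J_pointwise {a b c : ℂ × ℂ → ℝ} (ha : Sm a) (hb : Sm b) (hc : Sm c) (p q r t x : ℂ × ℂ) :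
    a x * br p q r t b c x - b x * br p q r t a c x =
      D p (fun y => a y * (D r b y * D q (D t c) y - D t b y * D q (D r c) y)) x +
      D q (fun y => a y * (D t b y * D p (D r c) y - D r b y * D p (D t c) y)) x -
      D r (fun y => b y * (D p a y * D q (D t c) y - D q a y * D p (D t c) y)) x -
      D t (fun y => b y * (D q a y * D p (D r c) y - D p a y * D q (D r c) y)) x := by
  have s1 := fun p => D_sm ha p
  have s2 := fun p => D_sm hb p
  have s3 := fun p => D_sm hc p
  have s4 := fun p q => D_sm (D_sm hc q) p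
  rw [D_five ha (s2 r) (s4 q t) (s2 t) (s4 q r), D_five ha (s2 t) (s4 p r) (s2 r) (s4 p t),
    D_five hb (s1 p) (s4 q t) (s1 q) (s4 p t), D_five hb (s1 q) (s4 p r) (s1 p) (s4 q r)]
  have c1 : D q (D p (D r c)) = D p (D q (D r c)) := D_comm (s3 r) q p
  have c2 : D q (D p (D t c)) = D p (D q (D t c)) := D_comm (s3 t) q p
  have c3 : D r (D q (D t c)) = D q (D t (D r c)) := by
    rw [D_comm (s3 t) r q, D_comm hc r t]
  have c4 : D r (D p (D t c)) = D p (D t (D r c)) := by
    rw [D_comm (s3 t) r p, D_comm hc r t]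
  have c5 : D t (D p (D r c)) = D p (D t (D r c)) := D_comm (s3 r) t p
  have c6 : D t (D q (D r c)) = D q (D t (D r c)) := D_comm (s3 r) t q
  have c7 : D r (D p a) = D p (D r a) := D_comm ha r p
  have c8 : D r (D q a) = D q (D r a) := D_comm ha r q
  have c9 : D t (D q a) = D q (D t a) := D_comm ha t q
  have c10 : D t (D p a) = D p (D t a) := D_comm ha t p
  rw [c1, c2, c3, c4, c5, c6, c7, c8, c9, c10]
  simp only [br]
  ring

lemma J_lemma {a b c : ℂ × ℂ → ℝ} (ha : Sm a) (hb : Sm b) (hc : Sm c) (hac : HasCompactSupport a)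
    (p q r t : ℂ × ℂ) :
    ∫ x, a x * br p q r t b c x = ∫ x, b x * br p q r t a c x := by
  have s1 := fun p => D_sm ha p
  have s2 := fun p => D_sm hb p
  have s3 := fun p => D_sm hc p
  have s4 := fun p q => D_sm (D_sm hc q) p
  have i1 : Integrable (fun x => a x * br p q r t b c x) :=
    int_sm (ha.continuous.mul (br_continuous hb hc _ _ _ _)) hac.mul_right
  have cbr : HasCompactSupport (br p q r t a c) := by
    have h1 : HasCompactSupport (fun x => D p (D r a) x * D q (D t c) x) :=
      (cs_D (cs_D hac r) p).mul_right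
    have h2 : HasCompactSupport (fun x => D q (D t a) x * D p (D r c) x) :=
      (cs_D (cs_D hac t) q).mul_right
    have h3 : HasCompactSupport (fun x => D p (D t a) x * D q (D r c) x) :=
      (cs_D (cs_D hac t) p).mul_right
    have h4 : HasCompactSupport (fun x => D q (D r a) x * D p (D t c) x) :=
      (cs_D (cs_D hac r) q).mul_right
    exact ((h1.add h2).sub h3).sub h4
  have i2 : Integrable (fun x => b x * br p q r t a c x) :=
    int_sm (hb.continuous.mul (br_continuous ha hc _ _ _ _)) cbr.mul_left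
  have V1 : Sm (fun y => a y * (D r b y * D q (D t c) y - D t b y * D q (D r c) y)) :=
    ha.mul (((s2 r).mul (s4 q t)).sub ((s2 t).mul (s4 q r)))
  have V2 : Sm (fun y => a y * (D t b y * D p (D r c) y - D r b y * D p (D t c) y)) :=
    ha.mul (((s2 t).mul (s4 p r)).sub ((s2 r).mul (s4 p t)))
  have V3 : Sm (fun y => b y * (D p a y * D q (D t c) y - D q a y * D p (D t c) y)) :=
    hb.mul (((s1 p).mul (s4 q t)).sub ((s1 q).mul (s4 p t)))
  have V4 : Sm (fun y => b y * (D q a y * D p (D r c) y - D p a y * D q (D r c) y)) :=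
    hb.mul (((s1 q).mul (s4 p r)).sub ((s1 p).mul (s4 q r)))
  have W1 : HasCompactSupport (fun y => a y * (D r b y * D q (D t c) y - D t b y * D q (D r c) y)) :=
    hac.mul_right
  have W2 : HasCompactSupport (fun y => a y * (D t b y * D p (D r c) y - D r b y * D p (D t c) y)) :=
    hac.mul_right
  have W3 : HasCompactSupport
      (fun y => b y * (D p a y * D q (D t c) y - D q a y * D p (D t c) y)) := by
    have h1 : HasCompactSupport (fun y => D p a y * D q (D t c) y) := (cs_D hac p).mul_right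
    have h2 : HasCompactSupport (fun y => D q a y * D p (D t c) y) := (cs_D hac q).mul_right
    exact (h1.sub h2).mul_left
  have W4 : HasCompactSupport
      (fun y => b y * (D q a y * D p (D r c) y - D p a y * D q (D r c) y)) := by
    have h1 : HasCompactSupport (fun y => D q a y * D p (D r c) y) := (cs_D hac q).mul_right
    have h2 : HasCompactSupport (fun y => D p a y * D q (D r c) y) := (cs_D hac p).mul_right
    exact (h1.sub h2).mul_left
  have z1 := int_D V1 W1 p
  have z2 := int_D V2 W2 q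
  have z3 := int_D V3 W3 r
  have z4 := int_D V4 W4 t
  have j1 := int_sm (D_sm V1 p).continuous (cs_D W1 p)
  have j2 := int_sm (D_sm V2 q).continuous (cs_D W2 q)
  have j3 := int_sm (D_sm V3 r).continuous (cs_D W3 r)
  have j4 := int_sm (D_sm V4 t).continuous (cs_D W4 t)
  have key := i_sub i1 i2
  simp_rw [J_pointwise ha hb hc p q r t] at key
  rw [sum4 j1 j2 j3 j4, z1, z2, z3, z4] at key
  linarith

/-- First order formula. -/
lemma F_pointwise {a w : ℂ × ℂ → ℝ} (ha : Sm a) (hw : Sm w) (p q r t x : ℂ × ℂ) :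
    a x * br p q r t w w x +
      (D p (D r a) x * (D q w x * D t w x) + D q (D t a) x * (D p w x * D r w x) -
        D p (D t a) x * (D q w x * D r w x) - D q (D r a) x * (D p w x * D t w x)) =
      D p (fun y => a y * (D r w y * D q (D t w) y - D t w y * D q (D r w) y)) x +
      D q (fun y => a y * (D t w y * D p (D r w) y - D r w y * D p (D t w) y)) x -
      D t (fun y => D p a y * (D r w y * D q w y)) x +
      D r (fun y => D p a y * (D t w y * D q w y)) x -
      D r (fun y => D q a y * (D t w y * D p w y)) x +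
      D t (fun y => D q a y * (D r w y * D p w y)) x := by
  have s1 := fun p => D_sm ha p
  have s2 := fun p => D_sm hw p
  have s4 := fun p q => D_sm (D_sm hw q) p
  rw [D_five ha (s2 r) (s4 q t) (s2 t) (s4 q r), D_five ha (s2 t) (s4 p r) (s2 r) (s4 p t),
    D_mul3 (s1 p) (s2 r) (s2 q), D_mul3 (s1 p) (s2 t) (s2 q), D_mul3 (s1 q) (s2 t) (s2 p),
    D_mul3 (s1 q) (s2 r) (s2 p)]
  have c1 : D q (D p (D r w)) = D p (D q (D r w)) := D_comm (s2 r) q p
  have c2 : D q (D p (D t w)) = D p (D q (D t w)) := D_comm (s2 t) q p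
  have c3 : D t (D r w) = D r (D t w) := D_comm hw t r
  have c4 : D t (D q w) = D q (D t w) := D_comm hw t q
  have c5 : D r (D q w) = D q (D r w) := D_comm hw r q
  have c6 : D r (D p w) = D p (D r w) := D_comm hw r p
  have c6' : D t (D p w) = D p (D t w) := D_comm hw t p
  have c7 : D r (D p a) = D p (D r a) := D_comm ha r p
  have c8 : D r (D q a) = D q (D r a) := D_comm ha r q
  have c9 : D t (D q a) = D q (D t a) := D_comm ha t q
  have c10 : D t (D p a) = D p (D t a) := D_comm ha t p
  rw [c1, c2, c3, c4, c5, c6, c6', c7, c8, c9, c10]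
  simp only [br]
  ring

lemma F_lemma {a w : ℂ × ℂ → ℝ} (ha : Sm a) (hw : Sm w) (hac : HasCompactSupport a)
    (p q r t : ℂ × ℂ) :
    ∫ x, a x * br p q r t w w x =
      - ∫ x, (D p (D r a) x * (D q w x * D t w x) + D q (D t a) x * (D p w x * D r w x) -
        D p (D t a) x * (D q w x * D r w x) - D q (D r a) x * (D p w x * D t w x)) := by
  have s1 := fun p => D_sm ha p
  have s2 := fun p => D_sm hw p
  have s4 := fun p q => D_sm (D_sm hw q) p
  have i1 : Integrable (fun x => a x * br p q r t w w x) :=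
    int_sm (ha.continuous.mul (br_continuous hw hw _ _ _ _)) hac.mul_right
  have hterm : ∀ p q r t : ℂ × ℂ, Continuous (fun x => D p (D r a) x * (D q w x * D t w x)) ∧
      HasCompactSupport (fun x => D p (D r a) x * (D q w x * D t w x)) := by
    intro p q r t
    have h1 := (D_sm (D_sm ha r) p).continuous
    have h2 := (s2 q).continuous
    have h3 := (s2 t).continuous
    exact ⟨by fun_prop, (cs_D (cs_D hac r) p).mul_right⟩
  have i2 : Integrable (fun x => (D p (D r a) x * (D q w x * D t w x) +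
      D q (D t a) x * (D p w x * D r w x) -
        D p (D t a) x * (D q w x * D r w x) - D q (D r a) x * (D p w x * D t w x))) := by
    have h1 := hterm p q r t
    have h2 := hterm q p t r
    have h3 := hterm p q t r
    have h4 := hterm q p r t
    exact (((int_sm h1.1 h1.2).add (int_sm h2.1 h2.2)).sub (int_sm h3.1 h3.2)).sub
      (int_sm h4.1 h4.2)
  have V1 : Sm (fun y => a y * (D r w y * D q (D t w) y - D t w y * D q (D r w) y)) :=
    ha.mul (((s2 r).mul (s4 q t)).sub ((s2 t).mul (s4 q r)))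
  have V2 : Sm (fun y => a y * (D t w y * D p (D r w) y - D r w y * D p (D t w) y)) :=
    ha.mul (((s2 t).mul (s4 p r)).sub ((s2 r).mul (s4 p t)))
  have W1 : HasCompactSupport (fun y => a y * (D r w y * D q (D t w) y - D t w y * D q (D r w) y)) :=
    hac.mul_right
  have W2 : HasCompactSupport (fun y => a y * (D t w y * D p (D r w) y - D r w y * D p (D t w) y)) :=
    hac.mul_right
  have hV : ∀ p r q, Sm (fun y => D p a y * (D r w y * D q w y)) ∧
      HasCompactSupport (fun y => D p a y * (D r w y * D q w y)) := fun p r q =>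
    ⟨(s1 p).mul ((s2 r).mul (s2 q)), (cs_D hac p).mul_right⟩
  have hV3 := hV p r q
  have hV4 := hV p t q
  have hV5 := hV q t p
  have hV6 := hV q r p
  have z1 := int_D V1 W1 p
  have z2 := int_D V2 W2 q
  have z3 := int_D hV3.1 hV3.2 t
  have z4 := int_D hV4.1 hV4.2 r
  have z5 := int_D hV5.1 hV5.2 r
  have z6 := int_D hV6.1 hV6.2 t
  have j1 := int_sm (D_sm V1 p).continuous (cs_D W1 p)
  have j2 := int_sm (D_sm V2 q).continuous (cs_D W2 q)
  have j3 := int_sm (D_sm hV3.1 t).continuous (cs_D hV3.2 t)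
  have j4 := int_sm (D_sm hV4.1 r).continuous (cs_D hV4.2 r)
  have j5 := int_sm (D_sm hV5.1 r).continuous (cs_D hV5.2 r)
  have j6 := int_sm (D_sm hV6.1 t).continuous (cs_D hV6.2 t)
  have key := i_add i1 i2
  simp_rw [F_pointwise ha hw p q r t] at key
  rw [sum6 j1 j2 j3 j4 j5 j6, z1, z2, z3, z4, z5, z6] at key
  linarith

end Pool.Agent.H907R2
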