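import Pool.Agent.H907R2.Family

/-!
Second difference quotients and the Dirichlet form of Lipschitz functions on `ℂ`.
-/

open MeasureTheory Metric Set Complex Real Filter
open scoped Topology ContDiff NNReal

namespace Pool.Agent.H907R2

/-- `e^{iθ}` -/
noncomputable def ex (θ : ℝ) : ℂ := Complex.exp (θ * Complex.I)

lemma ex_continuous : Continuous ex := by unfold ex; fun_prop

lemma norm_ex (θ : ℝ) : ‖ex θ‖ = 1 := Complex.norm_exp_ofReal_mul_I θ

lemma ex_eq (θ : ℝ) : ex θ = (Real.cos θ) • (1 : ℂ) + (Real.sin θ) • Complex.I := by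
  rw [ex, Complex.exp_mul_I]
  simp [Complex.real_smul]

lemma integrable_of_support {X : Type*} [TopologicalSpace X] [MeasurableSpace X] [BorelSpace X]
    {μ : Measure X} [IsFiniteMeasureOnCompacts μ] {f : X → ℝ} {K : Set X} (hK : IsCompact K)
    (hKm : MeasurableSet K) (hf : AEStronglyMeasurable f μ) {C : ℝ} (hC : ∀ x ∈ K, |f x| ≤ C)
    (h0 : ∀ x ∉ K, f x = 0) : Integrable f μ := by
  have hi : Integrable (K.indicator (fun _ => C)) μ :=
    (integrable_indicator_iff hKm).2 (integrableOn_const (hs := hK.measure_lt_top.ne))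
  refine hi.mono' hf (Eventually.of_forall fun x => ?_)
  by_cases hx : x ∈ K
  · rw [indicator_of_mem hx]; exact hC x hx
  · rw [indicator_of_notMem hx, h0 x hx]; simp

lemma ii_add {f g : ℝ → ℝ} (hf : Continuous f) (hg : Continuous g) (a b : ℝ) :
    (∫ x in a..b, (f x + g x)) = (∫ x in a..b, f x) + ∫ x in a..b, g x :=
  intervalIntegral.integral_add (hf.intervalIntegrable _ _) (hg.intervalIntegrable _ _)

lemma ii_sub {f g : ℝ → ℝ} (hf : Continuous f) (hg : Continuous g) (a b : ℝ) :
    (∫ x in a..b, (f x - g x)) = (∫ x in a..b, f x) - ∫ x in a..b, g x :=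
  intervalIntegral.integral_sub (hf.intervalIntegrable _ _) (hg.intervalIntegrable _ _)

lemma i_add {X : Type*} [MeasurableSpace X] {μ : Measure X} {f g : X → ℝ}
    (hf : Integrable f μ) (hg : Integrable g μ) :
    (∫ x, (f x + g x) ∂μ) = (∫ x, f x ∂μ) + ∫ x, g x ∂μ := integral_add hf hg

lemma i_sub {X : Type*} [MeasurableSpace X] {μ : Measure X} {f g : X → ℝ}
    (hf : Integrable f μ) (hg : Integrable g μ) :
    (∫ x, (f x - g x) ∂μ) = (∫ x, f x ∂μ) - ∫ x, g x ∂μ := integral_sub hf hg

lemma quot_bound {u g : ℂ → ℝ} {C D : ℝ≥0} (hu : LipschitzWith C u)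
    (hg : LipschitzWith D g) (e : ℂ) (he : ‖e‖ = 1) {r : ℝ} (hr : r ∈ Ioc (0 : ℝ) 1) (z : ℂ) :
    ‖(r⁻¹ • (g (z + r • e) - g z)) * (r⁻¹ • (u (z + r • e) - u z))‖ ≤
      (cthickening 1 (tsupport g)).indicator (fun _ => (D : ℝ) * C) z := by
  have hr0 : 0 < r := hr.1
  have b1 : ‖r⁻¹ • (g (z + r • e) - g z)‖ ≤ D := by
    rw [norm_smul, norm_inv, Real.norm_of_nonneg hr0.le]
    have := hg.dist_le_mul (z + r • e) z
    rw [dist_eq_norm, dist_eq_norm, add_sub_cancel_left, norm_smul, he, mul_one,
      Real.norm_of_nonneg hr0.le] at this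
    rw [inv_mul_le_iff₀ hr0, mul_comm]; exact this
  have b2 : ‖r⁻¹ • (u (z + r • e) - u z)‖ ≤ C := by
    rw [norm_smul, norm_inv, Real.norm_of_nonneg hr0.le]
    have := hu.dist_le_mul (z + r • e) z
    rw [dist_eq_norm, dist_eq_norm, add_sub_cancel_left, norm_smul, he, mul_one,
      Real.norm_of_nonneg hr0.le] at this
    rw [inv_mul_le_iff₀ hr0, mul_comm]; exact this
  by_cases hz : z ∈ cthickening 1 (tsupport g)
  · rw [indicator_of_mem hz, norm_mul]
    exact mul_le_mul b1 b2 (norm_nonneg _) D.coe_nonneg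
  · rw [indicator_of_notMem hz]
    have h1 : g z = 0 := by
      apply image_eq_zero_of_notMem_tsupport
      exact fun h => hz (self_subset_cthickening _ h)
    have h2 : g (z + r • e) = 0 := by
      apply image_eq_zero_of_notMem_tsupport
      intro h
      apply hz
      apply mem_cthickening_of_dist_le z (z + r • e) 1 _ h
      rw [dist_eq_norm, sub_add_cancel_left, norm_neg, norm_smul, he, mul_one,
        Real.norm_of_nonneg hr0.le]
      exact hr.2
    rw [h1, h2, sub_zero, smul_zero, zero_mul, norm_zero]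

lemma pair_identity {u g : ℂ → ℝ} (hu : Continuous u) (hg : Continuous g)
    (hgc : HasCompactSupport g) (h : ℂ) :
    (∫ z, (g z * (u (z + h) - u z) + g z * (u (z - h) - u z))) =
      -∫ z, (g (z + h) - g z) * (u (z + h) - u z) := by
  have i1 : Integrable (fun z => g z * (u (z + h) - u z)) := by
    apply Continuous.integrable_of_hasCompactSupport (by fun_prop)
    exact hgc.mul_right
  have i2 : Integrable (fun z => g z * (u (z - h) - u z)) := by
    apply Continuous.integrable_of_hasCompactSupport (by fun_prop)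
    exact hgc.mul_right
  have e2 : (∫ z, g z * (u (z - h) - u z)) = ∫ z, g (z + h) * (u z - u (z + h)) := by
    rw [← integral_add_right_eq_self (fun z => g z * (u (z - h) - u z)) h]
    simp
  have i3 : Integrable (fun z => g (z + h) * (u z - u (z + h))) := by
    have := i2.comp_add_right h
    simpa using this
  rw [integral_add i1 i2, e2, ← integral_add i1 i3, ← integral_neg]
  congr 1
  ext z; ring

lemma avg_pair {u : ℂ → ℝ} (hu : Continuous u) (z : ℂ) (r : ℝ) :
    circleAverage u z r - u z =
      (4 * π)⁻¹ * ∫ θ in (0)..(2 * π), ((u (z + r • ex θ) - u z) + (u (z - r • ex θ) - u z)) := by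
  have h1 : circleAverage u z r = (2 * π)⁻¹ * ∫ θ in (0)..(2 * π), u (z + r • ex θ) := by
    rw [circleAverage_def, smul_eq_mul]
    rfl
  have h2 : circleAverage u z r = (2 * π)⁻¹ * ∫ θ in (0)..(2 * π), u (z - r • ex θ) := by
    rw [circleAverage_eq_integral_add π, smul_eq_mul]
    congr 1
    apply intervalIntegral.integral_congr
    intro θ _
    simp only [circleMap]
    congr 1
    rw [ex, Complex.real_smul]
    push_cast
    rw [add_mul, Complex.exp_add, Complex.exp_pi_mul_I]
    ring
  have hc1 : Continuous (fun θ => u (z + r • ex θ)) := by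
    have := ex_continuous
    fun_prop
  have hc2 : Continuous (fun θ => u (z - r • ex θ)) := by
    have := ex_continuous
    fun_prop
  rw [ii_add (f := fun θ => u (z + r • ex θ) - u z) (g := fun θ => u (z - r • ex θ) - u z)
      (hc1.sub continuous_const) (hc2.sub continuous_const),
    ii_sub hc1 continuous_const, ii_sub hc2 continuous_const, intervalIntegral.integral_const]
  have hpi := Real.pi_ne_zero
  have e1 : (∫ θ in (0)..(2 * π), u (z + r • ex θ)) = 2 * π * circleAverage u z r := by
    rw [h1]; field_simp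
  have e2 : (∫ θ in (0)..(2 * π), u (z - r • ex θ)) = 2 * π * circleAverage u z r := by
    rw [h2]; field_simp
  rw [e1, e2]
  simp only [smul_eq_mul, sub_zero]
  field_simp
  ring

lemma avg_identity {u g : ℂ → ℝ} (hu : Continuous u) (hg : Continuous g)
    (hgc : HasCompactSupport g) (r : ℝ) :
    (∫ z, g z * (circleAverage u z r - u z)) =
      -((4 * π)⁻¹ * ∫ θ in (0)..(2 * π), ∫ z, (g (z + r • ex θ) - g z) *
        (u (z + r • ex θ) - u z)) := by
  have h1 : ∀ z, g z * (circleAverage u z r - u z) = (4 * π)⁻¹ * ∫ θ in (0)..(2 * π),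
      (g z * (u (z + r • ex θ) - u z) + g z * (u (z - r • ex θ) - u z)) := by
    intro z
    rw [avg_pair hu, mul_left_comm, ← intervalIntegral.integral_const_mul]
    congr 2
    ext θ; ring
  simp_rw [h1]
  rw [integral_const_mul, ← mul_neg]
  congr 1
  have hexc := ex_continuous
  rw [← intervalIntegral_integral_swap]
  · rw [← intervalIntegral.integral_neg]
    apply intervalIntegral.integral_congr
    intro θ _
    exact pair_identity hu hg hgc _
  · have hcont : Continuous (Function.uncurry (fun (θ : ℝ) (z : ℂ) =>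
        g z * (u (z + r • ex θ) - u z) + g z * (u (z - r • ex θ) - u z))) := by
      simp only [Function.uncurry_def]
      fun_prop
    obtain ⟨C, hC⟩ := (isCompact_Icc (a := (0 : ℝ)) (b := 2 * π)).prod hgc |>.exists_bound_of_continuousOn
      (f := Function.uncurry (fun (θ : ℝ) (z : ℂ) =>
        g z * (u (z + r • ex θ) - u z) + g z * (u (z - r • ex θ) - u z))) hcont.continuousOn
    have hi : Integrable (fun p : ℝ × ℂ => (1 : ℝ) * (tsupport g).indicator (fun _ => C) p.2)
        ((volume.restrict (Set.uIoc 0 (2 * π))).prod volume) := by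
      apply Integrable.mul_prod (f := fun _ : ℝ => (1 : ℝ))
      · exact integrableOn_const (hs := by simp [uIoc])
      · exact (integrable_indicator_iff hgc.isCompact.measurableSet).2
          (integrableOn_const (hs := hgc.isCompact.measure_lt_top.ne))
    refine hi.mono' hcont.aestronglyMeasurable ?_
    have hmem : ∀ᵐ p : ℝ × ℂ ∂((volume.restrict (Set.uIoc 0 (2 * π))).prod volume),
        p.1 ∈ Set.uIoc 0 (2 * π) := by
      have := ae_restrict_mem (μ := (volume : Measure ℝ)) (s := Set.uIoc 0 (2 * π))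
        measurableSet_uIoc
      exact Measure.quasiMeasurePreserving_fst.ae this
    filter_upwards [hmem] with p hp
    rw [uIoc_of_le (by positivity)] at hp
    by_cases hx : p.2 ∈ tsupport g
    · rw [indicator_of_mem hx, one_mul]
      exact hC p ⟨⟨hp.1.le, hp.2⟩, hx⟩
    · rw [indicator_of_notMem hx]
      have : g p.2 = 0 := image_eq_zero_of_notMem_tsupport hx
      simp [Function.uncurry, this]

/-- Gradient product. -/
noncomputable def Gam (u v : ℂ → ℝ) (z : ℂ) : ℝ :=
  fderiv ℝ u z 1 * fderiv ℝ v z 1 + fderiv ℝ u z Complex.I * fderiv ℝ v z Complex.I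

lemma fderiv_lip {u : ℂ → ℝ} {C : ℝ≥0} (hu : LipschitzWith C u) (z v : ℂ) :
    |fderiv ℝ u z v| ≤ C * ‖v‖ := by
  refine ((fderiv ℝ u z).le_opNorm v).trans ?_
  gcongr
  exact norm_fderiv_le_of_lipschitz ℝ hu

lemma fderiv_zero_of_notMem {g : ℂ → ℝ} {z : ℂ} (hz : z ∉ tsupport g) : fderiv ℝ g z = 0 := by
  have := support_fderiv_subset ℝ (f := g)
  by_contra h
  exact hz (this h)

lemma dir_integral_tendsto {u g : ℂ → ℝ} {C D : ℝ≥0} (hu : LipschitzWith C u)
    (hg : LipschitzWith D g) (hgc : HasCompactSupport g) (e : ℂ) (he : ‖e‖ = 1) :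
    Tendsto (fun r : ℝ => ∫ z, (r⁻¹ • (g (z + r • e) - g z)) * (r⁻¹ • (u (z + r • e) - u z)))
      (𝓝[>] 0) (𝓝 (∫ z, fderiv ℝ g z e * fderiv ℝ u z e)) := by
  have huc := hu.continuous
  have hgcont := hg.continuous
  set K : Set ℂ := cthickening 1 (tsupport g) with hK
  have hKc : IsCompact K := hgc.isCompact.cthickening
  apply tendsto_integral_filter_of_dominated_convergence (K.indicator (fun _ => (D : ℝ) * C))
  · filter_upwards with r
    apply Continuous.aestronglyMeasurable
    fun_prop
  · filter_upwards [Ioc_mem_nhdsGT (zero_lt_one' ℝ)] with r hr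
    filter_upwards with z
    exact quot_bound hu hg e he hr z
  · exact (integrable_indicator_iff hKc.measurableSet).2
      (integrableOn_const (hs := hKc.measure_lt_top.ne))
  · filter_upwards [hu.ae_differentiableAt, hg.ae_differentiableAt] with z h1 h2
    exact ((h2.hasFDerivAt.hasLineDerivAt e).tendsto_slope_zero_right).mul
      ((h1.hasFDerivAt.hasLineDerivAt e).tendsto_slope_zero_right)

lemma integrable_fderiv_mul {u g : ℂ → ℝ} {C D : ℝ≥0} (hu : LipschitzWith C u)
    (hg : LipschitzWith D g) (hgc : HasCompactSupport g) (e e' : ℂ) :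
    Integrable (fun z => fderiv ℝ g z e * fderiv ℝ u z e') := by
  apply integrable_of_support (K := tsupport g) hgc.isCompact hgc.isCompact.measurableSet
    (C := (D * ‖e‖) * (C * ‖e'‖))
  · exact ((measurable_fderiv_apply_const ℝ g e).mul
      (measurable_fderiv_apply_const ℝ u e')).aestronglyMeasurable
  · intro z _
    rw [abs_mul]
    exact mul_le_mul (fderiv_lip hg z e) (fderiv_lip hu z e') (abs_nonneg _) (by positivity)
  · intro z hz
    rw [fderiv_zero_of_notMem hz]; simp

theorem form_limit {u g : ℂ → ℝ} {C D : ℝ≥0} (hu : LipschitzWith C u)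
    (hg : LipschitzWith D g) (hgc : HasCompactSupport g) :
    Tendsto (fun r : ℝ => 4 / r ^ 2 * ∫ z, g z * (circleAverage u z r - u z)) (𝓝[>] 0)
      (𝓝 (-∫ z, Gam u g z)) := by
  have huc := hu.continuous
  have hgcont := hg.continuous
  -- the angular integral
  have h1 : Tendsto (fun r : ℝ => ∫ θ in (0)..(2 * π),
      ∫ z, (r⁻¹ • (g (z + r • ex θ) - g z)) * (r⁻¹ • (u (z + r • ex θ) - u z)))
      (𝓝[>] 0) (𝓝 (∫ θ in (0)..(2 * π), ∫ z, fderiv ℝ g z (ex θ) * fderiv ℝ u z (ex θ))) := by
    set K : Set ℂ := cthickening 1 (tsupport g) with hK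
    have hKc : IsCompact K := hgc.isCompact.cthickening
    apply intervalIntegral.tendsto_integral_filter_of_dominated_convergence
      (fun _ => ∫ z, K.indicator (fun _ => (D : ℝ) * C) z)
    · filter_upwards [Ioc_mem_nhdsGT (zero_lt_one' ℝ)] with r hr
      apply Continuous.aestronglyMeasurable
      have hexc := ex_continuous
      apply continuous_of_dominated (bound := K.indicator (fun _ => (D : ℝ) * C))
      · intro θ
        apply Continuous.aestronglyMeasurable
        fun_prop
      · intro θ
        filter_upwards with z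
        exact quot_bound hu hg (ex θ) (norm_ex θ) hr z
      · exact (integrable_indicator_iff hKc.measurableSet).2
          (integrableOn_const (hs := hKc.measure_lt_top.ne))
      · filter_upwards with z
        fun_prop
    · filter_upwards [Ioc_mem_nhdsGT (zero_lt_one' ℝ)] with r hr
      filter_upwards with θ _
      refine norm_integral_le_of_norm_le ((integrable_indicator_iff hKc.measurableSet).2
          (integrableOn_const (hs := hKc.measure_lt_top.ne))) ?_
      filter_upwards with z
      exact quot_bound hu hg (ex θ) (norm_ex θ) hr z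
    · exact intervalIntegrable_const
    · filter_upwards with θ _
      exact dir_integral_tendsto hu hg hgc (ex θ) (norm_ex θ)
  -- value of the limit
  have h2 : (∫ θ in (0)..(2 * π), ∫ z, fderiv ℝ g z (ex θ) * fderiv ℝ u z (ex θ)) =
      π * ∫ z, Gam u g z := by
    have i11 := integrable_fderiv_mul hu hg hgc 1 1
    have i1I := integrable_fderiv_mul hu hg hgc 1 Complex.I
    have iI1 := integrable_fderiv_mul hu hg hgc Complex.I 1
    have iII := integrable_fderiv_mul hu hg hgc Complex.I Complex.I
    have e1 : ∀ θ, (∫ z, fderiv ℝ g z (ex θ) * fderiv ℝ u z (ex θ)) =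
        Real.cos θ ^ 2 * (∫ z, fderiv ℝ g z 1 * fderiv ℝ u z 1) +
        Real.sin θ * Real.cos θ * ((∫ z, fderiv ℝ g z 1 * fderiv ℝ u z Complex.I) +
          (∫ z, fderiv ℝ g z Complex.I * fderiv ℝ u z 1)) +
        Real.sin θ ^ 2 * (∫ z, fderiv ℝ g z Complex.I * fderiv ℝ u z Complex.I) := by
      intro θ
      have j2 : Integrable (fun z => fderiv ℝ g z 1 * fderiv ℝ u z Complex.I +
        fderiv ℝ g z Complex.I * fderiv ℝ u z 1) := i1I.add iI1
      have j3 : Integrable (fun z => Real.cos θ ^ 2 * (fderiv ℝ g z 1 * fderiv ℝ u z 1) +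
        Real.sin θ * Real.cos θ * (fderiv ℝ g z 1 * fderiv ℝ u z Complex.I +
        fderiv ℝ g z Complex.I * fderiv ℝ u z 1)) := (i11.const_mul _).add (j2.const_mul _)
      rw [← i_add i1I iI1, ← integral_const_mul, ← integral_const_mul, ← integral_const_mul,
        ← i_add (i11.const_mul _) (j2.const_mul _), ← i_add j3 (iII.const_mul _)]
      congr 1
      ext z
      rw [ex_eq, map_add, map_smul, map_smul, map_add, map_smul, map_smul]
      simp only [smul_eq_mul]
      ring
    simp_rw [e1]
    have c1 : Continuous (fun θ : ℝ => Real.cos θ ^ 2) := by fun_prop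
    have c2 : Continuous (fun θ : ℝ => Real.sin θ * Real.cos θ) := by fun_prop
    have c3 : Continuous (fun θ : ℝ => Real.sin θ ^ 2) := by fun_prop
    rw [ii_add (f := fun θ => Real.cos θ ^ 2 * (∫ z, fderiv ℝ g z 1 * fderiv ℝ u z 1) +
        Real.sin θ * Real.cos θ * ((∫ z, fderiv ℝ g z 1 * fderiv ℝ u z Complex.I) +
          (∫ z, fderiv ℝ g z Complex.I * fderiv ℝ u z 1)))
        (g := fun θ => Real.sin θ ^ 2 * (∫ z, fderiv ℝ g z Complex.I * fderiv ℝ u z Complex.I))
        (by fun_prop) (by fun_prop),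
      ii_add (f := fun θ => Real.cos θ ^ 2 * (∫ z, fderiv ℝ g z 1 * fderiv ℝ u z 1))
        (g := fun θ => Real.sin θ * Real.cos θ *
          ((∫ z, fderiv ℝ g z 1 * fderiv ℝ u z Complex.I) +
          (∫ z, fderiv ℝ g z Complex.I * fderiv ℝ u z 1))) (by fun_prop) (by fun_prop),
      intervalIntegral.integral_mul_const, intervalIntegral.integral_mul_const,
      intervalIntegral.integral_mul_const, integral_cos_sq, integral_sin_sq,
      integral_sin_mul_cos₁]
    simp only [Real.sin_two_pi, Real.cos_two_pi, Real.sin_zero, Real.cos_zero]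
    have e2 : (∫ z, Gam u g z) = (∫ z, fderiv ℝ g z 1 * fderiv ℝ u z 1) +
        ∫ z, fderiv ℝ g z Complex.I * fderiv ℝ u z Complex.I := by
      rw [← i_add i11 iII]
      congr 1
      ext z; simp only [Gam]; ring
    rw [e2]
    ring
  have h3 : (-∫ z, Gam u g z) = -(π⁻¹ * (∫ θ in (0)..(2 * π),
      ∫ z, fderiv ℝ g z (ex θ) * fderiv ℝ u z (ex θ))) := by
    rw [h2, ← mul_assoc, inv_mul_cancel₀ Real.pi_ne_zero, one_mul]
  rw [h3]
  refine ((h1.const_mul π⁻¹).neg).congr' ?_
  filter_upwards [self_mem_nhdsWithin] with r hr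
  have hr0 : (0 : ℝ) < r := hr
  rw [avg_identity huc hgcont hgc, mul_neg, neg_inj]
  have : ∀ θ, (∫ z, (r⁻¹ • (g (z + r • ex θ) - g z)) * (r⁻¹ • (u (z + r • ex θ) - u z))) =
      (r ^ 2)⁻¹ * ∫ z, (g (z + r • ex θ) - g z) * (u (z + r • ex θ) - u z) := by
    intro θ
    rw [← integral_const_mul]
    congr 1
    ext z
    simp only [smul_eq_mul]
    field_simp
  simp_rw [this]
  rw [intervalIntegral.integral_const_mul]
  field_simp

end Pool.Agent.H907R2
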