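import Pool.Agent.H907R2.Limit

/-!
Bounded Lipschitz functions and the functional `Lam`.
-/

open MeasureTheory Metric Set Complex Real Filter
open scoped Topology ContDiff NNReal

namespace Pool.Agent.H907R2

/-- Bounded Lipschitz functions. -/
def BL (u : ℂ → ℝ) : Prop :=
  ∃ C M : ℝ, 0 ≤ C ∧ 0 ≤ M ∧ (∀ z w, |u z - u w| ≤ C * ‖z - w‖) ∧ ∀ z, |u z| ≤ M

lemma BL.of_bounds {u : ℂ → ℝ} {C M : ℝ} (h1 : ∀ z w, |u z - u w| ≤ C * ‖z - w‖)
    (h2 : ∀ z, |u z| ≤ M) : BL u := by
  refine ⟨|C|, |M|, abs_nonneg _, abs_nonneg _, fun z w => (h1 z w).trans ?_,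
    fun z => (h2 z).trans (le_abs_self _)⟩
  gcongr
  exact le_abs_self C

lemma BL.lip {u : ℂ → ℝ} (h : BL u) : ∃ C : ℝ≥0, LipschitzWith C u := by
  obtain ⟨C, M, hC, hM, h1, h2⟩ := h
  refine ⟨⟨C, hC⟩, LipschitzWith.of_dist_le_mul fun z w => ?_⟩
  rw [Real.dist_eq, dist_eq_norm]
  exact h1 z w

lemma BL.continuous {u : ℂ → ℝ} (h : BL u) : Continuous u := by
  obtain ⟨C, hC⟩ := h.lip
  exact hC.continuous

lemma BL.ae {u : ℂ → ℝ} (h : BL u) : ∀ᵐ z : ℂ, DifferentiableAt ℝ u z := by
  obtain ⟨C, hC⟩ := h.lip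
  exact hC.ae_differentiableAt

lemma BL.const (a : ℝ) : BL (fun _ => a) :=
  BL.of_bounds (C := 0) (M := |a|) (by simp) (by simp)

lemma BL.add {u v : ℂ → ℝ} (hu : BL u) (hv : BL v) : BL (fun z => u z + v z) := by
  obtain ⟨C, M, hC, hM, h1, h2⟩ := hu
  obtain ⟨C', M', hC', hM', h1', h2'⟩ := hv
  refine ⟨C + C', M + M', by positivity, by positivity, fun z w => ?_, fun z => ?_⟩
  · have e : u z + v z - (u w + v w) = (u z - u w) + (v z - v w) := by ring
    rw [e, add_mul]
    exact (abs_add_le _ _).trans (add_le_add (h1 z w) (h1' z w))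
  · exact (abs_add_le _ _).trans (add_le_add (h2 z) (h2' z))

lemma BL.mul {u v : ℂ → ℝ} (hu : BL u) (hv : BL v) : BL (fun z => u z * v z) := by
  obtain ⟨C, M, hC, hM, h1, h2⟩ := hu
  obtain ⟨C', M', hC', hM', h1', h2'⟩ := hv
  refine ⟨M * C' + C * M', M * M', by positivity, by positivity, fun z w => ?_, fun z => ?_⟩
  · have e : u z * v z - u w * v w = u z * (v z - v w) + (u z - u w) * v w := by ring
    rw [e]
    refine (abs_add_le _ _).trans ?_
    rw [abs_mul, abs_mul]
    have a1 := mul_le_mul (h2 z) (h1' z w) (abs_nonneg _) hM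
    have a2 := mul_le_mul (h1 z w) (h2' w) (abs_nonneg _) (by positivity)
    nlinarith
  · rw [abs_mul]
    exact mul_le_mul (h2 z) (h2' z) (abs_nonneg _) hM

lemma BL.neg {u : ℂ → ℝ} (hu : BL u) : BL (fun z => -u z) := by
  have := (BL.const (-1)).mul hu
  simpa using this

lemma BL.sub {u v : ℂ → ℝ} (hu : BL u) (hv : BL v) : BL (fun z => u z - v z) := by
  have := hu.add hv.neg
  simpa [sub_eq_add_neg] using this

lemma BL.max {u v : ℂ → ℝ} (hu : BL u) (hv : BL v) : BL (fun z => max (u z) (v z)) := by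
  obtain ⟨C, M, hC, hM, h1, h2⟩ := hu
  obtain ⟨C', M', hC', hM', h1', h2'⟩ := hv
  refine ⟨C + C', M + M', by positivity, by positivity, fun z w => ?_, fun z => ?_⟩
  · refine (abs_max_sub_max_le_max _ _ _ _).trans ?_
    apply max_le
    · refine (h1 z w).trans ?_
      have : 0 ≤ C' * ‖z - w‖ := by positivity
      linarith
    · refine (h1' z w).trans ?_
      have : 0 ≤ C * ‖z - w‖ := by positivity
      linarith
  · rw [abs_le]
    have a := abs_le.1 (h2 z)
    have b := abs_le.1 (h2' z)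
    constructor
    · exact le_trans (by linarith) (le_max_left _ _)
    · exact max_le (by linarith) (by linarith)

lemma BL.fderiv_bound {u : ℂ → ℝ} (h : BL u) : ∃ C : ℝ, 0 ≤ C ∧ ∀ z v, |fderiv ℝ u z v| ≤ C * ‖v‖ := by
  obtain ⟨C, hC⟩ := h.lip
  exact ⟨C, C.coe_nonneg, fun z v => fderiv_lip hC z v⟩

lemma Gam_comm (u v : ℂ → ℝ) (z : ℂ) : Gam u v z = Gam v u z := by
  unfold Gam; ring

lemma Gam_measurable (u v : ℂ → ℝ) : Measurable (Gam u v) := by
  unfold Gam
  exact ((measurable_fderiv_apply_const ℝ u 1).mul (measurable_fderiv_apply_const ℝ v 1)).add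
    ((measurable_fderiv_apply_const ℝ u Complex.I).mul
      (measurable_fderiv_apply_const ℝ v Complex.I))

lemma Gam_bound {u v : ℂ → ℝ} (hu : BL u) (hv : BL v) : ∃ C : ℝ, ∀ z, |Gam u v z| ≤ C := by
  obtain ⟨C, hC, h1⟩ := hu.fderiv_bound
  obtain ⟨D, hD, h2⟩ := hv.fderiv_bound
  refine ⟨C * D + C * D, fun z => ?_⟩
  unfold Gam
  refine (abs_add_le _ _).trans ?_
  have a1 := h1 z 1
  have a2 := h2 z 1
  have a3 := h1 z Complex.I
  have a4 := h2 z Complex.I
  simp only [norm_one, mul_one, Complex.norm_I] at a1 a2 a3 a4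
  rw [abs_mul, abs_mul]
  exact add_le_add (mul_le_mul a1 a2 (abs_nonneg _) hC) (mul_le_mul a3 a4 (abs_nonneg _) hC)

lemma integrable_mul_Gam {a u v : ℂ → ℝ} (ha : Continuous a) (hac : HasCompactSupport a)
    (hu : BL u) (hv : BL v) : Integrable (fun z => a z * Gam u v z) := by
  obtain ⟨C, hC⟩ := Gam_bound hu hv
  obtain ⟨M, hM⟩ := hac.isCompact.exists_bound_of_continuousOn (f := a) ha.continuousOn
  apply integrable_of_support (K := tsupport a) hac.isCompact hac.isCompact.measurableSet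
    (C := M * C)
  · exact (ha.measurable.mul (Gam_measurable u v)).aestronglyMeasurable
  · intro z hz
    rw [abs_mul]
    have h1 : |a z| ≤ M := hM z hz
    exact mul_le_mul h1 (hC z) (abs_nonneg _) ((abs_nonneg _).trans h1)
  · intro z hz
    rw [image_eq_zero_of_notMem_tsupport hz, zero_mul]

lemma integrable_Gam {u g : ℂ → ℝ} (hu : BL u) (hg : BL g) (hgc : HasCompactSupport g) :
    Integrable (Gam u g) := by
  obtain ⟨C, hC⟩ := hu.lip
  obtain ⟨D, hD⟩ := hg.lip
  have h1 := integrable_fderiv_mul hC hD hgc 1 1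
  have h2 := integrable_fderiv_mul hC hD hgc Complex.I Complex.I
  refine (h1.add h2).congr (Eventually.of_forall fun z => ?_)
  simp only [Gam, Pi.add_apply]
  ring

lemma integrable_cc {g : ℂ → ℝ} (hg : Continuous g) (hgc : HasCompactSupport g) :
    Integrable g := hg.integrable_of_hasCompactSupport hgc

/-- `∫ (4κ g - ∇u·∇g)` -/
noncomputable def Lam (u g : ℂ → ℝ) : ℝ := ∫ z, (4 * kap * g z - Gam u g z)

lemma Lam_eq {u g : ℂ → ℝ} (hu : BL u) (hg : BL g) (hgc : HasCompactSupport g) :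
    Lam u g = 4 * kap * (∫ z, g z) - ∫ z, Gam u g z := by
  rw [Lam, i_sub ((integrable_cc hg.continuous hgc).const_mul _) (integrable_Gam hu hg hgc),
    integral_const_mul]

lemma Lam_tendsto {u g : ℂ → ℝ} (hu : BL u) (hg : BL g) (hgc : HasCompactSupport g) :
    Tendsto (fun r : ℝ => 4 / r ^ 2 * ∫ z, g z * (circleAverage u z r - u z + kap * r ^ 2))
      (𝓝[>] 0) (𝓝 (Lam u g)) := by
  obtain ⟨C, hC⟩ := hu.lip
  obtain ⟨D, hD⟩ := hg.lip
  have h := form_limit hC hD hgc
  have h2 : Tendsto (fun r : ℝ => 4 * kap * (∫ z, g z) +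
      4 / r ^ 2 * ∫ z, g z * (circleAverage u z r - u z)) (𝓝[>] 0) (𝓝 (Lam u g)) := by
    rw [Lam_eq hu hg hgc, sub_eq_add_neg]
    exact tendsto_const_nhds.add h
  refine h2.congr' ?_
  filter_upwards [self_mem_nhdsWithin] with r hr
  have hr0 : (0 : ℝ) < r := hr
  have hcA : Continuous (fun z => circleAverage u z r) := by
    have huc := hu.continuous
    have hexc := ex_continuous
    have e : (fun z => circleAverage u z r) =
        fun z => (2 * π)⁻¹ * ∫ θ in (0)..(2 * π), u (z + r • ex θ) := by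
      ext z
      rw [circleAverage_def, smul_eq_mul]
      rfl
    rw [e]
    apply continuous_const.mul
    apply intervalIntegral.continuous_parametric_intervalIntegral_of_continuous'
    simp only [Function.uncurry_def]
    fun_prop
  have i1 : Integrable (fun z => g z * (circleAverage u z r - u z)) :=
    integrable_cc (hg.continuous.mul (hcA.sub hu.continuous)) hgc.mul_right
  have i2 : Integrable (fun z => g z * (kap * r ^ 2)) :=
    (integrable_cc hg.continuous hgc).mul_const _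
  have e : (fun z => g z * (circleAverage u z r - u z + kap * r ^ 2)) =
      fun z => g z * (circleAverage u z r - u z) + g z * (kap * r ^ 2) := by
    ext z; ring
  rw [e, i_add i1 i2, integral_mul_const]
  field_simp
  ring

lemma Lam_nonneg {u g : ℂ → ℝ} (hu : BL u) (hs : Sub kap u) (hg : BL g)
    (hgc : HasCompactSupport g) (hg0 : ∀ z, 0 ≤ g z) : 0 ≤ Lam u g := by
  apply ge_of_tendsto (Lam_tendsto hu hg hgc)
  filter_upwards [self_mem_nhdsWithin] with r hr
  have hr0 : (0 : ℝ) < r := hr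
  apply mul_nonneg (by positivity)
  apply integral_nonneg
  intro z
  apply mul_nonneg (hg0 z)
  have := hs z r hr0
  linarith

lemma Lam_eq_zero {u g : ℂ → ℝ} (hu : BL u) (hg : BL g)
    (hgc : HasCompactSupport g) {r0 : ℝ} (hr0 : 0 < r0)
    (h : ∀ r, 0 < r → r < r0 → ∀ z, g z ≠ 0 → circleAverage u z r + kap * r ^ 2 = u z) :
    Lam u g = 0 := by
  apply tendsto_nhds_unique (Lam_tendsto hu hg hgc)
  apply tendsto_const_nhds.congr'
  filter_upwards [Ioo_mem_nhdsGT hr0] with r hr
  have : (fun z => g z * (circleAverage u z r - u z + kap * r ^ 2)) = fun _ => 0 := by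
    ext z
    by_cases hz : g z = 0
    · rw [hz, zero_mul]
    · have := h r hr.1 hr.2 z hz
      have e : circleAverage u z r - u z + kap * r ^ 2 = 0 := by linarith
      rw [e, mul_zero]
  rw [this]
  simp

lemma Gam_add_ae {u g h : ℂ → ℝ} (hg : BL g) (hh : BL h) :
    ∀ᵐ z : ℂ, Gam u (fun z => g z + h z) z = Gam u g z + Gam u h z := by
  filter_upwards [hg.ae, hh.ae] with z h1 h2
  have : fderiv ℝ (fun z => g z + h z) z = fderiv ℝ g z + fderiv ℝ h z := fderiv_fun_add h1 h2
  simp only [Gam, this, ContinuousLinearMap.add_apply]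
  ring

lemma Gam_mul_ae {u g h : ℂ → ℝ} (hg : BL g) (hh : BL h) :
    ∀ᵐ z : ℂ, Gam u (fun z => g z * h z) z = g z * Gam u h z + h z * Gam u g z := by
  filter_upwards [hg.ae, hh.ae] with z h1 h2
  have : fderiv ℝ (fun z => g z * h z) z = g z • fderiv ℝ h z + h z • fderiv ℝ g z :=
    fderiv_fun_mul h1 h2
  simp only [Gam, this, ContinuousLinearMap.add_apply, ContinuousLinearMap.smul_apply, smul_eq_mul]
  ring

lemma Lam_add {u g h : ℂ → ℝ} (hu : BL u) (hg : BL g) (hh : BL h)
    (hgc : HasCompactSupport g) (hhc : HasCompactSupport h) :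
    Lam u (fun z => g z + h z) = Lam u g + Lam u h := by
  have i1 := ((integrable_cc hg.continuous hgc).const_mul (4 * kap)).sub
    (integrable_Gam hu hg hgc)
  have i2 := ((integrable_cc hh.continuous hhc).const_mul (4 * kap)).sub
    (integrable_Gam hu hh hhc)
  unfold Lam
  rw [← i_add (f := fun z => 4 * kap * g z - Gam u g z) (g := fun z => 4 * kap * h z - Gam u h z)
    i1 i2]
  apply integral_congr_ae
  filter_upwards [Gam_add_ae (u := u) hg hh] with z hz
  rw [hz]; ring

lemma Lam_smul {u g : ℂ → ℝ} (hg : BL g) (c : ℝ) :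
    Lam u (fun z => c * g z) = c * Lam u g := by
  unfold Lam
  rw [← integral_const_mul]
  apply integral_congr_ae
  filter_upwards [hg.ae] with z h1
  have : fderiv ℝ (fun z => c * g z) z = c • fderiv ℝ g z := fderiv_const_mul h1 c
  simp only [Gam, this, ContinuousLinearMap.smul_apply, smul_eq_mul]
  ring

lemma Lam_mono {u g h : ℂ → ℝ} (hu : BL u) (hs : Sub kap u) (hg : BL g) (hh : BL h)
    (hgc : HasCompactSupport g) (hhc : HasCompactSupport h) (hle : ∀ z, g z ≤ h z) :
    Lam u g ≤ Lam u h := by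
  have hd : BL (fun z => h z - g z) := hh.sub hg
  have hdc : HasCompactSupport (fun z => h z - g z) := hhc.sub hgc
  have h0 := Lam_nonneg hu hs hd hdc (fun z => by have := hle z; linarith)
  have h1 := Lam_add hu hg hd hgc hdc
  have e : (fun z => g z + (h z - g z)) = h := by ext z; ring
  rw [e] at h1
  linarith

/-- Locality. -/
lemma Gam_local {u F w : ℂ → ℝ} (h : ∀ z, 0 < w z → u z = F z) (hwc : Continuous w)
    (hw0 : ∀ z, 0 ≤ w z) (z : ℂ) : Gam u w z = Gam F w z := by
  rcases eq_or_lt_of_le (hw0 z) with h0 | h0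
  · have : fderiv ℝ w z = 0 := by
      apply IsLocalMin.fderiv_eq_zero
      filter_upwards with x
      rw [← h0]; exact hw0 x
    simp [Gam, this]
  · have : u =ᶠ[𝓝 z] F := by
      filter_upwards [hwc.continuousAt.eventually (lt_mem_nhds h0)] with x hx
      exact h x hx
    simp only [Gam, this.fderiv_eq]

end Pool.Agent.H907R2
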