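import Pool.Agent.H907R2.IBP

/-!
The Monge-Ampère operator on `ℂ × ℂ`, positivity, and the comparison estimate.
-/

open MeasureTheory Metric Set Complex Real Filter
open scoped Topology ContDiff NNReal

namespace Pool.Agent.H907R2

/-- coordinate vectors -/
noncomputable def vx : ℂ × ℂ := (1, 0)
/-- coordinate vectors -/
noncomputable def vy : ℂ × ℂ := (Complex.I, 0)
/-- coordinate vectors -/
noncomputable def vs : ℂ × ℂ := (0, 1)
/-- coordinate vectors -/
noncomputable def vt : ℂ × ℂ := (0, Complex.I)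

/-- Laplacian in the first variable. -/
noncomputable def Lz (u : ℂ × ℂ → ℝ) (x : ℂ × ℂ) : ℝ := D vx (D vx u) x + D vy (D vy u) x
/-- Laplacian in the second variable. -/
noncomputable def Lt (u : ℂ × ℂ → ℝ) (x : ℂ × ℂ) : ℝ := D vs (D vs u) x + D vt (D vt u) x
/-- mixed derivative, real part -/
noncomputable def P1 (u : ℂ × ℂ → ℝ) (x : ℂ × ℂ) : ℝ := D vx (D vs u) x + D vy (D vt u) x
/-- mixed derivative, imaginary part -/
noncomputable def P2 (u : ℂ × ℂ → ℝ) (x : ℂ × ℂ) : ℝ := D vx (D vt u) x - D vy (D vs u) x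

/-- 16 times the Monge-Ampère determinant. -/
noncomputable def MA (κ : ℝ) (u : ℂ × ℂ → ℝ) (x : ℂ × ℂ) : ℝ :=
  (4 * κ + Lz u x) * Lt u x - P1 u x ^ 2 - P2 u x ^ 2

/-- Semipositivity at a point. -/
def SP (κ : ℝ) (u : ℂ × ℂ → ℝ) (x : ℂ × ℂ) : Prop :=
  ∀ ξ : ℂ × ℂ, 0 ≤ 4 * κ * ‖ξ.1‖ ^ 2 + D ξ (D ξ u) x + D (Complex.I • ξ) (D (Complex.I • ξ) u) x

/-- The polarised Monge-Ampère. -/
noncomputable def Q (b c : ℂ × ℂ → ℝ) (x : ℂ × ℂ) : ℝ :=
  1 / 2 * (br vx vs vx vs b c x + br vx vt vx vt b c x + br vy vs vy vs b c x +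
    br vy vt vy vt b c x) - br vx vy vs vt b c x

lemma Q_eq {b c : ℂ × ℂ → ℝ} (hb : Sm b) (hc : Sm c) (x : ℂ × ℂ) :
    Q b c x = 1 / 2 * (Lz b x * Lt c x + Lt b x * Lz c x) - P1 b x * P1 c x - P2 b x * P2 c x := by
  have e1 := congrFun (D_comm hb vs vx) x
  have e2 := congrFun (D_comm hb vt vx) x
  have e3 := congrFun (D_comm hb vs vy) x
  have e4 := congrFun (D_comm hb vt vy) x
  have f1 := congrFun (D_comm hc vs vx) x
  have f2 := congrFun (D_comm hc vt vx) x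
  have f3 := congrFun (D_comm hc vs vy) x
  have f4 := congrFun (D_comm hc vt vy) x
  simp only [Q, br, Lz, Lt, P1, P2, e1, e2, e3, e4, f1, f2, f3, f4]
  ring

lemma MA_eq {κ : ℝ} {u : ℂ × ℂ → ℝ} (hu : Sm u) (x : ℂ × ℂ) :
    MA κ u x = 4 * κ * Lt u x + Q u u x := by
  rw [Q_eq hu hu, MA]; ring

lemma D_add {f g : ℂ × ℂ → ℝ} (hf : Sm f) (hg : Sm g) (p : ℂ × ℂ) :
    D p (fun y => f y + g y) = fun x => D p f x + D p g x := by
  ext x
  have h : fderiv ℝ (fun y => f y + g y) x = fderiv ℝ f x + fderiv ℝ g x :=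
    ((hf.hasD x).add (hg.hasD x)).fderiv
  simp only [D, h, _root_.add_apply]

lemma D_sub {f g : ℂ × ℂ → ℝ} (hf : Sm f) (hg : Sm g) (p : ℂ × ℂ) :
    D p (fun y => f y - g y) = fun x => D p f x - D p g x := by
  ext x
  have h : fderiv ℝ (fun y => f y - g y) x = fderiv ℝ f x - fderiv ℝ g x :=
    ((hf.hasD x).sub (hg.hasD x)).fderiv
  simp only [D, h, _root_.sub_apply]

lemma DD_add {f g : ℂ × ℂ → ℝ} (hf : Sm f) (hg : Sm g) (p q x : ℂ × ℂ) :
    D p (D q (fun y => f y + g y)) x = D p (D q f) x + D p (D q g) x := by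
  rw [D_add hf hg, D_add (D_sm hf q) (D_sm hg q)]

lemma DD_sub {f g : ℂ × ℂ → ℝ} (hf : Sm f) (hg : Sm g) (p q x : ℂ × ℂ) :
    D p (D q (fun y => f y - g y)) x = D p (D q f) x - D p (D q g) x := by
  rw [D_sub hf hg, D_sub (D_sm hf q) (D_sm hg q)]

lemma MA_sub {κ : ℝ} {v w : ℂ × ℂ → ℝ} (hv : Sm v) (hw : Sm w) (x : ℂ × ℂ) :
    MA κ v x - MA κ w x = 4 * κ * Lt (fun y => v y - w y) x +
      Q (fun y => v y - w y) (fun y => v y + w y) x := by
  rw [Q_eq (hv.sub hw) (hv.add hw)]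
  simp only [MA, Lz, Lt, P1, P2, DD_add hv hw, DD_sub hv hw]
  ring

lemma ibp2 {f g : ℂ × ℂ → ℝ} (hf : Sm f) (hg : Sm g) (hc : HasCompactSupport f) (p q : ℂ × ℂ) :
    ∫ x, f x * D p (D q g) x = ∫ x, D q (D p f) x * g x := by
  rw [ibp hf (D_sm hg q) hc p, ibp (D_sm hf p) hg (cs_D hc p) q, neg_neg]

lemma DD_cont {f : ℂ × ℂ → ℝ} (hf : Sm f) (p q : ℂ × ℂ) : Continuous (D p (D q f)) :=
  (D_sm (D_sm hf q) p).continuous

lemma Lz_cont {f : ℂ × ℂ → ℝ} (hf : Sm f) : Continuous (Lz f) :=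
  (DD_cont hf _ _).add (DD_cont hf _ _)
lemma Lt_cont {f : ℂ × ℂ → ℝ} (hf : Sm f) : Continuous (Lt f) :=
  (DD_cont hf _ _).add (DD_cont hf _ _)
lemma P1_cont {f : ℂ × ℂ → ℝ} (hf : Sm f) : Continuous (P1 f) :=
  (DD_cont hf _ _).add (DD_cont hf _ _)
lemma P2_cont {f : ℂ × ℂ → ℝ} (hf : Sm f) : Continuous (P2 f) :=
  (DD_cont hf _ _).sub (DD_cont hf _ _)
lemma MA_cont {κ : ℝ} {f : ℂ × ℂ → ℝ} (hf : Sm f) : Continuous (MA κ f) := by
  have := Lz_cont hf
  have := Lt_cont hf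
  have := P1_cont hf
  have := P2_cont hf
  unfold MA
  fun_prop

lemma Q_cont {b c : ℂ × ℂ → ℝ} (hb : Sm b) (hc : Sm c) : Continuous (Q b c) := by
  have h := fun p q r t => br_continuous hb hc p q r t
  have h1 := h vx vs vx vs
  have h2 := h vx vt vx vt
  have h3 := h vy vs vy vs
  have h4 := h vy vt vy vt
  have h5 := h vx vy vs vt
  unfold Q
  fun_prop

lemma ibp_Lt {f g : ℂ × ℂ → ℝ} (hf : Sm f) (hg : Sm g) (hc : HasCompactSupport f) :
    ∫ x, f x * Lt g x = ∫ x, Lt f x * g x := by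
  have h1 := ibp2 hf hg hc vs vs
  have h2 := ibp2 hf hg hc vt vt
  have i1 : Integrable (fun x => f x * D vs (D vs g) x) :=
    int_sm (hf.continuous.mul (DD_cont hg _ _)) hc.mul_right
  have i2 : Integrable (fun x => f x * D vt (D vt g) x) :=
    int_sm (hf.continuous.mul (DD_cont hg _ _)) hc.mul_right
  have i3 : Integrable (fun x => D vs (D vs f) x * g x) :=
    int_sm ((DD_cont hf _ _).mul hg.continuous) (cs_D (cs_D hc _) _).mul_right
  have i4 : Integrable (fun x => D vt (D vt f) x * g x) :=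
    int_sm ((DD_cont hf _ _).mul hg.continuous) (cs_D (cs_D hc _) _).mul_right
  calc ∫ x, f x * Lt g x = ∫ x, (f x * D vs (D vs g) x + f x * D vt (D vt g) x) := by
        congr 1; ext x; simp only [Lt]; ring
    _ = ∫ x, (D vs (D vs f) x * g x + D vt (D vt f) x * g x) := by
        rw [i_add i1 i2, i_add i3 i4, h1, h2]
    _ = _ := by congr 1; ext x; simp only [Lt]; ring

lemma ibp_Lz {f g : ℂ × ℂ → ℝ} (hf : Sm f) (hg : Sm g) (hc : HasCompactSupport f) :
    ∫ x, f x * Lz g x = ∫ x, Lz f x * g x := by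
  have h1 := ibp2 hf hg hc vx vx
  have h2 := ibp2 hf hg hc vy vy
  have i1 : Integrable (fun x => f x * D vx (D vx g) x) :=
    int_sm (hf.continuous.mul (DD_cont hg _ _)) hc.mul_right
  have i2 : Integrable (fun x => f x * D vy (D vy g) x) :=
    int_sm (hf.continuous.mul (DD_cont hg _ _)) hc.mul_right
  have i3 : Integrable (fun x => D vx (D vx f) x * g x) :=
    int_sm ((DD_cont hf _ _).mul hg.continuous) (cs_D (cs_D hc _) _).mul_right
  have i4 : Integrable (fun x => D vy (D vy f) x * g x) :=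
    int_sm ((DD_cont hf _ _).mul hg.continuous) (cs_D (cs_D hc _) _).mul_right
  calc ∫ x, f x * Lz g x = ∫ x, (f x * D vx (D vx g) x + f x * D vy (D vy g) x) := by
        congr 1; ext x; simp only [Lz]; ring
    _ = ∫ x, (D vx (D vx f) x * g x + D vy (D vy f) x * g x) := by
        rw [i_add i1 i2, i_add i3 i4, h1, h2]
    _ = _ := by congr 1; ext x; simp only [Lz]; ring

lemma sum5 {f g h k l : ℂ × ℂ → ℝ} (hf : Integrable f) (hg : Integrable g) (hh : Integrable h)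
    (hk : Integrable k) (hl : Integrable l) :
    ∫ x, (f x + g x + h x + k x - l x) =
      (∫ x, f x) + (∫ x, g x) + (∫ x, h x) + (∫ x, k x) - (∫ x, l x) := by
  have h1 : Integrable (fun x => f x + g x) := hf.add hg
  have h2 : Integrable (fun x => f x + g x + h x) := h1.add hh
  have h3 : Integrable (fun x => f x + g x + h x + k x) := h2.add hk
  rw [i_sub h3 hl, i_add h2 hk, i_add h1 hh, i_add hf hg]

lemma int_Q {a b c : ℂ × ℂ → ℝ} (ha : Sm a) (hb : Sm b) (hc : Sm c) (hac : HasCompactSupport a) :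
    ∫ x, a x * Q b c x =
      1 / 2 * ((∫ x, a x * br vx vs vx vs b c x) + (∫ x, a x * br vx vt vx vt b c x) +
        (∫ x, a x * br vy vs vy vs b c x) + (∫ x, a x * br vy vt vy vt b c x)) -
      ∫ x, a x * br vx vy vs vt b c x := by
  have i : ∀ p q r t, Integrable (fun x => a x * br p q r t b c x) := fun p q r t =>
    int_sm (ha.continuous.mul (br_continuous hb hc _ _ _ _)) hac.mul_right
  have h := sum5 ((i vx vs vx vs).const_mul (1 / 2)) ((i vx vt vx vt).const_mul (1 / 2))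
    ((i vy vs vy vs).const_mul (1 / 2)) ((i vy vt vy vt).const_mul (1 / 2)) (i vx vy vs vt)
  simp only [integral_const_mul] at h
  have e : ∫ x, a x * Q b c x = ∫ x, (1 / 2 * (a x * br vx vs vx vs b c x) +
      1 / 2 * (a x * br vx vt vx vt b c x) + 1 / 2 * (a x * br vy vs vy vs b c x) +
      1 / 2 * (a x * br vy vt vy vt b c x) - a x * br vx vy vs vt b c x) := by
    congr 1; ext x; simp only [Q]; ring
  rw [e, h]; ring

lemma cs_br {a c : ℂ × ℂ → ℝ} (hac : HasCompactSupport a) (p q r t : ℂ × ℂ) :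
    HasCompactSupport (br p q r t a c) := by
  have h1 : HasCompactSupport (fun x => D p (D r a) x * D q (D t c) x) :=
    (cs_D (cs_D hac r) p).mul_right
  have h2 : HasCompactSupport (fun x => D q (D t a) x * D p (D r c) x) :=
    (cs_D (cs_D hac t) q).mul_right
  have h3 : HasCompactSupport (fun x => D p (D t a) x * D q (D r c) x) :=
    (cs_D (cs_D hac t) p).mul_right
  have h4 : HasCompactSupport (fun x => D q (D r a) x * D p (D t c) x) :=
    (cs_D (cs_D hac r) q).mul_right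
  exact ((h1.add h2).sub h3).sub h4

lemma int_Q' {a b c : ℂ × ℂ → ℝ} (ha : Sm a) (hb : Sm b) (hc : Sm c) (hac : HasCompactSupport a) :
    ∫ x, b x * Q a c x =
      1 / 2 * ((∫ x, b x * br vx vs vx vs a c x) + (∫ x, b x * br vx vt vx vt a c x) +
        (∫ x, b x * br vy vs vy vs a c x) + (∫ x, b x * br vy vt vy vt a c x)) -
      ∫ x, b x * br vx vy vs vt a c x := by
  have i : ∀ p q r t, Integrable (fun x => b x * br p q r t a c x) := fun p q r t =>
    int_sm (hb.continuous.mul (br_continuous ha hc _ _ _ _)) (cs_br hac _ _ _ _).mul_left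
  have h := sum5 ((i vx vs vx vs).const_mul (1 / 2)) ((i vx vt vx vt).const_mul (1 / 2))
    ((i vy vs vy vs).const_mul (1 / 2)) ((i vy vt vy vt).const_mul (1 / 2)) (i vx vy vs vt)
  simp only [integral_const_mul] at h
  have e : ∫ x, b x * Q a c x = ∫ x, (1 / 2 * (b x * br vx vs vx vs a c x) +
      1 / 2 * (b x * br vx vt vx vt a c x) + 1 / 2 * (b x * br vy vs vy vs a c x) +
      1 / 2 * (b x * br vy vt vy vt a c x) - b x * br vx vy vs vt a c x) := by
    congr 1; ext x; simp only [Q]; ring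
  rw [e, h]; ring

lemma J_Q {a b c : ℂ × ℂ → ℝ} (ha : Sm a) (hb : Sm b) (hc : Sm c) (hac : HasCompactSupport a) :
    ∫ x, a x * Q b c x = ∫ x, b x * Q a c x := by
  rw [int_Q ha hb hc hac, int_Q' ha hb hc hac]
  simp only [J_lemma ha hb hc hac]

/-- difference of Monge-Ampère masses -/
lemma MA_diff {κ : ℝ} {a v w : ℂ × ℂ → ℝ} (ha : Sm a) (hv : Sm v) (hw : Sm w)
    (hac : HasCompactSupport a) :
    ∫ x, a x * (MA κ v x - MA κ w x) =
      ∫ x, (v x - w x) * (4 * κ * Lt a x + Q a (fun y => v y + w y) x) := by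
  have hb : Sm (fun y => v y - w y) := hv.sub hw
  have hc : Sm (fun y => v y + w y) := hv.add hw
  have cLt : HasCompactSupport (Lt a) := (cs_D (cs_D hac _) _).add (cs_D (cs_D hac _) _)
  have cQ : HasCompactSupport (Q a (fun y => v y + w y)) := by
    have h := fun p q r t => cs_br (c := fun y => v y + w y) hac p q r t
    have h1 : HasCompactSupport (fun x => (br vx vs vx vs a (fun y => v y + w y) x +
      br vx vt vx vt a (fun y => v y + w y) x + br vy vs vy vs a (fun y => v y + w y) x +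
      br vy vt vy vt a (fun y => v y + w y) x)) :=
      (((h _ _ _ _).add (h _ _ _ _)).add (h _ _ _ _)).add (h _ _ _ _)
    have h2 : HasCompactSupport (fun x => 1 / 2 * (br vx vs vx vs a (fun y => v y + w y) x +
      br vx vt vx vt a (fun y => v y + w y) x + br vy vs vy vs a (fun y => v y + w y) x +
      br vy vt vy vt a (fun y => v y + w y) x)) := HasCompactSupport.mul_left h1
    exact h2.sub (h _ _ _ _)
  have i1 : Integrable (fun x => 4 * κ * (a x * Lt (fun y => v y - w y) x)) :=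
    (int_sm (ha.continuous.mul (Lt_cont hb)) hac.mul_right).const_mul _
  have i2 : Integrable (fun x => a x * Q (fun y => v y - w y) (fun y => v y + w y) x) :=
    int_sm (ha.continuous.mul (Q_cont hb hc)) hac.mul_right
  have i3 : Integrable (fun x => 4 * κ * (Lt a x * (v x - w x))) :=
    (int_sm ((Lt_cont ha).mul hb.continuous) cLt.mul_right).const_mul _
  have i4 : Integrable (fun x => (v x - w x) * Q a (fun y => v y + w y) x) :=
    int_sm (hb.continuous.mul (Q_cont ha hc)) cQ.mul_left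
  calc ∫ x, a x * (MA κ v x - MA κ w x)
      = ∫ x, (4 * κ * (a x * Lt (fun y => v y - w y) x) +
          a x * Q (fun y => v y - w y) (fun y => v y + w y) x) := by
        congr 1; ext x; rw [MA_sub hv hw]; ring
    _ = ∫ x, (4 * κ * (Lt a x * (v x - w x)) + (v x - w x) * Q a (fun y => v y + w y) x) := by
        rw [i_add i1 i2, i_add i3 i4, integral_const_mul, integral_const_mul, ibp_Lt ha hb hac,
          J_Q ha hb hc hac]
    _ = _ := by congr 1; ext x; ring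

/-! ### Positivity -/

lemma D_lin {f : ℂ × ℂ → ℝ} (p : ℂ × ℂ) (x : ℂ × ℂ) :
    D p f x = p.1.re * D vx f x + p.1.im * D vy f x + p.2.re * D vs f x + p.2.im * D vt f x := by
  have e : p = p.1.re • vx + p.1.im • vy + p.2.re • vs + p.2.im • vt := by
    apply Prod.ext <;> apply Complex.ext <;> simp [vx, vy, vs, vt]
  conv_lhs => rw [e]
  simp only [D, map_add, map_smul, smul_eq_mul]

lemma DD_quad {f : ℂ × ℂ → ℝ} (hf : Sm f) (α β : ℂ) (x : ℂ × ℂ) :
    D (α, β) (D (α, β) f) x + D (Complex.I • (α, β)) (D (Complex.I • (α, β)) f) x =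
      (α.re ^ 2 + α.im ^ 2) * Lz f x + (β.re ^ 2 + β.im ^ 2) * Lt f x +
      2 * (α.re * β.re + α.im * β.im) * P1 f x + 2 * (α.re * β.im - α.im * β.re) * P2 f x := by
  have key : ∀ p : ℂ × ℂ, D p (D p f) x = p.1.re * (p.1.re * D vx (D vx f) x +
      p.1.im * D vx (D vy f) x + p.2.re * D vx (D vs f) x + p.2.im * D vx (D vt f) x) +
      p.1.im * (p.1.re * D vx (D vy f) x +
      p.1.im * D vy (D vy f) x + p.2.re * D vy (D vs f) x + p.2.im * D vy (D vt f) x) +
      p.2.re * (p.1.re * D vx (D vs f) x +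
      p.1.im * D vy (D vs f) x + p.2.re * D vs (D vs f) x + p.2.im * D vs (D vt f) x) +
      p.2.im * (p.1.re * D vx (D vt f) x +
      p.1.im * D vy (D vt f) x + p.2.re * D vs (D vt f) x + p.2.im * D vt (D vt f) x) := by
    intro p
    rw [D_lin p x, D_comm hf vx p, D_comm hf vy p, D_comm hf vs p, D_comm hf vt p,
      D_lin p x, D_lin p x, D_lin p x, D_lin p x, D_comm hf vy vx, D_comm hf vs vx,
      D_comm hf vt vx, D_comm hf vs vy, D_comm hf vt vy, D_comm hf vt vs]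
  rw [key (α, β), key (Complex.I • (α, β))]
  have e1 : (Complex.I • (α, β) : ℂ × ℂ).1.re = -α.im := by simp
  have e2 : (Complex.I • (α, β) : ℂ × ℂ).1.im = α.re := by simp
  have e3 : (Complex.I • (α, β) : ℂ × ℂ).2.re = -β.im := by simp
  have e4 : (Complex.I • (α, β) : ℂ × ℂ).2.im = β.re := by simp
  rw [e1, e2, e3, e4]
  simp only [Lz, Lt, P1, P2]
  ring

lemma SP_quad {κ : ℝ} {f : ℂ × ℂ → ℝ} (hf : Sm f) {x : ℂ × ℂ} (h : SP κ f x) (α β : ℂ) :
    0 ≤ (α.re ^ 2 + α.im ^ 2) * (4 * κ + Lz f x) + (β.re ^ 2 + β.im ^ 2) * Lt f x +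
      2 * (α.re * β.re + α.im * β.im) * P1 f x + 2 * (α.re * β.im - α.im * β.re) * P2 f x := by
  have h1 := h (α, β)
  rw [add_assoc, DD_quad hf] at h1
  have e : ‖((α, β) : ℂ × ℂ).1‖ ^ 2 = α.re ^ 2 + α.im ^ 2 := by
    rw [← Complex.normSq_eq_norm_sq, Complex.normSq_apply]; ring
  rw [e] at h1
  linarith

lemma SP_T {κ : ℝ} {f : ℂ × ℂ → ℝ} (hf : Sm f) {x : ℂ × ℂ} (h : SP κ f x) :
    0 ≤ 4 * κ + Lz f x := by
  have := SP_quad hf h 1 0
  simpa using this

lemma SP_N {κ : ℝ} {f : ℂ × ℂ → ℝ} (hf : Sm f) {x : ℂ × ℂ} (h : SP κ f x) :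
    0 ≤ Lt f x := by
  have := SP_quad hf h 0 1
  simpa using this

lemma SP_MA {κ : ℝ} {f : ℂ × ℂ → ℝ} (hf : Sm f) {x : ℂ × ℂ} (h : SP κ f x) :
    0 ≤ MA κ f x := by
  have hT := SP_T hf h
  have h1 := SP_quad hf h ⟨-P1 f x, P2 f x⟩ ⟨4 * κ + Lz f x, 0⟩
  simp only at h1
  rcases eq_or_lt_of_le hT with h0 | h0
  · have h2 : ∀ r : ℝ, 0 ≤ Lt f x - 2 * r * (P1 f x ^ 2 + P2 f x ^ 2) := by
      intro r
      have h3 := SP_quad hf h ⟨-r * P1 f x, r * P2 f x⟩ ⟨1, 0⟩
      simp only at h3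
      rw [← h0] at h3
      linarith
    have h3 : P1 f x ^ 2 + P2 f x ^ 2 = 0 := by
      by_contra hne
      have hpos : 0 < P1 f x ^ 2 + P2 f x ^ 2 := lt_of_le_of_ne (by positivity) (Ne.symm hne)
      have h4 := h2 ((Lt f x + 1) / (2 * (P1 f x ^ 2 + P2 f x ^ 2)))
      have h5 : 2 * ((Lt f x + 1) / (2 * (P1 f x ^ 2 + P2 f x ^ 2))) *
          (P1 f x ^ 2 + P2 f x ^ 2) = Lt f x + 1 := by
        field_simp
      rw [h5] at h4
      linarith
    rw [MA, ← h0]
    linarith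
  · have h2 : 0 ≤ (4 * κ + Lz f x) * MA κ f x := by
      rw [MA]
      linarith
    exact nonneg_of_mul_nonneg_right h2 h0

lemma q_bound {κ : ℝ} {f χ : ℂ × ℂ → ℝ} (hf : Sm f) (hχ : Sm χ) {x : ℂ × ℂ} (h : SP κ f x) {C : ℝ}
    (h1 : |Lz χ x| ≤ C) (h2 : |Lt χ x| ≤ C) (h3 : |P1 χ x| ≤ C) (h4 : |P2 χ x| ≤ C) :
    |2 * κ * Lt χ x + Q χ f x| ≤ 3 / 2 * C * (4 * κ + Lz f x + Lt f x) := by
  have hT := SP_T hf h
  have hN := SP_N hf h
  have hM := SP_MA hf h
  have hC : 0 ≤ C := (abs_nonneg _).trans h1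
  rw [Q_eq hχ hf]
  rw [MA] at hM
  obtain ⟨T, hTe⟩ : ∃ T, T = 4 * κ + Lz f x := ⟨_, rfl⟩
  have e : 2 * κ * Lt χ x + (1 / 2 * (Lz χ x * Lt f x + Lt χ x * Lz f x) - P1 χ x * P1 f x -
      P2 χ x * P2 f x) = 1 / 2 * (Lz χ x * Lt f x + Lt χ x * T) - P1 χ x * P1 f x -
      P2 χ x * P2 f x := by rw [hTe]; ring
  rw [e]
  rw [← hTe] at hT hM ⊢
  have hp1 : |P1 f x| ≤ (T + Lt f x) / 2 := by
    apply abs_le_of_sq_le_sq _ (by linarith)
    nlinarith [sq_nonneg (T - Lt f x), sq_nonneg (P2 f x)]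
  have hp2 : |P2 f x| ≤ (T + Lt f x) / 2 := by
    apply abs_le_of_sq_le_sq _ (by linarith)
    nlinarith [sq_nonneg (T - Lt f x), sq_nonneg (P1 f x)]
  have b1 : |Lz χ x * Lt f x| ≤ C * Lt f x := by
    rw [abs_mul, abs_of_nonneg hN]; exact mul_le_mul_of_nonneg_right h1 hN
  have b2 : |Lt χ x * T| ≤ C * T := by
    rw [abs_mul, abs_of_nonneg hT]; exact mul_le_mul_of_nonneg_right h2 hT
  have b3 : |P1 χ x * P1 f x| ≤ C * ((T + Lt f x) / 2) := by
    rw [abs_mul]; exact mul_le_mul h3 hp1 (abs_nonneg _) hC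
  have b4 : |P2 χ x * P2 f x| ≤ C * ((T + Lt f x) / 2) := by
    rw [abs_mul]; exact mul_le_mul h4 hp2 (abs_nonneg _) hC
  rw [abs_le] at b1 b2 b3 b4 ⊢
  constructor <;> linarith [b1.1, b1.2, b2.1, b2.2, b3.1, b3.2, b4.1, b4.2]

end Pool.Agent.H907R2
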