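import Pool.Agent.H907R2.Sigma

/-!
The Monge-Ampère mass of the approximants is small.
-/

open MeasureTheory Metric Set Complex Real Filter
open scoped Topology ContDiff NNReal

namespace Pool.Agent.H907R2

variable {a b : ℝ} {σ : ℂ → ℝ} {O : Set ℂ}

/-! ### Slices of the mollified geodesic -/

section slice

variable (φ : ContDiffBump (0 : ℂ × ℝ)) {s : ℝ}

lemma W_L6 : L6 (fun z => W φ (z, s)) := by
  intro z w
  rw [abs_le]
  have h1 := W_lip φ (z, s) (w, s)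
  have h2 := W_lip φ (w, s) (z, s)
  simp only [sub_self, abs_zero, mul_zero, add_zero] at h1 h2
  rw [norm_sub_rev] at h2
  constructor <;> linarith

lemma U_abs (hs : 0 ≤ s) (hs1 : s ≤ 1) (z : ℂ) : |U z s| ≤ 24 := by
  rw [abs_le]
  constructor
  · have h1 := le_U (l := 0) (by norm_num) z s
    have h2 := psi_ge 0 z
    rw [abs_zero] at h2
    linarith
  · apply U_le
    intro l hl
    have h1 := (psi_le0 l z).trans (phi0_le z)
    have : l * s ≤ 9 := by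
      have := hl.2
      have := hl.1
      nlinarith
    linarith

lemma W_BL (hs : 0 ≤ s) (hs1 : s ≤ 1) : BL (fun z => W φ (z, s)) := by
  apply BL.of_bounds (C := 6) (M := 24 + 15 * φ.rOut) (W_L6 φ)
  intro z
  have h1 := abs_le.1 (W_close φ (z, s))
  have h2 := abs_le.1 (U_abs hs hs1 z)
  simp only [Up] at h1
  rw [abs_le]
  constructor <;> linarith [h1.1, h1.2, h2.1, h2.2]

lemma W_Sub : Sub kap (fun z => W φ (z, s)) := by
  intro z r hr
  have h := W_psh φ z (r : ℂ) s (fun _ => s) continuous_const (by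
    rw [intervalIntegral.integral_const, smul_eq_mul, ← mul_assoc]
    have := Real.pi_pos
    field_simp
    ring)
  have e : ‖(r : ℂ)‖ = r := by simp [abs_of_pos hr]
  have h2 := circleAverage_dir (fun z => W φ (z, s)) z (r : ℂ)
  rw [e] at h2 h
  rw [h2]
  exact h

lemma W_slice (z v : ℂ) (s : ℝ) :
    fderiv ℝ (fun z => W φ (z, s)) z v = fderiv ℝ (W φ) (z, s) (v, 0) := by
  have h1 : HasFDerivAt (fun z : ℂ => ((z, s) : ℂ × ℝ))
      (ContinuousLinearMap.inl ℝ ℂ ℝ) z := hasFDerivAt_prodMk_left z s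
  have h2 : HasFDerivAt (W φ) (fderiv ℝ (W φ) (z, s)) ((fun z : ℂ => ((z, s) : ℂ × ℝ)) z) :=
    ((W_smooth φ).differentiable (by simp) _).hasFDerivAt
  have h3 : HasFDerivAt (fun z => W φ (z, s))
      ((fderiv ℝ (W φ) (z, s)).comp (ContinuousLinearMap.inl ℝ ℂ ℝ)) z :=
    HasFDerivAt.comp (g := W φ) (f := fun z : ℂ => ((z, s) : ℂ × ℝ)) z h2 h1
  rw [h3.fderiv]
  simp

lemma En_W_close {α : ℂ → ℝ} (hα : Cut α) (hs : 0 ≤ s) (hs1 : s ≤ 1) :
    |En α (fun z => W φ (z, s)) - En α (fun z => U z s)| ≤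
      15 * φ.rOut * (4 * kap * Am α + 12 * Nm α) :=
  energy_close hα (W_BL φ hs hs1) (U_BL hs hs1) (W_L6 φ) U_L6 (W_Sub φ) U_Sub
    (fun z => W_close φ (z, s))

end slice

/-! ### Integration by parts on `ℂ` -/

variable {η g : ℂ → ℝ}

lemma int_sm1 {f : ℂ → ℝ} (hf : Continuous f) (hc : HasCompactSupport f) : Integrable f :=
  hf.integrable_of_hasCompactSupport hc

lemma ibp1 (hη : ContDiff ℝ ∞ η) (hc : HasCompactSupport η) (hg : ContDiff ℝ ∞ g) (v : ℂ) :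
    ∫ z, η z * d1 v g z = - ∫ z, d1 v η z * g z := by
  apply integral_mul_fderiv_eq_neg_fderiv_mul_of_integrable
  · exact int_sm1 ((d1_sm hη v).continuous.mul hg.continuous) (cs_d1 hc v).mul_right
  · exact int_sm1 (hη.continuous.mul (d1_sm hg v).continuous) hc.mul_right
  · exact int_sm1 (hη.continuous.mul hg.continuous) hc.mul_right
  · exact fun x _ => hη.differentiable (by simp) x
  · exact fun x _ => hg.differentiable (by simp) x

lemma ibp1_La (hη : ContDiff ℝ ∞ η) (hc : HasCompactSupport η) (hg : ContDiff ℝ ∞ g) :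
    ∫ z, η z * La g z = ∫ z, La η z * g z := by
  have h : ∀ v, ∫ z, η z * d1 v (d1 v g) z = ∫ z, d1 v (d1 v η) z * g z := by
    intro v
    rw [ibp1 hη hc (d1_sm hg v), ibp1 (d1_sm hη v) (cs_d1 hc v) hg, neg_neg]
  have i1 : ∀ v, Integrable (fun z => η z * d1 v (d1 v g) z) := fun v =>
    int_sm1 (hη.continuous.mul (d1_sm (d1_sm hg v) v).continuous) hc.mul_right
  have i2 : ∀ v, Integrable (fun z => d1 v (d1 v η) z * g z) := fun v =>
    int_sm1 ((d1_sm (d1_sm hη v) v).continuous.mul hg.continuous) (cs_d1 (cs_d1 hc v) v).mul_right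
  calc ∫ z, η z * La g z = ∫ z, (η z * d1 1 (d1 1 g) z + η z * d1 Complex.I (d1 Complex.I g) z) := by
        congr 1; ext z; simp only [La]; ring
    _ = ∫ z, (d1 1 (d1 1 η) z * g z + d1 Complex.I (d1 Complex.I η) z * g z) := by
        rw [i_add (i1 _) (i1 _), i_add (i2 _) (i2 _), h, h]
    _ = _ := by congr 1; ext z; simp only [La]; ring

lemma La_cont (hη : ContDiff ℝ ∞ η) : Continuous (La η) :=
  (d1_sm (d1_sm hη _) _).continuous.add (d1_sm (d1_sm hη _) _).continuous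

lemma cs_La (hc : HasCompactSupport η) : HasCompactSupport (La η) :=
  (cs_d1 (cs_d1 hc _) _).add (cs_d1 (cs_d1 hc _) _)

lemma int_La (hη : ContDiff ℝ ∞ η) (hc : HasCompactSupport η) : ∫ z, La η z = 0 := by
  have h := ibp1_La hη hc (contDiff_const (c := (1 : ℝ)))
  have e : ∀ z, La (fun _ : ℂ => (1 : ℝ)) z = 0 := by
    intro z
    have : ∀ v, d1 v (fun _ : ℂ => (1 : ℝ)) = fun _ => 0 := by
      intro v; ext z; simp [d1]
    simp only [La, this]
    simp [d1]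
  simp only [e, mul_zero, mul_one, integral_zero] at h
  exact h.symm

lemma int_La_sig (h : LogExt a b σ O) (ha : 0 < a) (hη : ContDiff ℝ ∞ η) (hc : HasCompactSupport η)
    (hO : tsupport η ⊆ O) : ∫ z, La η z * σ z = 0 := by
  rw [← ibp1_La hη hc h.sm]
  have : ∀ z, η z * La σ z = 0 := by
    intro z
    by_cases hz : z ∈ tsupport η
    · rw [h.La_zero ha (hO hz), mul_zero]
    · rw [image_eq_zero_of_notMem_tsupport hz, zero_mul]
  simp only [this, integral_zero]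

lemma d1_zero_off {f : ℂ → ℝ} {z : ℂ} (hz : z ∉ tsupport f) (v : ℂ) : d1 v f z = 0 := by
  rw [d1, fderiv_zero_of_notMem hz]; rfl

lemma tsupport_d1 (f : ℂ → ℝ) (v : ℂ) : tsupport (d1 v f) ⊆ tsupport f := by
  apply closure_minimal _ (isClosed_tsupport f)
  intro z hz
  by_contra h
  exact hz (d1_zero_off h v)

lemma La_zero_off {f : ℂ → ℝ} {z : ℂ} (hz : z ∉ tsupport f) : La f z = 0 := by
  have h := fun v => d1_zero_off (f := d1 v f) (z := z) (fun h => hz (tsupport_d1 f v h)) v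
  simp only [La, h, add_zero]

/-! ### Scaling -/

/-- scaled cut-off -/
noncomputable def sc (R : ℝ) (f : ℂ → ℝ) (z : ℂ) : ℝ := f (R⁻¹ • z)

lemma sc_sm {f : ℂ → ℝ} (hf : ContDiff ℝ ∞ f) (R : ℝ) : ContDiff ℝ ∞ (sc R f) :=
  hf.comp (contDiff_const_smul _)

lemma sc_cs {f : ℂ → ℝ} (hf : HasCompactSupport f) {R : ℝ} (hR : 0 < R) :
    HasCompactSupport (sc R f) := hf.comp_smul (inv_pos.2 hR).ne'

lemma d1_sc {f : ℂ → ℝ} (hf : ContDiff ℝ ∞ f) (R : ℝ) (v z : ℂ) :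
    d1 v (sc R f) z = R⁻¹ * sc R (d1 v f) z := by
  have h1 : HasFDerivAt (fun z : ℂ => R⁻¹ • z) (R⁻¹ • ContinuousLinearMap.id ℝ ℂ) z :=
    (R⁻¹ • ContinuousLinearMap.id ℝ ℂ).hasFDerivAt
  have h2 : HasFDerivAt f (fderiv ℝ f (R⁻¹ • z)) (R⁻¹ • z) :=
    (hf.differentiable (by simp) _).hasFDerivAt
  have h3 : fderiv ℝ (sc R f) z = _ := (h2.comp z h1).fderiv
  simp only [d1, h3, sc, ContinuousLinearMap.comp_apply, _root_.smul_apply,
    ContinuousLinearMap.id_apply, map_smul, smul_eq_mul]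

lemma int_sc (f : ℂ → ℝ) {R : ℝ} (hR : 0 ≤ R) : ∫ z, sc R f z = R ^ 2 * ∫ z, f z := by
  have := Measure.integral_comp_inv_smul_of_nonneg (volume : Measure ℂ) f hR
  rw [Complex.finrank_real_complex, smul_eq_mul] at this
  exact this

lemma d1_sc' {f : ℂ → ℝ} (hf : ContDiff ℝ ∞ f) (R : ℝ) (v : ℂ) :
    d1 v (sc R f) = fun z => R⁻¹ * sc R (d1 v f) z := by
  ext z; exact d1_sc hf R v z

lemma La_sc {f : ℂ → ℝ} (hf : ContDiff ℝ ∞ f) (R : ℝ) (z : ℂ) :
    La (sc R f) z = (R⁻¹) ^ 2 * sc R (La f) z := by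
  have h : ∀ v, d1 v (d1 v (sc R f)) z = (R⁻¹) ^ 2 * sc R (d1 v (d1 v f)) z := by
    intro v
    rw [d1_sc' hf]
    have e : d1 v (fun z => R⁻¹ * sc R (d1 v f) z) z = R⁻¹ * d1 v (sc R (d1 v f)) z := by
      have h1 : HasFDerivAt (sc R (d1 v f)) (fderiv ℝ (sc R (d1 v f)) z) z :=
        ((sc_sm (d1_sm hf v) R).differentiable (by simp) _).hasFDerivAt
      have h3 : fderiv ℝ (fun z => R⁻¹ * sc R (d1 v f) z) z = _ := (h1.const_mul R⁻¹).fderiv
      simp only [d1, h3, _root_.smul_apply, smul_eq_mul]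
    rw [e, d1_sc (d1_sm hf v)]
    ring
  simp only [La, h]
  simp only [sc, La]
  ring

lemma int_abs_La_sc {f : ℂ → ℝ} (hf : ContDiff ℝ ∞ f) {R : ℝ} (hR : 0 < R) :
    ∫ z, |La (sc R f) z| = ∫ z, |La f z| := by
  have e : ∀ z, |La (sc R f) z| = (R⁻¹) ^ 2 * sc R (fun z => |La f z|) z := by
    intro z
    rw [La_sc hf, abs_mul, abs_of_pos (by positivity : (0 : ℝ) < R⁻¹ ^ 2)]; rfl
  simp only [e]
  rw [integral_const_mul, int_sc _ hR.le, ← mul_assoc, inv_pow, inv_mul_cancel₀ (by positivity),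
    one_mul]

lemma int_abs_d1_sc {f : ℂ → ℝ} (hf : ContDiff ℝ ∞ f) {R : ℝ} (hR : 0 < R) (v : ℂ) :
    ∫ z, |d1 v (sc R f) z| = R * ∫ z, |d1 v f z| := by
  have e : ∀ z, |d1 v (sc R f) z| = R⁻¹ * sc R (fun z => |d1 v f z|) z := by
    intro z
    rw [d1_sc hf, abs_mul, abs_of_pos (by positivity : (0 : ℝ) < R⁻¹)]; rfl
  simp only [e]
  rw [integral_const_mul, int_sc _ hR.le, ← mul_assoc]
  congr 1
  field_simp

lemma Am_sc (f : ℂ → ℝ) {R : ℝ} (hR : 0 < R) : Am (sc R f) = R ^ 2 * Am f := int_sc f hR.le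

lemma Nm_sc {f : ℂ → ℝ} (hf : ContDiff ℝ ∞ f) (hc : HasCompactSupport f) {R : ℝ} (hR : 0 < R) :
    Nm (sc R f) = R * Nm f := by
  have h := fun v => int_abs_d1_sc hf hR v
  have i1 : ∀ {f : ℂ → ℝ} (_ : ContDiff ℝ ∞ f) (_ : HasCompactSupport f) (v : ℂ),
      Integrable (fun z => |d1 v f z|) := fun hf hc v =>
    int_sm1 (d1_sm hf v).continuous.abs ((cs_d1 hc v).comp_left abs_zero)
  change ∫ z, (|d1 1 (sc R f) z| + |d1 Complex.I (sc R f) z|) =
    R * ∫ z, (|d1 1 f z| + |d1 Complex.I f z|)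
  rw [i_add (i1 (sc_sm hf R) (sc_cs hc hR) 1) (i1 (sc_sm hf R) (sc_cs hc hR) Complex.I),
    i_add (i1 hf hc 1) (i1 hf hc Complex.I), h, h]
  ring

lemma smooth_BL {f : ℂ → ℝ} (hf : ContDiff ℝ ∞ f) (hc : HasCompactSupport f) : BL f := by
  obtain ⟨C, hC⟩ := hf.lipschitzWith_of_hasCompactSupport hc (by simp)
  obtain ⟨M, hM⟩ := hc.exists_bound_of_continuous hf.continuous
  apply BL.of_bounds (C := C) (M := M)
  · intro z w
    have := hC.dist_le_mul z w
    rwa [Real.dist_eq, dist_eq_norm] at this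
  · exact hM

/-- The main mass estimate. -/
theorem mass_main (h : LogExt a b σ O) (ha : 0 < a) (hab : a < b) {α : ℂ → ℝ}
    (hα : ContDiff ℝ ∞ α) (hαc : HasCompactSupport α) (hα0 : ∀ z, 0 ≤ α z)
    (hη : ContDiff ℝ ∞ η) (hηc : HasCompactSupport η)
    (hηA : ∀ τ ∈ tsupport η, a ≤ ‖τ‖ ∧ ‖τ‖ ≤ b) :
    ∃ C : ℝ, 0 ≤ C ∧ ∀ (φ : ContDiffBump (0 : ℂ × ℝ)) (R : ℝ) (M : ℕ), 1 ≤ R → 0 < M →
      |∫ x, tn (sc R α) η x * MA kap (wf φ σ) x| ≤ C * (R + R ^ 2 * φ.rOut + R ^ 2 / M) := by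
  have hηO : tsupport η ⊆ O := fun τ hτ => h.ann τ (hηA τ hτ).1 (hηA τ hτ).2
  have hσ01 : ∀ τ ∈ tsupport η, 0 ≤ σ τ ∧ σ τ ≤ 1 := by
    intro τ hτ
    obtain ⟨h1, h2⟩ := hηA τ hτ
    rw [h.eq τ (hηO hτ), sig]
    have hb : 0 < b := ha.trans hab
    have l1 : 0 < Real.log (b / a) := Real.log_pos (by rw [lt_div_iff₀ ha]; linarith)
    have l2 : 0 ≤ Real.log (‖τ‖ / a) := Real.log_nonneg (by rw [le_div_iff₀ ha]; linarith)
    have l3 : Real.log (‖τ‖ / a) ≤ Real.log (b / a) := by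
      apply Real.log_le_log (div_pos (lt_of_lt_of_le ha h1) ha)
      gcongr
    exact ⟨by positivity, by rw [div_le_one l1]; exact l3⟩
  obtain ⟨Cσ, hCσ⟩ : ∃ Cσ : ℝ, ∀ τ ∈ tsupport η, ‖fderiv ℝ σ τ‖ ≤ Cσ := by
    have hc : Continuous (fderiv ℝ σ) := h.sm.continuous_fderiv (by simp)
    obtain ⟨C, hC⟩ := hηc.isCompact.exists_bound_of_continuousOn hc.continuousOn
    exact ⟨C, fun τ hτ => hC τ hτ⟩
  obtain ⟨A2, hA2, hA2'⟩ : ∃ A2 : ℝ, 0 ≤ A2 ∧ ∀ τ ∈ tsupport η, 9 * ‖fderiv ℝ σ τ‖ ≤ A2 :=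
    ⟨9 * max Cσ 0, by positivity, fun τ hτ => by
      have := (hCσ τ hτ).trans (le_max_left Cσ 0)
      linarith⟩
  obtain ⟨K0, hK0⟩ : ∃ K0, K0 = (∫ z, |La α z|) * ∫ τ, |η τ| := ⟨_, rfl⟩
  obtain ⟨K1, hK1⟩ : ∃ K1, K1 = (∫ z, |d1 1 α z|) * (∫ τ, |d1 1 η τ|) +
      (∫ z, |d1 1 α z|) * (∫ τ, |d1 Complex.I η τ|) +
      (∫ z, |d1 Complex.I α z|) * (∫ τ, |d1 1 η τ|) +
      (∫ z, |d1 Complex.I α z|) * (∫ τ, |d1 Complex.I η τ|) := ⟨_, rfl⟩
  obtain ⟨K2, hK2⟩ : ∃ K2, K2 = ∫ τ, |La η τ| := ⟨_, rfl⟩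
  have nn : ∀ f : ℂ → ℝ, 0 ≤ ∫ z, |f z| := fun f => integral_nonneg fun z => abs_nonneg _
  have hK0' : 0 ≤ K0 := hK0 ▸ mul_nonneg (nn _) (nn _)
  have hK1' : 0 ≤ K1 := by
    rw [hK1]
    have := mul_nonneg (nn (d1 1 α)) (nn (d1 1 η))
    have := mul_nonneg (nn (d1 1 α)) (nn (d1 Complex.I η))
    have := mul_nonneg (nn (d1 Complex.I α)) (nn (d1 1 η))
    have := mul_nonneg (nn (d1 Complex.I α)) (nn (d1 Complex.I η))
    positivity
  have hK2' : 0 ≤ K2 := hK2 ▸ nn _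
  have hCut : Cut α := ⟨smooth_BL hα hαc, hαc, hα0⟩
  have hAm := Am_nonneg hCut
  have hNm := Nm_nonneg α
  have hk := kap_pos
  refine ⟨A2 ^ 2 * K0 + 12 * A2 * K1 + K2 * (204 * kap * Am α + 612 * Nm α), by positivity, ?_⟩
  intro φ R M hR hM
  have hR0 : 0 < R := by linarith
  have hMr : (0 : ℝ) < M := by exact_mod_cast hM
  have hM1 : (1 : ℝ) ≤ M := by exact_mod_cast hM
  have hδ := φ.rOut_pos
  have hCutR : Cut (sc R α) :=
    ⟨smooth_BL (sc_sm hα R) (sc_cs hαc hR0), sc_cs hαc hR0, fun z => hα0 _⟩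
  have hsm := sc_sm hα R
  have hcs := sc_cs hαc hR0
  have hw := wf_sm φ h.sm
  -- first order formula
  have hfo := first_order (κ := kap) (tn_sm hsm hη) (cs_tn hcs hηc) hw (A1 := 6) (A2 := A2)
    (by norm_num) hA2
    (fun x _ => ⟨D_wf_z φ h.sm x (by simp), D_wf_z φ h.sm x (by simp)⟩)
    (fun x hx => ⟨(D_wf_t φ h.sm x (by simp)).trans (hA2' _ (tsupport_tn hx).2),
      (D_wf_t φ h.sm x (by simp)).trans (hA2' _ (tsupport_tn hx).2)⟩)
  have e0 : ∫ x : ℂ × ℂ, |Lz (tn (sc R α) η) x| = K0 := by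
    simp only [Lz_tn hsm hη]
    rw [int_tn_abs, int_abs_La_sc hα hR0, hK0]
  have e1 : ∫ x : ℂ × ℂ, (|D vx (D vs (tn (sc R α) η)) x| + |D vx (D vt (tn (sc R α) η)) x| +
        |D vy (D vs (tn (sc R α) η)) x| + |D vy (D vt (tn (sc R α) η)) x|) = R * K1 := by
    simp only [vx, vy, vs, vt, DD_tn hsm hη]
    have i : ∀ u v : ℂ, Integrable (fun x : ℂ × ℂ => |d1 u (sc R α) x.1 * d1 v η x.2|) := by
      intro u v
      have c1 : Continuous (fun x : ℂ × ℂ => |d1 u (sc R α) x.1 * d1 v η x.2|) := by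
        have h1 := (d1_sm hsm u).continuous
        have h2 := (d1_sm hη v).continuous
        fun_prop
      exact int_sm c1 ((cs_tn (cs_d1 hcs u) (cs_d1 hηc v)).comp_left abs_zero)
    have s1 : Integrable (fun x : ℂ × ℂ => |d1 1 (sc R α) x.1 * d1 1 η x.2| +
      |d1 1 (sc R α) x.1 * d1 Complex.I η x.2|) := (i _ _).add (i _ _)
    have s2 : Integrable (fun x : ℂ × ℂ => |d1 1 (sc R α) x.1 * d1 1 η x.2| +
      |d1 1 (sc R α) x.1 * d1 Complex.I η x.2| +
      |d1 Complex.I (sc R α) x.1 * d1 1 η x.2|) := s1.add (i _ _)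
    rw [i_add s2 (i _ _), i_add s1 (i _ _), i_add (i _ _) (i _ _), int_tn_abs, int_tn_abs,
      int_tn_abs, int_tn_abs, int_abs_d1_sc hα hR0, int_abs_d1_sc hα hR0, hK1]
    ring
  rw [e0, e1] at hfo
  -- main term
  obtain ⟨B, hB⟩ := energy_affine hCutR hM
  have hmain : |∫ x, Lt (tn (sc R α) η) x * (4 * kap * wf φ σ x -
      ((D vx (wf φ σ) x) ^ 2 + (D vy (wf φ σ) x) ^ 2) / 2)| ≤
      K2 * (15 * φ.rOut * (4 * kap * Am (sc R α) + 12 * Nm (sc R α)) +
        (108 * Nm (sc R α) + 18 / M * (8 * kap * Am (sc R α) + 18 * Nm (sc R α)))) := by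
    have hint : Integrable (fun x => Lt (tn (sc R α) η) x * (4 * kap * wf φ σ x -
      ((D vx (wf φ σ) x) ^ 2 + (D vy (wf φ σ) x) ^ 2) / 2)) := by
      have k1 := Lt_cont (tn_sm hsm hη)
      have k2 := hw.continuous
      have k3 := (D_sm hw vx).continuous
      have k4 := (D_sm hw vy).continuous
      exact int_sm (by fun_prop) (cs_Lt (cs_tn hcs hηc)).mul_right
    have hfub : ∫ x, Lt (tn (sc R α) η) x * (4 * kap * wf φ σ x -
      ((D vx (wf φ σ) x) ^ 2 + (D vy (wf φ σ) x) ^ 2) / 2) =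
      ∫ τ, La η τ * En (sc R α) (fun z => W φ (z, σ τ)) := by
      rw [Measure.volume_eq_prod] at hint ⊢
      rw [integral_prod_symm _ hint]
      congr 1; ext τ
      rw [En, ← integral_const_mul]
      congr 1; ext z
      rw [Lt_tn hsm hη]
      have g1 : ∀ v : ℂ, fderiv ℝ (fun z => W φ (z, σ τ)) z v = D (v, 0) (wf φ σ) (z, τ) := by
        intro v
        rw [D_wf φ h.sm, W_slice]
        simp
      simp only [Gam, g1, wf, vx, vy]
      ring
    rw [hfub]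
    have hEcont : Integrable (fun τ => La η τ * En (sc R α) (fun z => W φ (z, σ τ))) := by
      rw [Measure.volume_eq_prod] at hint
      have h2 := hint.integral_prod_right
      refine h2.congr (Eventually.of_forall fun τ => ?_)
      dsimp only
      rw [En, ← integral_const_mul]
      congr 1; ext z
      rw [Lt_tn hsm hη]
      have g1 : ∀ v : ℂ, fderiv ℝ (fun z => W φ (z, σ τ)) z v = D (v, 0) (wf φ σ) (z, τ) := by
        intro v
        rw [D_wf φ h.sm, W_slice]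
        simp
      simp only [Gam, g1, wf, vx, vy]
      ring
    have iL : Integrable (La η) := int_sm1 (La_cont hη) (cs_La hηc)
    have iLσ : Integrable (fun τ => La η τ * σ τ) :=
      int_sm1 ((La_cont hη).mul h.sm.continuous) (cs_La hηc).mul_right
    have iaff : Integrable (fun τ => En (sc R α) phi0 * La η τ + B * (La η τ * σ τ)) :=
      (iL.const_mul _).add (iLσ.const_mul _)
    have hz : ∫ τ, (En (sc R α) phi0 * La η τ + B * (La η τ * σ τ)) = 0 := by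
      rw [i_add (iL.const_mul _) (iLσ.const_mul _), integral_const_mul, integral_const_mul,
        int_La hη hηc, int_La_sig h ha hη hηc hηO]
      ring
    have hsub : ∫ τ, La η τ * En (sc R α) (fun z => W φ (z, σ τ)) =
        ∫ τ, (La η τ * En (sc R α) (fun z => W φ (z, σ τ)) -
          (En (sc R α) phi0 * La η τ + B * (La η τ * σ τ))) := by
      rw [i_sub hEcont iaff, hz, sub_zero]
    rw [hsub, ← Real.norm_eq_abs]
    obtain ⟨T, hT⟩ : ∃ T, T = 15 * φ.rOut * (4 * kap * Am (sc R α) + 12 * Nm (sc R α)) +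
        (108 * Nm (sc R α) + 18 / M * (8 * kap * Am (sc R α) + 18 * Nm (sc R α))) := ⟨_, rfl⟩
    rw [← hT, hK2, ← integral_mul_const]
    apply norm_integral_le_of_norm_le (iL.abs.mul_const T)
    refine Eventually.of_forall fun τ => ?_
    rw [Real.norm_eq_abs]
    by_cases hτ : τ ∈ tsupport η
    · obtain ⟨hs0, hs1⟩ := hσ01 τ hτ
      have q1 := En_W_close φ hCutR hs0 hs1
      have q2 := hB (σ τ) hs0 hs1
      have q3 : |En (sc R α) (fun z => W φ (z, σ τ)) - En (sc R α) phi0 - σ τ * B| ≤ T := by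
        have := abs_add_le (En (sc R α) (fun z => W φ (z, σ τ)) - En (sc R α) (fun z => U z (σ τ)))
          (En (sc R α) (fun z => U z (σ τ)) - En (sc R α) phi0 - σ τ * B)
        have e : En (sc R α) (fun z => W φ (z, σ τ)) - En (sc R α) phi0 - σ τ * B =
          (En (sc R α) (fun z => W φ (z, σ τ)) - En (sc R α) (fun z => U z (σ τ))) +
          (En (sc R α) (fun z => U z (σ τ)) - En (sc R α) phi0 - σ τ * B) := by ring
        rw [e, hT]
        linarith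
      have e : La η τ * En (sc R α) (fun z => W φ (z, σ τ)) -
          (En (sc R α) phi0 * La η τ + B * (La η τ * σ τ)) =
          La η τ * (En (sc R α) (fun z => W φ (z, σ τ)) - En (sc R α) phi0 - σ τ * B) := by ring
      rw [e, abs_mul]
      exact mul_le_mul_of_nonneg_left q3 (abs_nonneg _)
    · rw [La_zero_off hτ]
      simp
  rw [Am_sc α hR0, Nm_sc hα hαc hR0] at hmain
  have hfin1 : |∫ x, tn (sc R α) η x * MA kap (wf φ σ) x| ≤
      (A2 ^ 2 * K0 + 2 * 6 * A2 * (R * K1)) +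
      K2 * (15 * φ.rOut * (4 * kap * (R ^ 2 * Am α) + 12 * (R * Nm α)) +
        (108 * (R * Nm α) + 18 / M * (8 * kap * (R ^ 2 * Am α) + 18 * (R * Nm α)))) := by
    have := abs_add_le ((∫ x, tn (sc R α) η x * MA kap (wf φ σ) x) -
        ∫ x, Lt (tn (sc R α) η) x * (4 * kap * wf φ σ x -
          ((D vx (wf φ σ) x) ^ 2 + (D vy (wf φ σ) x) ^ 2) / 2))
      (∫ x, Lt (tn (sc R α) η) x * (4 * kap * wf φ σ x -
          ((D vx (wf φ σ) x) ^ 2 + (D vy (wf φ σ) x) ^ 2) / 2))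
    rw [sub_add_cancel] at this
    linarith
  refine hfin1.trans ?_
  -- elementary estimates
  have hRR : R ≤ R ^ 2 := by nlinarith
  have hT1 : φ.rOut * R ≤ R ^ 2 * φ.rOut := by nlinarith
  have hT2 : 1 / (M : ℝ) * R ≤ R ^ 2 / M := by
    rw [div_mul_eq_mul_div, one_mul]
    gcongr
  have hX1 : A2 ^ 2 * K0 ≤ A2 ^ 2 * K0 * R := le_mul_of_one_le_right (by positivity) hR
  have hP : 0 ≤ R ^ 2 * φ.rOut := by positivity
  have hQ : 0 ≤ R ^ 2 / (M : ℝ) := by positivity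
  obtain ⟨P, hPe⟩ : ∃ P, P = R ^ 2 * φ.rOut := ⟨_, rfl⟩
  obtain ⟨Q', hQe⟩ : ∃ Q', Q' = R ^ 2 / (M : ℝ) := ⟨_, rfl⟩
  have e3 : 15 * φ.rOut * (4 * kap * (R ^ 2 * Am α) + 12 * (R * Nm α)) +
        (108 * (R * Nm α) + 18 / M * (8 * kap * (R ^ 2 * Am α) + 18 * (R * Nm α))) =
      60 * kap * Am α * P + 180 * Nm α * (φ.rOut * R) + 108 * Nm α * R +
        144 * kap * Am α * Q' + 324 * Nm α * (1 / M * R) := by
    rw [hPe, hQe]; ring
  rw [e3]
  rw [← hPe] at hT1 hP ⊢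
  rw [← hQe] at hT2 hQ ⊢
  have y1 : 180 * Nm α * (φ.rOut * R) ≤ 180 * Nm α * P := by gcongr
  have y2 : 324 * Nm α * (1 / M * R) ≤ 324 * Nm α * Q' := by gcongr
  have z1 : 60 * kap * Am α * P + 180 * Nm α * (φ.rOut * R) + 108 * Nm α * R +
        144 * kap * Am α * Q' + 324 * Nm α * (1 / M * R) ≤
      (204 * kap * Am α + 612 * Nm α) * (R + P + Q') := by
    have w1 : 0 ≤ kap * Am α := by positivity
    have w2 : 0 ≤ kap * Am α * P := by positivity
    have w3 : 0 ≤ kap * Am α * Q' := by positivity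
    have w4 : 0 ≤ kap * Am α * R := by positivity
    have w5 : 0 ≤ Nm α * P := by positivity
    have w6 : 0 ≤ Nm α * Q' := by positivity
    have w7 : 0 ≤ Nm α * R := by positivity
    linarith
  have z2 := mul_le_mul_of_nonneg_left z1 hK2'
  have z3 : 0 ≤ A2 ^ 2 * K0 * P := by positivity
  have z4 : 0 ≤ A2 ^ 2 * K0 * Q' := by positivity
  have z5 : 0 ≤ A2 * K1 * P := by positivity
  have z6 : 0 ≤ A2 * K1 * Q' := by positivity
  linarith

end Pool.Agent.H907R2
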