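import Pool.Agent.H907R2.First

/-!
Mollification of the geodesic, and the Laplacian from the sub-mean value property.
-/

open MeasureTheory Metric Set Complex Real Filter
open scoped Topology ContDiff NNReal Convolution

namespace Pool.Agent.H907R2

lemma ii_add3 {f g h : ℝ → ℝ} (hf : Continuous f) (hg : Continuous g) (hh : Continuous h)
    (a b : ℝ) : (∫ x in a..b, (f x + g x + h x)) =
      (∫ x in a..b, f x) + (∫ x in a..b, g x) + ∫ x in a..b, h x := by
  have h1 : Continuous (fun x => f x + g x) := hf.add hg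
  rw [ii_add h1 hh, ii_add hf hg]

lemma ii_add4 {f g h k : ℝ → ℝ} (hf : Continuous f) (hg : Continuous g) (hh : Continuous h)
    (hk : Continuous k) (a b : ℝ) : (∫ x in a..b, (f x + g x + h x + k x)) =
      (∫ x in a..b, f x) + (∫ x in a..b, g x) + (∫ x in a..b, h x) + ∫ x in a..b, k x := by
  have h1 : Continuous (fun x => f x + g x + h x) := (hf.add hg).add hh
  rw [ii_add h1 hk, ii_add3 hf hg hh]

/-- `U` as a function on `ℂ × ℝ`. -/
noncomputable def Up (p : ℂ × ℝ) : ℝ := U p.1 p.2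

lemma Up_cont : Continuous Up := U_cont

lemma Up_lip (p q : ℂ × ℝ) : Up p ≤ Up q + 6 * ‖p.1 - q.1‖ + 9 * |p.2 - q.2| := U_lip _ _ _ _

instance haar3 : (volume : Measure (ℂ × ℝ)).IsAddHaarMeasure := by
  rw [Measure.volume_eq_prod]; infer_instance

section moll

variable (φ : ContDiffBump (0 : ℂ × ℝ))

/-- weighted average -/
noncomputable def Av (F : ℂ × ℝ → ℝ) : ℝ := ∫ q, φ.normed volume q * F q

lemma Av_int {F : ℂ × ℝ → ℝ} (hF : Continuous F) :
    Integrable (fun q => φ.normed volume q * F q) :=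
  (φ.continuous_normed.mul hF).integrable_of_hasCompactSupport
    φ.hasCompactSupport_normed.mul_right

lemma Av_mono {F G : ℂ × ℝ → ℝ} (hF : Continuous F) (hG : Continuous G) (h : ∀ q, F q ≤ G q) :
    Av φ F ≤ Av φ G :=
  integral_mono (Av_int φ hF) (Av_int φ hG) fun q =>
    mul_le_mul_of_nonneg_left (h q) (φ.nonneg_normed q)

lemma Av_add_const {F : ℂ × ℝ → ℝ} (hF : Continuous F) (c : ℝ) :
    Av φ (fun q => F q + c) = Av φ F + c := by
  have h := i_add (Av_int φ hF) (Av_int φ (continuous_const (y := c)))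
  have h2 : ∫ q, φ.normed volume q * c = c := by
    rw [integral_mul_const, φ.integral_normed, one_mul]
  rw [h2] at h
  rw [Av, Av, ← h]
  congr 1; ext q; ring

lemma Av_smul {F : ℂ × ℝ → ℝ} (c : ℝ) : Av φ (fun q => c * F q) = c * Av φ F := by
  rw [Av, Av, ← integral_const_mul]
  congr 1; ext q; ring

/-- The mollified geodesic. -/
noncomputable def W (p : ℂ × ℝ) : ℝ := Av φ (fun q => Up (p - q))

lemma W_smooth : ContDiff ℝ ∞ (W φ) := by
  have e : W φ = (φ.normed volume ⋆[ContinuousLinearMap.lsmul ℝ ℝ, volume] Up) := by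
    ext p; rfl
  rw [e]
  exact φ.hasCompactSupport_normed.contDiff_convolution_left _ φ.contDiff_normed
    Up_cont.locallyIntegrable

lemma W_lip (p p' : ℂ × ℝ) : W φ p ≤ W φ p' + 6 * ‖p.1 - p'.1‖ + 9 * |p.2 - p'.2| := by
  have hc : ∀ p : ℂ × ℝ, Continuous (fun q => Up (p - q)) := fun p => Up_cont.comp (by fun_prop)
  have hc2 : Continuous (fun q => Up (p' - q) + (6 * ‖p.1 - p'.1‖ + 9 * |p.2 - p'.2|)) :=
    (hc p').add continuous_const
  rw [add_assoc, W, W, ← Av_add_const φ (hc p')]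
  apply Av_mono φ (hc p) hc2
  intro q
  have := Up_lip (p - q) (p' - q)
  simp only [Prod.fst_sub, Prod.snd_sub, sub_sub_sub_cancel_right] at this
  linarith

lemma W_close (p : ℂ × ℝ) : |W φ p - Up p| ≤ 15 * φ.rOut := by
  have h := φ.dist_normed_convolution_le (μ := volume) (g := Up) (x₀ := p) (ε := 15 * φ.rOut)
    Up_cont.aestronglyMeasurable (by
      intro x hx
      rw [mem_ball, dist_eq_norm] at hx
      have h1 : ‖x.1 - p.1‖ ≤ ‖x - p‖ := by rw [← Prod.fst_sub]; exact norm_fst_le _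
      have h2 : |x.2 - p.2| ≤ ‖x - p‖ := by
        rw [← Real.norm_eq_abs, ← Prod.snd_sub]; exact norm_snd_le _
      have h3 := Up_lip x p
      have h4 := Up_lip p x
      rw [norm_sub_rev, abs_sub_comm] at h4
      rw [Real.dist_eq, abs_le]
      constructor <;> linarith)
  rw [Real.dist_eq] at h
  exact h

lemma W_periodic {a : ℂ} (ha : ∀ z s, U (z + a) s = U z s) (z : ℂ) (s : ℝ) :
    W φ (z + a, s) = W φ (z, s) := by
  simp only [W, Up]
  congr 1; ext q
  simp only [Prod.fst_sub, Prod.snd_sub]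
  rw [← ha (z - q.1)]
  congr 1; ring

lemma Av_fub {F : ℂ × ℝ → ℝ → ℝ} (hF : Continuous (Function.uncurry F)) :
    Av φ (fun q => ∫ θ in (0)..(2 * π), F q θ) = ∫ θ in (0)..(2 * π), Av φ (fun q => F q θ) := by
  have h2π : (0 : ℝ) ≤ 2 * π := by positivity
  simp only [Av, intervalIntegral.integral_of_le h2π]
  simp_rw [← integral_const_mul]
  apply integral_integral_swap
  have e : (volume : Measure (ℂ × ℝ)).prod ((volume : Measure ℝ).restrict (Ioc 0 (2 * π))) =
      ((volume : Measure (ℂ × ℝ)).prod (volume : Measure ℝ)).restrict (univ ×ˢ Ioc 0 (2 * π)) := by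
    rw [← Measure.prod_restrict, Measure.restrict_univ]
  rw [e]
  have hc : Continuous (Function.uncurry fun q θ => φ.normed volume q * F q θ) := by
    have := φ.continuous_normed (μ := (volume : Measure (ℂ × ℝ)))
    exact (this.comp continuous_fst).mul hF
  have h1 : IntegrableOn (Function.uncurry fun q θ => φ.normed volume q * F q θ)
      (tsupport (φ.normed (volume : Measure (ℂ × ℝ))) ×ˢ Icc 0 (2 * π))
      ((volume : Measure (ℂ × ℝ)).prod (volume : Measure ℝ)) :=
    hc.continuousOn.integrableOn_compact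
      ((φ.hasCompactSupport_normed (μ := (volume : Measure (ℂ × ℝ)))).isCompact.prod isCompact_Icc)
  refine h1.of_forall_sdiff_eq_zero (MeasurableSet.univ.prod measurableSet_Ioc) ?_
  rintro ⟨q, θ⟩ ⟨⟨-, h3⟩, h4⟩
  have h5 : q ∉ tsupport (φ.normed (volume : Measure (ℂ × ℝ))) := fun h =>
    h4 ⟨h, Ioc_subset_Icc_self h3⟩
  simp only [Function.uncurry, image_eq_zero_of_notMem_tsupport h5, zero_mul]

lemma W_psh (z ξ : ℂ) (s : ℝ) (S : ℝ → ℝ) (hS : Continuous S)
    (hs : s = (2 * π)⁻¹ * ∫ θ in (0)..(2 * π), S θ) :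
    W φ (z, s) ≤ (2 * π)⁻¹ *
      (∫ θ in (0)..(2 * π), W φ (z + Complex.exp (θ * Complex.I) * ξ, S θ)) + kap * ‖ξ‖ ^ 2 := by
  have hF : Continuous (Function.uncurry fun (q : ℂ × ℝ) (θ : ℝ) =>
      Up ((z + Complex.exp (θ * Complex.I) * ξ, S θ) - q)) := by
    have h1 : Continuous (fun x : (ℂ × ℝ) × ℝ =>
        ((z + Complex.exp (x.2 * Complex.I) * ξ, S x.2) - x.1 : ℂ × ℝ)) := by fun_prop
    exact Up_cont.comp h1
  have hG : Continuous (fun q : ℂ × ℝ => ∫ θ in (0)..(2 * π),
      Up ((z + Complex.exp (θ * Complex.I) * ξ, S θ) - q)) :=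
    intervalIntegral.continuous_parametric_intervalIntegral_of_continuous' hF _ _
  simp only [W]
  rw [← Av_fub φ hF, ← Av_smul, ← Av_add_const φ (by fun_prop)]
  apply Av_mono φ (Up_cont.comp (by fun_prop)) (by fun_prop)
  intro q
  have h := U_psh (z - q.1) ξ (s - q.2) (fun θ => S θ - q.2) (by fun_prop) (by
    rw [ii_sub hS continuous_const, intervalIntegral.integral_const, hs, mul_sub, sub_zero,
      smul_eq_mul, ← mul_assoc ((2 * π)⁻¹) (2 * π), inv_mul_cancel₀ (by positivity), one_mul])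
  simp only [Up, Prod.fst_sub, Prod.snd_sub]
  have e : ∀ θ : ℝ, z + Complex.exp (θ * Complex.I) * ξ - q.1 =
      z - q.1 + Complex.exp (θ * Complex.I) * ξ := fun θ => by ring
  simp only [e]
  exact h

end moll

/-! ### The Laplacian from the sub-mean value property -/

lemma quad_avg (B : ℂ →L[ℝ] ℂ →L[ℝ] ℝ) :
    ∫ θ in (0)..(2 * π), B (ex θ) (ex θ) = π * (B 1 1 + B Complex.I Complex.I) := by
  have e : ∀ θ, B (ex θ) (ex θ) = Real.cos θ ^ 2 * B 1 1 + Real.sin θ ^ 2 * B Complex.I Complex.I +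
      Real.sin θ * Real.cos θ * (B 1 Complex.I + B Complex.I 1) := by
    intro θ
    rw [ex_eq]
    simp only [map_add, map_smul, _root_.add_apply, _root_.smul_apply, smul_eq_mul]
    ring
  simp only [e]
  have c1 : Continuous (fun θ : ℝ => Real.cos θ ^ 2 * B 1 1) := by fun_prop
  have c2 : Continuous (fun θ : ℝ => Real.sin θ ^ 2 * B Complex.I Complex.I) := by fun_prop
  have c3 : Continuous (fun θ : ℝ => Real.sin θ * Real.cos θ * (B 1 Complex.I + B Complex.I 1)) := by
    fun_prop
  rw [ii_add3 c1 c2 c3, intervalIntegral.integral_mul_const,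
    intervalIntegral.integral_mul_const, intervalIntegral.integral_mul_const, integral_cos_sq,
    integral_sin_sq, integral_sin_mul_cos₁]
  simp
  ring

/-- The sub-mean value property gives a bound for the Laplacian. -/
lemma lap_of_submean {h : ℂ → ℝ} (hh : ContDiffAt ℝ ∞ h 0) {c r0 : ℝ} (hr0 : 0 < r0)
    (hc : ContinuousOn h (ball 0 r0))
    (hm : ∀ r, 0 < r → r < r0 →
      h 0 ≤ (2 * π)⁻¹ * (∫ θ in (0)..(2 * π), h (r • ex θ)) + c * r ^ 2) :
    0 ≤ 4 * c + fderiv ℝ (fderiv ℝ h) 0 1 1 + fderiv ℝ (fderiv ℝ h) 0 Complex.I Complex.I := by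
  obtain ⟨B, hB⟩ : ∃ B, B = fderiv ℝ (fderiv ℝ h) 0 := ⟨_, rfl⟩
  rw [← hB]
  have hsymm : ∀ v w, B v w = B w v := by
    have : IsSymmSndFDerivAt ℝ h 0 := hh.isSymmSndFDerivAt (by
      rw [minSmoothness_of_isRCLikeNormedField]
      exact WithTop.coe_le_coe.2 (le_top : (2 : ℕ∞) ≤ ⊤))
    intro v w; rw [hB]; exact this v w
  have hd : HasFDerivAt (fderiv ℝ h) B 0 := by
    rw [hB]
    have h1 : ContDiffAt ℝ ∞ (fderiv ℝ h) 0 := hh.fderiv_right (by simp)
    exact (h1.differentiableAt (by simp)).hasFDerivAt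
  have hdiff : ∀ᶠ z in 𝓝 (0 : ℂ), DifferentiableAt ℝ h z := by
    have := (hh.of_le (m := 1) (by exact WithTop.coe_le_coe.2 (le_top : (1 : ℕ∞) ≤ ⊤))).eventually
      (by simp)
    filter_upwards [this] with z hz using hz.differentiableAt (by simp)
  -- it suffices to prove the inequality up to `ε`
  apply le_of_forall_pos_le_add
  intro ε hε
  have h2 : ∀ᶠ z in 𝓝 (0 : ℂ), ‖fderiv ℝ h z - fderiv ℝ h 0 - B z‖ ≤ (ε / 4) * ‖z‖ := by
    have := hd.isLittleO.def (by positivity : 0 < ε / 4)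
    simpa using this
  obtain ⟨r1, hr1, hr1'⟩ := Metric.eventually_nhds_iff.1 (hdiff.and h2)
  obtain ⟨r, hr, hrr0, hrr1⟩ : ∃ r, 0 < r ∧ r < r0 ∧ r < r1 :=
    ⟨min r0 r1 / 2, by positivity, by
      have := min_le_left r0 r1
      have : 0 < min r0 r1 := by positivity
      linarith, by
      have := min_le_right r0 r1
      have : 0 < min r0 r1 := by positivity
      linarith⟩
  -- remainder bound
  have hrem : ∀ z : ℂ, ‖z‖ ≤ r → |h z - h 0 - fderiv ℝ h 0 z - 1 / 2 * B z z| ≤ (ε / 4) * r ^ 2 := by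
    intro z hz
    obtain ⟨g, hg⟩ : ∃ g : ℂ → ℝ, g = fun z => h z - h 0 - fderiv ℝ h 0 z - 1 / 2 * B z z :=
      ⟨_, rfl⟩
    have hgd : ∀ y ∈ closedBall (0 : ℂ) r, HasFDerivWithinAt g
        (fderiv ℝ h y - fderiv ℝ h 0 - B y) (closedBall 0 r) y := by
      intro y hy
      have hy1 : dist y 0 < r1 := lt_of_le_of_lt (mem_closedBall.1 hy) hrr1
      have k1 : HasFDerivAt h (fderiv ℝ h y) y := (hr1' hy1).1.hasFDerivAt
      have k2 : HasFDerivAt (fun z => B z z) (B y + B.flip y) y := by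
        have := B.hasFDerivAt (x := y)
        have h3 := this.clm_apply (hasFDerivAt_id (𝕜 := ℝ) y)
        have e : (B y).comp (ContinuousLinearMap.id ℝ ℂ) + B.flip (id y) = B y + B.flip y := by
          ext v; simp
        rw [← e]
        exact h3
      have k3 := ((k1.sub_const (h 0)).sub (fderiv ℝ h 0).hasFDerivAt).sub (k2.const_mul (1 / 2))
      have e : fderiv ℝ h y - fderiv ℝ h 0 - (1 / 2 : ℝ) • (B y + B.flip y) =
          fderiv ℝ h y - fderiv ℝ h 0 - B y := by
        have : B.flip y = B y := by ext v <;> exact hsymm _ _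
        rw [this]
        congr 1
        rw [← two_smul ℝ (B y), smul_smul]; norm_num
      rw [e] at k3
      rw [hg]
      exact k3.hasFDerivWithinAt
    have hb : ∀ y ∈ closedBall (0 : ℂ) r, ‖fderiv ℝ h y - fderiv ℝ h 0 - B y‖ ≤ (ε / 4) * r := by
      intro y hy
      have hy1 : dist y 0 < r1 := lt_of_le_of_lt (mem_closedBall.1 hy) hrr1
      refine (hr1' hy1).2.trans ?_
      rw [mem_closedBall_zero_iff] at hy
      gcongr
    have h3 := (convex_closedBall (0 : ℂ) r).norm_image_sub_le_of_norm_hasFDerivWithin_le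
      hgd hb (mem_closedBall_self hr.le) (mem_closedBall_zero_iff.2 hz)
    have h4 : g 0 = 0 := by rw [hg]; simp
    rw [h4, sub_zero, sub_zero, Real.norm_eq_abs] at h3
    rw [hg] at h3
    refine h3.trans ?_
    rw [pow_two, ← mul_assoc]
    gcongr
  have hcont : Continuous (fun θ : ℝ => h (r • ex θ)) := by
    have h1 : Continuous (fun θ : ℝ => r • ex θ) := by
      have := ex_continuous
      fun_prop
    rw [← continuousOn_univ]
    apply hc.comp h1.continuousOn
    intro θ _
    rw [mem_ball_zero_iff, norm_smul, norm_ex, mul_one, Real.norm_of_nonneg hr.le]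
    exact hrr0
  have hmr := hm r hr hrr0
  have hlin : ∫ θ in (0)..(2 * π), fderiv ℝ h 0 (r • ex θ) = 0 := by
    have e : ∀ θ, fderiv ℝ h 0 (r • ex θ) = Real.cos θ * (r * fderiv ℝ h 0 1) +
        Real.sin θ * (r * fderiv ℝ h 0 Complex.I) := by
      intro θ
      rw [ex_eq]
      simp only [map_add, map_smul, smul_eq_mul]
      ring
    simp only [e]
    rw [ii_add (by fun_prop) (by fun_prop), intervalIntegral.integral_mul_const,
      intervalIntegral.integral_mul_const, integral_cos, integral_sin]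
    simp
  have hquad : ∫ θ in (0)..(2 * π), 1 / 2 * B (r • ex θ) (r • ex θ) =
      1 / 2 * (r ^ 2 * (π * (B 1 1 + B Complex.I Complex.I))) := by
    rw [← quad_avg B, ← intervalIntegral.integral_const_mul, ← intervalIntegral.integral_const_mul]
    apply intervalIntegral.integral_congr
    intro θ _
    simp only [map_smul, _root_.smul_apply, smul_eq_mul]
    ring
  have hexc := ex_continuous
  have cl : Continuous (fun θ : ℝ => fderiv ℝ h 0 (r • ex θ)) := by fun_prop
  have cq : Continuous (fun θ : ℝ => 1 / 2 * B (r • ex θ) (r • ex θ)) := by fun_prop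
  have hint : (∫ θ in (0)..(2 * π), h (r • ex θ)) ≤ 2 * π * h 0 +
      1 / 2 * (r ^ 2 * (π * (B 1 1 + B Complex.I Complex.I))) + 2 * π * ((ε / 4) * r ^ 2) := by
    have h5 : (∫ θ in (0)..(2 * π), h (r • ex θ)) ≤ ∫ θ in (0)..(2 * π),
        (h 0 + fderiv ℝ h 0 (r • ex θ) + 1 / 2 * B (r • ex θ) (r • ex θ) + (ε / 4) * r ^ 2) := by
      have c5 : Continuous (fun θ : ℝ => h 0 + fderiv ℝ h 0 (r • ex θ) +
          1 / 2 * B (r • ex θ) (r • ex θ) + (ε / 4) * r ^ 2) :=
        ((continuous_const.add cl).add cq).add continuous_const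
      apply intervalIntegral.integral_mono_on (by positivity) (hcont.intervalIntegrable _ _)
        (c5.intervalIntegrable _ _)
      intro θ _
      have h6 := hrem (r • ex θ) (by
        rw [norm_smul, norm_ex, mul_one, Real.norm_of_nonneg hr.le])
      have h7 := (abs_le.1 h6).2
      linarith
    have c0 : Continuous (fun _ : ℝ => h 0) := continuous_const
    have c4 : Continuous (fun _ : ℝ => (ε / 4) * r ^ 2) := continuous_const
    rw [ii_add4 c0 cl cq c4, hlin, hquad,
      intervalIntegral.integral_const, intervalIntegral.integral_const] at h5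
    simp only [smul_eq_mul, sub_zero] at h5
    linarith
  have h8 := mul_le_mul_of_nonneg_left hint (by positivity : (0 : ℝ) ≤ (2 * π)⁻¹)
  have h9 : (2 * π)⁻¹ * (2 * π * h 0 + 1 / 2 * (r ^ 2 * (π * (B 1 1 + B Complex.I Complex.I))) +
      2 * π * ((ε / 4) * r ^ 2)) = h 0 + r ^ 2 * (1 / 4 * (B 1 1 + B Complex.I Complex.I) + ε / 4) := by
    have := Real.pi_pos.ne'
    field_simp
    ring
  rw [h9] at h8
  have h10 : 0 ≤ r ^ 2 * (1 / 4 * (B 1 1 + B Complex.I Complex.I) + ε / 4 + c) := by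
    linarith
  have h11 := nonneg_of_mul_nonneg_right h10 (by positivity : 0 < r ^ 2)
  linarith

end Pool.Agent.H907R2
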