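import Pool.Agent.H907R2.Moll

/-!
The mollified geodesic as a smooth function on `ℂ × ℂ`.
-/

open MeasureTheory Metric Set Complex Real Filter
open scoped Topology ContDiff NNReal

namespace Pool.Agent.H907R2

/-- the logarithmic coordinate -/
noncomputable def sig (a b : ℝ) (τ : ℂ) : ℝ := Real.log (‖τ‖ / a) / Real.log (b / a)

variable {a b : ℝ}

lemma sig_smooth (ha : 0 < a) : ContDiffOn ℝ ∞ (sig a b) {τ | τ ≠ 0} := by
  intro τ hτ
  have h0 : τ ≠ 0 := hτ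
  have h1 : ContDiffAt ℝ ∞ (fun τ : ℂ => ‖τ‖ / a) τ := (contDiffAt_norm ℝ h0).div_const a
  have h2 : ‖τ‖ / a ≠ 0 := (div_pos (norm_pos_iff.2 h0) ha).ne'
  exact ((h1.log h2).div_const _).contDiffWithinAt

lemma sig_mean (ha : 0 < a) {τ ξ : ℂ} (h : ‖ξ‖ < ‖τ‖) :
    sig a b τ = (2 * π)⁻¹ * ∫ θ in (0)..(2 * π), sig a b (τ + ex θ * ξ) := by
  have hne : ∀ ζ ∈ closedBall (0 : ℂ) |(1 : ℝ)|, (τ + ζ * ξ) / a ≠ 0 := by
    intro ζ hζ
    rw [mem_closedBall_zero_iff, abs_one] at hζ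
    apply div_ne_zero _ (by exact_mod_cast ha.ne')
    intro h0
    have h1 : τ = -(ζ * ξ) := by linear_combination h0
    have h2 : ‖τ‖ ≤ ‖ξ‖ := by
      rw [h1, norm_neg, norm_mul]
      exact mul_le_of_le_one_left (norm_nonneg _) hζ
    linarith
  have hana : AnalyticOnNhd ℂ (fun ζ : ℂ => (τ + ζ * ξ) / a) (closedBall 0 |(1 : ℝ)|) := by
    have : Differentiable ℂ (fun ζ : ℂ => (τ + ζ * ξ) / a) := by fun_prop
    exact fun x _ => this.analyticAt x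
  have key := AnalyticOnNhd.circleAverage_log_norm_of_ne_zero hana hne
  have hn : ∀ x : ℂ, ‖x / (a : ℂ)‖ = ‖x‖ / a := by
    intro x
    rw [norm_div, Complex.norm_real, Real.norm_of_nonneg ha.le]
  simp only [hn, zero_mul, add_zero] at key
  rw [circleAverage, smul_eq_mul] at key
  simp only [sig]
  rw [intervalIntegral.integral_div, ← key]
  simp only [circleMap, zero_add, Complex.ofReal_one, one_mul]
  rw [mul_div_assoc]
  rfl

/-- A smooth extension of the logarithmic coordinate. -/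
structure LogExt (a b : ℝ) (σ : ℂ → ℝ) (O : Set ℂ) : Prop where
  sm : ContDiff ℝ ∞ σ
  op : IsOpen O
  ne : ∀ τ ∈ O, τ ≠ 0
  eq : ∀ τ ∈ O, σ τ = sig a b τ
  ann : ∀ τ, a ≤ ‖τ‖ → ‖τ‖ ≤ b → τ ∈ O

lemma exists_LogExt (ha : 0 < a) (b : ℝ) : ∃ σ O, LogExt a b σ O := by
  have hK : IsCompact {τ : ℂ | a ≤ ‖τ‖ ∧ ‖τ‖ ≤ b} := by
    apply (isCompact_closedBall (0 : ℂ) b).of_isClosed_subset
    · exact (isClosed_le continuous_const continuous_norm).inter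
        (isClosed_le continuous_norm continuous_const)
    · intro τ hτ
      rw [mem_closedBall_zero_iff]; exact hτ.2
  have hV : IsOpen {τ : ℂ | τ ≠ 0} := isOpen_ne
  have hKV : {τ : ℂ | a ≤ ‖τ‖ ∧ ‖τ‖ ≤ b} ⊆ {τ : ℂ | τ ≠ 0} := by
    intro τ hτ h0
    have : a ≤ ‖τ‖ := hτ.1
    rw [h0, norm_zero] at this
    linarith
  obtain ⟨g, hg, O, hO, hKO, hOV, he⟩ := globalize hK hV hKV (sig_smooth (b := b) ha)
  exact ⟨g, O, hg, hO, fun τ hτ => hOV hτ, he, fun τ h1 h2 => hKO ⟨h1, h2⟩⟩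

variable {σ : ℂ → ℝ} {O : Set ℂ}

lemma LogExt.mean (h : LogExt a b σ O) (ha : 0 < a) {τ : ℂ} (hτ : τ ∈ O) :
    ∃ r0 > 0, ∀ ξ : ℂ, ‖ξ‖ < r0 →
      σ τ = (2 * π)⁻¹ * ∫ θ in (0)..(2 * π), σ (τ + ex θ * ξ) := by
  obtain ⟨r1, hr1, hb⟩ := Metric.isOpen_iff.1 h.op τ hτ
  have hn : 0 < ‖τ‖ := norm_pos_iff.2 (h.ne τ hτ)
  refine ⟨min r1 ‖τ‖, lt_min hr1 hn, ?_⟩
  intro ξ hξ
  have h1 : ‖ξ‖ < r1 := lt_of_lt_of_le hξ (min_le_left _ _)
  have h2 : ‖ξ‖ < ‖τ‖ := lt_of_lt_of_le hξ (min_le_right _ _)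
  rw [h.eq τ hτ, sig_mean ha h2]
  congr 1
  apply intervalIntegral.integral_congr
  intro θ _
  dsimp only
  rw [h.eq]
  apply hb
  rw [mem_ball, dist_eq_norm, add_sub_cancel_left, norm_mul, norm_ex, one_mul]
  exact h1

/-- The second derivative along complex lines. -/
lemma snd_line {f : ℂ → ℝ} (hf : ContDiff ℝ ∞ f) (τ v : ℂ) :
    fderiv ℝ (fderiv ℝ (fun ζ : ℂ => f (τ + ζ))) 0 v v = d1 v (d1 v f) τ := by
  have hg : ContDiff ℝ ∞ (fun ζ : ℂ => f (τ + ζ)) := hf.comp (by fun_prop)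
  have h1 : ContDiff ℝ ∞ (fderiv ℝ (fun ζ : ℂ => f (τ + ζ))) := hg.fderiv_right (by simp)
  have h3 := fderiv_clm_apply (𝕜 := ℝ) (h1.differentiable (by simp) 0) (differentiableAt_const v)
  have h4 : fderiv ℝ (fun y => fderiv ℝ (fun ζ : ℂ => f (τ + ζ)) y v) 0 v =
      fderiv ℝ (fderiv ℝ (fun ζ : ℂ => f (τ + ζ))) 0 v v := by
    rw [h3]; simp
  rw [← h4]
  have h5 : (fun y => fderiv ℝ (fun ζ : ℂ => f (τ + ζ)) y v) = fun y => d1 v f (τ + y) := by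
    ext y
    rw [fderiv_comp_add_left]; rfl
  rw [h5, fderiv_comp_add_left, add_zero]
  rfl

lemma LogExt.La_zero (h : LogExt a b σ O) (ha : 0 < a) {τ : ℂ} (hτ : τ ∈ O) : La σ τ = 0 := by
  obtain ⟨r0, hr0, hm⟩ := h.mean ha hτ
  have hs1 : ContDiff ℝ ∞ (fun ζ : ℂ => σ (τ + ζ)) := h.sm.comp (by fun_prop)
  have hs2 : ContDiff ℝ ∞ (fun τ => -σ τ) := h.sm.neg
  have hs3 : ContDiff ℝ ∞ (fun ζ : ℂ => -σ (τ + ζ)) := hs1.neg
  have hmr : ∀ r, 0 < r → r < r0 →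
      σ τ = (2 * π)⁻¹ * ∫ θ in (0)..(2 * π), σ (τ + r • ex θ) := by
    intro r hr hrr
    have := hm r (by rw [Complex.norm_real, Real.norm_of_nonneg hr.le]; exact hrr)
    rw [this]
    congr 1
    apply intervalIntegral.integral_congr
    intro θ _
    simp only [Complex.real_smul]
    rw [mul_comm]
  have e0 : τ + 0 = τ := add_zero τ
  have k1 := lap_of_submean (c := 0) hs1.contDiffAt hr0 hs1.continuous.continuousOn (by
    intro r hr hrr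
    simp only [zero_mul, add_zero]
    exact (hmr r hr hrr).le)
  have k2 := lap_of_submean (c := 0) hs3.contDiffAt hr0 hs3.continuous.continuousOn (by
    intro r hr hrr
    simp only [zero_mul, add_zero]
    rw [intervalIntegral.integral_neg, mul_neg]
    exact (neg_le_neg (hmr r hr hrr).ge))
  rw [snd_line h.sm, snd_line h.sm] at k1
  have e2 := snd_line hs2 τ 1
  have e3 := snd_line hs2 τ Complex.I
  rw [e2, e3] at k2
  have hneg : ∀ v, d1 v (d1 v (fun τ => -σ τ)) τ = - d1 v (d1 v σ) τ := by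
    intro v
    have h1 : d1 v (fun τ => -σ τ) = fun τ => - d1 v σ τ := by
      ext y
      change fderiv ℝ (fun τ => -σ τ) y v = - fderiv ℝ σ y v
      rw [show (fun τ => -σ τ) = -σ from rfl, fderiv_neg]; rfl
    rw [h1]
    change fderiv ℝ (fun τ => -d1 v σ τ) τ v = - fderiv ℝ (d1 v σ) τ v
    rw [show (fun τ => -d1 v σ τ) = -(d1 v σ) from rfl, fderiv_neg]; rfl
  rw [hneg, hneg] at k2
  simp only [La]
  linarith

/-! ### The smooth approximants on `ℂ × ℂ` -/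

/-- The mollified geodesic on `ℂ × ℂ`. -/
noncomputable def wf (φ : ContDiffBump (0 : ℂ × ℝ)) (σ : ℂ → ℝ) (x : ℂ × ℂ) : ℝ := W φ (x.1, σ x.2)

variable (φ : ContDiffBump (0 : ℂ × ℝ))

lemma wf_sm (hσ : ContDiff ℝ ∞ σ) : Sm (wf φ σ) :=
  (W_smooth φ).comp (contDiff_fst.prodMk (hσ.comp contDiff_snd))

lemma wf_close (x : ℂ × ℂ) : |wf φ σ x - U x.1 (σ x.2)| ≤ 15 * φ.rOut := W_close φ _

lemma W_fderiv_bound (p : ℂ × ℝ) (v : ℂ) (c : ℝ) :
    |fderiv ℝ (W φ) p (v, c)| ≤ 6 * ‖v‖ + 9 * |c| := by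
  have hd : HasFDerivAt (W φ) (fderiv ℝ (W φ) p) p :=
    ((W_smooth φ).differentiable (by simp) p).hasFDerivAt
  have hd' : HasFDerivAt (W φ) (fderiv ℝ (W φ) p) (p + (0 : ℝ) • (v, c)) := by
    rw [zero_smul, add_zero]; exact hd
  have hl : HasDerivAt (fun t : ℝ => p + t • ((v, c) : ℂ × ℝ)) (v, c) 0 := by
    have := ((hasDerivAt_id (0 : ℝ)).smul_const ((v, c) : ℂ × ℝ)).const_add p
    rw [one_smul] at this
    exact this
  have h1 := hd'.comp_hasDerivAt (0 : ℝ) hl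
  rw [← Real.norm_eq_abs]
  apply h1.le_of_lip' (by positivity)
  refine Eventually.of_forall fun t => ?_
  simp only [Function.comp_apply, zero_smul, add_zero, sub_zero]
  have k1 := W_lip φ (p + t • ((v, c) : ℂ × ℝ)) p
  have k2 := W_lip φ p (p + t • ((v, c) : ℂ × ℝ))
  have e1 : ‖(p + t • ((v, c) : ℂ × ℝ)).1 - p.1‖ = |t| * ‖v‖ := by
    rw [Prod.fst_add, Prod.smul_fst, add_sub_cancel_left, norm_smul, Real.norm_eq_abs]
  have e2 : |(p + t • ((v, c) : ℂ × ℝ)).2 - p.2| = |t| * |c| := by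
    rw [Prod.snd_add, Prod.smul_snd, add_sub_cancel_left, smul_eq_mul, abs_mul]
  rw [norm_sub_rev, abs_sub_comm, e1, e2] at k2
  rw [e1, e2] at k1
  rw [Real.norm_eq_abs, Real.norm_eq_abs, abs_le]
  constructor <;> linarith

lemma D_wf (hσ : ContDiff ℝ ∞ σ) (p x : ℂ × ℂ) :
    D p (wf φ σ) x = fderiv ℝ (W φ) (x.1, σ x.2) (p.1, fderiv ℝ σ x.2 p.2) := by
  have h1 : HasFDerivAt (fun x : ℂ × ℂ => ((x.1, σ x.2) : ℂ × ℝ))
      ((ContinuousLinearMap.fst ℝ ℂ ℂ).prod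
        ((fderiv ℝ σ x.2).comp (ContinuousLinearMap.snd ℝ ℂ ℂ))) x :=
    hasFDerivAt_fst.prodMk
      ((hσ.differentiable (by simp) x.2).hasFDerivAt.comp x hasFDerivAt_snd)
  have h2 : HasFDerivAt (W φ) (fderiv ℝ (W φ) (x.1, σ x.2)) (x.1, σ x.2) :=
    ((W_smooth φ).differentiable (by simp) _).hasFDerivAt
  have h3 := h2.comp x h1
  have h4 : fderiv ℝ (wf φ σ) x = _ := h3.fderiv
  simp only [D, h4]
  rfl

lemma D_wf_z (hσ : ContDiff ℝ ∞ σ) (x : ℂ × ℂ) {v : ℂ} (hv : ‖v‖ = 1) :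
    |D (v, 0) (wf φ σ) x| ≤ 6 := by
  rw [D_wf φ hσ]
  have := W_fderiv_bound φ (x.1, σ x.2) v (fderiv ℝ σ x.2 0)
  rw [hv, map_zero] at this
  simpa using this

lemma D_wf_t (hσ : ContDiff ℝ ∞ σ) (x : ℂ × ℂ) {v : ℂ} (hv : ‖v‖ = 1) :
    |D (0, v) (wf φ σ) x| ≤ 9 * ‖fderiv ℝ σ x.2‖ := by
  rw [D_wf φ hσ]
  have h1 := W_fderiv_bound φ (x.1, σ x.2) 0 (fderiv ℝ σ x.2 v)
  have h2 : |fderiv ℝ σ x.2 v| ≤ ‖fderiv ℝ σ x.2‖ := by
    have := (fderiv ℝ σ x.2).le_opNorm v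
    rw [hv, mul_one] at this
    exact this
  rw [norm_zero] at h1
  simp only at h1 ⊢
  linarith

/-- Line restriction of the second derivative. -/
lemma snd_line2 {f : ℂ × ℂ → ℝ} (hf : Sm f) (x ξ : ℂ × ℂ) (v : ℂ) :
    fderiv ℝ (fderiv ℝ (fun ζ : ℂ => f (x + ζ • ξ))) 0 v v = D (v • ξ) (D (v • ξ) f) x := by
  have hL : ∀ ζ : ℂ, HasFDerivAt (fun ζ : ℂ => x + ζ • ξ)
      (((ContinuousLinearMap.id ℂ ℂ).smulRight ξ).restrictScalars ℝ) ζ := by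
    intro ζ
    have h1 : HasFDerivAt (fun ζ : ℂ => x + ζ • ξ) ((ContinuousLinearMap.id ℂ ℂ).smulRight ξ) ζ :=
      ((ContinuousLinearMap.id ℂ ℂ).smulRight ξ).hasFDerivAt.const_add x
    exact h1.restrictScalars ℝ
  have hA : ContDiff ℝ ∞ (fun ζ : ℂ => x + ζ • ξ) := by fun_prop
  have hline : ∀ {g : ℂ × ℂ → ℝ} (_ : Sm g) (ζ v : ℂ),
      fderiv ℝ (fun ζ : ℂ => g (x + ζ • ξ)) ζ v = D (v • ξ) g (x + ζ • ξ) := by
    intro g hg ζ v
    have h3 := (hg.hasD (x + ζ • ξ)).comp ζ (hL ζ)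
    have h4 : fderiv ℝ (fun ζ : ℂ => g (x + ζ • ξ)) ζ = _ := h3.fderiv
    rw [h4]; rfl
  have hg : ContDiff ℝ ∞ (fun ζ : ℂ => f (x + ζ • ξ)) := hf.comp hA
  have h1 : ContDiff ℝ ∞ (fderiv ℝ (fun ζ : ℂ => f (x + ζ • ξ))) := hg.fderiv_right (by simp)
  have h3 := fderiv_clm_apply (𝕜 := ℝ) (h1.differentiable (by simp) 0) (differentiableAt_const v)
  have h4 : fderiv ℝ (fun y => fderiv ℝ (fun ζ : ℂ => f (x + ζ • ξ)) y v) 0 v =
      fderiv ℝ (fderiv ℝ (fun ζ : ℂ => f (x + ζ • ξ))) 0 v v := by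
    rw [h3]; simp
  rw [← h4]
  simp only [hline hf]
  rw [hline (D_sm hf _), zero_smul, add_zero]

/-- Semipositivity of the approximants. -/
lemma wf_SP (h : LogExt a b σ O) (ha : 0 < a) {x : ℂ × ℂ} (hx : x.2 ∈ O) :
    SP kap (wf φ σ) x := by
  intro ξ
  have hw := wf_sm φ h.sm
  obtain ⟨r0, hr0, hm⟩ := h.mean ha hx
  have hA : ContDiff ℝ ∞ (fun ζ : ℂ => x + ζ • ξ) := by fun_prop
  have hg : ContDiff ℝ ∞ (fun ζ : ℂ => wf φ σ (x + ζ • ξ)) := hw.comp hA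
  have hr1 : 0 < r0 / (‖ξ.2‖ + 1) := by positivity
  have key := lap_of_submean (c := kap * ‖ξ.1‖ ^ 2) hg.contDiffAt hr1 hg.continuous.continuousOn (by
    intro r hr hrr
    have hnorm : ‖(r : ℂ) * ξ.2‖ < r0 := by
      rw [norm_mul, Complex.norm_real, Real.norm_of_nonneg hr.le]
      rw [lt_div_iff₀ (by positivity)] at hrr
      have := norm_nonneg ξ.2
      nlinarith
    have hexc := ex_continuous
    have hσc := h.sm.continuous
    have hS : Continuous (fun θ => σ (x.2 + ex θ * ((r : ℂ) * ξ.2))) := by fun_prop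
    have h1 := W_psh φ x.1 ((r : ℂ) * ξ.1) (σ x.2)
      (fun θ => σ (x.2 + ex θ * ((r : ℂ) * ξ.2))) hS (hm _ hnorm)
    have e0 : wf φ σ (x + (0 : ℂ) • ξ) = W φ (x.1, σ x.2) := by rw [zero_smul, add_zero]; rfl
    rw [e0]
    have e1 : ‖(r : ℂ) * ξ.1‖ ^ 2 = ‖ξ.1‖ ^ 2 * r ^ 2 := by
      rw [norm_mul, Complex.norm_real, Real.norm_of_nonneg hr.le]; ring
    rw [e1] at h1
    refine h1.trans (le_of_eq ?_)
    rw [mul_assoc kap]
    congr 2
    apply intervalIntegral.integral_congr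
    intro θ _
    have e2 : x + (r • ex θ) • ξ =
        (x.1 + Complex.exp (θ * Complex.I) * ((r : ℂ) * ξ.1), x.2 + ex θ * ((r : ℂ) * ξ.2)) := by
      apply Prod.ext
      · simp only [Prod.fst_add, Prod.smul_fst, smul_eq_mul, Complex.real_smul, ex]; ring
      · simp only [Prod.snd_add, Prod.smul_snd, smul_eq_mul, Complex.real_smul]; ring
    dsimp only
    rw [e2]; rfl)
  rw [snd_line2 hw, snd_line2 hw, one_smul] at key
  linarith

end Pool.Agent.H907R2
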