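import Pool.Agent.H907R2.Mass

/-!
Periodicity argument: the Monge-Ampère measures of the approximants converge to zero.
-/

open MeasureTheory Metric Set Complex Real Filter
open scoped Topology ContDiff NNReal

namespace Pool.Agent.H907R2

variable {a b : ℝ} {σ : ℂ → ℝ} {O : Set ℂ}

/-! ### Periodicity -/

lemma D_periodic {f : ℂ × ℂ → ℝ} {c : ℂ × ℂ} (h : ∀ x, f (x + c) = f x) (p : ℂ × ℂ) :
    ∀ x, D p f (x + c) = D p f x := by
  intro x
  have h1 : (fun x => f (x + c)) = f := funext h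
  have h2 := fderiv_comp_add_right (𝕜 := ℝ) (f := f) (x := x) c
  rw [h1] at h2
  simp only [D, h2]

lemma MA_periodic {κ : ℝ} {f : ℂ × ℂ → ℝ} {c : ℂ × ℂ} (h : ∀ x, f (x + c) = f x) :
    ∀ x, MA κ f (x + c) = MA κ f x := by
  intro x
  have h2 := fun p q => D_periodic (D_periodic h q) p x
  simp only [MA, Lz, Lt, P1, P2, h2]

/-- horizontal period -/
noncomputable def q1 : ℂ := ((4 * π : ℝ) : ℂ)

lemma U_q2 (z : ℂ) (s : ℝ) : U (z + per2) s = U z s := U_periodic phi0_per2 phi1_per2 z s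

lemma q1_eq : q1 + per2 = per1 + per1 := by
  apply Complex.ext
  · simp [q1, per1, per2]; ring
  · simp [q1, per1, per2]; ring

lemma U_q1 (z : ℂ) (s : ℝ) : U (z + q1) s = U z s := by
  rw [← U_q2, add_assoc, q1_eq, ← add_assoc, U_periodic phi0_per1 phi1_per1,
    U_periodic phi0_per1 phi1_per1]

/-- the periodic set -/
def IsPer (F : ℂ × ℂ → ℝ) : Prop := (∀ x, F (x + (q1, 0)) = F x) ∧ ∀ x, F (x + (per2, 0)) = F x

lemma wf_per (φ : ContDiffBump (0 : ℂ × ℝ)) : IsPer (wf φ σ) := by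
  constructor
  · intro x
    simp only [wf, Prod.fst_add, Prod.snd_add, add_zero]
    exact W_periodic φ U_q1 _ _
  · intro x
    simp only [wf, Prod.fst_add, Prod.snd_add, add_zero]
    exact W_periodic φ U_q2 _ _

lemma IsPer.MA {κ : ℝ} {f : ℂ × ℂ → ℝ} (h : IsPer f) : IsPer (MA κ f) :=
  ⟨MA_periodic h.1, MA_periodic h.2⟩

lemma IsPer.mul_snd {f : ℂ × ℂ → ℝ} (h : IsPer f) (η : ℂ → ℝ) : IsPer (fun x => η x.2 * f x) := by
  constructor
  · intro x; simp only [Prod.snd_add, add_zero, h.1]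
  · intro x; simp only [Prod.snd_add, add_zero, h.2]

/-- lattice points -/
noncomputable def pm (m n : ℕ) : ℂ := m * q1 + n * per2

lemma IsPer.nat {F : ℂ × ℂ → ℝ} (h : IsPer F) (m n : ℕ) (x : ℂ × ℂ) :
    F (x + (pm m n, 0)) = F x := by
  induction m with
  | zero =>
    induction n with
    | zero =>
      have e : x + ((pm 0 0, 0) : ℂ × ℂ) = x := by
        apply Prod.ext <;> simp [pm]
      rw [e]
    | succ n ih =>
      have e : x + ((pm 0 (n + 1), 0) : ℂ × ℂ) = x + (pm 0 n, 0) + (per2, 0) := by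
        apply Prod.ext
        · simp only [Prod.fst_add, pm]; push_cast; ring
        · simp
      rw [e, h.2, ih]
  | succ m ih =>
    have e : x + ((pm (m + 1) n, 0) : ℂ × ℂ) = x + (pm m n, 0) + (q1, 0) := by
      apply Prod.ext
      · simp only [Prod.fst_add, pm]; push_cast; ring
      · simp
    rw [e, h.1, ih]

lemma int_shift {F : ℂ × ℂ → ℝ} (h : IsPer F) (f : ℂ → ℝ) (m n : ℕ) :
    ∫ x : ℂ × ℂ, f (x.1 - pm m n) * F x = ∫ x : ℂ × ℂ, f x.1 * F x := by
  have h1 := integral_add_right_eq_self (μ := (volume : Measure (ℂ × ℂ)))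
    (fun x : ℂ × ℂ => f (x.1 - pm m n) * F x) ((pm m n, 0) : ℂ × ℂ)
  rw [← h1]
  congr 1; ext x
  rw [h.nat m n x]
  simp only [Prod.fst_add, add_sub_cancel_right]

lemma int_shift' {F : ℂ × ℂ → ℝ} (h : IsPer F) (f : ℂ → ℝ) (m n : ℕ) :
    ∫ x : ℂ × ℂ, f (x.1 + pm m n) * F x = ∫ x : ℂ × ℂ, f x.1 * F x := by
  rw [← int_shift h (fun z => f (z + pm m n)) m n]
  simp only [sub_add_cancel]

/-! ### Telescoping partition -/

/-- ramp -/
noncomputable def hh (t : ℝ) : ℝ := max 0 (min t 1)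
/-- tent -/
noncomputable def g0 (t : ℝ) : ℝ := hh (t + 1) - hh t

lemma hh_mono : Monotone hh := by
  intro s t h
  exact max_le_max le_rfl (min_le_min h le_rfl)
lemma hh_cont : Continuous hh := by unfold hh; fun_prop
lemma hh_nonneg (t : ℝ) : 0 ≤ hh t := le_max_left _ _
lemma hh_le (t : ℝ) : hh t ≤ 1 := max_le zero_le_one (min_le_right _ _)
lemma hh_zero {t : ℝ} (h : t ≤ 0) : hh t = 0 := by
  rw [hh, min_eq_left (by linarith), max_eq_left h]
lemma hh_one {t : ℝ} (h : 1 ≤ t) : hh t = 1 := by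
  rw [hh, min_eq_right h, max_eq_right zero_le_one]
lemma g0_cont : Continuous g0 := by
  have := hh_cont
  unfold g0; fun_prop
lemma g0_nonneg (t : ℝ) : 0 ≤ g0 t := sub_nonneg.2 (hh_mono (by linarith))
lemma g0_zero {t : ℝ} (h : 1 ≤ |t|) : g0 t = 0 := by
  rcases le_abs.1 h with h1 | h1
  · rw [g0, hh_one h1, hh_one (by linarith), sub_self]
  · rw [g0, hh_zero (by linarith), hh_zero (by linarith), sub_self]

lemma g0_sum (N : ℕ) (t : ℝ) :
    ∑ m ∈ Finset.range N, g0 (t - m) = hh (t + 1) - hh (t + 1 - N) := by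
  induction N with
  | zero => simp
  | succ N ih =>
    rw [Finset.sum_range_succ, ih, g0]
    push_cast
    have e1 : t - N + 1 = t + 1 - N := by ring
    have e2 : t + 1 - (N + 1) = t - N := by ring
    rw [e1, e2]; ring

/-- periods -/
noncomputable def PP : ℝ := 4 * π
/-- periods -/
noncomputable def QQ : ℝ := 4 * π / √3

lemma PP_pos : 0 < PP := by unfold PP; positivity
lemma QQ_pos : 0 < QQ := by
  have := sqrt3_pos
  unfold QQ; positivity

/-- tile function -/
noncomputable def a0 (z : ℂ) : ℝ := g0 (z.re / PP) * g0 (z.im / QQ)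

lemma a0_cont : Continuous a0 := by
  have := g0_cont
  unfold a0; fun_prop

lemma a0_nonneg (z : ℂ) : 0 ≤ a0 z := mul_nonneg (g0_nonneg _) (g0_nonneg _)

lemma cs_shift {f : ℂ → ℝ} (hf : HasCompactSupport f) (c : ℂ) :
    HasCompactSupport (fun z => f (z - c)) := hf.comp_homeomorph (Homeomorph.subRight c)

lemma cs_shift' {f : ℂ → ℝ} (hf : HasCompactSupport f) (c : ℂ) :
    HasCompactSupport (fun z => f (z + c)) := hf.comp_homeomorph (Homeomorph.addRight c)

lemma cont_shift {f : ℂ → ℝ} (hf : Continuous f) (c : ℂ) :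
    Continuous (fun z => f (z - c)) := hf.comp (continuous_id.sub continuous_const)

lemma cont_shift' {f : ℂ → ℝ} (hf : Continuous f) (c : ℂ) :
    Continuous (fun z => f (z + c)) := hf.comp (continuous_id.add continuous_const)

lemma norm_le_of {z : ℂ} {A B : ℝ} (h1 : |z.re| ≤ A) (h2 : |z.im| ≤ B) : ‖z‖ ≤ A + B :=
  (Complex.norm_le_abs_re_add_abs_im z).trans (add_le_add h1 h2)

lemma a0_cs : HasCompactSupport a0 := by
  apply HasCompactSupport.intro (isCompact_closedBall (0 : ℂ) (PP + QQ))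
  intro z hz
  by_contra hne
  apply hz
  rw [mem_closedBall_zero_iff]
  have hP := PP_pos
  have hQ := QQ_pos
  have h1 : g0 (z.re / PP) ≠ 0 := left_ne_zero_of_mul hne
  have h2 : g0 (z.im / QQ) ≠ 0 := right_ne_zero_of_mul hne
  apply norm_le_of
  · by_contra h
    push Not at h
    apply h1
    apply g0_zero
    rw [abs_div, abs_of_pos hP, le_div_iff₀ hP]
    linarith
  · by_contra h
    push Not at h
    apply h2
    apply g0_zero
    rw [abs_div, abs_of_pos hQ, le_div_iff₀ hQ]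
    linarith

/-- sum of translated tile functions -/
noncomputable def AN (N : ℕ) (z : ℂ) : ℝ :=
  (hh (z.re / PP + 1) - hh (z.re / PP + 1 - N)) * (hh (z.im / QQ + 1) - hh (z.im / QQ + 1 - N))

lemma AN_eq (N : ℕ) (z : ℂ) :
    AN N z = ∑ m ∈ Finset.range N, ∑ n ∈ Finset.range N, a0 (z - pm m n) := by
  rw [AN, ← g0_sum, ← g0_sum, Finset.sum_mul_sum]
  apply Finset.sum_congr rfl
  intro m _
  apply Finset.sum_congr rfl
  intro n _
  have hP := PP_pos.ne'
  have hQ := QQ_pos.ne'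
  rw [a0]
  congr 2
  · simp only [pm, q1, per2, Complex.sub_re, Complex.add_re, Complex.mul_re, Complex.natCast_re,
      Complex.natCast_im, Complex.ofReal_re, Complex.ofReal_im]
    rw [sub_div]
    congr 1
    rw [eq_div_iff hP, PP]; ring
  · simp only [pm, q1, per2, Complex.sub_im, Complex.add_im, Complex.mul_im, Complex.natCast_re,
      Complex.natCast_im, Complex.ofReal_re, Complex.ofReal_im]
    rw [sub_div]
    congr 1
    rw [eq_div_iff hQ, QQ]; ring

lemma int_AN {F : ℂ × ℂ → ℝ} (h : IsPer F)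
    (hi : ∀ c : ℂ, Integrable (fun x : ℂ × ℂ => a0 (x.1 - c) * F x)) (N : ℕ) :
    ∫ x : ℂ × ℂ, AN N x.1 * F x = (N : ℝ) ^ 2 * ∫ x : ℂ × ℂ, a0 x.1 * F x := by
  have e : ∀ x : ℂ × ℂ, AN N x.1 * F x =
      ∑ m ∈ Finset.range N, ∑ n ∈ Finset.range N, a0 (x.1 - pm m n) * F x := by
    intro x
    rw [AN_eq, Finset.sum_mul]
    apply Finset.sum_congr rfl
    intro m _
    rw [Finset.sum_mul]
  simp only [e]
  rw [integral_finsetSum _ (fun m _ => integrable_finsetSum _ (fun n _ => hi _))]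
  have e2 : ∀ m ∈ Finset.range N, ∫ x : ℂ × ℂ, ∑ n ∈ Finset.range N, a0 (x.1 - pm m n) * F x =
      N * ∫ x : ℂ × ℂ, a0 x.1 * F x := by
    intro m _
    rw [integral_finsetSum _ (fun n _ => hi _)]
    simp only [int_shift h a0]
    simp
  rw [Finset.sum_congr rfl e2]
  simp
  ring

lemma AN_nonneg (N : ℕ) (z : ℂ) : 0 ≤ AN N z := by
  have hN : (0 : ℝ) ≤ N := by positivity
  exact mul_nonneg (sub_nonneg.2 (hh_mono (by linarith))) (sub_nonneg.2 (hh_mono (by linarith)))

lemma AN_le_one (N : ℕ) (z : ℂ) : AN N z ≤ 1 := by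
  have h : ∀ t : ℝ, hh (t + 1) - hh (t + 1 - N) ≤ 1 := fun t => by
    have := hh_le (t + 1)
    have := hh_nonneg (t + 1 - N)
    linarith
  have hN : (0 : ℝ) ≤ N := by positivity
  have h2 : ∀ t : ℝ, 0 ≤ hh (t + 1) - hh (t + 1 - N) := fun t =>
    sub_nonneg.2 (hh_mono (by linarith))
  exact mul_le_one₀ (h _) (h2 _) (h _)

lemma AN_zero {N : ℕ} (hN : 1 ≤ N) {z : ℂ} (hz : N * (PP + QQ) < ‖z‖) : AN N z = 0 := by
  have hP := PP_pos
  have hQ := QQ_pos
  have hNr : (1 : ℝ) ≤ N := by exact_mod_cast hN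
  have key : ∀ t : ℝ, (N : ℝ) < |t| → hh (t + 1) - hh (t + 1 - N) = 0 := by
    intro t ht
    rcases lt_abs.1 ht with h1 | h1
    · rw [hh_one (by linarith), hh_one (by linarith), sub_self]
    · rw [hh_zero (by linarith), hh_zero (by linarith), sub_self]
  by_contra hne
  have h1 := left_ne_zero_of_mul hne
  have h2 := right_ne_zero_of_mul hne
  have h3 : |z.re| ≤ N * PP := by
    by_contra h
    push Not at h
    apply h1
    apply key
    rw [abs_div, abs_of_pos hP, lt_div_iff₀ hP]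
    exact h
  have h4 : |z.im| ≤ N * QQ := by
    by_contra h
    push Not at h
    apply h2
    apply key
    rw [abs_div, abs_of_pos hQ, lt_div_iff₀ hQ]
    exact h
  have := norm_le_of h3 h4
  linarith

lemma AN_one {L : ℕ} {z : ℂ} (h1 : |z.re| ≤ L * PP) (h2 : |z.im| ≤ L * QQ) :
    AN (2 * L + 1) (z + pm L L) = 1 := by
  have hP := PP_pos
  have hQ := QQ_pos
  have key : ∀ t : ℝ, 0 ≤ t → t ≤ 2 * L → hh (t + 1) - hh (t + 1 - (2 * L + 1 : ℕ)) = 1 := by
    intro t h0 h3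
    rw [hh_one (by linarith), hh_zero (by push_cast; linarith), sub_zero]
  have e1 : (z + pm L L).re / PP = z.re / PP + L := by
    simp only [pm, q1, per2, Complex.add_re, Complex.mul_re, Complex.natCast_re,
      Complex.natCast_im, Complex.ofReal_re, Complex.ofReal_im]
    rw [add_div]
    congr 1
    rw [div_eq_iff hP.ne', PP]; ring
  have e2 : (z + pm L L).im / QQ = z.im / QQ + L := by
    simp only [pm, q1, per2, Complex.add_im, Complex.mul_im, Complex.natCast_re,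
      Complex.natCast_im, Complex.ofReal_re, Complex.ofReal_im]
    rw [add_div]
    congr 1
    rw [div_eq_iff hQ.ne', QQ]; ring
  have b1 : |z.re / PP| ≤ L := by rw [abs_div, abs_of_pos hP, div_le_iff₀ hP]; exact h1
  have b2 : |z.im / QQ| ≤ L := by rw [abs_div, abs_of_pos hQ, div_le_iff₀ hQ]; exact h2
  rw [abs_le] at b1 b2
  rw [AN, e1, e2, key _ (by linarith) (by linarith), key _ (by linarith) (by linarith), one_mul]

lemma AN_cont (N : ℕ) : Continuous (AN N) := by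
  have := hh_cont
  unfold AN; fun_prop

/-- Convergence of the Monge-Ampère measures to zero, tile version. -/
lemma tile_small (h : LogExt a b σ O) (ha : 0 < a) (hab : a < b) {η : ℂ → ℝ}
    (hη : ContDiff ℝ ∞ η) (hηc : HasCompactSupport η) (hη0 : ∀ τ, 0 ≤ η τ)
    (hηA : ∀ τ ∈ tsupport η, a ≤ ‖τ‖ ∧ ‖τ‖ ≤ b) {ε : ℝ} (hε : 0 < ε) :
    ∃ δ > 0, ∀ φ : ContDiffBump (0 : ℂ × ℝ), φ.rOut ≤ δ →
      ∫ x : ℂ × ℂ, a0 x.1 * (η x.2 * MA kap (wf φ σ) x) ≤ ε := by
  obtain ⟨α, hα, hαc, -, ⟨V, hV, hV1, hV2⟩, hα01⟩ :=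
    exists_cutoff (isCompact_closedBall (0 : ℂ) 1) isOpen_univ (subset_univ _)
  obtain ⟨C, hC, hbound⟩ := mass_main h ha hab hα hαc (fun z => (hα01 z).1) hη hηc hηA
  have hP := PP_pos
  have hQ := QQ_pos
  obtain ⟨L, hL⟩ : ∃ L, L = PP + QQ := ⟨_, rfl⟩
  have hL1 : 1 ≤ L := by
    rw [hL]
    have : 1 ≤ PP := by
      unfold PP
      have := Real.pi_gt_three
      linarith
    linarith
  obtain ⟨N, hN⟩ := exists_nat_gt (4 * C * L ^ 2 / ε)
  have hN1 : 1 ≤ N := by
    by_contra h0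
    have : N = 0 := by omega
    rw [this] at hN
    have : 0 ≤ 4 * C * L ^ 2 / ε := by positivity
    simp at hN
    linarith
  have hNr : (1 : ℝ) ≤ N := by exact_mod_cast hN1
  refine ⟨ε / (2 * C * L ^ 2 + 1), by positivity, ?_⟩
  intro φ hφ
  have hw := wf_sm φ h.sm
  obtain ⟨F, hF⟩ : ∃ F : ℂ × ℂ → ℝ, F = fun x => η x.2 * MA kap (wf φ σ) x := ⟨_, rfl⟩
  have hper : IsPer F := by rw [hF]; exact (wf_per φ).MA.mul_snd η
  have hFc : Continuous F := by
    rw [hF]
    exact (hη.continuous.comp continuous_snd).mul (MA_cont hw)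
  have hF0 : ∀ x, 0 ≤ F x := by
    intro x
    rw [hF]
    by_cases hx : x.2 ∈ tsupport η
    · exact mul_nonneg (hη0 _) (SP_MA hw (wf_SP φ h ha (h.ann _ (hηA _ hx).1 (hηA _ hx).2)))
    · simp only [image_eq_zero_of_notMem_tsupport hx, zero_mul, le_refl]
  have hcsF : ∀ f : ℂ → ℝ, HasCompactSupport f → HasCompactSupport (fun x : ℂ × ℂ => f x.1 * F x) := by
    intro f hf
    apply HasCompactSupport.intro (hf.isCompact.prod hηc.isCompact)
    intro x hx
    rw [mem_prod, not_and_or] at hx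
    rcases hx with h | h
    · simp [image_eq_zero_of_notMem_tsupport h]
    · rw [hF]; simp [image_eq_zero_of_notMem_tsupport h]
  have hi : ∀ f : ℂ → ℝ, Continuous f → HasCompactSupport f →
      Integrable (fun x : ℂ × ℂ => f x.1 * F x) := fun f hf hc =>
    int_sm ((hf.comp continuous_fst).mul hFc) (hcsF f hc)
  have hR1 : 1 ≤ N * L := by nlinarith
  have hR0 : (0 : ℝ) < N * L := by linarith
  have hle : ∫ x : ℂ × ℂ, AN N x.1 * F x ≤ ∫ x : ℂ × ℂ, sc (N * L) α x.1 * F x := by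
    have hANc : HasCompactSupport (AN N) := by
      apply HasCompactSupport.intro (isCompact_closedBall (0 : ℂ) (N * (PP + QQ)))
      intro z hz
      rw [mem_closedBall_zero_iff] at hz
      push Not at hz
      exact AN_zero hN1 hz
    apply integral_mono (hi _ (AN_cont N) hANc)
      (hi _ (sc_sm hα _).continuous (sc_cs hαc hR0))
    intro x
    apply mul_le_mul_of_nonneg_right _ (hF0 x)
    by_cases hz : ‖x.1‖ ≤ N * L
    · have : sc (N * L) α x.1 = 1 := by
        apply hV2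
        apply hV1
        rw [mem_closedBall_zero_iff, norm_smul, norm_inv, Real.norm_of_nonneg hR0.le,
          inv_mul_le_iff₀ hR0, mul_one]
        exact hz
      rw [this]
      exact AN_le_one N _
    · push Not at hz
      rw [hL] at hz
      rw [AN_zero hN1 hz]
      exact (hα01 _).1
  have hshift : ∀ c : ℂ, Integrable (fun x : ℂ × ℂ => a0 (x.1 - c) * F x) := fun c =>
    hi (fun z => a0 (z - c)) (cont_shift a0_cont c) (cs_shift a0_cs c)
  rw [int_AN hper hshift N] at hle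
  have hb := hbound φ (N * L) N hR1 (by omega)
  have e : ∫ x, tn (sc (N * L) α) η x * MA kap (wf φ σ) x =
      ∫ x : ℂ × ℂ, sc (N * L) α x.1 * F x := by
    congr 1; ext x; rw [hF]; simp only [tn]; ring
  rw [e] at hb
  have hb2 := (le_abs_self _).trans hb
  have e2 : ∫ x : ℂ × ℂ, a0 x.1 * (η x.2 * MA kap (wf φ σ) x) = ∫ x : ℂ × ℂ, a0 x.1 * F x := by
    rw [hF]
  rw [e2]
  obtain ⟨I, hI⟩ : ∃ I, I = ∫ x : ℂ × ℂ, a0 x.1 * F x := ⟨_, rfl⟩
  rw [← hI] at hle ⊢
  have hN2 : (0 : ℝ) < (N : ℝ) ^ 2 := by positivity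
  have h3 : (N : ℝ) ^ 2 * I ≤ C * (N * L + (N * L) ^ 2 * φ.rOut + (N * L) ^ 2 / N) := hle.trans hb2
  have h4 : C * (N * L + (N * L) ^ 2 * φ.rOut + (N * L) ^ 2 / N) ≤
      (N : ℝ) ^ 2 * (C * L ^ 2 * (2 / N + φ.rOut)) := by
    have e3 : (N : ℝ) ^ 2 * (C * L ^ 2 * (2 / N + φ.rOut)) =
        C * (N * L ^ 2 + (N * L) ^ 2 * φ.rOut + (N * L) ^ 2 / N) := by
      field_simp
      ring
    rw [e3]
    have : (N : ℝ) * L ≤ N * L ^ 2 := by nlinarith
    gcongr
  have h5 : I ≤ C * L ^ 2 * (2 / N + φ.rOut) := le_of_mul_le_mul_left (h3.trans h4) hN2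
  have h6 : C * L ^ 2 * (2 / N) ≤ ε / 2 := by
    rw [div_lt_iff₀ hε] at hN
    rw [mul_div_assoc', div_le_iff₀ (by linarith)]
    linarith
  have h7 : C * L ^ 2 * φ.rOut ≤ ε / 2 := by
    have h8 : C * L ^ 2 * φ.rOut ≤ C * L ^ 2 * (ε / (2 * C * L ^ 2 + 1)) := by gcongr
    refine h8.trans ?_
    rw [mul_div_assoc', div_le_iff₀ (by positivity)]
    nlinarith
  linarith

/-- Convergence of the Monge-Ampère measures to zero. -/
theorem MA_small (h : LogExt a b σ O) (ha : 0 < a) (hab : a < b) {χ : ℂ × ℂ → ℝ}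
    (hχ : Continuous χ) (hχc : HasCompactSupport χ)
    (hχA : ∀ x ∈ tsupport χ, a < ‖x.2‖ ∧ ‖x.2‖ < b) {ε : ℝ} (hε : 0 < ε) :
    ∃ δ > 0, ∀ φ : ContDiffBump (0 : ℂ × ℝ), φ.rOut ≤ δ →
      |∫ x : ℂ × ℂ, χ x * MA kap (wf φ σ) x| ≤ ε := by
  have hK : IsCompact (tsupport χ) := hχc.isCompact
  have hKt : IsCompact (Prod.snd '' tsupport χ) := hK.image continuous_snd
  have hKz : IsCompact (Prod.fst '' tsupport χ) := hK.image continuous_fst
  have hV : IsOpen {τ : ℂ | a < ‖τ‖ ∧ ‖τ‖ < b} :=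
    (isOpen_lt continuous_const continuous_norm).inter (isOpen_lt continuous_norm continuous_const)
  obtain ⟨η, hη, hηc, hηV, ⟨V, hVo, hV1, hV2⟩, hη01⟩ := exists_cutoff hKt hV (by
    rintro _ ⟨x, hx, rfl⟩
    exact hχA x hx)
  have hηA : ∀ τ ∈ tsupport η, a ≤ ‖τ‖ ∧ ‖τ‖ ≤ b := fun τ hτ =>
    ⟨(hηV hτ).1.le, (hηV hτ).2.le⟩
  obtain ⟨r, hr⟩ := hKz.isBounded.exists_norm_le
  have hP := PP_pos
  have hQ := QQ_pos
  obtain ⟨L, hLr⟩ := exists_nat_gt (r / PP + r / QQ + |r / PP| + |r / QQ|)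
  obtain ⟨M, hM⟩ := hχc.exists_bound_of_continuous hχ
  have hM0 : 0 ≤ M := (norm_nonneg _).trans (hM 0)
  obtain ⟨N, hN⟩ : ∃ N : ℕ, N = 2 * L + 1 := ⟨_, rfl⟩
  have hNr : (0 : ℝ) < (N : ℝ) := by rw [hN]; positivity
  obtain ⟨δ, hδ, hsmall⟩ := tile_small h ha hab hη hηc (fun τ => (hη01 τ).1) hηA
    (ε := ε / (M * N ^ 2 + 1)) (by positivity)
  refine ⟨δ, hδ, ?_⟩
  intro φ hφ
  have hs := hsmall φ hφ
  have hw := wf_sm φ h.sm
  obtain ⟨F, hF⟩ : ∃ F : ℂ × ℂ → ℝ, F = fun x => η x.2 * MA kap (wf φ σ) x := ⟨_, rfl⟩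
  have hper : IsPer F := by rw [hF]; exact (wf_per φ).MA.mul_snd η
  have hFc : Continuous F := by
    rw [hF]
    exact (hη.continuous.comp continuous_snd).mul (MA_cont hw)
  have hF0 : ∀ x, 0 ≤ F x := by
    intro x
    rw [hF]
    by_cases hx : x.2 ∈ tsupport η
    · exact mul_nonneg (hη01 _).1 (SP_MA hw (wf_SP φ h ha (h.ann _ (hηA _ hx).1 (hηA _ hx).2)))
    · simp only [image_eq_zero_of_notMem_tsupport hx, zero_mul, le_refl]
  have hi : ∀ f : ℂ → ℝ, Continuous f → HasCompactSupport f →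
      Integrable (fun x : ℂ × ℂ => f x.1 * F x) := by
    intro f hf hc
    apply int_sm ((hf.comp continuous_fst).mul hFc)
    apply HasCompactSupport.intro (hc.isCompact.prod hηc.isCompact)
    intro x hx
    rw [mem_prod, not_and_or] at hx
    rcases hx with h | h
    · simp [image_eq_zero_of_notMem_tsupport h]
    · rw [hF]; simp [image_eq_zero_of_notMem_tsupport h]
  have hshift : ∀ c : ℂ, Integrable (fun x : ℂ × ℂ => a0 (x.1 - c) * F x) := fun c =>
    hi (fun z => a0 (z - c)) (cont_shift a0_cont c) (cs_shift a0_cs c)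
  have hANc : HasCompactSupport (AN N) := by
    apply HasCompactSupport.intro (isCompact_closedBall (0 : ℂ) (N * (PP + QQ)))
    intro z hz
    rw [mem_closedBall_zero_iff] at hz
    push Not at hz
    exact AN_zero (by omega) hz
  have hbig : Integrable (fun x : ℂ × ℂ => AN N (x.1 + pm L L) * F x) :=
    hi (fun z => AN N (z + pm L L)) (cont_shift' (AN_cont N) _) (cs_shift' hANc _)
  have h1 : |∫ x : ℂ × ℂ, χ x * MA kap (wf φ σ) x| ≤
      ∫ x : ℂ × ℂ, M * (AN N (x.1 + pm L L) * F x) := by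
    rw [← Real.norm_eq_abs]
    apply norm_integral_le_of_norm_le (hbig.const_mul M)
    refine Eventually.of_forall fun x => ?_
    by_cases hx : x ∈ tsupport χ
    · have hη1 : η x.2 = 1 := hV2 _ (hV1 ⟨x, hx, rfl⟩)
      have hxr : ‖x.1‖ ≤ r := hr _ ⟨x, hx, rfl⟩
      have hr0 : 0 ≤ r := (norm_nonneg _).trans hxr
      have hL1 : r / PP ≤ L := by
        have := abs_nonneg (r / PP)
        have := abs_nonneg (r / QQ)
        have : 0 ≤ r / QQ := by positivity
        linarith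
      have hL2 : r / QQ ≤ L := by
        have := abs_nonneg (r / PP)
        have := abs_nonneg (r / QQ)
        have : 0 ≤ r / PP := by positivity
        linarith
      rw [div_le_iff₀ hP] at hL1
      rw [div_le_iff₀ hQ] at hL2
      have hA1 : AN N (x.1 + pm L L) = 1 := by
        rw [hN]
        exact AN_one ((Complex.abs_re_le_norm _).trans (hxr.trans hL1))
          ((Complex.abs_im_le_norm _).trans (hxr.trans hL2))
      have hMA : 0 ≤ MA kap (wf φ σ) x := by
        have := hF0 x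
        rw [hF] at this
        simp only [hη1, one_mul] at this
        exact this
      rw [hA1, hF]
      simp only [hη1, one_mul]
      rw [norm_mul, Real.norm_of_nonneg hMA]
      exact mul_le_mul_of_nonneg_right (hM x) hMA
    · rw [image_eq_zero_of_notMem_tsupport hx, zero_mul, norm_zero]
      exact mul_nonneg hM0 (mul_nonneg (AN_nonneg _ _) (hF0 x))
  rw [integral_const_mul, int_shift' hper (AN N) L L, int_AN hper hshift N] at h1
  refine h1.trans ?_
  have e2 : ∫ x : ℂ × ℂ, a0 x.1 * (η x.2 * MA kap (wf φ σ) x) = ∫ x : ℂ × ℂ, a0 x.1 * F x := by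
    rw [hF]
  rw [e2] at hs
  calc M * ((N : ℝ) ^ 2 * ∫ x : ℂ × ℂ, a0 x.1 * F x)
      ≤ M * ((N : ℝ) ^ 2 * (ε / (M * N ^ 2 + 1))) := by gcongr
    _ ≤ ε := by
      rw [← mul_assoc, mul_div_assoc', div_le_iff₀ (by positivity)]
      nlinarith

end Pool.Agent.H907R2
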